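import Pool.Agent.K9h37.PP.Stm

/-! Project PP (helper37), leaf ASM (helper71): regularity. -/

set_option autoImplicit false

namespace Pool.Agent.K9h37.PP

open MvPolynomial

/-- Regularity at `P` depends only on the class modulo `P ^ 2`. -/
theorem reg_congr {R : Type} [CommRing R] {P : Ideal R} {m : ℕ} {F G : MvPolynomial (Fin m) R}
    {q : R} (hq : q ∈ P ^ 2) (h : F - G ∈ Ideal.span {(C q : MvPolynomial (Fin m) R)})
    (hG : IsRegularAt P G) : IsRegularAt P F := by
  intro s Q hQ hC hF g hg hmem
  obtain ⟨R', hR'⟩ := Ideal.mem_span_singleton'.1 h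
  have hCq : (C q : MvPolynomial {j : Fin m // j ≠ s} R) ∈ Q ^ 2 := by
    have h1 : P.map (C : R →+* MvPolynomial {j : Fin m // j ≠ s} R) ≤ Q :=
      Ideal.map_le_iff_le_comap.2 fun r hr => (hC r).2 hr
    have h2 : (P ^ 2).map (C : R →+* MvPolynomial {j : Fin m // j ≠ s} R) ≤ Q ^ 2 := by
      rw [Ideal.map_pow]
      exact Ideal.pow_right_mono h1 2
    exact h2 (Ideal.mem_map_of_mem _ hq)
  have e : dehom s G = dehom s F - dehom s R' * C q := by
    have e1 : G = F - R' * C q := by rw [hR']; ring
    rw [e1]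
    unfold dehom
    rw [map_sub, map_mul, ← algebraMap_eq, AlgHom.commutes]
    rfl
  have h3 : dehom s G ∈ Q := by
    rw [e]
    exact Ideal.sub_mem _ hF (Ideal.mul_mem_left _ _ (Ideal.pow_le_self two_ne_zero hCq))
  refine hG s Q hQ hC h3 g hg ?_
  rw [e, mul_sub]
  exact Ideal.sub_mem _ hmem (Ideal.mul_mem_left _ _ (Ideal.mul_mem_left _ _ hCq))

lemma pderiv_dehom {R : Type} [CommRing R] {m : ℕ} (s : Fin m) (i : {j : Fin m // j ≠ s})
    (H : MvPolynomial (Fin m) R) : pderiv i (dehom s H) = dehom s (pderiv i.1 H) := by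
  unfold dehom
  induction H using MvPolynomial.induction_on with
  | C a =>
    rw [← algebraMap_eq, AlgHom.commutes, algebraMap_eq, algebraMap_eq, pderiv_C, pderiv_C,
      map_zero]
  | add p q hp hq => rw [map_add, map_add, hp, hq, map_add, map_add]
  | mul_X p j hp =>
    rw [map_mul, aeval_X, Derivation.leibniz, hp, Derivation.leibniz, smul_eq_mul, smul_eq_mul,
      smul_eq_mul, smul_eq_mul, map_add, map_mul, map_mul, aeval_X]
    congr 2
    by_cases h : j = s
    · rw [dif_pos h, pderiv_X_of_ne (fun hh => i.2 (hh.symm.trans h)), map_zero]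
      exact Derivation.map_one_eq_zero _
    · rw [dif_neg h]
      by_cases h2 : j = i.1
      · have h3 : (⟨j, h⟩ : {j : Fin m // j ≠ s}) = i := Subtype.ext h2
        rw [h3, pderiv_X_self, h2, pderiv_X_self, map_one]
      · rw [pderiv_X_of_ne (fun hh => h2 (congrArg Subtype.val hh)), pderiv_X_of_ne h2, map_zero]

/-- A form without singular vectors modulo `P` is regular at `P`. -/
theorem reg_of_smooth {R : Type} [CommRing R] {P : Ideal R} {m d : ℕ}
    {F : MvPolynomial (Fin m) R} (hF : F.IsHomogeneous d)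
    (h : ∀ (k : Type) [Field k] (ψ : R →+* k) (x : Fin m → k), RingHom.ker ψ = P →
      Sing (map ψ F) x → x = 0) : IsRegularAt P F := by
  intro s Q hQ hC hFQ g hg hmem
  let A := MvPolynomial {j : Fin m // j ≠ s} R ⧸ Q
  have : IsDomain A := Ideal.Quotient.isDomain Q
  let k := FractionRing A
  let π : MvPolynomial {j : Fin m // j ≠ s} R →+* k :=
    (algebraMap A k).comp (Ideal.Quotient.mk Q)
  have hπ : ∀ y, π y = 0 ↔ y ∈ Q := by
    intro y
    show algebraMap A k (Ideal.Quotient.mk Q y) = 0 ↔ _
    rw [← Ideal.Quotient.eq_zero_iff_mem]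
    exact ⟨fun h => IsFractionRing.injective A k (by rw [h, map_zero]),
      fun h => by rw [h, map_zero]⟩
  let ψ : R →+* k := π.comp C
  have hker : RingHom.ker ψ = P := by
    ext r
    rw [RingHom.mem_ker, ← hC r, ← hπ]
    rfl
  let x : Fin m → k := fun j => if h : j = s then 1 else π (X ⟨j, h⟩)
  have hx : ∀ H : MvPolynomial (Fin m) R, eval x (map ψ H) = π (dehom s H) := by
    intro H
    unfold dehom
    induction H using MvPolynomial.induction_on with
    | C a =>
      rw [map_C, eval_C, ← algebraMap_eq, AlgHom.commutes]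
      rfl
    | add p q hp hq => rw [map_add, map_add, hp, hq, map_add, map_add]
    | mul_X p j hp =>
      rw [map_mul, map_mul, hp, map_mul, map_mul, map_X, eval_X, aeval_X]
      congr 1
      show (if h : j = s then 1 else π (X ⟨j, h⟩)) = _
      by_cases hj : j = s
      · rw [dif_pos hj, dif_pos hj, map_one]
      · rw [dif_neg hj, dif_neg hj]
  have hxs : x s = 1 := dif_pos rfl
  have hF0 : eval x (map ψ F) = 0 := by rw [hx, hπ]; exact hFQ
  have hex : ∃ i : {j : Fin m // j ≠ s}, dehom s (pderiv i.1 F) ∉ Q := by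
    by_contra hcon
    push Not at hcon
    have h1 : ∀ i, i ≠ s → eval x (map ψ (pderiv i F)) = 0 := fun i hi => by
      rw [hx, hπ]; exact hcon ⟨i, hi⟩
    have h2 : eval x (map ψ (pderiv s F)) = 0 := by
      have e := congrArg (fun H => eval x (map ψ H)) hF.sum_X_mul_pderiv
      simp only [map_sum, map_mul, map_X, eval_X, map_nsmul, hF0, smul_zero] at e
      rw [Finset.sum_eq_single s (fun i _ hi => by rw [h1 i hi, mul_zero])
        (fun hs => absurd (Finset.mem_univ s) hs), hxs, one_mul] at e
      exact e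
    have h3 : Sing (map ψ F) x := by
      refine ⟨hF0, fun i => ?_⟩
      rw [pderiv_map]
      by_cases hi : i = s
      · rw [hi]; exact h2
      · exact h1 i hi
    have h4 := h k ψ x hker h3
    have h5 := congrFun h4 s
    rw [hxs] at h5
    exact one_ne_zero h5
  obtain ⟨i, hi⟩ := hex
  rw [← pderiv_dehom] at hi
  have hder : ∀ y ∈ Q ^ 2, pderiv i y ∈ Q := by
    intro y hy
    rw [pow_two] at hy
    refine Submodule.mul_induction_on hy (fun a ha b hb => ?_) (fun a b ha hb => ?_)
    · rw [Derivation.leibniz, smul_eq_mul, smul_eq_mul]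
      exact Ideal.add_mem _ (Ideal.mul_mem_right _ _ ha) (Ideal.mul_mem_right _ _ hb)
    · rw [map_add]; exact Ideal.add_mem _ ha hb
  have h6 := hder _ hmem
  rw [Derivation.leibniz, smul_eq_mul, smul_eq_mul] at h6
  have h7 : g * pderiv i (dehom s F) ∈ Q :=
    (Ideal.add_mem_iff_left _ (Ideal.mul_mem_right _ _ hFQ)).1 h6
  rcases hQ.mem_or_mem h7 with h8 | h8
  · exact hg h8
  · exact hi h8

lemma map_form {R S : Type} [CommRing R] [CommRing S] {m d : ℕ} (ψ : R →+* S)
    (a : Mon m d → R) : map ψ (form a) = form (fun α => ψ (a α)) := by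
  unfold form
  rw [map_sum]
  simp only [map_monomial]

lemma form_hom {R : Type} [CommRing R] {m d : ℕ} (a : Mon m d → R) :
    (form a).IsHomogeneous d := by
  unfold form
  refine IsHomogeneous.sum _ _ _ fun α _ => isHomogeneous_monomial _ ?_
  have h := α.2
  rw [Finset.mem_finsuppAntidiag] at h
  rw [Finsupp.degree_eq_sum]
  simpa using h

lemma form_sub_mem {R : Type} [CommRing R] {m d : ℕ} {q : R} {a b : Mon m d → R}
    (h : ∀ α, q ∣ a α - b α) :
    form a - form b ∈ Ideal.span {(C q : MvPolynomial (Fin m) R)} := by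
  unfold form
  rw [← Finset.sum_sub_distrib]
  refine Ideal.sum_mem _ fun α _ => ?_
  obtain ⟨c, hc⟩ := h α
  have e : (monomial α.1 (a α) - monomial α.1 (b α) : MvPolynomial (Fin m) R) =
      C q * monomial α.1 c := by
    rw [C_mul_monomial, ← hc, map_sub]
  rw [e]
  exact Ideal.mul_mem_right _ _ (Ideal.mem_span_singleton_self _)

end Pool.Agent.K9h37.PP
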