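import Pool.Agent.K9h37.PP.Stm

/-! Project PP (helper37), leaf ASM (helper71): counting a residue class in a box. -/

set_option autoImplicit false

namespace Pool.Agent.K9h37.PP

/-- The number of integers `|x| ≤ B` in a residue class modulo `Q`. -/
lemma count_one (Q B : ℕ) (hQ : 0 < Q) (hB : Q ≤ B + 1) (r : ℤ) :
    (B : ℝ) / Q ≤ (((Finset.Icc (-(B : ℤ)) B).filter (fun x => (Q : ℤ) ∣ x - r)).card : ℝ) := by
  have e1 : (Finset.Icc (-(B : ℤ)) B).filter (fun x => (Q : ℤ) ∣ x - r) =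
      (Finset.Ioc (-(B : ℤ) - 1) B).filter (fun x => x ≡ r [ZMOD (Q : ℤ)]) := by
    ext x
    simp only [Finset.mem_filter, Finset.mem_Icc, Finset.mem_Ioc]
    rw [Int.modEq_iff_dvd, ← dvd_neg, neg_sub]
    constructor
    · rintro ⟨⟨h1, h2⟩, h3⟩
      exact ⟨⟨by omega, h2⟩, h3⟩
    · rintro ⟨⟨h1, h2⟩, h3⟩
      exact ⟨⟨by omega, h2⟩, h3⟩
  have hQ' : (0 : ℤ) < Q := by exact_mod_cast hQ
  have e2 := Int.Ioc_filter_modEq_card (-(B : ℤ) - 1) B hQ' r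
  rw [← e1] at e2
  set c := ((Finset.Icc (-(B : ℤ)) B).filter (fun x => (Q : ℤ) ∣ x - r)).card with hc
  have e3 : ⌊(((B : ℤ) : ℚ) - r) / ((Q : ℤ) : ℚ)⌋ -
      ⌊((((-(B : ℤ) - 1 : ℤ)) : ℚ) - r) / ((Q : ℤ) : ℚ)⌋ ≤ (c : ℤ) := by
    rw [e2]; exact le_max_left _ _
  have h1 := Int.lt_floor_add_one ((((B : ℤ) : ℚ) - r) / ((Q : ℤ) : ℚ))
  have h2 := Int.floor_le (((((-(B : ℤ) - 1 : ℤ)) : ℚ) - r) / ((Q : ℤ) : ℚ))
  have e4 : ((⌊(((B : ℤ) : ℚ) - r) / ((Q : ℤ) : ℚ)⌋ : ℤ) : ℚ) -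
      ((⌊((((-(B : ℤ) - 1 : ℤ)) : ℚ) - r) / ((Q : ℤ) : ℚ)⌋ : ℤ) : ℚ) ≤ (c : ℚ) := by
    exact_mod_cast e3
  have hQq : (0 : ℚ) < Q := by exact_mod_cast hQ
  have h3 : ((B : ℚ)) / Q ≤ c := by
    have h4 : (((B : ℤ) : ℚ) - r) / ((Q : ℤ) : ℚ) -
        ((((-(B : ℤ) - 1 : ℤ)) : ℚ) - r) / ((Q : ℤ) : ℚ) = (2 * B + 1) / Q := by
      push_cast
      field_simp
      ring
    have h5 : ((B : ℚ)) / Q ≤ (2 * B + 1) / Q - 1 := by
      rw [div_le_iff₀ hQq, sub_mul, div_mul_cancel₀ _ hQq.ne']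
      have : (Q : ℚ) ≤ B + 1 := by exact_mod_cast hB
      linarith
    linarith
  have h6 : (((B : ℚ) / Q : ℚ) : ℝ) ≤ ((c : ℚ) : ℝ) := by exact_mod_cast h3
  push_cast at h6
  exact h6

open Classical in
/-- The number of vectors in the box in a residue class modulo `Q`. -/
theorem count_class (V : Type) [Fintype V] [DecidableEq V] (Q B : ℕ) (hQ : 0 < Q)
    (hB : Q ≤ B + 1) (r : V → ℤ) :
    ((B : ℝ) / Q) ^ Fintype.card V ≤
      (((box V B).filter (fun a => ∀ v, (Q : ℤ) ∣ a v - r v)).card : ℝ) := by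
  have e1 : (box V B).filter (fun a => ∀ v, (Q : ℤ) ∣ a v - r v) =
      Fintype.piFinset (fun v => (Finset.Icc (-(B : ℤ)) B).filter
        (fun x => (Q : ℤ) ∣ x - r v)) := by
    ext a
    simp only [box, Finset.mem_filter, Fintype.mem_piFinset]
    exact ⟨fun h v => ⟨h.1 v, h.2 v⟩, fun h => ⟨fun v => (h v).1, fun v => (h v).2⟩⟩
  rw [e1, Fintype.card_piFinset, Nat.cast_prod, ← Finset.card_univ, ← Finset.prod_const]
  refine Finset.prod_le_prod (fun v _ => by positivity) fun v _ => ?_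
  exact count_one Q B hQ hB (r v)

end Pool.Agent.K9h37.PP
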