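import Pool.Agent.K9h37.PP.Asm1
import Pool.Agent.K9h37.PP.Asm2
import Pool.Agent.K9h37.PP.Asm3

/-! Project PP (helper37), leaf ASM (helper71): the assembly. -/

set_option autoImplicit false

namespace Pool.Agent.K9h37.PP

open MvPolynomial

/-- The nonzero prime ideals of `ℤ`. -/
lemma prime_ideal {P : Ideal ℤ} (hP : P.IsPrime) (hP0 : P ≠ ⊥) :
    ∃ p : ℕ, p.Prime ∧ P = Ideal.span {(p : ℤ)} := by
  refine ⟨(Submodule.IsPrincipal.generator P).natAbs, ?_, ?_⟩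
  · exact Int.prime_iff_natAbs_prime.1 (Submodule.IsPrincipal.prime_generator_of_isPrime P hP0)
  · rw [Int.span_natAbs, Ideal.span_singleton_generator]

/-- A form congruent to the regular form modulo `Q = (M!)²`, not hit by a prime above `M`. -/
lemma good_of {m d : ℕ} (hm : 2 ≤ m) (hd : 2 ≤ d) (hhens : HENSEL) {a₀ : Mon m d → ℤ}
    (hreg : ∀ P : Ideal ℤ, P.IsPrime → P ≠ ⊥ → IsRegularAt P (form a₀))
    {s : Set (Pair (Mon m d))} {M M₁ p₀ : ℕ} (h1 : M₁ ≤ M) (h2 : 2 ≤ M) (h3 : p₀ ≤ M)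
    (hp₀ : p₀.Prime)
    (hcod : ∀ p : ℕ, p.Prime → M₁ < p → ∀ (k : Type) [Field k] [CharP k p] (a : Mon m d → ℤ),
      Bad (form (fun α => (a α : k))) → ∃ P ∈ s, Hit P p a)
    (hsmooth : ∀ (d' : ℕ) (G : MvPolynomial (Fin m) ℤ), G.IsHomogeneous d' →
      G - form a₀ ∈ Ideal.span {(C (p₀ : ℤ) : MvPolynomial (Fin m) ℤ)} →
      ∀ (K : Type) [Field K] (φ : ℤ →+* K), Function.Injective φ → IsSmooth (map φ G))
    (a : Mon m d → ℤ) (ha : ∀ v, (((M.factorial ^ 2 : ℕ) : ℤ)) ∣ a v - a₀ v)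
    (hno : ¬ ∃ p : ℕ, p.Prime ∧ M < p ∧ ∃ P ∈ s, Hit P p a) : Good d (form a) := by
  have hsm : ∀ (K : Type) [Field K] (φ : ℤ →+* K), Function.Injective φ →
      IsSmooth (map φ (form a)) := by
    refine hsmooth d (form a) (form_hom a) (form_sub_mem fun α => ?_)
    refine dvd_trans (Int.natCast_dvd_natCast.2 ?_) (ha α)
    exact dvd_pow (hp₀.dvd_factorial.2 h3) two_ne_zero
  refine ⟨hsm ℚ _ (Int.castRingHom ℚ).injective_int, fun P hP hP0 => ?_⟩
  obtain ⟨p, hp, rfl⟩ := prime_ideal hP hP0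
  by_cases hpM : p ≤ M
  · left
    have hq : (((M.factorial ^ 2 : ℕ) : ℤ)) ∈ Ideal.span {(p : ℤ)} ^ 2 := by
      rw [Nat.cast_pow]
      refine Ideal.pow_mem_pow (Ideal.mem_span_singleton.2 ?_) 2
      exact Int.natCast_dvd_natCast.2 (hp.dvd_factorial.2 hpM)
    exact reg_congr hq (form_sub_mem ha) (hreg _ hP hP0)
  · push Not at hpM
    have hnb : ∀ (k : Type) [Field k] (ψ : ℤ →+* k), RingHom.ker ψ = Ideal.span {(p : ℤ)} →
        ¬ Bad (map ψ (form a)) := by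
      intro k _ ψ hψ hbad
      have hch : CharP k p := ⟨fun x => by
        rw [← Int.natCast_dvd_natCast, ← Ideal.mem_span_singleton, ← hψ, RingHom.mem_ker,
          map_natCast]⟩
      refine hno ⟨p, hp, hpM, hcod p hp (by omega) k a ?_⟩
      have e : (fun α => ψ (a α)) = fun α => ((a α : ℤ) : k) := by
        funext α
        exact eq_intCast ψ _
      rw [map_form, e] at hbad
      exact hbad
    by_cases h : ∀ (k : Type) [Field k] (ψ : ℤ →+* k) (x : Fin m → k),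
        RingHom.ker ψ = Ideal.span {(p : ℤ)} → Sing (map ψ (form a)) x → x = 0
    · left
      exact reg_of_smooth (form_hom a) h
    · right
      push Not at h
      obtain ⟨k, hk, ψ, x, hψ, hx, hx0⟩ := h
      refine ⟨?_, ?_⟩
      · intro h4
        rw [Ideal.mem_span_singleton] at h4
        have h5 : p ∣ 2 := Int.natCast_dvd_natCast.1 (by exact_mod_cast h4)
        have := Nat.le_of_dvd (by norm_num) h5
        omega
      · have hfin : Finite (ℤ ⧸ Ideal.span {(p : ℤ)}) := by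
          have : NeZero p := ⟨hp.ne_zero⟩
          exact Finite.of_equiv (ZMod p) (Int.quotientSpanNatEquivZMod p).symm.toEquiv
        exact hhens ℤ (Ideal.span {(p : ℤ)}) hP0 hfin m d hm hd (form a) (form_hom a)
          (hsm (FractionRing ℤ) _ (IsFractionRing.injective ℤ (FractionRing ℤ)))
          ⟨hnb, k, hk, ψ, x, hψ, hx0, hx⟩

open Classical in
/-- The counting part. -/
lemma prop_of {V : Type} [Fintype V] [DecidableEq V] {Good' Hits : (V → ℤ) → Prop} (C₀ : ℝ)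
    (M Q : ℕ) (hM : 0 < M) (hMC : 2 * C₀ ≤ M) (hQ0 : 0 < Q) (a₀ : V → ℤ)
    (hgood : ∀ a : V → ℤ, (∀ v, (Q : ℤ) ∣ a v - a₀ v) → ¬ Hits a → Good' a)
    (hsv : ∀ᶠ B : ℕ in Filter.atTop,
      (((box V B).filter (fun a => (∀ v, (Q : ℤ) ∣ a v - a₀ v) ∧ Hits a)).card : ℝ) ≤
        C₀ / M * ((B : ℝ) / Q) ^ Fintype.card V) :
    ∃ δ : ℝ, 0 < δ ∧ ∀ᶠ B : ℕ in Filter.atTop, δ * (2 * (B : ℝ) + 1) ^ Fintype.card V ≤
      (((box V B).filter (fun a => Good' a)).card : ℝ) := by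
  have hMpos : (0 : ℝ) < M := by exact_mod_cast hM
  have hQpos : (0 : ℝ) < Q := by exact_mod_cast hQ0
  refine ⟨1 / 2 * (1 / (3 * Q)) ^ Fintype.card V, by positivity, ?_⟩
  filter_upwards [hsv, Filter.eventually_ge_atTop (Q + 1)] with B hB hBQ
  have hcl := count_class V Q B hQ0 (by omega) a₀
  have hCM : C₀ / M ≤ 1 / 2 := by
    rw [div_le_iff₀ hMpos]; linarith
  have hpw : (0 : ℝ) ≤ ((B : ℝ) / Q) ^ Fintype.card V := by positivity
  have hsub : ((box V B).filter (fun a => ∀ v, (Q : ℤ) ∣ a v - a₀ v)) \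
      ((box V B).filter (fun a => (∀ v, (Q : ℤ) ∣ a v - a₀ v) ∧ Hits a)) ⊆
      (box V B).filter (fun a => Good' a) := by
    intro a ha
    rw [Finset.mem_sdiff, Finset.mem_filter, Finset.mem_filter] at ha
    rw [Finset.mem_filter]
    exact ⟨ha.1.1, hgood a ha.1.2 fun h => ha.2 ⟨ha.1.1, ha.1.2, h⟩⟩
  have hc1 := Finset.card_le_card hsub
  have hc2 := Finset.card_le_card_sdiff_add_card
    (t := (box V B).filter (fun a => (∀ v, (Q : ℤ) ∣ a v - a₀ v) ∧ Hits a))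
    (s := (box V B).filter (fun a => ∀ v, (Q : ℤ) ∣ a v - a₀ v))
  have hc3 : (((box V B).filter (fun a => ∀ v, (Q : ℤ) ∣ a v - a₀ v)).card : ℝ) ≤
      (((box V B).filter (fun a => Good' a)).card : ℝ) +
      (((box V B).filter (fun a => (∀ v, (Q : ℤ) ∣ a v - a₀ v) ∧ Hits a)).card : ℝ) := by
    exact_mod_cast hc2.trans (Nat.add_le_add_right hc1 _)
  have hlow : 1 / 2 * (1 / (3 * (Q : ℝ))) ^ Fintype.card V *
      (2 * (B : ℝ) + 1) ^ Fintype.card V ≤ 1 / 2 * ((B : ℝ) / Q) ^ Fintype.card V := by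
    rw [mul_assoc, ← mul_pow]
    refine mul_le_mul_of_nonneg_left (pow_le_pow_left₀ (by positivity) ?_ _) (by norm_num)
    have hB1 : (1 : ℝ) ≤ B := by
      have : 1 ≤ B := by omega
      exact_mod_cast this
    rw [div_mul_eq_mul_div, one_mul, div_le_div_iff₀ (by positivity) hQpos]
    nlinarith
  have hCB : C₀ / M * ((B : ℝ) / Q) ^ Fintype.card V ≤
      1 / 2 * ((B : ℝ) / Q) ^ Fintype.card V := mul_le_mul_of_nonneg_right hCM hpw
  linarith

/-- ASM: the assembly. -/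
theorem asm : ASM := by
  intro hcod hsieve hhens hbase m d hm hd
  obtain ⟨a₀, hsm, hreg⟩ := hbase m d hm hd
  obtain ⟨s, M₁, hs, hcod⟩ := hcod m d (by omega) hd
  obtain ⟨C₀, M₀, hM₀, hsv⟩ := hsieve (Mon m d) s hs
  have hsm' : IsSmooth (map (algebraMap ℤ ℚ) (form a₀)) := by
    rw [map_form]; exact hsm
  obtain ⟨p₀, hp₀, hsmooth⟩ := exists_prime (form a₀) hsm'
  obtain ⟨M, hM0, hM1, hM2, hMp, hMC⟩ : ∃ M : ℕ, M₀ ≤ M ∧ M₁ ≤ M ∧ 2 ≤ M ∧ p₀ ≤ M ∧
      2 * C₀ ≤ M := by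
    refine ⟨M₀ + M₁ + 2 + p₀ + ⌈2 * C₀⌉₊, by omega, by omega, by omega, by omega, ?_⟩
    have h := Nat.le_ceil (2 * C₀)
    push_cast
    have h1 : (0 : ℝ) ≤ M₀ := Nat.cast_nonneg _
    have h2 : (0 : ℝ) ≤ M₁ := Nat.cast_nonneg _
    have h3 : (0 : ℝ) ≤ p₀ := Nat.cast_nonneg _
    linarith
  obtain ⟨Q, hQ⟩ : ∃ Q : ℕ, Q = M.factorial ^ 2 := ⟨_, rfl⟩
  have hQ0 : 0 < Q := by rw [hQ]; exact pow_pos (Nat.factorial_pos _) 2
  have hQp : ∀ p : ℕ, p.Prime → p ∣ Q → p ≤ M := fun p hp h => by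
    rw [hQ] at h
    exact (hp.dvd_factorial).1 (hp.dvd_of_dvd_pow h)
  refine prop_of C₀ M Q (by omega) hMC hQ0 a₀ (fun a ha hno => ?_) (hsv M hM0 Q hQ0 hQp a₀)
  rw [hQ] at ha
  exact good_of (by omega) (by omega) hhens hreg hM1 hM2 hMp hp₀ hcod hsmooth a ha hno

end Pool.Agent.K9h37.PP
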