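import Pool.Agent.K9h37.PP.Stm

/-! Project PP (helper37), leaf ASM (helper71): smoothness over fields of characteristic zero from
smoothness modulo one prime number (Nakayama). -/

set_option autoImplicit false

namespace Pool.Agent.K9h37.PP

open MvPolynomial

attribute [local instance] MvPolynomial.gradedAlgebra MvPolynomial.algebraMvPolynomial

/-- The ideal of the partial derivatives. -/
noncomputable def JG {R : Type} [CommRing R] {m : ℕ} (G : MvPolynomial (Fin m) R) :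
    Ideal (MvPolynomial (Fin m) R) := Ideal.span (Set.range fun j => pderiv j G)

lemma JG_hom {R : Type} [CommRing R] {m d : ℕ} {G : MvPolynomial (Fin m) R}
    (hG : G.IsHomogeneous d) : (JG G).IsHomogeneous (homogeneousSubmodule (Fin m) R) := by
  refine Ideal.homogeneous_span _ _ ?_
  rintro x ⟨j, rfl⟩
  exact ⟨d - 1, hG.pderiv⟩

lemma degree_mem {m n : ℕ} (α : Fin m →₀ ℕ) :
    α ∈ (Finset.univ : Finset (Fin m)).finsuppAntidiag n ↔ α.degree = n := by
  rw [Finset.mem_finsuppAntidiag, Finsupp.degree_eq_sum]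
  simp

/-- Nakayama's lemma for the monomials of degree `n`. -/
lemma nak {m d : ℕ} {G : MvPolynomial (Fin m) ℤ} (hG : G.IsHomogeneous d) (p : ℤ) (n : ℕ)
    (h : idealOfVars (Fin m) ℤ ^ n ≤ JG G ⊔ Ideal.span {C p}) :
    ∃ r : ℤ, p ∣ r - 1 ∧ ∀ α : Fin m →₀ ℕ, α.degree = n → C r * monomial α 1 ∈ JG G := by
  set f : MvPolynomial (Fin m) ℤ →ₗ[ℤ] (MvPolynomial (Fin m) ℤ ⧸ JG G) :=
    ((Ideal.Quotient.mk (JG G)).toAddMonoidHom).toIntLinearMap with hf
  have hfa : ∀ x, f x = Ideal.Quotient.mk (JG G) x := fun x => rfl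
  set S : Set (MvPolynomial (Fin m) ℤ ⧸ JG G) :=
    (fun α : Fin m →₀ ℕ => f (monomial α 1)) ''
      ((Finset.univ : Finset (Fin m)).finsuppAntidiag n : Set (Fin m →₀ ℕ)) with hS
  have hSf : S.Finite := ((Finset.finite_toSet _).image _)
  set N : Submodule ℤ (MvPolynomial (Fin m) ℤ ⧸ JG G) := Submodule.span ℤ S with hN
  have hfg : N.FG := Submodule.fg_span hSf
  have hcomp : ∀ R' : MvPolynomial (Fin m) ℤ, f (homogeneousComponent n R') ∈ N := by
    intro R'
    rw [homogeneousComponent_apply, map_sum]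
    refine Submodule.sum_mem _ fun α hα => ?_
    rw [Finset.mem_filter] at hα
    have e : monomial α (coeff α R') = (coeff α R') • (monomial α (1 : ℤ)) := by
      rw [smul_monomial, smul_eq_mul, mul_one]
    rw [e, map_smul]
    refine Submodule.smul_mem _ _ (Submodule.subset_span ⟨α, ?_, rfl⟩)
    rw [Finset.mem_coe, degree_mem]
    exact hα.2
  have hle : N ≤ Ideal.span {p} • N := by
    rw [hN, Submodule.span_le]
    rintro _ ⟨α, hα, rfl⟩
    rw [Finset.mem_coe, degree_mem] at hα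
    have h1 : monomial α (1 : ℤ) ∈ idealOfVars (Fin m) ℤ ^ n :=
      (monomial_mem_pow_idealOfVars_iff n α one_ne_zero).2 hα.ge
    obtain ⟨j, hj, y, hy, hjy⟩ := Submodule.mem_sup.1 (h h1)
    obtain ⟨R', rfl⟩ := Ideal.mem_span_singleton'.1 hy
    have h2 := congrArg (homogeneousComponent n) hjy
    rw [homogeneousComponent_eq_self (isHomogeneous_monomial 1 hα), map_add, mul_comm R' (C p),
      homogeneousComponent_C_mul] at h2
    have h3 : f (homogeneousComponent n j) = 0 := by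
      rw [hfa, Ideal.Quotient.eq_zero_iff_mem]
      exact homogeneousComponent_mem_of_mem (JG_hom hG) hj n
    have h4 : f (monomial α 1) = p • f (homogeneousComponent n R') := by
      rw [← h2, map_add, h3, zero_add, ← map_smul, smul_eq_C_mul]
    show f (monomial α 1) ∈ _
    rw [h4]
    exact Submodule.smul_mem_smul (Ideal.mem_span_singleton_self p) (hcomp R')
  obtain ⟨r, hr1, hr2⟩ :=
    Submodule.exists_sub_one_mem_and_smul_eq_zero_of_fg_of_le_smul (Ideal.span {p}) N hfg hle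
  refine ⟨r, Ideal.mem_span_singleton.1 hr1, fun α hα => ?_⟩
  have h5 := hr2 (f (monomial α 1)) (Submodule.subset_span
    ⟨α, by rw [Finset.mem_coe, degree_mem]; exact hα, rfl⟩)
  rw [← map_smul, smul_eq_C_mul, hfa, Ideal.Quotient.eq_zero_iff_mem] at h5
  exact h5

lemma JG_map {R S : Type} [CommRing R] [CommRing S] {m : ℕ} (φ : R →+* S)
    (G : MvPolynomial (Fin m) R) : (JG G).map (map φ) = JG (map φ G) := by
  unfold JG
  rw [Ideal.map_span]
  congr 1
  ext x
  simp only [Set.mem_image, Set.mem_range, exists_exists_eq_and, pderiv_map]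

/-- Smooth modulo `p`, then smooth in characteristic zero. -/
theorem smooth_zero {m d : ℕ} {G : MvPolynomial (Fin m) ℤ} (hG : G.IsHomogeneous d) (p : ℕ)
    (hp : p.Prime) (n : ℕ) (h : idealOfVars (Fin m) ℤ ^ n ≤ JG G ⊔ Ideal.span {C (p : ℤ)})
    {K : Type} [Field K] (φ : ℤ →+* K) (hφ : Function.Injective φ) : IsSmooth (map φ G) := by
  obtain ⟨r, hr, h1⟩ := nak hG p n h
  have hr0 : r ≠ 0 := by
    rintro rfl
    have h2 : (p : ℤ) ∣ 1 := by simpa using hr
    have := Int.natCast_dvd_natCast.1 (show ((p : ℕ) : ℤ) ∣ ((1 : ℕ) : ℤ) by simpa using h2)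
    exact hp.one_lt.ne' (Nat.dvd_one.1 this)
  intro i
  refine ⟨n, ?_⟩
  have h2 := h1 (Finsupp.single i n) (by simp)
  have h3 := Ideal.mem_map_of_mem (map φ) h2
  rw [JG_map, map_mul, map_C, map_monomial, map_one] at h3
  have h4 : φ r ≠ 0 := fun h => hr0 (hφ (by rw [h, map_zero]))
  have h5 := Ideal.mul_mem_left _ (C (φ r)⁻¹) h3
  rw [← mul_assoc, ← C_mul, inv_mul_cancel₀ h4, C_1, one_mul, ← X_pow_eq_monomial] at h5
  exact h5

/-- Smooth over `ℚ`: a multiple of a power of each variable is in the ideal over `ℤ`. -/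
lemma clear {m : ℕ} {G : MvPolynomial (Fin m) ℤ} (hG : IsSmooth (map (algebraMap ℤ ℚ) G)) :
    ∃ D : ℤ, D ≠ 0 ∧ ∀ i : Fin m, ∃ E : ℕ, C D * X i ^ E ∈ JG G := by
  have h1 : ∀ i : Fin m, ∃ D : ℤ, D ≠ 0 ∧ ∃ E : ℕ, C D * X i ^ E ∈ JG G := by
    intro i
    obtain ⟨E, hE⟩ := hG i
    have h2 : (X i ^ E : MvPolynomial (Fin m) ℚ) ∈
        Ideal.map (algebraMap (MvPolynomial (Fin m) ℤ) (MvPolynomial (Fin m) ℚ)) (JG G) := by
      have e : algebraMap (MvPolynomial (Fin m) ℤ) (MvPolynomial (Fin m) ℚ) =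
          map (algebraMap ℤ ℚ) := rfl
      rw [e, JG_map]
      exact hE
    rw [IsLocalization.mem_map_algebraMap_iff
      ((nonZeroDivisors ℤ).map (C (σ := Fin m))) (MvPolynomial (Fin m) ℚ)] at h2
    obtain ⟨⟨⟨j, hj⟩, ⟨y, D, hD, hDy⟩⟩, h3⟩ := h2
    refine ⟨D, nonZeroDivisors.ne_zero hD, E, ?_⟩
    have h4 : algebraMap (MvPolynomial (Fin m) ℤ) (MvPolynomial (Fin m) ℚ) (C D * X i ^ E) =
        algebraMap (MvPolynomial (Fin m) ℤ) (MvPolynomial (Fin m) ℚ) j := by
      rw [← h3]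
      have e2 : y = C D := hDy.symm
      show _ = _ * algebraMap (MvPolynomial (Fin m) ℤ) (MvPolynomial (Fin m) ℚ) y
      rw [e2, map_mul, map_pow]
      have e3 : algebraMap (MvPolynomial (Fin m) ℤ) (MvPolynomial (Fin m) ℚ) (X i) = X i := by
        rw [algebraMap_def, map_X]
      rw [e3, mul_comm]
    have h5 : Function.Injective
        (algebraMap (MvPolynomial (Fin m) ℤ) (MvPolynomial (Fin m) ℚ)) :=
      map_injective _ (algebraMap ℤ ℚ).injective_int
    rw [h5 h4]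
    exact hj
  choose D hD E hE using h1
  refine ⟨∏ i, D i, Finset.prod_ne_zero_iff.2 fun i _ => hD i, fun i => ⟨E i, ?_⟩⟩
  rw [← Finset.prod_erase_mul _ _ (Finset.mem_univ i), C_mul, mul_assoc]
  exact Ideal.mul_mem_left _ _ (hE i)

/-- There is a prime number such that all forms congruent to the smooth form `G₀` are smooth. -/
theorem exists_prime {m : ℕ} (G₀ : MvPolynomial (Fin m) ℤ)
    (hG₀ : IsSmooth (map (algebraMap ℤ ℚ) G₀)) : ∃ p₀ : ℕ, p₀.Prime ∧
    ∀ (d : ℕ) (G : MvPolynomial (Fin m) ℤ), G.IsHomogeneous d →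
      G - G₀ ∈ Ideal.span {(C (p₀ : ℤ) : MvPolynomial (Fin m) ℤ)} →
      ∀ (K : Type) [Field K] (φ : ℤ →+* K), Function.Injective φ → IsSmooth (map φ G) := by
  obtain ⟨D, hD, hE⟩ := clear hG₀
  obtain ⟨p₀, hp1, hp⟩ := Nat.exists_infinite_primes (D.natAbs + 1)
  refine ⟨p₀, hp, fun d G hG hGG K _ φ hφ => ?_⟩
  have hcop : IsCoprime (D : ℤ) (p₀ : ℤ) := by
    rw [Int.isCoprime_iff_gcd_eq_one, Int.gcd_comm, Int.gcd_eq_natAbs, Int.natAbs_natCast]
    refine (Nat.Prime.coprime_iff_not_dvd hp).2 fun h => ?_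
    have := Nat.le_of_dvd (Int.natAbs_pos.2 hD) h
    omega
  obtain ⟨u, v, huv⟩ := hcop
  set I : Ideal (MvPolynomial (Fin m) ℤ) := JG G ⊔ Ideal.span {C (p₀ : ℤ)} with hI
  have hle : JG G₀ ≤ I := by
    unfold JG
    rw [Ideal.span_le]
    rintro _ ⟨j, rfl⟩
    obtain ⟨R', hR'⟩ := Ideal.mem_span_singleton'.1 hGG
    have e : pderiv j G₀ = pderiv j G - C (p₀ : ℤ) * pderiv j R' := by
      have e1 : G₀ = G - C (p₀ : ℤ) * R' := by rw [mul_comm, hR']; ring
      rw [e1, map_sub, pderiv_C_mul]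
    show pderiv j G₀ ∈ I
    rw [e]
    refine Ideal.sub_mem _ (Ideal.mem_sup_left (Ideal.subset_span ⟨j, rfl⟩))
      (Ideal.mem_sup_right (Ideal.mul_mem_right _ _ (Ideal.mem_span_singleton_self _)))
  have hX : idealOfVars (Fin m) ℤ ≤ I.radical := by
    rw [idealOfVars, Ideal.span_le]
    rintro _ ⟨i, rfl⟩
    obtain ⟨E, hE⟩ := hE i
    refine ⟨E, ?_⟩
    have e : (X i ^ E : MvPolynomial (Fin m) ℤ) =
        C u * (C D * X i ^ E) + (C v * X i ^ E) * C (p₀ : ℤ) := by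
      have e1 : (1 : MvPolynomial (Fin m) ℤ) = C u * C D + C v * C (p₀ : ℤ) := by
        rw [← C_mul, ← C_mul, ← C_add, huv, C_1]
      calc (X i ^ E : MvPolynomial (Fin m) ℤ) = 1 * X i ^ E := (one_mul _).symm
        _ = _ := by rw [e1]; ring
    rw [e]
    exact Ideal.add_mem _ (Ideal.mul_mem_left _ _ (hle hE))
      (Ideal.mul_mem_left _ _ (Ideal.mem_sup_right (Ideal.mem_span_singleton_self _)))
  obtain ⟨n, hn⟩ := Ideal.exists_pow_le_of_le_radical_of_fg hX (idealOfVars_fg (Fin m) ℤ)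
  exact smooth_zero hG p₀ hp n hn φ hφ

end Pool.Agent.K9h37.PP
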