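import Pool.Agent.K9h37.PP.Stm
import Pool.Agent.TH214.RM.Base

/-! Leaf BASE of project PP (helper37, MP_602153_ag), by helper66: the towers over `b X ^ d` of the
starting library `TH214/RM`, over the integers. -/

set_option autoImplicit false

namespace Pool.Agent.K9h37.PP

open MvPolynomial Pool.Agent.TH214.RM Pool.Agent.H918R2.Quad

namespace Bs

lemma int_notMem_sq (n : ℕ) (hn : Squarefree n) (P : Ideal ℤ) (hp : P.IsPrime) :
    (n : ℤ) ∉ P ^ 2 := by
  intro h1
  obtain ⟨a, ha⟩ := (IsPrincipalIdealRing.principal P).principal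
  have ha' : P = Ideal.span {a} := ha
  rw [ha', Ideal.span_singleton_pow, Ideal.mem_span_singleton, pow_two] at h1
  have h2 : Squarefree (n : ℤ) := Int.squarefree_natCast.2 hn
  have h3 := h2 a h1
  exact hp.ne_top (by rw [ha']; exact Ideal.span_singleton_eq_top.2 h3)

lemma int_add_pow_notMem (n : ℕ) (hn : Squarefree n) (P : Ideal ℤ) (hp : P.IsPrime)
    (p : ℕ) (hp' : p.Prime) (hpn : p ∣ n) (hpP : (p : ℤ) ∈ P) (e : ℤ) :
    (n : ℤ) + e ^ p ∉ P ^ 2 := by
  intro h
  have hnp : (n : ℤ) ∈ P := by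
    obtain ⟨m, rfl⟩ := hpn
    rw [Nat.cast_mul]
    exact P.mul_mem_right _ hpP
  have h1 : e ^ p ∈ P := by
    have h2 := P.sub_mem (Ideal.pow_le_self (by norm_num) h) hnp
    rwa [add_sub_cancel_left] at h2
  have h2 : e ∈ P := hp.mem_of_pow_mem _ h1
  have h3 : e ^ p ∈ P ^ 2 := Ideal.pow_le_pow_right hp'.two_le (Ideal.pow_mem_pow h2 p)
  have h4 := (P ^ 2).sub_mem h h3
  rw [add_sub_cancel_right] at h4
  exact int_notMem_sq n hn P hp h4

/-- The product of the prime divisors of `n`. -/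
lemma exists_rad (n : ℕ) : ∃ b : ℕ, b ≠ 0 ∧ Squarefree b ∧ ∀ p : ℕ, p.Prime → p ∣ n → n ≠ 0 → p ∣ b := by
  refine ⟨∏ p ∈ n.primeFactors, p, ?_, ?_, ?_⟩
  · exact Finset.prod_ne_zero_iff.mpr fun p hp => (Nat.prime_of_mem_primeFactors hp).ne_zero
  · refine Finset.squarefree_prod_of_pairwise_isCoprime ?_ ?_
    · intro p hp q hq hpq
      have h := (Nat.coprime_primes (Nat.prime_of_mem_primeFactors hp)
        (Nat.prime_of_mem_primeFactors hq)).mpr hpq
      exact Nat.coprime_iff_isRelPrime.mp h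
    · intro p hp
      exact (Nat.prime_of_mem_primeFactors hp).squarefree
  · intro p hp hpn hn
    exact Finset.dvd_prod_of_mem _ (Nat.mem_primeFactors.mpr ⟨hp, hpn, hn⟩)

lemma homog_towr {O : Type} [CommRing O] (d : ℕ) (hd : 3 ≤ d) {r : ℕ}
    (F : MvPolynomial (Fin (r + 1)) O) (hF : F.IsHomogeneous d) (k : ℕ) :
    (towr d F k).IsHomogeneous d := by
  induction k with
  | zero => exact isHomogeneous_up d (by omega) F hF
  | succ k ih => exact isHomogeneous_up d (by omega) _ ih

lemma form_coeff {R : Type} [CommRing R] {m d : ℕ} (H : MvPolynomial (Fin m) R)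
    (hH : H.IsHomogeneous d) : form (fun α : Mon m d => H.coeff α.1) = H := by
  classical
  unfold form
  have h1 : ∑ α : Mon m d, monomial α.1 (H.coeff α.1) =
      ∑ α ∈ (Finset.univ : Finset (Fin m)).finsuppAntidiag d, monomial α (H.coeff α) :=
    Finset.sum_coe_sort ((Finset.univ : Finset (Fin m)).finsuppAntidiag d)
      (fun α => monomial α (H.coeff α))
  rw [h1]
  refine Eq.trans (Eq.symm (Finset.sum_subset ?_ ?_)) H.as_sum.symm
  · intro α hα
    rw [Finset.mem_finsuppAntidiag]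
    refine ⟨?_, Finset.subset_univ _⟩
    have h2 := hH (mem_support_iff.mp hα)
    rw [← h2]
    rw [Finsupp.weight_apply, Finsupp.sum_fintype _ _ (by simp)]
    simp
  · intro α _ hα
    rw [notMem_support_iff.mp hα, monomial_zero]

lemma form_map {R S : Type} [CommRing R] [CommRing S] (φ : R →+* S) {m d : ℕ} (a : Mon m d → R) :
    map φ (form a) = form (fun α => φ (a α)) := by
  unfold form
  rw [map_sum]
  refine Finset.sum_congr rfl fun α _ => ?_
  rw [map_monomial]

end Bs

theorem base : BASE := by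
  intro m d hm hd
  obtain ⟨k, rfl⟩ : ∃ k, m = 0 + k + 2 := ⟨m - 2, by omega⟩
  obtain ⟨b, hb0, hbs, hbp⟩ := Bs.exists_rad (d - 1)
  let F : MvPolynomial (Fin (0 + 1)) ℤ := C (b : ℤ) * X 0 ^ d
  have hF : F.IsHomogeneous d := isHomogeneous_zero d (b : ℤ)
  have hH := Bs.homog_towr d hd F hF k
  have hform := Bs.form_coeff (towr d F k) hH
  refine ⟨fun α => (towr d F k).coeff α.1, ?_, ?_⟩
  · have h1 : form (fun α : Mon (0 + k + 2) d => (((towr d F k).coeff α.1 : ℤ) : ℚ)) =
        towr d (map (Int.castRingHom ℚ) F) k := by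
      rw [← map_towr, ← hform, Bs.form_map, hform]
      rfl
    rw [h1]
    have h2 : map (Int.castRingHom ℚ) F = C (b : ℚ) * X 0 ^ d := by
      rw [map_mul, map_C, map_pow, map_X]
      simp
    have h3 : Smooth (map (Int.castRingHom ℚ) F) := by
      rw [h2]
      exact smooth_zero d (by omega) _ (by exact_mod_cast hb0)
    exact smooth_towr d hd _ (smooth_susp d hd _ (hF.map _) h3 (sec_zero _)) k
  · intro P hP hP0
    rw [hform]
    have hmax : P.IsMaximal := Ideal.IsPrime.isMaximal hP hP0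
    have hfin : Finite (ℤ ⧸ P) := Ideal.finiteQuotientOfFreeOfNeBot P hP0
    have h1 : Reg P F := reg_zero P hmax d (b : ℤ) (Bs.int_notMem_sq b hbs P hP)
    have h2 : Wild P d F := wild_zero P hfin d (b : ℤ) (by
      intro p hp hpd hpP c
      exact Bs.int_add_pow_notMem b hbs P hP p hp (hbp p hp hpd (by omega)) hpP c)
    have h3 : Crit P (up d F) := crit_susp P d hd F hF (sec_zero _) h1.crit h2
    exact ((crit_towr P d hd F hF h3 k).2).reg

end Pool.Agent.K9h37.PP
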