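import Pool.Agent.K9h37.PP.CodB
import Mathlib.RingTheory.MvPolynomial.EulerIdentity

/-! CODIM, part C: normalisation of the bad pairs, and the theorem `codim : CODIM` (helper96). -/

set_option autoImplicit false

namespace Pool.Agent.K9h37.PP

open MvPolynomial

section coefficients

variable {k : Type} [CommRing k] {m : ℕ}

theorem eval_vertex {n : ℕ} {H : MvPolynomial (Fin m) k} (hH : H.IsHomogeneous n) (i : Fin m) :
    eval (Pi.single i 1) H = H.coeff (Finsupp.single i n) := by
  classical
  rw [eval_eq', Finset.sum_eq_single (Finsupp.single i n)]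
  · rw [Finset.prod_eq_one, mul_one]
    intro j _
    by_cases h : j = i
    · rw [h, Pi.single_eq_same, one_pow]
    · rw [Finsupp.single_eq_of_ne h, pow_zero]
  · intro α hα hne
    have h1 : α.degree = n := by
      by_contra h2
      exact (mem_support_iff.mp hα) (hH.coeff_eq_zero h2)
    obtain ⟨j, hj, hj0⟩ : ∃ j, j ≠ i ∧ α j ≠ 0 := by
      by_contra hcon
      push Not at hcon
      apply hne
      have h3 : α = Finsupp.single i (α i) := by
        ext j
        by_cases h : j = i
        · rw [h, Finsupp.single_eq_same]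
        · rw [hcon j h, Finsupp.single_eq_of_ne h]
      rw [h3, Finsupp.degree_single] at h1
      rw [h3, h1]
    rw [Finset.prod_eq_zero (Finset.mem_univ j), mul_zero]
    rw [Pi.single_eq_of_ne hj, zero_pow hj0]
  · intro h
    rw [notMem_support_iff.mp h, zero_mul]

theorem eval_pderiv_vertex {n : ℕ} {H : MvPolynomial (Fin m) k} (hH : H.IsHomogeneous (n + 1))
    {i l : Fin m} (hl : l ≠ i) : eval (Pi.single i 1) (pderiv l H) =
      H.coeff (Finsupp.single i n + Finsupp.single l 1) := by
  have h1 : (pderiv l H).IsHomogeneous n := hH.pderiv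
  rw [eval_vertex h1, coeff_pderiv, Finsupp.single_eq_of_ne hl, Nat.cast_zero, zero_add, mul_one]

theorem eval_pderiv_pderiv_vertex {n : ℕ} {H : MvPolynomial (Fin m) k}
    (hH : H.IsHomogeneous (n + 2)) {i j l : Fin m} (hl : l ≠ i) (hj : j ≠ i) :
    eval (Pi.single i 1) (pderiv l (pderiv j H)) =
      H.coeff (Finsupp.single i n + Finsupp.single l 1 + Finsupp.single j 1) *
        (if l = j then 2 else 1) := by
  have h1 : (pderiv j H).IsHomogeneous (n + 1) := hH.pderiv
  rw [eval_pderiv_vertex h1 hl, coeff_pderiv, Finsupp.add_apply, Finsupp.single_eq_of_ne hj]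
  congr 1
  split_ifs with h
  · rw [h, Finsupp.single_eq_same]; norm_num
  · rw [Finsupp.single_eq_of_ne (Ne.symm h)]; norm_num

theorem eval_sub (T : Matrix (Fin m) (Fin m) k) (F : MvPolynomial (Fin m) k) (x : Fin m → k) :
    eval x (sub T F) = eval (T.mulVec x) F := by
  rw [sub, ← aeval_eq_eval, comp_aeval_apply, aeval_eq_eval]
  congr 2
  funext i
  simp [Matrix.mulVec, dotProduct]

theorem pderiv_sub (T : Matrix (Fin m) (Fin m) k) (F : MvPolynomial (Fin m) k) (l : Fin m) :
    pderiv l (sub T F) = ∑ r, C (T r l) * sub T (pderiv r F) := by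
  classical
  induction F using MvPolynomial.induction_on with
  | C a => simp [sub]
  | add p q hp hq =>
    simp only [sub, map_add, mul_add, Finset.sum_add_distrib] at hp hq ⊢
    rw [hp, hq]
  | mul_X p i hp =>
    have h1 : pderiv l (sub T (X i : MvPolynomial (Fin m) k)) = C (T i l) := by
      rw [sub, aeval_X, map_sum, Finset.sum_eq_single l]
      · rw [pderiv_C_mul, pderiv_X_self, mul_one]
      · intro b _ hb
        rw [pderiv_C_mul, pderiv_X_of_ne hb, mul_zero]
      · intro h
        exact absurd (Finset.mem_univ _) h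
    have h2 : sub T (p * X i) = sub T p * sub T (X i) := by simp [sub]
    have h3 : ∀ r, sub T (pderiv r (p * X i)) =
        sub T (pderiv r p) * sub T (X i) + sub T p * (if r = i then 1 else 0) := by
      intro r
      rw [pderiv_mul, pderiv_X]
      simp only [sub, map_add, map_mul]
      congr 2
      by_cases hr : r = i
      · rw [hr, Pi.single_eq_same, if_pos rfl, map_one]
      · rw [Pi.single_eq_of_ne (Ne.symm hr), if_neg hr, map_zero]
    rw [h2, pderiv_mul, h1, hp]
    simp only [h3, mul_add, Finset.sum_add_distrib]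
    congr 1
    · rw [Finset.sum_mul]
      exact Finset.sum_congr rfl fun r _ => by ring
    · rw [Finset.sum_eq_single i]
      · rw [if_pos rfl]; ring
      · intro b _ hb
        rw [if_neg hb]; ring
      · intro h
        exact absurd (Finset.mem_univ _) h

theorem eval_mul_hom {n : ℕ} {H : MvPolynomial (Fin m) k} (hH : H.IsHomogeneous n) (t : k)
    (x : Fin m → k) : eval (fun v => t * x v) H = t ^ n * eval x H := by
  rw [← aeval_eq_eval, aeval_mul_hom hH]
  rfl

end coefficients

section columns

variable {k : Type} [Field k] {m : ℕ}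

/-- The identity matrix with the columns `i`, `j` replaced by `x`, `y`. -/
def colT (i j : Fin m) (x y : Fin m → k) : Matrix (Fin m) (Fin m) k :=
  Matrix.of fun r c => if c = i then x r else if c = j then y r else (1 : Matrix _ _ k) r c

theorem colT_mulVec {i j : Fin m} (hij : i ≠ j) (x y v : Fin m → k) (r : Fin m) :
    (colT i j x y).mulVec v r = x r * v i + y r * v j + (if r = i ∨ r = j then 0 else v r) := by
  classical
  have h1 : ∀ c, colT i j x y r c * v c = (if c = i then x r * v i else 0) +
      (if c = j then y r * v j else 0) +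
      (if c = r then (if r = i ∨ r = j then 0 else v r) else 0) := by
    intro c
    rw [colT, Matrix.of_apply]
    by_cases hci : c = i
    · have h2 : c ≠ j := fun h => hij (hci.symm.trans h)
      rw [if_pos hci, if_pos hci, if_neg h2, hci]
      by_cases h3 : i = r
      · rw [if_pos h3, if_pos (Or.inl h3.symm)]; ring
      · rw [if_neg h3]; ring
    · rw [if_neg hci, if_neg hci]
      by_cases hcj : c = j
      · rw [if_pos hcj, if_pos hcj, hcj]
        by_cases h3 : j = r
        · rw [if_pos h3, if_pos (Or.inr h3.symm)]; ring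
        · rw [if_neg h3]; ring
      · rw [if_neg hcj, if_neg hcj]
        by_cases h3 : c = r
        · rw [h3, Matrix.one_apply_eq, if_pos rfl, if_neg, one_mul]
          · ring
          · rintro (h | h)
            · exact hci (h3.trans h)
            · exact hcj (h3.trans h)
        · rw [Matrix.one_apply_ne (Ne.symm h3), if_neg h3]; ring
  rw [Matrix.mulVec, dotProduct, Finset.sum_congr rfl fun c _ => h1 c, Finset.sum_add_distrib,
    Finset.sum_add_distrib, Finset.sum_ite_eq' Finset.univ i, Finset.sum_ite_eq' Finset.univ j,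
    Finset.sum_ite_eq' Finset.univ r]
  simp

theorem colT_det {i j : Fin m} (hij : i ≠ j) (x y : Fin m → k) (h : x i * y j - x j * y i ≠ 0) :
    (colT i j x y).det ≠ 0 := by
  intro h0
  obtain ⟨v, hv, hT⟩ := Matrix.exists_mulVec_eq_zero_iff.mpr h0
  have h1 : ∀ r, x r * v i + y r * v j + (if r = i ∨ r = j then 0 else v r) = 0 := by
    intro r
    rw [← colT_mulVec hij, hT]; rfl
  have h2 := h1 i
  have h3 := h1 j
  rw [if_pos (Or.inl rfl), add_zero] at h2
  rw [if_pos (Or.inr rfl), add_zero] at h3
  have h4 : v i = 0 := by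
    have : (x i * y j - x j * y i) * v i = 0 := by linear_combination y j * h2 - y i * h3
    exact (mul_eq_zero.mp this).resolve_left h
  have h5 : v j = 0 := by
    have : (x i * y j - x j * y i) * v j = 0 := by linear_combination x i * h3 - x j * h2
    exact (mul_eq_zero.mp this).resolve_left h
  apply hv
  funext r
  have h6 := h1 r
  rw [h4, h5] at h6
  by_cases hr : r = i ∨ r = j
  · rcases hr with hr | hr
    · rw [hr]; exact h4
    · rw [hr]; exact h5
  · rw [if_neg hr] at h6
    simpa using h6

theorem colT_vertex_left {i j : Fin m} (hij : i ≠ j) (x y : Fin m → k) :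
    (colT i j x y).mulVec (Pi.single i 1) = x := by
  funext r
  rw [colT_mulVec hij, Pi.single_eq_same, Pi.single_eq_of_ne (Ne.symm hij)]
  split_ifs with h
  · ring
  · push Not at h
    rw [Pi.single_eq_of_ne h.1]; ring

theorem colT_vertex_right {i j : Fin m} (hij : i ≠ j) (x y : Fin m → k) :
    (colT i j x y).mulVec (Pi.single j 1) = y := by
  funext r
  rw [colT_mulVec hij, Pi.single_eq_same, Pi.single_eq_of_ne hij]
  split_ifs with h
  · ring
  · push Not at h
    rw [Pi.single_eq_of_ne h.2]; ring

theorem Sing.coeff_sub {n : ℕ} {F : MvPolynomial (Fin m) k} (hF : F.IsHomogeneous (n + 1))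
    {T : Matrix (Fin m) (Fin m) k} {x : Fin m → k} {i : Fin m}
    (hT : T.mulVec (Pi.single i 1) = x) (hx : Sing F x) (l : Fin m) :
    (sub T F).coeff (Finsupp.single i n + Finsupp.single l 1) = 0 := by
  by_cases hl : l = i
  · rw [hl, ← Finsupp.single_add, ← eval_vertex (sub_isHomogeneous hF T), eval_sub, hT]
    exact hx.1
  · rw [← eval_pderiv_vertex (sub_isHomogeneous hF T) hl, pderiv_sub, map_sum]
    refine Finset.sum_eq_zero fun r _ => ?_
    rw [map_mul, eval_sub, hT, hx.2 r, mul_zero]

theorem hess_coeff_sub {n : ℕ} {F : MvPolynomial (Fin m) k} (hF : F.IsHomogeneous (n + 2))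
    {T : Matrix (Fin m) (Fin m) k} {x y : Fin m → k} {i j : Fin m} (hji : j ≠ i)
    (hTi : T.mulVec (Pi.single i 1) = x) (hTj : ∀ s, T s j = y s)
    (h : ∀ r, ∑ s, eval x (pderiv r (pderiv s F)) * y s = 0) (h2 : (2 : k) ≠ 0) {l : Fin m}
    (hl : l ≠ i) :
    (sub T F).coeff (Finsupp.single i n + Finsupp.single l 1 + Finsupp.single j 1) = 0 := by
  have h1 := eval_pderiv_pderiv_vertex (sub_isHomogeneous hF T) hl hji
  have h3 : eval (Pi.single i 1) (pderiv l (pderiv j (sub T F))) = 0 := by
    rw [pderiv_sub, map_sum, map_sum]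
    have h4 : ∀ s, eval (Pi.single i 1) (pderiv l (C (T s j) * sub T (pderiv s F))) =
        ∑ r, T r l * (eval x (pderiv r (pderiv s F)) * y s) := by
      intro s
      rw [pderiv_C_mul, map_mul, eval_C, pderiv_sub, map_sum, Finset.mul_sum]
      refine Finset.sum_congr rfl fun r _ => ?_
      rw [map_mul, eval_C, eval_sub, hTi, hTj]
      ring
    rw [Finset.sum_congr rfl fun s _ => h4 s, Finset.sum_comm]
    refine Finset.sum_eq_zero fun r _ => ?_
    rw [← Finset.mul_sum, h r, mul_zero]
  rw [h3] at h1
  refine (mul_eq_zero.mp h1.symm).resolve_right ?_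
  split_ifs
  · exact h2
  · exact one_ne_zero

end columns

section sets

variable {m : ℕ}

open Classical in
/-- The free entries for two singular points. -/
noncomputable def E1 (i j : Fin m) : Finset (Fin m × Fin m) :=
  (Finset.univ.erase i).image (fun r => (r, i)) ∪ (Finset.univ.erase j).image (fun r => (r, j))

open Classical in
/-- The free entries for a degenerate singular point. -/
noncomputable def E2 (i j : Fin m) : Finset (Fin m × Fin m) :=
  (Finset.univ.erase i).image (fun r => (r, i)) ∪
    ((Finset.univ.erase i).erase j).image (fun r => (r, j))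

theorem card_E1 (i j : Fin m) : (E1 i j).card + 2 ≤ 2 * m := by
  classical
  have h1 := Finset.card_union_le ((Finset.univ.erase i).image (fun r => (r, i)))
    ((Finset.univ.erase j).image (fun r => (r, j)))
  have h2 : ((Finset.univ.erase i).image (fun r => (r, i))).card ≤ m - 1 := by
    refine Finset.card_image_le.trans ?_
    rw [Finset.card_erase_of_mem (Finset.mem_univ i), Finset.card_univ, Fintype.card_fin]
  have h3 : ((Finset.univ.erase j).image (fun r => (r, j))).card ≤ m - 1 := by
    refine Finset.card_image_le.trans ?_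
    rw [Finset.card_erase_of_mem (Finset.mem_univ j), Finset.card_univ, Fintype.card_fin]
  have h4 := i.2
  rw [E1]
  omega

theorem card_E2 {i j : Fin m} (hij : i ≠ j) : (E2 i j).card + 2 ≤ m + (m - 1) := by
  classical
  have h1 := Finset.card_union_le ((Finset.univ.erase i).image (fun r => (r, i)))
    (((Finset.univ.erase i).erase j).image (fun r => (r, j)))
  have h2 : ((Finset.univ.erase i).image (fun r => (r, i))).card ≤ m - 1 := by
    refine Finset.card_image_le.trans ?_
    rw [Finset.card_erase_of_mem (Finset.mem_univ i), Finset.card_univ, Fintype.card_fin]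
  have h3 : (((Finset.univ.erase i).erase j).image (fun r => (r, j))).card ≤ m - 1 - 1 := by
    refine Finset.card_image_le.trans ?_
    rw [Finset.card_erase_of_mem (Finset.mem_erase.mpr ⟨hij.symm, Finset.mem_univ j⟩),
      Finset.card_erase_of_mem (Finset.mem_univ i), Finset.card_univ, Fintype.card_fin]
  have h4 := i.2
  have h5 := j.2
  have h6 : i.1 ≠ j.1 := fun h => hij (Fin.ext h)
  rw [E2]
  omega

/-- The exponents of the coefficients which vanish for two singular points. -/
noncomputable def f1 {n : ℕ} (i j : Fin m) : Fin m ⊕ Fin m → Mon m (n + 1) :=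
  Sum.elim
    (fun l => ⟨Finsupp.single i n + Finsupp.single l 1, mem_mon (by
      rw [map_add, Finsupp.degree_single, Finsupp.degree_single])⟩)
    (fun l => ⟨Finsupp.single j n + Finsupp.single l 1, mem_mon (by
      rw [map_add, Finsupp.degree_single, Finsupp.degree_single])⟩)

/-- The exponents of the coefficients which vanish for a degenerate singular point. -/
noncomputable def f2 {n : ℕ} (i j : Fin m) : Fin m ⊕ {l : Fin m // l ≠ i} → Mon m (n + 2) :=
  Sum.elim
    (fun l => ⟨Finsupp.single i (n + 1) + Finsupp.single l 1, mem_mon (by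
      rw [map_add, Finsupp.degree_single, Finsupp.degree_single])⟩)
    (fun l => ⟨Finsupp.single i n + Finsupp.single l.1 1 + Finsupp.single j 1, mem_mon (by
      rw [map_add, map_add, Finsupp.degree_single, Finsupp.degree_single,
        Finsupp.degree_single])⟩)

theorem single_inj {l l' : Fin m} (h : Finsupp.single l 1 = Finsupp.single l' (1 : ℕ)) :
    l = l' := by
  rcases (Finsupp.single_eq_single_iff _ _ _ _).mp h with h | h
  · exact h.1
  · exact absurd h.1 one_ne_zero

theorem f1_injective {n : ℕ} (hn : 2 ≤ n) {i j : Fin m} (hij : i ≠ j) :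
    Function.Injective (f1 (n := n) i j) := by
  have hne : ∀ l l', Finsupp.single i n + Finsupp.single l (1 : ℕ) ≠
      Finsupp.single j n + Finsupp.single l' 1 := by
    intro l l' h
    have h1 := DFunLike.congr_fun h i
    rw [Finsupp.add_apply, Finsupp.add_apply, Finsupp.single_eq_same,
      Finsupp.single_eq_of_ne hij, zero_add] at h1
    have h2 : Finsupp.single l' (1 : ℕ) i ≤ 1 := by
      by_cases h : l' = i
      · rw [h, Finsupp.single_eq_same]
      · rw [Finsupp.single_eq_of_ne (Ne.symm h)]; exact zero_le_one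
    omega
  rintro (l | l) (l' | l') h
  · have h1 := congrArg Subtype.val h
    exact congrArg Sum.inl (single_inj (add_left_cancel h1))
  · exact absurd (congrArg Subtype.val h) (hne l l')
  · exact absurd (congrArg Subtype.val h).symm (hne l' l)
  · have h1 := congrArg Subtype.val h
    exact congrArg Sum.inr (single_inj (add_left_cancel h1))

theorem f2_injective {n : ℕ} {i j : Fin m} (hij : i ≠ j) :
    Function.Injective (f2 (n := n) i j) := by
  have hne : ∀ (l : Fin m) (l' : {l : Fin m // l ≠ i}),
      Finsupp.single i (n + 1) + Finsupp.single l (1 : ℕ) ≠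
      Finsupp.single i n + Finsupp.single l'.1 1 + Finsupp.single j 1 := by
    intro l l' h
    have h1 := DFunLike.congr_fun h i
    rw [Finsupp.add_apply, Finsupp.add_apply, Finsupp.add_apply, Finsupp.single_eq_same,
      Finsupp.single_eq_same, Finsupp.single_eq_of_ne hij,
      Finsupp.single_eq_of_ne (Ne.symm l'.2)] at h1
    omega
  rintro (l | l) (l' | l') h
  · have h1 := congrArg Subtype.val h
    exact congrArg Sum.inl (single_inj (add_left_cancel h1))
  · exact absurd (congrArg Subtype.val h) (hne l l')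
  · exact absurd (congrArg Subtype.val h).symm (hne l' l)
  · have h1 := congrArg Subtype.val h
    exact congrArg Sum.inr (Subtype.ext (single_inj (add_left_cancel (add_right_cancel h1))))

theorem card_Z1 {n : ℕ} (hn : 2 ≤ n) {i j : Fin m} (hij : i ≠ j) :
    (Finset.univ.map ⟨f1 (n := n) i j, f1_injective hn hij⟩).card = 2 * m := by
  rw [Finset.card_map, Finset.card_univ, Fintype.card_sum, Fintype.card_fin]
  ring

theorem card_Z2 {n : ℕ} {i j : Fin m} (hij : i ≠ j) :
    (Finset.univ.map ⟨f2 (n := n) i j, f2_injective hij⟩).card = m + (m - 1) := by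
  rw [Finset.card_map, Finset.card_univ, Fintype.card_sum, Fintype.card_fin]
  congr 1
  have h := Fintype.card_subtype_compl (fun l : Fin m => l = i)
  rw [Fintype.card_subtype_eq, Fintype.card_fin] at h
  exact h

end sets

section normal

variable {k : Type} [Field k] {m : ℕ}

theorem Sing.smul {n : ℕ} {F : MvPolynomial (Fin m) k} (hF : F.IsHomogeneous n)
    {x : Fin m → k} (hx : Sing F x) (t : k) : Sing F (fun v => t * x v) := by
  refine ⟨?_, fun i => ?_⟩
  · rw [eval_mul_hom hF, hx.1, mul_zero]
  · rw [eval_mul_hom hF.pderiv, hx.2 i, mul_zero]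

theorem exists_minor {x y : Fin m → k} (h : LinearIndependent k ![x, y]) :
    ∃ i j, x i ≠ 0 ∧ x i * y j - x j * y i ≠ 0 := by
  rw [LinearIndependent.pair_iff] at h
  obtain ⟨i, hi⟩ : ∃ i, x i ≠ 0 := by
    by_contra hcon
    push Not at hcon
    have h1 := h 1 0 (by funext j; simp [hcon j])
    exact one_ne_zero h1.1
  refine ⟨i, ?_⟩
  by_contra hcon
  push Not at hcon
  have h1 := h (-(y i)) (x i) (by
    funext j
    have h2 := hcon j hi
    simp only [Pi.add_apply, Pi.smul_apply, smul_eq_mul, Pi.zero_apply]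
    linear_combination h2)
  exact hi h1.2

theorem exists_minor' {x y : Fin m → k} (h : LinearIndependent k ![x, y]) :
    ∃ i j, x i ≠ 0 ∧ y j ≠ 0 ∧ x i * y j - x j * y i ≠ 0 := by
  obtain ⟨i, j, hi, hm⟩ := exists_minor h
  by_cases hj : y j = 0
  · rw [hj, mul_zero, zero_sub, neg_ne_zero] at hm
    refine ⟨j, i, left_ne_zero_of_mul hm, right_ne_zero_of_mul hm, ?_⟩
    rw [hj, mul_zero, sub_zero]
    exact hm
  · exact ⟨i, j, hi, hj, hm⟩

/-- The Hessian of a homogeneous polynomial kills its singular points. -/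
theorem hess_self {n : ℕ} {F : MvPolynomial (Fin m) k} (hF : F.IsHomogeneous n)
    {x : Fin m → k} (hx : Sing F x) (r : Fin m) :
    ∑ s, eval x (pderiv r (pderiv s F)) * x s = 0 := by
  have hcomm : ∀ s, pderiv r (pderiv s F) = pderiv s (pderiv r F) := by
    intro s
    ext α
    rw [coeff_pderiv, coeff_pderiv, coeff_pderiv, coeff_pderiv, add_right_comm]
    by_cases h : r = s
    · rw [h]
    · rw [Finsupp.add_apply, Finsupp.add_apply, Finsupp.single_eq_of_ne h,
        Finsupp.single_eq_of_ne (Ne.symm h)]
      ring_nf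
  have h1 := (hF.pderiv (i := r)).sum_X_mul_pderiv
  have h2 := congrArg (eval x) h1
  rw [map_sum, map_nsmul, hx.2 r, smul_zero] at h2
  rw [← h2]
  refine Finset.sum_congr rfl fun s _ => ?_
  rw [map_mul, eval_X, hcomm s, mul_comm]

theorem colT_entries1 {i j : Fin m} {x y : Fin m → k} (hx : x i = 1)
    (hy : y j = 1) (r c : Fin m) (h : (r, c) ∉ E1 i j) :
    colT i j x y r c = (1 : Matrix (Fin m) (Fin m) k) r c := by
  classical
  rw [E1, Finset.mem_union, not_or] at h
  rw [colT, Matrix.of_apply]
  split_ifs with h1 h2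
  · have h3 : r = i := by
      by_contra h4
      exact h.1 (Finset.mem_image.mpr ⟨r, Finset.mem_erase.mpr ⟨h4, Finset.mem_univ r⟩, by rw [h1]⟩)
    rw [h3, hx, h1, Matrix.one_apply_eq]
  · have h3 : r = j := by
      by_contra h4
      exact h.2 (Finset.mem_image.mpr ⟨r, Finset.mem_erase.mpr ⟨h4, Finset.mem_univ r⟩, by rw [h2]⟩)
    rw [h3, hy, h2, Matrix.one_apply_eq]
  · rfl

theorem colT_entries2 {i j : Fin m} (hij : i ≠ j) {x y : Fin m → k} (hx : x i = 1)
    (hy : y j = 1) (hy0 : y i = 0) (r c : Fin m) (h : (r, c) ∉ E2 i j) :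
    colT i j x y r c = (1 : Matrix (Fin m) (Fin m) k) r c := by
  classical
  rw [E2, Finset.mem_union, not_or] at h
  rw [colT, Matrix.of_apply]
  split_ifs with h1 h2
  · have h3 : r = i := by
      by_contra h4
      exact h.1 (Finset.mem_image.mpr ⟨r, Finset.mem_erase.mpr ⟨h4, Finset.mem_univ r⟩, by rw [h1]⟩)
    rw [h3, hx, h1, Matrix.one_apply_eq]
  · have h3 : r = j ∨ r = i := by
      by_contra h4
      push Not at h4
      exact h.2 (Finset.mem_image.mpr ⟨r, Finset.mem_erase.mpr ⟨h4.1, Finset.mem_erase.mpr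
        ⟨h4.2, Finset.mem_univ r⟩⟩, by rw [h2]⟩)
    rcases h3 with h3 | h3
    · rw [h3, hy, h2, Matrix.one_apply_eq]
    · rw [h3, hy0, h2, Matrix.one_apply_ne hij]
  · rfl

theorem colT_right {i j : Fin m} (hij : i ≠ j) (x y : Fin m → k) (s : Fin m) :
    colT i j x y s j = y s := by
  rw [colT, Matrix.of_apply, if_neg (Ne.symm hij), if_pos rfl]

end normal

theorem codim : CODIM := by
  classical
  intro m d hm hd
  obtain ⟨n, rfl⟩ : ∃ n, d = n + 3 := ⟨d - 3, by omega⟩
  have hZ1 : ∀ q : {q : Fin m × Fin m // q.1 ≠ q.2}, ∃ P : Pair (Mon m (n + 3)),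
      ∀ (p : ℕ) (k : Type) [Field k] [CharP k p] (a : Mon m (n + 3) → ℤ)
      (T : Matrix (Fin m) (Fin m) k), T.det ≠ 0 →
      (∀ r c, (r, c) ∉ E1 q.1.1 q.1.2 → T r c = (1 : Matrix (Fin m) (Fin m) k) r c) →
      (∀ α ∈ (Finset.univ.map ⟨f1 (n := n + 2) q.1.1 q.1.2, f1_injective (by omega) q.2⟩ :
        Finset (Mon m (n + 3))),
        (sub T (form fun α => (a α : k))).coeff α.1 = 0) → Hit P p a := by
    intro q
    apply exists_pair_sub
    rw [card_Z1 (by omega) q.2]
    exact card_E1 _ _
  have hZ2 : ∀ q : {q : Fin m × Fin m // q.1 ≠ q.2}, ∃ P : Pair (Mon m (n + 3)),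
      ∀ (p : ℕ) (k : Type) [Field k] [CharP k p] (a : Mon m (n + 3) → ℤ)
      (T : Matrix (Fin m) (Fin m) k), T.det ≠ 0 →
      (∀ r c, (r, c) ∉ E2 q.1.1 q.1.2 → T r c = (1 : Matrix (Fin m) (Fin m) k) r c) →
      (∀ α ∈ (Finset.univ.map ⟨f2 (n := n + 1) q.1.1 q.1.2, f2_injective q.2⟩ :
        Finset (Mon m (n + 3))),
        (sub T (form fun α => (a α : k))).coeff α.1 = 0) → Hit P p a := by
    intro q
    apply exists_pair_sub
    rw [card_Z2 q.2]
    exact card_E2 q.2
  choose P1 hP1 using hZ1
  choose P2 hP2 using hZ2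
  refine ⟨Set.range P1 ∪ Set.range P2, 2, (Set.finite_range P1).union (Set.finite_range P2), ?_⟩
  intro p hp hp2 k _ _ a hbad
  have h2 : (2 : k) ≠ 0 := by
    intro h0
    have h1 : ((2 : ℕ) : k) = 0 := by exact_mod_cast h0
    rw [CharP.cast_eq_zero_iff k p] at h1
    exact absurd (Nat.le_of_dvd (by norm_num) h1) (by omega)
  obtain ⟨x, y, hli, hx, hy⟩ := hbad
  have hF := form_isHomogeneous (fun α : Mon m (n + 3) => (a α : k))
  generalize hFdef : form (fun α : Mon m (n + 3) => (a α : k)) = F at *
  rcases hy with hy | hy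
  · obtain ⟨i, j, hi, hj, hmin⟩ := exists_minor' hli
    have hij : i ≠ j := by
      rintro rfl
      exact hmin (by ring)
    refine ⟨P1 ⟨(i, j), hij⟩, Or.inl ⟨_, rfl⟩, ?_⟩
    have hx' := hx.smul hF (x i)⁻¹
    have hy' := hy.smul hF (y j)⁻¹
    refine hP1 ⟨(i, j), hij⟩ p k a
      (colT i j (fun v => (x i)⁻¹ * x v) (fun v => (y j)⁻¹ * y v)) ?_ ?_ ?_
    · apply colT_det hij
      have h3 : (x i)⁻¹ * x i * ((y j)⁻¹ * y j) - (x i)⁻¹ * x j * ((y j)⁻¹ * y i) =
          (x i)⁻¹ * (y j)⁻¹ * (x i * y j - x j * y i) := by ring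
      rw [h3]
      exact mul_ne_zero (mul_ne_zero (inv_ne_zero hi) (inv_ne_zero hj)) hmin
    · exact colT_entries1 (inv_mul_cancel₀ hi) (inv_mul_cancel₀ hj)
    · intro α hα
      rw [hFdef]
      rw [Finset.mem_map] at hα
      obtain ⟨l, -, rfl⟩ := hα
      rcases l with l | l
      · exact Sing.coeff_sub hF (colT_vertex_left hij _ _) hx' l
      · exact Sing.coeff_sub hF (colT_vertex_right hij _ _) hy' l
  · obtain ⟨i, j, hi, hmin⟩ := exists_minor hli
    have hij : i ≠ j := by
      rintro rfl
      exact hmin (by ring)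
    refine ⟨P2 ⟨(i, j), hij⟩, Or.inr ⟨_, rfl⟩, ?_⟩
    have hx' := hx.smul hF (x i)⁻¹
    -- the second vector
    set x' : Fin m → k := fun v => (x i)⁻¹ * x v with hx'def
    have hx'i : x' i = 1 := inv_mul_cancel₀ hi
    have hc : y j - y i * x' j ≠ 0 := by
      intro h0
      apply hmin
      have h4 : x i * (y j - y i * x' j) = 0 := by rw [h0, mul_zero]
      rw [hx'def] at h4
      field_simp at h4
      linear_combination h4
    set c := (y j - y i * x' j)⁻¹ with hcdef
    set y' : Fin m → k := fun v => c * (y v - y i * x' v) with hy'def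
    have hy'j : y' j = 1 := inv_mul_cancel₀ hc
    have hy'i : y' i = 0 := by
      rw [hy'def]
      simp only [hx'i, mul_one, sub_self, mul_zero]
    have hess : ∀ r, ∑ s, eval x' (pderiv r (pderiv s F)) * y' s = 0 := by
      intro r
      have h5 : ∑ s, eval x' (pderiv r (pderiv s F)) * y s = 0 := by
        have h6 : ∀ s, eval x' (pderiv r (pderiv s F)) * y s =
            (x i)⁻¹ ^ (n + 3 - 1 - 1) * (eval x (pderiv r (pderiv s F)) * y s) := by
          intro s
          rw [hx'def, eval_mul_hom hF.pderiv.pderiv]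
          ring
        rw [Finset.sum_congr rfl fun s _ => h6 s, ← Finset.mul_sum, hy r, mul_zero]
      have h7 := hess_self hF hx' r
      have h8 : ∑ s, eval x' (pderiv r (pderiv s F)) * y' s =
          c * (∑ s, eval x' (pderiv r (pderiv s F)) * y s) -
          c * y i * (∑ s, eval x' (pderiv r (pderiv s F)) * x' s) := by
        rw [Finset.mul_sum, Finset.mul_sum, ← Finset.sum_sub_distrib]
        refine Finset.sum_congr rfl fun s _ => ?_
        rw [hy'def]
        ring
      rw [h8, h5, h7, mul_zero, mul_zero, sub_zero]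
    refine hP2 ⟨(i, j), hij⟩ p k a (colT i j x' y') ?_ ?_ ?_
    · apply colT_det hij
      rw [hx'i, hy'j, hy'i, mul_zero, sub_zero, mul_one]
      exact one_ne_zero
    · exact colT_entries2 hij hx'i hy'j hy'i
    · intro α hα
      rw [hFdef]
      rw [Finset.mem_map] at hα
      obtain ⟨l, -, rfl⟩ := hα
      rcases l with l | l
      · exact Sing.coeff_sub hF (colT_vertex_left hij _ _) hx' l
      · exact hess_coeff_sub (n := n + 1) hF hij.symm (colT_vertex_left hij _ _)
          (colT_right hij _ _) hess h2 l.2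

end Pool.Agent.K9h37.PP
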