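import Pool.Agent.K9h37.PP.Stm

/-! Leaf SIEVE of project PP (helper37, MP_602153_ag), by helper66: Schwartz-Zippel and counting in
boxes. -/

set_option autoImplicit false
set_option linter.unusedSectionVars false

namespace Pool.Agent.K9h37.PP.Sv

open MvPolynomial Finset

variable {V : Type} [Fintype V] [DecidableEq V]

/-- Schwartz–Zippel for the variables in `V`. -/
lemma sz {R : Type} [CommRing R] [IsDomain R] [DecidableEq R] (F : MvPolynomial V R)
    (hF : F ≠ 0) (S : Finset R) :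
    ((Fintype.piFinset fun _ : V => S).filter (fun a => eval a F = 0)).card * S.card ≤
      F.totalDegree * S.card ^ Fintype.card V := by
  rcases Nat.eq_zero_or_pos S.card with h0 | h0
  · rw [h0, Nat.mul_zero]; exact Nat.zero_le _
  let e : V ≃ Fin (Fintype.card V) := Fintype.equivFin V
  have hF' : rename e F ≠ 0 := by
    intro h
    exact hF ((rename_injective e e.injective) (by rw [h, map_zero]))
  have h1 := schwartz_zippel_totalDegree hF' S
  have h2 : (((Fintype.piFinset fun _ : V => S).filter (fun a => eval a F = 0)).card) ≤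
      (((Fintype.piFinset fun _ : Fin (Fintype.card V) => S).filter
        (fun a => eval a (rename e F) = 0)).card) := by
    refine Finset.card_le_card_of_injOn (fun a i => a (e.symm i)) ?_ ?_
    · intro a ha
      have ha' := Finset.mem_filter.mp (Finset.mem_coe.mp ha)
      refine Finset.mem_coe.mpr (Finset.mem_filter.mpr ⟨Fintype.mem_piFinset.mpr fun i =>
        Fintype.mem_piFinset.mp ha'.1 _, ?_⟩)
      rw [eval_rename]
      have h : ((fun i => a (e.symm i)) ∘ e) = a := by
        funext v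
        simp
      rw [h]
      exact ha'.2
    · intro a _ b _ hab
      funext v
      have := congrFun hab (e v)
      simpa using this
  have h3 : (rename e F).totalDegree ≤ F.totalDegree := totalDegree_rename_le _ _
  have h4 : ((((Fintype.piFinset fun _ : Fin (Fintype.card V) => S).filter
        (fun a => eval a (rename e F) = 0)).card : ℚ≥0)) * S.card ≤
        (rename e F).totalDegree * (S.card : ℚ≥0) ^ Fintype.card V := by
    have hS : (0 : ℚ≥0) < S.card := by exact_mod_cast h0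
    rw [div_le_div_iff₀ (by positivity) hS] at h1
    exact h1
  have h5 : (((Fintype.piFinset fun _ : Fin (Fintype.card V) => S).filter
        (fun a => eval a (rename e F) = 0)).card) * S.card ≤
        (rename e F).totalDegree * S.card ^ Fintype.card V := by exact_mod_cast h4
  calc _ ≤ (((Fintype.piFinset fun _ : Fin (Fintype.card V) => S).filter
        (fun a => eval a (rename e F) = 0)).card) * S.card := Nat.mul_le_mul_right _ h2
    _ ≤ _ := h5
    _ ≤ _ := Nat.mul_le_mul_right _ h3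

/-- The integers in an interval, congruent modulo `m`. -/
lemma cls (B m : ℕ) (hm : 0 < m) (S : Finset ℤ) (hS : ∀ n ∈ S, n ∈ Finset.Icc (-(B : ℤ)) B)
    (hc : ∀ n ∈ S, ∀ n' ∈ S, (m : ℤ) ∣ n - n') : S.card ≤ 2 * B / m + 1 := by
  have h1 : S.card ≤ (Finset.range (2 * B / m + 1)).card := by
    refine Finset.card_le_card_of_injOn (fun n => ((n + B) / m).toNat) ?_ ?_
    · intro n hn
      have h := Finset.mem_Icc.mp (hS n hn)
      simp only [Finset.coe_range, Set.mem_Iio]
      have h2 : (n + B) / m ≤ (2 * B / m : ℤ) := by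
        apply Int.ediv_le_ediv (by exact_mod_cast hm); linarith [h.2]
      have h3 : (2 * B / m : ℤ) = ((2 * B / m : ℕ) : ℤ) := by push_cast; rfl
      rw [h3] at h2
      generalize (n + (B : ℤ)) / (m : ℤ) = u at h2 ⊢
      generalize 2 * B / m = w at h2 ⊢
      omega
    · intro n hn n' hn' h
      have hn1 := Finset.mem_Icc.mp (hS n hn)
      have hn2 := Finset.mem_Icc.mp (hS n' hn')
      have hm' : (0 : ℤ) < m := by exact_mod_cast hm
      have h2 : 0 ≤ (n + B) / m := Int.ediv_nonneg (by linarith [hn1.1]) hm'.le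
      have h3 : 0 ≤ (n' + B) / m := Int.ediv_nonneg (by linarith [hn2.1]) hm'.le
      have h4 : (n + B) / m = (n' + B) / m := by
        simp only at h
        omega
      have h5 : (n + B) % m = (n' + B) % m := by
        have := hc n' hn' n hn
        exact Int.modEq_iff_dvd.mpr (by rw [show n' + (B : ℤ) - (n + B) = n' - n by ring]; exact this)
      have h6 := Int.mul_ediv_add_emod (n + B) m
      have h7 := Int.mul_ediv_add_emod (n' + B) m
      rw [h4, h5] at h6
      linarith
  simpa using h1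


/-- The degree in `t` of `G (b + t c)`. -/
noncomputable def Pd (P : Pair V) : ℕ :=
  (aeval (fun v => Polynomial.C (X v) + Polynomial.C (C (P.c v)) *
    Polynomial.X) P.G : Polynomial (MvPolynomial V ℤ)).natDegree

/-- The leading coefficient. -/
noncomputable def Pg (P : Pair V) : ℤ := P.hG.choose

/-- `G (b + t c)` as a polynomial in `t`. -/
noncomputable def gp {k : Type} [CommRing k] (P : Pair V) (b : V → k) : Polynomial k :=
  aeval (fun v => Polynomial.C (b v) + Polynomial.C ((P.c v : ℤ) : k) * Polynomial.X) P.G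

omit [Fintype V] [DecidableEq V] in
lemma gp_eq {k : Type} [CommRing k] (P : Pair V) (b : V → k) :
    gp P b = Polynomial.map (aeval b : MvPolynomial V ℤ →ₐ[ℤ] k).toRingHom
      (aeval (fun v => Polynomial.C (X v) + Polynomial.C (C (P.c v)) *
        Polynomial.X) P.G : Polynomial (MvPolynomial V ℤ)) := by
  have h : ((Polynomial.mapRingHom (aeval b : MvPolynomial V ℤ →ₐ[ℤ] k).toRingHom).comp
      (aeval (fun v => Polynomial.C (X v) + Polynomial.C (C (P.c v)) *
        Polynomial.X) : MvPolynomial V ℤ →ₐ[ℤ] Polynomial (MvPolynomial V ℤ)).toRingHom) =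
      (aeval (fun v => Polynomial.C (b v) + Polynomial.C ((P.c v : ℤ) : k) * Polynomial.X) :
        MvPolynomial V ℤ →ₐ[ℤ] Polynomial k).toRingHom := by
    apply MvPolynomial.ringHom_ext
    · intro r
      simp
    · intro v
      simp
  exact (congrFun (congrArg DFunLike.coe h) P.G).symm

omit [Fintype V] [DecidableEq V] in
lemma gp_natDegree {k : Type} [CommRing k] (P : Pair V) (b : V → k) :
    (gp P b).natDegree ≤ Pd P := by
  rw [gp_eq]
  exact Polynomial.natDegree_map_le

omit [Fintype V] [DecidableEq V] in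
lemma gp_coeff {k : Type} [CommRing k] (P : Pair V) (b : V → k) :
    (gp P b).coeff (Pd P) = (Pg P : k) := by
  rw [gp_eq, Polynomial.coeff_map]
  have h : (aeval (fun v => Polynomial.C (X v) + Polynomial.C (C (P.c v)) *
        Polynomial.X) P.G : Polynomial (MvPolynomial V ℤ)).coeff (Pd P) = C (Pg P) :=
    P.hG.choose_spec.2
  rw [h]
  simp

omit [Fintype V] [DecidableEq V] in
lemma Pg_ne (P : Pair V) : Pg P ≠ 0 := P.hG.choose_spec.1

omit [Fintype V] [DecidableEq V] in
lemma eval_gp {k : Type} [CommRing k] (P : Pair V) (b : V → k) (t : k) :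
    Polynomial.eval t (gp P b) = aeval (fun v => b v + (P.c v : k) * t) P.G := by
  have h : ((Polynomial.evalRingHom t).comp
      (aeval (fun v => Polynomial.C (b v) + Polynomial.C ((P.c v : ℤ) : k) * Polynomial.X) :
        MvPolynomial V ℤ →ₐ[ℤ] Polynomial k).toRingHom) =
      (aeval (fun v => b v + (P.c v : k) * t) : MvPolynomial V ℤ →ₐ[ℤ] k).toRingHom := by
    apply MvPolynomial.ringHom_ext
    · intro r
      simp
    · intro v
      simp
  exact congrFun (congrArg DFunLike.coe h) P.G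

/-- The vector `a - a_{v₀} c`. -/
def bb {k : Type} [CommRing k] (P : Pair V) (a : V → k) : V → k :=
  fun v => a v - (P.c v : k) * a P.v₀

omit [Fintype V] [DecidableEq V] in
lemma eval_gp_bb {k : Type} [CommRing k] (P : Pair V) (a : V → k) :
    Polynomial.eval (a P.v₀) (gp P (bb P a)) = aeval a P.G := by
  rw [eval_gp]
  congr 2
  funext v
  simp [bb]

omit [Fintype V] [DecidableEq V] in
lemma bb_v₀ {k : Type} [CommRing k] (P : Pair V) (a : V → k) : bb P a P.v₀ = 0 := by
  simp [bb, P.hc]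

omit [Fintype V] [DecidableEq V] in
lemma aeval_R_congr {k : Type} [CommRing k] (P : Pair V) (a b : V → k)
    (h : ∀ v, v ≠ P.v₀ → a v = b v) : aeval a P.R = aeval b P.R := by
  rw [aeval_eq_eval₂Hom, aeval_eq_eval₂Hom]
  apply eval₂Hom_congr' rfl _ rfl
  intro v hv _
  apply h
  rintro rfl
  exact P.hR hv

open Classical in
/-- The number of roots of `gp` over a domain. -/
lemma roots_gp {k : Type} [CommRing k] [IsDomain k] (P : Pair V) (b : V → k)
    (hg : (Pg P : k) ≠ 0) (S : Finset k) (hS : ∀ t ∈ S, Polynomial.eval t (gp P b) = 0) :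
    S.card ≤ Pd P := by
  have h0 : gp P b ≠ 0 := by
    intro h
    apply hg
    rw [← gp_coeff P b, h, Polynomial.coeff_zero]
  have h1 : S ⊆ (gp P b).roots.toFinset := by
    intro t ht
    rw [Multiset.mem_toFinset, Polynomial.mem_roots h0]
    exact hS t ht
  calc S.card ≤ (gp P b).roots.toFinset.card := Finset.card_le_card h1
    _ ≤ (gp P b).roots.card := Multiset.toFinset_card_le _
    _ ≤ (gp P b).natDegree := Polynomial.card_roots' _
    _ ≤ Pd P := gp_natDegree P b

lemma totalDegree_map_le {R S : Type} [CommRing R] [CommRing S] (f : R →+* S)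
    (F : MvPolynomial V R) : (map f F).totalDegree ≤ F.totalDegree := by
  unfold totalDegree
  exact Finset.sup_mono (support_map_subset _ _)

/-- The classes modulo `p` of the vectors hit by `p`. -/
noncomputable def Ap (P : Pair V) (p : ℕ) [Fact p.Prime] : Finset (V → ZMod p) :=
  Finset.univ.filter fun α => aeval α P.G = (0 : ZMod p) ∧ aeval (bb P α) P.R = (0 : ZMod p)

lemma card_Ap (P : Pair V) (p : ℕ) [Fact p.Prime] (hg : (Pg P : ZMod p) ≠ 0)
    (hR : map (Int.castRingHom (ZMod p)) P.R ≠ 0) :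
    (Ap P p).card * p ^ 2 ≤ Pd P * P.R.totalDegree * p ^ Fintype.card V := by
  let Z : Finset (V → ZMod p) := (Fintype.piFinset fun _ : V => (Finset.univ : Finset (ZMod p))).filter
    (fun z => eval z (map (Int.castRingHom (ZMod p)) P.R) = 0)
  have hZ : Z.card * p ≤ P.R.totalDegree * p ^ Fintype.card V := by
    have h := sz (map (Int.castRingHom (ZMod p)) P.R) hR (Finset.univ : Finset (ZMod p))
    rw [Finset.card_univ, ZMod.card] at h
    exact h.trans (Nat.mul_le_mul_right _ (totalDegree_map_le _ _))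
  have hev : ∀ z : V → ZMod p, eval z (map (Int.castRingHom (ZMod p)) P.R) = aeval z P.R := by
    intro z
    rw [eval_map, aeval_def]
    rfl
  have h1 : (Ap P p ×ˢ (Finset.univ : Finset (ZMod p))).card ≤ Pd P * Z.card := by
    refine Finset.card_le_mul_card_image_of_maps_to
      (f := fun q : (V → ZMod p) × ZMod p => Function.update (bb P q.1) P.v₀ q.2) ?_ _ ?_
    · intro q hq
      rw [Finset.mem_product] at hq
      have h := (Finset.mem_filter.mp hq.1).2.2
      refine Finset.mem_filter.mpr ⟨Fintype.mem_piFinset.mpr fun _ => Finset.mem_univ _, ?_⟩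
      rw [hev, ← h]
      apply aeval_R_congr
      intro v hv
      rw [Function.update_of_ne hv]
    · intro z _
      have h2 : ∀ q ∈ (Ap P p ×ˢ (Finset.univ : Finset (ZMod p))).filter
          (fun q : (V → ZMod p) × ZMod p => Function.update (bb P q.1) P.v₀ q.2 = z),
          q.2 = z P.v₀ ∧ bb P q.1 = Function.update z P.v₀ 0 ∧ aeval q.1 P.G = (0 : ZMod p) := by
        intro q hq
        rw [Finset.mem_filter, Finset.mem_product] at hq
        obtain ⟨⟨hq1, _⟩, hq2⟩ := hq
        have hq3 := (Finset.mem_filter.mp hq1).2.1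
        refine ⟨?_, ?_, hq3⟩
        · rw [← hq2, Function.update_self]
        · rw [← hq2]
          funext v
          by_cases hv : v = P.v₀
          · subst hv
            rw [Function.update_self, bb_v₀]
          · rw [Function.update_of_ne hv, Function.update_of_ne hv]
      refine le_trans (Finset.card_le_card_of_injOn (t := ((Ap P p ×ˢ
          (Finset.univ : Finset (ZMod p))).filter
          (fun q : (V → ZMod p) × ZMod p => Function.update (bb P q.1) P.v₀ q.2 = z)).image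
          (fun q => q.1 P.v₀)) (fun q => q.1 P.v₀) ?_ ?_) ?_
      · intro q hq
        exact Finset.mem_coe.mpr (Finset.mem_image_of_mem _ hq)
      · intro q hq q' hq' h
        obtain ⟨h3, h4, -⟩ := h2 q hq
        obtain ⟨h3', h4', -⟩ := h2 q' hq'
        refine Prod.ext ?_ (h3.trans h3'.symm)
        funext v
        have h5 := congrFun (h4.trans h4'.symm) v
        simp only [bb] at h5
        simp only at h
        rw [h] at h5
        exact sub_left_injective h5
      · refine roots_gp P (Function.update z P.v₀ 0) hg _ ?_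
        intro t ht
        obtain ⟨q, hq, rfl⟩ := Finset.mem_image.mp ht
        obtain ⟨-, h4, h5⟩ := h2 q hq
        rw [← h4, eval_gp_bb, h5]
  rw [Finset.card_product, Finset.card_univ, ZMod.card] at h1
  calc (Ap P p).card * p ^ 2 = (Ap P p).card * p * p := by ring
    _ ≤ Pd P * Z.card * p := Nat.mul_le_mul_right _ h1
    _ = Pd P * (Z.card * p) := by ring
    _ ≤ Pd P * (P.R.totalDegree * p ^ Fintype.card V) := Nat.mul_le_mul_left _ hZ
    _ = _ := by ring


lemma cast_ne {n : ℤ} (hn : n ≠ 0) {p : ℕ} (hp : n.natAbs < p) : (n : ZMod p) ≠ 0 := by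
  intro h
  rw [ZMod.intCast_zmod_eq_zero_iff_dvd] at h
  have h1 := Int.natAbs_dvd_natAbs.mpr h
  rw [Int.natAbs_natCast] at h1
  have h2 := Nat.le_of_dvd (Int.natAbs_pos.mpr hn) h1
  omega

omit [Fintype V] [DecidableEq V] in
lemma cast_aeval (p : ℕ) (F : MvPolynomial V ℤ) (a : V → ℤ) :
    (((eval a F : ℤ)) : ZMod p) = aeval (fun v => (a v : ZMod p)) F := by
  have h : ((Int.castRingHom (ZMod p)).comp (eval a : MvPolynomial V ℤ →+* ℤ)) =
      (aeval (fun v => (a v : ZMod p)) : MvPolynomial V ℤ →ₐ[ℤ] ZMod p).toRingHom := by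
    apply MvPolynomial.ringHom_ext
    · intro r
      simp
    · intro v
      simp
  exact congrFun (congrArg DFunLike.coe h) F

omit [Fintype V] [DecidableEq V] in
lemma hit_iff (P : Pair V) (p : ℕ) (a : V → ℤ) :
    Hit P p a ↔ aeval (fun v => (a v : ZMod p)) P.G = (0 : ZMod p) ∧
      aeval (bb P (fun v => (a v : ZMod p))) P.R = (0 : ZMod p) := by
  unfold Hit
  rw [← ZMod.intCast_zmod_eq_zero_iff_dvd, ← ZMod.intCast_zmod_eq_zero_iff_dvd, cast_aeval,
    cast_aeval]
  have h : (fun v => ((a v - P.c v * a P.v₀ : ℤ) : ZMod p)) = bb P (fun v => (a v : ZMod p)) := by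
    funext v
    simp [bb]
  rw [h]

open Classical in
/-- The vectors of the box in the class modulo `Q`, hit by the medium prime `p`. -/
lemma medium (P : Pair V) (p : ℕ) [Fact p.Prime] (hg : (Pg P : ZMod p) ≠ 0)
    (hR : map (Int.castRingHom (ZMod p)) P.R ≠ 0) (Q : ℕ) (hQ : 0 < Q) (hpQ : Nat.Coprime p Q)
    (r : V → ℤ) (B : ℕ) (hB : p * Q ≤ B) :
    (((box V B).filter (fun a => (∀ v, (Q : ℤ) ∣ a v - r v) ∧ Hit P p a)).card : ℝ) ≤
      (Pd P * P.R.totalDegree * 3 ^ Fintype.card V : ℝ) * ((B : ℝ) / Q) ^ Fintype.card V *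
        ((p : ℝ) ^ 2)⁻¹ := by
  have hp : 0 < p := (Fact.out : p.Prime).pos
  have hsub : (box V B).filter (fun a => (∀ v, (Q : ℤ) ∣ a v - r v) ∧ Hit P p a) ⊆
      (Ap P p).biUnion fun α => Fintype.piFinset fun v =>
        (Finset.Icc (-(B : ℤ)) B).filter fun n => (Q : ℤ) ∣ n - r v ∧ (n : ZMod p) = α v := by
    intro a ha
    obtain ⟨h1, h2, h3⟩ := Finset.mem_filter.mp ha
    rw [hit_iff] at h3
    refine Finset.mem_biUnion.mpr ⟨fun v => (a v : ZMod p),
      Finset.mem_filter.mpr ⟨Finset.mem_univ _, h3⟩, ?_⟩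
    exact Fintype.mem_piFinset.mpr fun v =>
      Finset.mem_filter.mpr ⟨Fintype.mem_piFinset.mp h1 v, h2 v, rfl⟩
  have hcl : ∀ (α : V → ZMod p) (v : V), ((Finset.Icc (-(B : ℤ)) B).filter fun n =>
      (Q : ℤ) ∣ n - r v ∧ (n : ZMod p) = α v).card ≤ 2 * B / (p * Q) + 1 := by
    intro α v
    refine cls B (p * Q) (Nat.mul_pos hp hQ) _ (fun n hn => (Finset.mem_filter.mp hn).1) ?_
    intro n hn n' hn'
    obtain ⟨-, h1, h2⟩ := Finset.mem_filter.mp hn
    obtain ⟨-, h1', h2'⟩ := Finset.mem_filter.mp hn'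
    rw [Nat.cast_mul]
    apply IsCoprime.mul_dvd
    · exact Nat.isCoprime_iff_coprime.mpr hpQ
    · rw [← ZMod.intCast_zmod_eq_zero_iff_dvd, Int.cast_sub, h2, h2', sub_self]
    · have := dvd_sub h1 h1'
      rwa [show n - r v - (n' - r v) = n - n' by ring] at this
  have hreal : ((2 * B / (p * Q) + 1 : ℕ) : ℝ) ≤ 3 * ((B : ℝ) / Q) / p := by
    have h1 : ((2 * B / (p * Q) : ℕ) : ℝ) ≤ ((2 * B : ℕ) : ℝ) / ((p * Q : ℕ) : ℝ) :=
      Nat.cast_div_le
    have hp' : (0 : ℝ) < p := by exact_mod_cast hp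
    have hQ' : (0 : ℝ) < Q := by exact_mod_cast hQ
    have h2 : (1 : ℝ) ≤ ((B : ℝ) / Q) / p := by
      rw [div_div, le_div_iff₀ (by positivity), one_mul]
      have : ((p * Q : ℕ) : ℝ) ≤ B := by exact_mod_cast hB
      push_cast at this
      linarith [mul_comm (p : ℝ) Q]
    have h3 : ((2 * B : ℕ) : ℝ) / ((p * Q : ℕ) : ℝ) = 2 * (((B : ℝ) / Q) / p) := by
      push_cast
      field_simp
    push_cast
    push_cast at h1 h3
    rw [h3] at h1
    have h4 : 3 * ((B : ℝ) / Q) / p = 3 * (((B : ℝ) / Q) / p) := by ring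
    rw [h4]
    linarith
  have h1 : ((box V B).filter (fun a => (∀ v, (Q : ℤ) ∣ a v - r v) ∧ Hit P p a)).card ≤
      (Ap P p).card * (2 * B / (p * Q) + 1) ^ Fintype.card V := by
    refine (Finset.card_le_card hsub).trans ?_
    refine Finset.card_biUnion_le_card_mul _ _ _ ?_
    intro α _
    rw [Fintype.card_piFinset]
    calc _ ≤ ∏ _v : V, (2 * B / (p * Q) + 1) := Finset.prod_le_prod' fun v _ => hcl α v
      _ = _ := by rw [Finset.prod_const, Finset.card_univ]
  have h2 : (((Ap P p).card : ℝ)) * (p : ℝ) ^ 2 ≤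
      (Pd P * P.R.totalDegree) * (p : ℝ) ^ Fintype.card V := by
    exact_mod_cast card_Ap P p hg hR
  have hp' : (0 : ℝ) < p := by exact_mod_cast hp
  calc (((box V B).filter (fun a => (∀ v, (Q : ℤ) ∣ a v - r v) ∧ Hit P p a)).card : ℝ)
      ≤ (Ap P p).card * ((2 * B / (p * Q) + 1 : ℕ) : ℝ) ^ Fintype.card V := by exact_mod_cast h1
    _ ≤ (Ap P p).card * (3 * ((B : ℝ) / Q) / p) ^ Fintype.card V := by
        gcongr
    _ = ((Ap P p).card * (p : ℝ) ^ 2) * ((3 * ((B : ℝ) / Q) / p) ^ Fintype.card V *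
        ((p : ℝ) ^ 2)⁻¹) := by
        field_simp
    _ ≤ ((Pd P * P.R.totalDegree) * (p : ℝ) ^ Fintype.card V) *
        ((3 * ((B : ℝ) / Q) / p) ^ Fintype.card V * ((p : ℝ) ^ 2)⁻¹) := by
        gcongr
    _ = _ := by
        rw [div_pow, mul_pow]
        field_simp

open Classical in
lemma sum_medium (P : Pair V) (M Q B : ℕ) (hM : 0 < M) (hQ : 0 < Q)
    (hg : ∀ p : ℕ, p.Prime → M < p → (Pg P : ZMod p) ≠ 0)
    (hR : ∀ p : ℕ, p.Prime → M < p → map (Int.castRingHom (ZMod p)) P.R ≠ 0)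
    (hpQ : ∀ p : ℕ, p.Prime → p ∣ Q → p ≤ M) (r : V → ℤ) :
    (((box V B).filter (fun a => (∀ v, (Q : ℤ) ∣ a v - r v) ∧
        ∃ p : ℕ, p.Prime ∧ M < p ∧ p * Q ≤ B ∧ Hit P p a)).card : ℝ) ≤
      (Pd P * P.R.totalDegree * 3 ^ Fintype.card V : ℝ) / M * ((B : ℝ) / Q) ^ Fintype.card V := by
  set K : ℝ := (Pd P * P.R.totalDegree * 3 ^ Fintype.card V : ℝ) with hK
  have hK0 : 0 ≤ K := by positivity
  have hsub : (box V B).filter (fun a => (∀ v, (Q : ℤ) ∣ a v - r v) ∧
        ∃ p : ℕ, p.Prime ∧ M < p ∧ p * Q ≤ B ∧ Hit P p a) ⊆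
      ((Finset.Ioc M B).filter (fun p => p.Prime ∧ p * Q ≤ B)).biUnion fun p =>
        (box V B).filter (fun a => (∀ v, (Q : ℤ) ∣ a v - r v) ∧ Hit P p a) := by
    intro a ha
    obtain ⟨h1, h2, p, hp, hMp, hpB, h3⟩ := Finset.mem_filter.mp ha
    refine Finset.mem_biUnion.mpr ⟨p, Finset.mem_filter.mpr ⟨Finset.mem_Ioc.mpr ⟨hMp, ?_⟩, hp, hpB⟩,
      Finset.mem_filter.mpr ⟨h1, h2, h3⟩⟩
    exact (Nat.le_mul_of_pos_right p hQ).trans hpB
  have h1 : (((box V B).filter (fun a => (∀ v, (Q : ℤ) ∣ a v - r v) ∧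
        ∃ p : ℕ, p.Prime ∧ M < p ∧ p * Q ≤ B ∧ Hit P p a)).card : ℝ) ≤
      ∑ p ∈ (Finset.Ioc M B).filter (fun p => p.Prime ∧ p * Q ≤ B),
        K * ((B : ℝ) / Q) ^ Fintype.card V * ((p : ℝ) ^ 2)⁻¹ := by
    calc _ ≤ (((∑ p ∈ (Finset.Ioc M B).filter (fun p => p.Prime ∧ p * Q ≤ B),
        ((box V B).filter (fun a => (∀ v, (Q : ℤ) ∣ a v - r v) ∧ Hit P p a)).card : ℕ)) : ℝ) := by
          exact_mod_cast (Finset.card_le_card hsub).trans Finset.card_biUnion_le
      _ = ∑ p ∈ (Finset.Ioc M B).filter (fun p => p.Prime ∧ p * Q ≤ B),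
        (((box V B).filter (fun a => (∀ v, (Q : ℤ) ∣ a v - r v) ∧ Hit P p a)).card : ℝ) := by
          push_cast
          rfl
      _ ≤ _ := by
          apply Finset.sum_le_sum
          intro p hp
          obtain ⟨hp1, hp2, hp3⟩ := Finset.mem_filter.mp hp
          have hMp := (Finset.mem_Ioc.mp hp1).1
          have : Fact p.Prime := ⟨hp2⟩
          refine medium P p (hg p hp2 hMp) (hR p hp2 hMp) Q hQ ?_ r B hp3
          rw [Nat.Prime.coprime_iff_not_dvd hp2]
          intro h
          have := hpQ p hp2 h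
          omega
  refine h1.trans ?_
  rw [← Finset.mul_sum]
  have h2 : ∑ p ∈ (Finset.Ioc M B).filter (fun p => p.Prime ∧ p * Q ≤ B), ((p : ℝ) ^ 2)⁻¹ ≤
      (M : ℝ)⁻¹ := by
    calc _ ≤ ∑ p ∈ Finset.Ioc M B, ((p : ℝ) ^ 2)⁻¹ := by
          apply Finset.sum_le_sum_of_subset_of_nonneg (Finset.filter_subset _ _)
          intro i _ _
          positivity
      _ ≤ (M : ℝ)⁻¹ := by
          rcases le_total M B with h | h
          · refine (sum_Ioc_inv_sq_le_sub hM.ne' h).trans ?_
            have : (0 : ℝ) ≤ (B : ℝ)⁻¹ := by positivity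
            linarith
          · rw [Finset.Ioc_eq_empty (by omega), Finset.sum_empty]
            positivity
  calc _ ≤ K * ((B : ℝ) / Q) ^ Fintype.card V * (M : ℝ)⁻¹ := by gcongr
    _ = _ := by ring


/-- The number of large primes dividing an integer. -/
lemma primes_card (n Q B C₂ r : ℕ) (hn : n ≠ 0) (hB : 0 < B) (hnC : n ≤ C₂ * B ^ r)
    (hlarge : Q ^ (r + 1) * C₂ < B) :
    (n.primeFactors.filter (fun p => B < p * Q)).card ≤ r := by
  by_contra hcon
  push Not at hcon
  obtain ⟨S, hS, hcard⟩ := Finset.exists_subset_card_eq (show r + 1 ≤ _ from hcon)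
  have h1 : ∏ p ∈ S, p ∣ n :=
    (Finset.prod_dvd_prod_of_subset _ _ _ (hS.trans (Finset.filter_subset _ _))).trans
      (Nat.prod_primeFactors_dvd n)
  have h2 : ∏ p ∈ S, p ≤ n := Nat.le_of_dvd (Nat.pos_of_ne_zero hn) h1
  have h3 : B ^ (r + 1) ≤ ∏ p ∈ S, (p * Q) := by
    rw [← hcard, ← Finset.prod_const]
    exact Finset.prod_le_prod' fun p hp => (Finset.mem_filter.mp (hS hp)).2.le
  rw [Finset.prod_mul_distrib, Finset.prod_const, hcard] at h3
  have h4 : B ^ (r + 1) ≤ C₂ * B ^ r * Q ^ (r + 1) :=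
    h3.trans (Nat.mul_le_mul_right _ (h2.trans hnC))
  have h5 : B ^ r * B ≤ B ^ r * (Q ^ (r + 1) * C₂) := by
    calc B ^ r * B = B ^ (r + 1) := (pow_succ _ _).symm
      _ ≤ _ := h4
      _ = _ := by ring
  have h6 := Nat.le_of_mul_le_mul_left h5 (pow_pos hB r)
  omega

/-- The bound for the coordinates of `b`. -/
def Kc (P : Pair V) : ℕ := 1 + ∑ v, (P.c v).natAbs

lemma bb_mem (P : Pair V) (B : ℕ) (a : V → ℤ) (ha : a ∈ box V B) (v : V) :
    bb P a v ∈ Finset.Icc (-((Kc P * B : ℕ) : ℤ)) ((Kc P * B : ℕ) : ℤ) := by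
  have h1 := Finset.mem_Icc.mp (Fintype.mem_piFinset.mp ha v)
  have h2 := Finset.mem_Icc.mp (Fintype.mem_piFinset.mp ha P.v₀)
  have h3 : |a v| ≤ B := abs_le.mpr h1
  have h4 : |a P.v₀| ≤ B := abs_le.mpr h2
  have h5 : (P.c v).natAbs ≤ ∑ v, (P.c v).natAbs :=
    Finset.single_le_sum (f := fun v => (P.c v).natAbs) (fun _ _ => Nat.zero_le _)
      (Finset.mem_univ v)
  have h6 : |P.c v| ≤ ((∑ v, (P.c v).natAbs : ℕ) : ℤ) := by
    rw [Int.abs_eq_natAbs]
    exact_mod_cast h5
  rw [Finset.mem_Icc, ← abs_le]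
  have hB0 : (0 : ℤ) ≤ B := Int.natCast_nonneg B
  calc |bb P a v| ≤ |a v| + |P.c v * a P.v₀| := by
        unfold bb
        exact abs_sub _ _
    _ = |a v| + |P.c v| * |a P.v₀| := by rw [abs_mul]
    _ ≤ B + ((∑ v, (P.c v).natAbs : ℕ) : ℤ) * B := by
        gcongr
    _ = ((Kc P * B : ℕ) : ℤ) := by
        unfold Kc
        push_cast
        ring

lemma card_Icc_sym (n : ℕ) : (Finset.Icc (-(n : ℤ)) n).card = 2 * n + 1 := by
  rw [Int.card_Icc]
  omega

omit [DecidableEq V] in
/-- A polynomial bound for the values. -/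
lemma eval_bound (F : MvPolynomial V ℤ) (K : ℕ) (hK : 1 ≤ K) (b : V → ℤ) (hb : ∀ v, (b v).natAbs ≤ K) :
    (eval b F).natAbs ≤ (∑ α ∈ F.support, (F.coeff α).natAbs) * K ^ F.totalDegree := by
  rw [eval_eq, Finset.sum_mul]
  refine (Int.natAbs_sum_le _ _).trans (Finset.sum_le_sum fun α hα => ?_)
  rw [Int.natAbs_mul]
  refine Nat.mul_le_mul_left _ ?_
  have h1 : (∏ i ∈ α.support, b i ^ α i).natAbs = ∏ i ∈ α.support, (b i).natAbs ^ α i := by
    rw [← Int.natAbsHom_apply, map_prod]
    refine Finset.prod_congr rfl fun i _ => ?_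
    rw [map_pow]
    rfl
  rw [h1]
  calc ∏ i ∈ α.support, (b i).natAbs ^ α i ≤ ∏ i ∈ α.support, K ^ α i :=
        Finset.prod_le_prod' fun i _ => Nat.pow_le_pow_left (hb i) _
    _ = K ^ (∑ i ∈ α.support, α i) := by rw [Finset.prod_pow_eq_pow_sum]
    _ ≤ K ^ F.totalDegree := Nat.pow_le_pow_right hK (le_totalDegree hα)

open Classical in
/-- The vectors with `R b = 0`. -/
lemma card_a (P : Pair V) (B : ℕ) :
    ((box V B).filter (fun a => eval (bb P a) P.R = 0)).card ≤
      P.R.totalDegree * (2 * (Kc P * B) + 1) ^ (Fintype.card V - 1) := by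
  have hN : 0 < Fintype.card V := Fintype.card_pos_iff.mpr ⟨P.v₀⟩
  have h := sz P.R P.hR0 (Finset.Icc (-((Kc P * B : ℕ) : ℤ)) ((Kc P * B : ℕ) : ℤ))
  rw [card_Icc_sym] at h
  have h1 : ((Fintype.piFinset fun _ : V => Finset.Icc (-((Kc P * B : ℕ) : ℤ))
      ((Kc P * B : ℕ) : ℤ)).filter (fun a => eval a P.R = 0)).card ≤
      P.R.totalDegree * (2 * (Kc P * B) + 1) ^ (Fintype.card V - 1) := by
    apply Nat.le_of_mul_le_mul_right (c := 2 * (Kc P * B) + 1) _ (Nat.succ_pos _)
    refine h.trans (le_of_eq ?_)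
    rw [mul_assoc, ← pow_succ, Nat.sub_add_cancel hN]
  refine le_trans ?_ h1
  refine Finset.card_le_card_of_injOn (fun a => Function.update (bb P a) P.v₀ (a P.v₀)) ?_ ?_
  · intro a ha
    obtain ⟨h2, h3⟩ := Finset.mem_filter.mp (Finset.mem_coe.mp ha)
    refine Finset.mem_coe.mpr (Finset.mem_filter.mpr ⟨Fintype.mem_piFinset.mpr fun v => ?_, ?_⟩)
    · by_cases hv : v = P.v₀
      · subst hv
        dsimp only
        rw [Function.update_self]
        have h4 := Finset.mem_Icc.mp (Fintype.mem_piFinset.mp h2 P.v₀)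
        have h5 : (B : ℤ) ≤ ((Kc P * B : ℕ) : ℤ) := by
          have : B ≤ Kc P * B := Nat.le_mul_of_pos_left _ (by unfold Kc; omega)
          exact_mod_cast this
        rw [Finset.mem_Icc]
        constructor <;> linarith [h4.1, h4.2]
      · dsimp only
        rw [Function.update_of_ne hv]
        exact bb_mem P B a h2 v
    · rw [← h3]
      have := aeval_R_congr P (Function.update (bb P a) P.v₀ (a P.v₀)) (bb P a)
        (fun v hv => Function.update_of_ne hv _ _)
      simpa [aeval_def] using this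
  · intro a _ a' _ h
    have h0 : a P.v₀ = a' P.v₀ := by
      have := congrFun h P.v₀
      simpa using this
    funext v
    by_cases hv : v = P.v₀
    · rw [hv, h0]
    · have := congrFun h v
      simp only [Function.update_of_ne hv, bb, h0] at this
      linarith

open Classical in
/-- The vectors with `R b ≠ 0` and a large prime. -/
lemma card_b (P : Pair V) (M Q B C₂ r : ℕ) (hB : 0 < B)
    (hg : ∀ p : ℕ, p.Prime → M < p → (Pg P : ZMod p) ≠ 0)
    (hC : ∀ b : V → ℤ, (∀ v, (b v).natAbs ≤ Kc P * B) → (eval b P.R).natAbs ≤ C₂ * B ^ r)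
    (hlarge : Q ^ (r + 1) * C₂ < B) :
    ((box V B).filter (fun a => eval (bb P a) P.R ≠ 0 ∧
        ∃ p : ℕ, p.Prime ∧ M < p ∧ B < p * Q ∧ Hit P p a)).card ≤
      (r * (Pd P * (2 * Q + 1))) * (2 * (Kc P * B) + 1) ^ (Fintype.card V - 1) := by
  let T : Finset (V → ℤ) := Fintype.piFinset fun v => if v = P.v₀ then {0} else
    Finset.Icc (-((Kc P * B : ℕ) : ℤ)) ((Kc P * B : ℕ) : ℤ)
  have hT : T.card = (2 * (Kc P * B) + 1) ^ (Fintype.card V - 1) := by
    rw [Fintype.card_piFinset, ← Finset.mul_prod_erase _ _ (Finset.mem_univ P.v₀), if_pos rfl,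
      Finset.card_singleton, one_mul]
    rw [Finset.prod_congr rfl (g := fun _ => 2 * (Kc P * B) + 1), Finset.prod_const,
      Finset.card_erase_of_mem (Finset.mem_univ _), Finset.card_univ]
    intro v hv
    rw [if_neg (Finset.ne_of_mem_erase hv), card_Icc_sym]
  rw [← hT]
  refine Finset.card_le_mul_card_image_of_maps_to (f := fun a => bb P a) ?_ _ ?_
  · intro a ha
    obtain ⟨h2, -⟩ := Finset.mem_filter.mp ha
    refine Fintype.mem_piFinset.mpr fun v => ?_
    split_ifs with hv
    · rw [hv, bb_v₀, Finset.mem_singleton]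
    · exact bb_mem P B a h2 v
  · intro b hb
    by_cases hb0 : eval b P.R = 0
    · rw [Finset.card_eq_zero.mpr]
      · exact Nat.zero_le _
      · rw [Finset.filter_eq_empty_iff]
        intro a ha h
        exact (Finset.mem_filter.mp ha).2.1 (by rw [h]; exact hb0)
    · let S := (eval b P.R).natAbs.primeFactors.filter (fun p => B < p * Q)
      have hS : S.card ≤ r := by
        refine primes_card _ Q B C₂ r (Int.natAbs_ne_zero.mpr hb0) hB (hC b ?_) hlarge
        intro v
        have h := Fintype.mem_piFinset.mp hb v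
        split_ifs at h with hv
        · rw [Finset.mem_singleton.mp h]
          exact Nat.zero_le _
        · have h1 := Finset.mem_Icc.mp h
          omega
      -- the values `t`
      have hcount : ∀ p ∈ S, ((Finset.Icc (-(B : ℤ)) B).filter (fun t : ℤ => M < p ∧
          Polynomial.eval (t : ZMod p) (gp P (fun v => (b v : ZMod p))) = 0)).card ≤
          Pd P * (2 * Q + 1) := by
        intro p hp
        obtain ⟨hp1, hp2⟩ := Finset.mem_filter.mp hp
        have hpp : p.Prime := Nat.prime_of_mem_primeFactors hp1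
        have : Fact p.Prime := ⟨hpp⟩
        by_cases hMp : M < p
        swap
        · rw [Finset.card_eq_zero.mpr]
          · exact Nat.zero_le _
          · rw [Finset.filter_eq_empty_iff]
            intro t _ h
            exact hMp h.1
        set U := (Finset.Icc (-(B : ℤ)) B).filter (fun t : ℤ => M < p ∧
          Polynomial.eval (t : ZMod p) (gp P (fun v => (b v : ZMod p))) = 0) with hU
        have h1 : (U.image (fun t : ℤ => (t : ZMod p))).card ≤ Pd P := by
          refine roots_gp P (fun v => (b v : ZMod p)) (hg p hpp hMp) _ ?_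
          intro t ht
          obtain ⟨t', ht', rfl⟩ := Finset.mem_image.mp ht
          exact (Finset.mem_filter.mp ht').2.2
        have h2 : U.card ≤ (2 * Q + 1) * (U.image (fun t : ℤ => (t : ZMod p))).card := by
          refine Finset.card_le_mul_card_image _ _ ?_
          intro z _
          have h3 : (U.filter (fun t : ℤ => (t : ZMod p) = z)).card ≤ 2 * B / p + 1 := by
            refine cls B p hpp.pos _ ?_ ?_
            · intro n hn
              exact (Finset.mem_filter.mp (Finset.mem_filter.mp hn).1).1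
            · intro n hn n' hn'
              rw [← ZMod.intCast_zmod_eq_zero_iff_dvd, Int.cast_sub, (Finset.mem_filter.mp hn).2,
                (Finset.mem_filter.mp hn').2, sub_self]
          have h4 : 2 * B / p ≤ 2 * Q := by
            apply Nat.div_le_of_le_mul
            nlinarith
          omega
        calc U.card ≤ _ := h2
          _ ≤ (2 * Q + 1) * Pd P := Nat.mul_le_mul_left _ h1
          _ = _ := by ring
      have hsub : (((box V B).filter (fun a => eval (bb P a) P.R ≠ 0 ∧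
          ∃ p : ℕ, p.Prime ∧ M < p ∧ B < p * Q ∧ Hit P p a)).filter (fun a => bb P a = b)).card ≤
          (S.biUnion fun p => (Finset.Icc (-(B : ℤ)) B).filter (fun t : ℤ => M < p ∧
          Polynomial.eval (t : ZMod p) (gp P (fun v => (b v : ZMod p))) = 0)).card := by
        refine Finset.card_le_card_of_injOn (fun a => a P.v₀) ?_ ?_
        · intro a ha
          obtain ⟨ha1, hab⟩ := Finset.mem_filter.mp (Finset.mem_coe.mp ha)
          obtain ⟨hbox, hne, p, hp, hMp, hBp, hHit⟩ := Finset.mem_filter.mp ha1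
          refine Finset.mem_coe.mpr (Finset.mem_biUnion.mpr ⟨p, Finset.mem_filter.mpr ⟨?_, hBp⟩,
            Finset.mem_filter.mpr ⟨Fintype.mem_piFinset.mp hbox P.v₀, hMp, ?_⟩⟩)
          · rw [Nat.mem_primeFactors]
            refine ⟨hp, ?_, Int.natAbs_ne_zero.mpr hb0⟩
            have h := hHit.2
            have h' : eval (fun v => a v - P.c v * a P.v₀) P.R = eval b P.R := by
              rw [← hab]
              rfl
            rw [h'] at h
            exact Int.natCast_dvd.mp h
          · have h := ((hit_iff P p a).mp hHit).1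
            rw [← eval_gp_bb P (fun v => (a v : ZMod p))] at h
            have h' : bb P (fun v => (a v : ZMod p)) = fun v => (b v : ZMod p) := by
              rw [← hab]
              funext v
              simp [bb]
            rw [h'] at h
            exact h
        · intro a ha a' ha' h
          have hab := (Finset.mem_filter.mp (Finset.mem_coe.mp ha)).2
          have hab' := (Finset.mem_filter.mp (Finset.mem_coe.mp ha')).2
          have h1 : a P.v₀ = a' P.v₀ := h
          funext v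
          have h2 := congrFun (hab.trans hab'.symm) v
          simp only [bb, h1] at h2
          linarith
      refine hsub.trans ?_
      refine (Finset.card_biUnion_le_card_mul _ _ _ hcount).trans ?_
      exact Nat.mul_le_mul_right _ hS


open Classical in
/-- The sieve for one pair. -/
lemma one_pair (P : Pair V) :
    ∃ (C : ℝ) (M₀ : ℕ), 0 < M₀ ∧ ∀ M : ℕ, M₀ ≤ M → ∀ Q : ℕ, 0 < Q →
      (∀ p : ℕ, p.Prime → p ∣ Q → p ≤ M) → ∀ r : V → ℤ, ∀ᶠ B : ℕ in Filter.atTop,
      (((box V B).filter (fun a => (∀ v, (Q : ℤ) ∣ a v - r v) ∧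
        ∃ p : ℕ, p.Prime ∧ M < p ∧ Hit P p a)).card : ℝ) ≤
        C / M * ((B : ℝ) / Q) ^ Fintype.card V := by
  have hN : 0 < Fintype.card V := Fintype.card_pos_iff.mpr ⟨P.v₀⟩
  obtain ⟨α₀, hα₀⟩ : ∃ α, P.R.coeff α ≠ 0 := by
    by_contra hcon
    push Not at hcon
    exact P.hR0 (MvPolynomial.ext _ _ fun α => by rw [hcon, coeff_zero])
  refine ⟨(Pd P * P.R.totalDegree * 3 ^ Fintype.card V : ℝ) + 1,
    (Pg P).natAbs + (P.R.coeff α₀).natAbs + 1, Nat.succ_pos _, ?_⟩
  intro M hM Q hQ hpQ r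
  have hM0 : 0 < M := by omega
  have hg : ∀ p : ℕ, p.Prime → M < p → (Pg P : ZMod p) ≠ 0 := by
    intro p _ hp
    exact cast_ne (Pg_ne P) (by omega)
  have hR : ∀ p : ℕ, p.Prime → M < p → map (Int.castRingHom (ZMod p)) P.R ≠ 0 := by
    intro p _ hp h
    have h1 : (map (Int.castRingHom (ZMod p)) P.R).coeff α₀ = 0 := by rw [h, coeff_zero]
    rw [coeff_map] at h1
    exact cast_ne hα₀ (p := p) (by omega) h1
  set rr := P.R.totalDegree with hrr
  set C₂ := (∑ α ∈ P.R.support, (P.R.coeff α).natAbs) * Kc P ^ rr with hC₂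
  set E := rr + rr * (Pd P * (2 * Q + 1)) with hE
  filter_upwards [Filter.eventually_ge_atTop 1, Filter.eventually_gt_atTop (Q ^ (rr + 1) * C₂),
    Filter.eventually_ge_atTop (E * (3 * Kc P) ^ (Fintype.card V - 1) * M * Q ^ Fintype.card V)]
    with B hB1 hB2 hB3
  have hK1 : 1 ≤ Kc P := by unfold Kc; omega
  have hC : ∀ b : V → ℤ, (∀ v, (b v).natAbs ≤ Kc P * B) → (eval b P.R).natAbs ≤ C₂ * B ^ rr := by
    intro b hb
    refine (eval_bound P.R (Kc P * B) (Nat.mul_pos hK1 hB1) b hb).trans (le_of_eq ?_)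
    rw [hC₂, mul_pow]
    ring
  have h1 := sum_medium P M Q B hM0 hQ hg hR hpQ r
  have h2 := card_a P B
  have h3 := card_b P M Q B C₂ rr hB1 hg hC hB2
  have hsub : (box V B).filter (fun a => (∀ v, (Q : ℤ) ∣ a v - r v) ∧
        ∃ p : ℕ, p.Prime ∧ M < p ∧ Hit P p a) ⊆
      (box V B).filter (fun a => (∀ v, (Q : ℤ) ∣ a v - r v) ∧
        ∃ p : ℕ, p.Prime ∧ M < p ∧ p * Q ≤ B ∧ Hit P p a) ∪
      ((box V B).filter (fun a => eval (bb P a) P.R = 0) ∪
      (box V B).filter (fun a => eval (bb P a) P.R ≠ 0 ∧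
        ∃ p : ℕ, p.Prime ∧ M < p ∧ B < p * Q ∧ Hit P p a)) := by
    intro a ha
    obtain ⟨hbox, hcl, p, hp, hMp, hH⟩ := Finset.mem_filter.mp ha
    rw [Finset.mem_union, Finset.mem_union, Finset.mem_filter, Finset.mem_filter,
      Finset.mem_filter]
    rcases le_or_gt (p * Q) B with h | h
    · exact Or.inl ⟨hbox, hcl, p, hp, hMp, h, hH⟩
    · by_cases h0 : eval (bb P a) P.R = 0
      · exact Or.inr (Or.inl ⟨hbox, h0⟩)
      · exact Or.inr (Or.inr ⟨hbox, h0, p, hp, hMp, h, hH⟩)
  have h4 : (((box V B).filter (fun a => (∀ v, (Q : ℤ) ∣ a v - r v) ∧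
        ∃ p : ℕ, p.Prime ∧ M < p ∧ Hit P p a)).card : ℝ) ≤
      (((box V B).filter (fun a => (∀ v, (Q : ℤ) ∣ a v - r v) ∧
        ∃ p : ℕ, p.Prime ∧ M < p ∧ p * Q ≤ B ∧ Hit P p a)).card : ℝ) +
      ((E * (2 * (Kc P * B) + 1) ^ (Fintype.card V - 1) : ℕ) : ℝ) := by
    have h5 : ((box V B).filter (fun a => (∀ v, (Q : ℤ) ∣ a v - r v) ∧
        ∃ p : ℕ, p.Prime ∧ M < p ∧ Hit P p a)).card ≤
      ((box V B).filter (fun a => (∀ v, (Q : ℤ) ∣ a v - r v) ∧
        ∃ p : ℕ, p.Prime ∧ M < p ∧ p * Q ≤ B ∧ Hit P p a)).card +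
      (E * (2 * (Kc P * B) + 1) ^ (Fintype.card V - 1)) := by
      refine (Finset.card_le_card hsub).trans ((Finset.card_union_le _ _).trans
        (Nat.add_le_add_left ((Finset.card_union_le _ _).trans ?_) _))
      rw [hE, Nat.add_mul]
      exact Nat.add_le_add h2 h3
    exact_mod_cast h5
  have hBr : (1 : ℝ) ≤ B := by exact_mod_cast hB1
  have hMr : (0 : ℝ) < M := by exact_mod_cast hM0
  have hQr : (0 : ℝ) < Q := by exact_mod_cast hQ
  have hKr : (1 : ℝ) ≤ Kc P := by exact_mod_cast hK1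
  have h5 : ((E * (2 * (Kc P * B) + 1) ^ (Fintype.card V - 1) : ℕ) : ℝ) ≤
      1 / M * ((B : ℝ) / Q) ^ Fintype.card V := by
    have h6 : (2 * ((Kc P : ℝ) * B) + 1) ≤ 3 * Kc P * B := by
      nlinarith
    have h7 : ((E * (2 * (Kc P * B) + 1) ^ (Fintype.card V - 1) : ℕ) : ℝ) ≤
        E * (3 * Kc P) ^ (Fintype.card V - 1) * (B : ℝ) ^ (Fintype.card V - 1) := by
      push_cast
      rw [mul_assoc, ← mul_pow]
      gcongr
    refine h7.trans ?_
    have h8 : (E : ℝ) * (3 * Kc P) ^ (Fintype.card V - 1) * M * (Q : ℝ) ^ Fintype.card V ≤ B := by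
      exact_mod_cast hB3
    have h9 : (B : ℝ) ^ Fintype.card V = B * (B : ℝ) ^ (Fintype.card V - 1) := by
      rw [← pow_succ', Nat.sub_add_cancel hN]
    rw [div_pow, h9, one_div, inv_mul_eq_div, div_div, le_div_iff₀ (by positivity)]
    calc (E : ℝ) * (3 * Kc P) ^ (Fintype.card V - 1) * (B : ℝ) ^ (Fintype.card V - 1) *
          ((Q : ℝ) ^ Fintype.card V * M)
        = ((E : ℝ) * (3 * Kc P) ^ (Fintype.card V - 1) * M * (Q : ℝ) ^ Fintype.card V) *
          (B : ℝ) ^ (Fintype.card V - 1) := by ring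
      _ ≤ B * (B : ℝ) ^ (Fintype.card V - 1) := by gcongr
  calc _ ≤ _ := h4
    _ ≤ (Pd P * rr * 3 ^ Fintype.card V : ℝ) / M * ((B : ℝ) / Q) ^ Fintype.card V +
        1 / M * ((B : ℝ) / Q) ^ Fintype.card V := add_le_add h1 h5
    _ = _ := by ring

end Pool.Agent.K9h37.PP.Sv

namespace Pool.Agent.K9h37.PP

open Classical in
theorem sieve : SIEVE := by
  intro V _ _ s hs
  induction s, hs using Set.Finite.induction_on with
  | empty =>
    refine ⟨0, 1, one_pos, ?_⟩
    intro M hM Q hQ hpQ r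
    filter_upwards with B
    rw [Finset.card_eq_zero.mpr]
    · simp
    · rw [Finset.filter_eq_empty_iff]
      rintro a _ ⟨-, p, -, -, P, hP, -⟩
      exact hP
  | insert _ _ ih =>
    rename_i P s _ _
    obtain ⟨C₁, M₁, hM₁, h₁⟩ := ih
    obtain ⟨C₂, M₂, hM₂, h₂⟩ := Sv.one_pair P
    refine ⟨C₁ + C₂, M₁ + M₂, by omega, ?_⟩
    intro M hM Q hQ hpQ r
    filter_upwards [h₁ M (by omega) Q hQ hpQ r, h₂ M (by omega) Q hQ hpQ r] with B hB₁ hB₂
    have hsub : (box V B).filter (fun a => (∀ v, (Q : ℤ) ∣ a v - r v) ∧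
        ∃ p : ℕ, p.Prime ∧ M < p ∧ ∃ P' ∈ insert P s, Hit P' p a) ⊆
      (box V B).filter (fun a => (∀ v, (Q : ℤ) ∣ a v - r v) ∧
        ∃ p : ℕ, p.Prime ∧ M < p ∧ ∃ P ∈ s, Hit P p a) ∪
      (box V B).filter (fun a => (∀ v, (Q : ℤ) ∣ a v - r v) ∧
        ∃ p : ℕ, p.Prime ∧ M < p ∧ Hit P p a) := by
      intro a ha
      obtain ⟨hbox, hcl, p, hp, hMp, P', hP', hH⟩ := Finset.mem_filter.mp ha
      rw [Finset.mem_union, Finset.mem_filter, Finset.mem_filter]
      rcases hP' with rfl | hP'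
      · exact Or.inr ⟨hbox, hcl, p, hp, hMp, hH⟩
      · exact Or.inl ⟨hbox, hcl, p, hp, hMp, P', hP', hH⟩
    have h3 := (Finset.card_le_card hsub).trans (Finset.card_union_le _ _)
    have h4 : (((box V B).filter (fun a => (∀ v, (Q : ℤ) ∣ a v - r v) ∧
        ∃ p : ℕ, p.Prime ∧ M < p ∧ ∃ P' ∈ insert P s, Hit P' p a)).card : ℝ) ≤
      (((box V B).filter (fun a => (∀ v, (Q : ℤ) ∣ a v - r v) ∧
        ∃ p : ℕ, p.Prime ∧ M < p ∧ ∃ P ∈ s, Hit P p a)).card : ℝ) +
      (((box V B).filter (fun a => (∀ v, (Q : ℤ) ∣ a v - r v) ∧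
        ∃ p : ℕ, p.Prime ∧ M < p ∧ Hit P p a)).card : ℝ) := by exact_mod_cast h3
    calc _ ≤ _ := h4
      _ ≤ C₁ / M * ((B : ℝ) / Q) ^ Fintype.card V + C₂ / M * ((B : ℝ) / Q) ^ Fintype.card V :=
        add_le_add hB₁ hB₂
      _ = _ := by ring

end Pool.Agent.K9h37.PP
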