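import Pool.Agent.K9h37.PP.Stm2
import Pool.Agent.K9h37.PP.Asm
import Pool.Agent.K9h37.PP.Codim
import Pool.Agent.K9h37.PP.Sieve
import Pool.Agent.K9h37.PP.Base

/-! Project PP (helper37), leaf ASM2 (helper71): the density is the product of the local
densities. -/

set_option autoImplicit false

namespace Pool.Agent.K9h37.PP

open MvPolynomial Filter

lemma card_box (V : Type) [Fintype V] [DecidableEq V] (B : ℕ) :
    (box V B).card = (2 * B + 1) ^ Fintype.card V := by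
  unfold box
  rw [Fintype.card_piFinset, Finset.prod_const, Finset.card_univ, Int.card_Icc]
  congr 1
  omega

lemma locDens_nonneg (m d p : ℕ) : 0 ≤ locDens m d p := by
  unfold locDens
  positivity

lemma locDens_le_one (m d : ℕ) {p : ℕ} (hp : p.Prime) : locDens m d p ≤ 1 := by
  classical
  unfold locDens
  have hpos : (0 : ℝ) < ((p : ℝ) ^ 2) ^ Fintype.card (Mon m d) := by
    have : (0 : ℝ) < p := by exact_mod_cast hp.pos
    positivity
  rw [div_le_one hpos]
  have h1 := Finset.card_filter_le (Fintype.piFinset fun _ : Mon m d =>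
    Finset.Ico (0 : ℤ) ((p : ℤ) ^ 2)) (fun a => LocalGood p a)
  have h2 : (Fintype.piFinset fun _ : Mon m d => Finset.Ico (0 : ℤ) ((p : ℤ) ^ 2)).card =
      (p ^ 2) ^ Fintype.card (Mon m d) := by
    rw [Fintype.card_piFinset, Finset.prod_const, Finset.card_univ, Int.card_Ico]
    have : ((p : ℤ) ^ 2 - 0) = ((p ^ 2 : ℕ) : ℤ) := by push_cast; ring
    rw [this, Int.toNat_natCast]
  rw [h2] at h1
  calc _ ≤ (((p ^ 2) ^ Fintype.card (Mon m d) : ℕ) : ℝ) := by
        exact Nat.cast_le.2 h1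
    _ = _ := by push_cast; ring

lemma arith {δ ε f x y z w b : ℝ} (h1 : (f - ε) * b < w)
    (h2 : w ≤ x + (y + z)) (h3 : y < ε * b) (h4 : z ≤ ε * b) (h5 : δ * b ≤ f * b) :
    (δ - 3 * ε) * b < x := by
  linarith [sub_mul f ε b, sub_mul δ (3 * ε) b, mul_assoc 3 ε b]

/-- the partial products converge -/
lemma exists_limit (m d : ℕ) : ∃ δ : ℝ, (∀ M : ℕ, δ ≤
      ∏ p ∈ (Finset.range (M + 1)).filter Nat.Prime, locDens m d p) ∧
    Tendsto (fun M : ℕ => ∏ p ∈ (Finset.range (M + 1)).filter Nat.Prime, locDens m d p)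
      atTop (nhds δ) := by
  have hanti : Antitone fun M : ℕ =>
      ∏ p ∈ (Finset.range (M + 1)).filter Nat.Prime, locDens m d p := by
    intro M M' hMM
    refine Finset.prod_le_prod_of_subset_of_le_one (fun p hp => ?_)
      (fun p _ => locDens_nonneg m d p) (fun p hp _ => ?_)
    · rw [Finset.mem_filter, Finset.mem_range] at hp ⊢
      exact ⟨by omega, hp.2⟩
    · rw [Finset.mem_filter] at hp
      exact locDens_le_one m d hp.2
  have hbdd : BddBelow (Set.range fun M : ℕ =>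
      ∏ p ∈ (Finset.range (M + 1)).filter Nat.Prime, locDens m d p) :=
    ⟨0, by
      rintro _ ⟨M, rfl⟩
      exact Finset.prod_nonneg fun p _ => locDens_nonneg m d p⟩
  exact ⟨_, fun M => ciInf_le hbdd M, tendsto_atTop_ciInf hanti hbdd⟩

/-- smoothness in the class of `a₀` -/
lemma good_smooth {m d : ℕ} {a₀ a : Mon m d → ℤ} {M Q p₀ : ℕ} (hp₀ : p₀.Prime) (hMp : p₀ ≤ M)
    (hQ : Q = M.factorial ^ 2)
    (hsmooth : ∀ (d' : ℕ) (G : MvPolynomial (Fin m) ℤ), G.IsHomogeneous d' →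
      G - form a₀ ∈ Ideal.span {(C (p₀ : ℤ) : MvPolynomial (Fin m) ℤ)} →
      ∀ (K : Type) [Field K] (φ : ℤ →+* K), Function.Injective φ → IsSmooth (map φ G))
    (ha : ∀ v, (Q : ℤ) ∣ a v - a₀ v) : IsSmooth (form (fun α => (a α : ℚ))) := by
  have h1 := hsmooth d (form a) (form_hom a) (form_sub_mem fun α => by
    refine dvd_trans (Int.natCast_dvd_natCast.2 ?_) (ha α)
    rw [hQ]
    exact dvd_pow (hp₀.dvd_factorial.2 hMp) two_ne_zero) ℚ
    (algebraMap ℤ ℚ) (algebraMap ℤ ℚ).injective_int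
  rw [map_form] at h1
  exact h1

/-- the local conditions in the class of `a₀` -/
lemma good_local (hloc : LOC) {m d : ℕ} {a₀ a : Mon m d → ℤ} {M M₁ Q : ℕ}
    {s : Set (Pair (Mon m d))}
    (hcod : ∀ p : ℕ, p.Prime → M₁ < p → ∀ (k : Type) [Field k] [CharP k p] (a : Mon m d → ℤ),
      Bad (form (fun α => (a α : k))) → ∃ P ∈ s, Hit P p a)
    (hreg : ∀ P : Ideal ℤ, P.IsPrime → P ≠ ⊥ → IsRegularAt P (form a₀))
    (hM1 : M₁ ≤ M) (hM2 : 2 ≤ M) (hQ : Q = M.factorial ^ 2)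
    (ha : ∀ v, (Q : ℤ) ∣ a v - a₀ v)
    (hno : ¬ ∃ p : ℕ, p.Prime ∧ M < p ∧ ∃ P ∈ s, Hit P p a) {p : ℕ} (hp : p.Prime) :
    LocalGood p a := by
  by_cases hpM : p ≤ M
  · have h0 : LocalGood p a₀ := Or.inl (hreg _
      ((Ideal.span_singleton_prime (by exact_mod_cast hp.ne_zero)).2
        (Nat.prime_iff_prime_int.1 hp)) (by
          rw [Ne, Ideal.span_singleton_eq_bot]
          exact_mod_cast hp.ne_zero))
    refine hloc m d p hp a₀ a (fun α => ?_) h0
    have h2 : (p : ℤ) ^ 2 ∣ (Q : ℤ) := by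
      rw [hQ, ← Nat.cast_pow]
      exact Int.natCast_dvd_natCast.2 (pow_dvd_pow_of_dvd (hp.dvd_factorial.2 hpM) 2)
    rw [← dvd_neg, neg_sub]
    exact h2.trans (ha α)
  · push Not at hpM
    refine Or.inr ⟨by omega, fun k _ _ hbad => hno ⟨p, hp, hpM, ?_⟩⟩
    exact hcod p hp (by omega) k a hbad

open Classical in
/-- a positive lower bound -/
lemma lower (hloc : LOC) {m d : ℕ} (hm : 3 ≤ m) (hd : 3 ≤ d) : ∃ δ : ℝ, 0 < δ ∧
    ∀ᶠ B : ℕ in atTop, δ * (2 * (B : ℝ) + 1) ^ Fintype.card (Mon m d) ≤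
      (((box (Mon m d) B).filter (fun a => IsSmooth (form (fun α => (a α : ℚ))) ∧
        ∀ p : ℕ, p.Prime → LocalGood p a)).card : ℝ) := by
  obtain ⟨a₀, hsm, hreg⟩ := base m d hm hd
  obtain ⟨s, M₁, hs, hcod⟩ := codim m d (by omega) hd
  obtain ⟨C₀, M₀, hM₀, hsv⟩ := sieve (Mon m d) s hs
  have hsm' : IsSmooth (map (algebraMap ℤ ℚ) (form a₀)) := by
    rw [map_form]; exact hsm
  obtain ⟨p₀, hp₀, hsmooth⟩ := exists_prime (form a₀) hsm'
  obtain ⟨M, hM0, hM1, hM2, hMp, hMC⟩ : ∃ M : ℕ, M₀ ≤ M ∧ M₁ ≤ M ∧ 2 ≤ M ∧ p₀ ≤ M ∧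
      2 * C₀ ≤ M := by
    refine ⟨M₀ + M₁ + 2 + p₀ + ⌈2 * C₀⌉₊, by omega, by omega, by omega, by omega, ?_⟩
    have h := Nat.le_ceil (2 * C₀)
    push_cast
    have h1 : (0 : ℝ) ≤ M₀ := Nat.cast_nonneg _
    have h2 : (0 : ℝ) ≤ M₁ := Nat.cast_nonneg _
    have h3 : (0 : ℝ) ≤ p₀ := Nat.cast_nonneg _
    linarith
  obtain ⟨Q, hQ⟩ : ∃ Q : ℕ, Q = M.factorial ^ 2 := ⟨_, rfl⟩
  have hQ0 : 0 < Q := by rw [hQ]; exact pow_pos (Nat.factorial_pos _) 2
  have hQp : ∀ p : ℕ, p.Prime → p ∣ Q → p ≤ M := fun p hp h => by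
    rw [hQ] at h
    exact (hp.dvd_factorial).1 (hp.dvd_of_dvd_pow h)
  have hgood : ∀ a : Mon m d → ℤ, (∀ v, (Q : ℤ) ∣ a v - a₀ v) →
      ¬ (∃ p : ℕ, p.Prime ∧ M < p ∧ ∃ P ∈ s, Hit P p a) →
      (IsSmooth (form (fun α => (a α : ℚ))) ∧ ∀ p : ℕ, p.Prime → LocalGood p a) := by
    intro a ha hno
    refine ⟨?_, fun p hp => ?_⟩
    · exact good_smooth hp₀ hMp hQ hsmooth ha
    · exact good_local hloc hcod hreg hM1 hM2 hQ ha hno hp
  obtain ⟨δ, hδ, h⟩ := prop_of (V := Mon m d) (Good' := fun a => IsSmooth (form (fun α => (a α : ℚ))) ∧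
    ∀ p : ℕ, p.Prime → LocalGood p a) C₀ M Q (by omega) hMC hQ0 a₀ hgood
    (hsv M hM0 Q hQ0 hQp a₀)
  refine ⟨δ, hδ, h.mono fun B hB => ?_⟩
  convert hB
open Classical in
/-- ASM2: the assembly. -/
theorem asm2 : ASM2 := by
  intro htail hcrt hsmo hloc m d hm hd
  obtain ⟨δ, hδ, hlim⟩ := exists_limit m d
  obtain ⟨C₀, M₀, hM₀, htl⟩ := htail m d hm hd
  have hcrt' := hcrt (Mon m d) (fun p a => LocalGood p a) (fun p hp => hloc m d p hp)
  have hsmo' := hsmo m d hm hd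
  have hbox : ∀ B : ℕ, (0 : ℝ) < ((box (Mon m d) B).card : ℝ) := fun B => by
    rw [card_box]
    positivity
  -- the limit
  have hmain : Tendsto (fun B : ℕ =>
      (((box (Mon m d) B).filter (fun a => IsSmooth (form (fun α => (a α : ℚ))) ∧
        ∀ p : ℕ, p.Prime → LocalGood p a)).card : ℝ) / ((box (Mon m d) B).card : ℝ))
      atTop (nhds δ) := by
    refine tendsto_order.2 ⟨fun a' ha' => ?_, fun a' ha' => ?_⟩
    · obtain ⟨ε, hε, hε3⟩ : ∃ ε : ℝ, 0 < ε ∧ δ - a' = 3 * ε :=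
        ⟨(δ - a') / 3, by linarith, by ring⟩
      have hC : Tendsto (fun M : ℕ => C₀ / (M : ℝ)) atTop (nhds 0) :=
        tendsto_const_div_atTop_nhds_zero_nat C₀
      obtain ⟨M, hM, hMC⟩ : ∃ M : ℕ, M₀ ≤ M ∧ C₀ / (M : ℝ) < ε :=
        ((eventually_ge_atTop M₀).and (hC.eventually (gt_mem_nhds hε))).exists
      have h1 := (hcrt' M).eventually (lt_mem_nhds (show _ - ε < _ from sub_lt_self _ hε))
      have h2 := hsmo'.eventually (gt_mem_nhds hε)
      filter_upwards [h1, h2, htl M hM] with B hB1 hB2 hB3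
      have hb := hbox B
      have hδM := hδ M
      have hsub : (box (Mon m d) B).filter (fun a => ∀ p : ℕ, p.Prime → p ≤ M → LocalGood p a) ⊆
          ((box (Mon m d) B).filter (fun a => IsSmooth (form (fun α => (a α : ℚ))) ∧
            ∀ p : ℕ, p.Prime → LocalGood p a)) ∪
          (((box (Mon m d) B).filter (fun a => ¬ IsSmooth (form (fun α => (a α : ℚ))))) ∪
          ((box (Mon m d) B).filter (fun a =>
            ∃ p : ℕ, p.Prime ∧ M < p ∧ ¬ LocalGood p a))) := by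
        intro a ha
        rw [Finset.mem_filter] at ha
        rw [Finset.mem_union, Finset.mem_union, Finset.mem_filter, Finset.mem_filter,
          Finset.mem_filter]
        by_cases hs : IsSmooth (form (fun α => (a α : ℚ)))
        · by_cases hp : ∃ p : ℕ, p.Prime ∧ M < p ∧ ¬ LocalGood p a
          · exact Or.inr (Or.inr ⟨ha.1, hp⟩)
          · refine Or.inl ⟨ha.1, hs, fun p hpp => ?_⟩
            by_cases hpM : p ≤ M
            · exact ha.2 p hpp hpM
            · by_contra hcon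
              exact hp ⟨p, hpp, by omega, hcon⟩
        · exact Or.inr (Or.inl ⟨ha.1, hs⟩)
      have hc := (Finset.card_le_card hsub).trans ((Finset.card_union_le _ _).trans
        (Nat.add_le_add_left (Finset.card_union_le _ _) _))
      have hc' : (((box (Mon m d) B).filter
          (fun a => ∀ p : ℕ, p.Prime → p ≤ M → LocalGood p a)).card : ℝ) ≤
          (((box (Mon m d) B).filter (fun a => IsSmooth (form (fun α => (a α : ℚ))) ∧
            ∀ p : ℕ, p.Prime → LocalGood p a)).card : ℝ) +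
          ((((box (Mon m d) B).filter
            (fun a => ¬ IsSmooth (form (fun α => (a α : ℚ))))).card : ℝ) +
          (((box (Mon m d) B).filter (fun a =>
            ∃ p : ℕ, p.Prime ∧ M < p ∧ ¬ LocalGood p a)).card : ℝ)) := by
        exact_mod_cast hc
      have hB3' : (((box (Mon m d) B).filter (fun a =>
            ∃ p : ℕ, p.Prime ∧ M < p ∧ ¬ LocalGood p a)).card : ℝ) ≤
          ε * ((box (Mon m d) B).card : ℝ) :=
        hB3.trans (mul_le_mul_of_nonneg_right hMC.le hb.le)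
      rw [div_lt_iff₀ hb] at hB2
      rw [lt_div_iff₀ hb] at hB1 ⊢
      have e : a' = δ - 3 * ε := by linarith
      have hδM' : δ * ((box (Mon m d) B).card : ℝ) ≤
          (∏ p ∈ (Finset.range (M + 1)).filter Nat.Prime, locDens m d p) *
            ((box (Mon m d) B).card : ℝ) := mul_le_mul_of_nonneg_right hδM hb.le
      have hB1' : ((∏ p ∈ (Finset.range (M + 1)).filter Nat.Prime, locDens m d p) - ε) *
          ((box (Mon m d) B).card : ℝ) < (((box (Mon m d) B).filter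
          (fun a => ∀ p : ℕ, p.Prime → p ≤ M → LocalGood p a)).card : ℝ) := hB1
      rw [e]
      exact arith hB1' hc' hB2 hB3' hδM'
    · obtain ⟨M, hM⟩ := (hlim.eventually (gt_mem_nhds ha')).exists
      filter_upwards [(hcrt' M).eventually (gt_mem_nhds hM)] with B hB
      refine lt_of_le_of_lt ?_ hB
      refine div_le_div_of_nonneg_right ?_ (hbox B).le
      refine Nat.cast_le.2 (Finset.card_le_card fun a ha => ?_)
      rw [Finset.mem_filter] at ha ⊢
      exact ⟨ha.1, fun p hp _ => ha.2.2 p hp⟩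
  refine ⟨δ, ?_, hlim, hmain⟩
  obtain ⟨δ', hδ', hlow⟩ := lower hloc hm hd
  refine hδ'.trans_le (ge_of_tendsto hmain ?_)
  filter_upwards [hlow] with B hB
  rw [le_div_iff₀ (hbox B), card_box]
  push_cast
  exact hB

end Pool.Agent.K9h37.PP
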