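import Pool.Agent.K9h37.TN.RegA
import Mathlib.Algebra.DualNumber

/-! Regularity criteria in the charts; evaluation at dual numbers. -/

set_option autoImplicit false
set_option linter.unusedVariables false
set_option linter.unusedSectionVars false

namespace Pool.Agent.K9h37.PP

open Pool.Agent.K9h37.TN Pool.Agent.H918R2.Quad MvPolynomial

section reg

variable {R L : Type} [CommRing R] [IsDomain R] [IsDiscreteValuationRing R]

/-- The regularity criterion. -/
theorem reg_A2 [Fintype L] {A : Type} [CommRing A] (π : R) (hπ : Irreducible π)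
    (pr : MvPolynomial L R →+* A) (hpr : Function.Surjective pr) (N : L → ℕ)
    (g : MvPolynomial L R)
    (hker : RingHom.ker pr = Ideal.span {C π - ∏ l, X l ^ N l, g})
    (q : Ideal A) [q.IsPrime] (l₁ : L) (hN : 1 ≤ N l₁) (hl₁ : pr (X l₁) ∈ q)
    (i : L) (hil : l₁ ≠ i) (hig : pr (pderiv i g) ∉ q) :
    IsRegularLocalRing (Localization.AtPrime q) := by
  classical
  set E1 : MvPolynomial L R := C π - ∏ l, X l ^ N l with hE1
  have hpr1 : pr E1 = 0 := by
    rw [← RingHom.mem_ker, hker]; exact Ideal.subset_span (by simp)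
  have hpr2 : pr g = 0 := by
    rw [← RingHom.mem_ker, hker]; exact Ideal.subset_span (by simp)
  have hpi : pr (C π) = pr (∏ l, X l ^ N l) := by
    have := hpr1
    rw [hE1, map_sub, sub_eq_zero] at this
    exact this
  have hdvd : X l₁ ∣ (∏ l, X l ^ N l : MvPolynomial L R) :=
    (dvd_pow_self _ (by omega)).trans (Finset.dvd_prod_of_mem _ (Finset.mem_univ l₁))
  set S : Finset L := Finset.univ.filter (fun l => pr (X l) ∈ q ∧ l ≠ i) with hS
  have hSm : ∀ l, l ∈ S ↔ pr (X l) ∈ q ∧ l ≠ i := by
    intro l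
    simp [hS]
  set J : Ideal A := Ideal.span (pr '' ((S.image (fun l => (X l : MvPolynomial L R))) : Set _))
    with hJ
  have hXJ : ∀ l ∈ S, pr (X l) ∈ J := fun l hl => Ideal.subset_span
    ⟨X l, by rw [Finset.coe_image]; exact ⟨l, hl, rfl⟩, rfl⟩
  have hspan : ∀ x ∈ RingHom.ker (th R S), pr x ∈ J := by
    intro x hx
    refine th_ker hπ S (J.comap pr) ?_ ?_ hx
    · rw [Ideal.mem_comap, hpi]
      obtain ⟨c, hc⟩ := hdvd
      rw [hc, map_mul]
      exact Ideal.mul_mem_right _ _ (hXJ l₁ ((hSm l₁).2 ⟨hl₁, hil⟩))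
    · intro k hk
      exact hXJ k hk
  have hJq : J ≤ q := by
    rw [hJ, Ideal.span_le]
    rintro _ ⟨y, hy, rfl⟩
    rw [Finset.coe_image] at hy
    obtain ⟨l, hl, rfl⟩ := hy
    exact ((hSm l).1 hl).1
  have hkq : RingHom.ker (th R S) ≤ q.comap pr := fun x hx => hJq (hspan x hx)
  have hmp : ((q.comap pr).map (th R S)).IsPrime :=
    Ideal.map_isPrime_of_surjective (th_surj S) hkq
  have hcomap : ((q.comap pr).map (th R S)).comap (th R S) = q.comap pr := by
    rw [Ideal.comap_map_of_surjective (th R S) (th_surj S)]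
    exact sup_eq_left.2 (by
      intro x hx
      exact hkq (by simpa using hx))
  refine reg_crit_one pr hpr {E1, g} ?_ q (th R S) (th_surj S) hkq
    (S.image (fun l => (X l : MvPolynomial L R))) ?_ ?_ g hpr2 ?_ ?_
  · rw [hker]
    congr 1
    simp
  · intro x hx
    obtain ⟨l, hl, rfl⟩ := Finset.mem_image.1 hx
    exact ((hSm l).1 hl).1
  · intro x hx
    refine ⟨1, ?_, ?_⟩
    · rw [map_one]
      intro h
      exact Ideal.IsPrime.ne_top ‹_› ((Ideal.eq_top_iff_one q).2 h)
    · rw [one_mul]
      exact hspan x hx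
  · intro c hc hcE
    have hiS : i ∉ S := fun h => ((hSm i).1 h).2 rfl
    have h1 := pderiv_mem_of_sq _ ⟨i, hiS⟩ _ hcE
    rw [pderiv_mul] at h1
    have hTE : th R S g ∈ (q.comap pr).map (th R S) := by
      apply Ideal.mem_map_of_mem
      rw [Ideal.mem_comap, hpr2]
      exact q.zero_mem
    have h2 : c * pderiv ⟨i, hiS⟩ (th R S g) ∈ (q.comap pr).map (th R S) := by
      have h3 := Ideal.sub_mem _ h1 (Ideal.mul_mem_left _ (pderiv ⟨i, hiS⟩ c) hTE)
      rwa [add_sub_cancel_left] at h3
    have h3 := (hmp.mem_or_mem h2).resolve_left hc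
    rw [← th_pderiv S i hiS, ← Ideal.mem_comap, hcomap, Ideal.mem_comap] at h3
    exact hig h3
  · have h3 : ((S.card + 1 : ℕ) : ℕ∞) ≤ (RingHom.ker (th R S)).height := by
      refine Pool.Agent.H945R2.D.HT_ok π hπ S _ ?_ ?_
      · rw [RingHom.mem_ker, th_C, Pool.Agent.H945R2.D.HTaux.res_pi hπ, map_zero]
      · intro k hk
        rw [RingHom.mem_ker, th_X_mem hk]
    have hc : (S.image (fun l => (X l : MvPolynomial L R))).card +
        ({E1, g} : Finset (MvPolynomial L R)).card ≤ S.card + 1 + 1 := by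
      have h4 := Finset.card_le_two (a := E1) (b := g)
      have h5 : (S.image (fun l => (X l : MvPolynomial L R))).card ≤ S.card :=
        Finset.card_image_le
      omega
    calc _ ≤ ((S.card + 1 + 1 : ℕ) : ℕ∞) := by exact_mod_cast hc
      _ = ((S.card + 1 : ℕ) : ℕ∞) + 1 := by push_cast; ring
      _ ≤ _ := by gcongr



/-- The regularity at the vertex of a chart. -/
theorem reg_V [Fintype L] [DecidableEq L] {A : Type} [CommRing A] (π : R) (hπ : Irreducible π)
    (pr : MvPolynomial L R →+* A) (hpr : Function.Surjective pr) (N : L → ℕ)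
    (g : MvPolynomial L R)
    (hker : RingHom.ker pr = Ideal.span {C π - ∏ l, X l ^ N l, g})
    (q : Ideal A) [q.IsPrime] (l₁ : L) (hN : ∀ l, N l = if l = l₁ then 1 else 0)
    (hX : ∀ l, pr (X l) ∈ q) (u : R) (hu : pr (C u) ∉ q)
    (hg : g - C u * X l₁ ∈ (Ideal.span (Set.range X) : Ideal (MvPolynomial L R)) ^ 2) :
    IsRegularLocalRing (Localization.AtPrime q) := by
  classical
  have hprod : (∏ l, X l ^ N l : MvPolynomial L R) = X l₁ := by
    rw [Finset.prod_eq_single l₁]
    · rw [hN, if_pos rfl, pow_one]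
    · intro b _ hb
      rw [hN, if_neg hb, pow_zero]
    · simp
  rw [hprod] at hker
  set E1 : MvPolynomial L R := C π - X l₁ with hE1
  have hpr1 : pr E1 = 0 := by
    rw [← RingHom.mem_ker, hker]; exact Ideal.subset_span (by simp)
  have hpr2 : pr g = 0 := by
    rw [← RingHom.mem_ker, hker]; exact Ideal.subset_span (by simp)
  have hpi : pr (C π) = pr (X l₁) := by
    have := hpr1
    rw [hE1, map_sub, sub_eq_zero] at this
    exact this
  -- the ideals
  set J : Ideal (MvPolynomial L R) := Ideal.span (X '' {l | l ≠ l₁}) with hJ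
  have hXX : (Ideal.span (Set.range X) : Ideal (MvPolynomial L R)) ≤ Ideal.span {X l₁} ⊔ J := by
    rw [Ideal.span_le]
    rintro _ ⟨l, rfl⟩
    by_cases hl : l = l₁
    · subst hl
      exact Ideal.mem_sup_left (Ideal.subset_span rfl)
    · exact Ideal.mem_sup_right (Ideal.subset_span ⟨l, hl, rfl⟩)
  have hsq : ∀ h ∈ (Ideal.span (Set.range X) : Ideal (MvPolynomial L R)) ^ 2,
      ∃ b ∈ (Ideal.span (Set.range X) : Ideal (MvPolynomial L R)), ∃ j ∈ J, h = X l₁ * b + j := by
    intro h hh
    rw [pow_two] at hh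
    refine Submodule.mul_induction_on hh ?_ ?_
    · intro y hy z hz
      obtain ⟨y1, hy1, y2, hy2, rfl⟩ := Submodule.mem_sup.1 (hXX hy)
      obtain ⟨w, rfl⟩ := Ideal.mem_span_singleton'.1 hy1
      refine ⟨w * z, Ideal.mul_mem_left _ _ hz, y2 * z, Ideal.mul_mem_right _ _ hy2, by ring⟩
    · rintro y z ⟨b, hb, j, hj, rfl⟩ ⟨b', hb', j', hj', rfl⟩
      exact ⟨b + b', Ideal.add_mem _ hb hb', j + j', Ideal.add_mem _ hj hj', by ring⟩
  obtain ⟨b, hb, j, hj, hbj⟩ := hsq _ hg
  have hbq : pr b ∈ q := by
    have h1 : (Ideal.span (Set.range X) : Ideal (MvPolynomial L R)) ≤ q.comap pr := by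
      rw [Ideal.span_le]
      rintro _ ⟨l, rfl⟩
      exact hX l
    exact h1 hb
  set a : Finset (MvPolynomial L R) := (Finset.univ.erase l₁).image X with ha
  have hJa : ∀ j ∈ J, pr j ∈ Ideal.span (pr '' (a : Set (MvPolynomial L R))) := by
    intro j hj
    have h1 : J ≤ (Ideal.span (pr '' (a : Set (MvPolynomial L R)))).comap pr := by
      rw [hJ, Ideal.span_le]
      rintro _ ⟨l, hl, rfl⟩
      refine Ideal.subset_span ⟨X l, ?_, rfl⟩
      rw [ha]
      exact Finset.mem_coe.2 (Finset.mem_image.2 ⟨l, Finset.mem_erase.2 ⟨hl, Finset.mem_univ _⟩,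
        rfl⟩)
    exact h1 hj
  have hc : pr (C u + b) ∉ q := by
    intro h
    apply hu
    have h1 := Ideal.sub_mem _ h hbq
    rwa [map_add, add_sub_cancel_right] at h1
  have hl₁ : pr ((C u + b) * X l₁) ∈ Ideal.span (pr '' (a : Set (MvPolynomial L R))) := by
    have h1 : (C u + b) * X l₁ = g - j := by
      linear_combination (-1 : MvPolynomial L R) * hbj
    rw [h1, map_sub, hpr2, zero_sub]
    exact Submodule.neg_mem _ (hJa j hj)
  -- the criterion
  have hSm : ∀ l : L, l ∈ (Finset.univ : Finset L) := fun l => Finset.mem_univ l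
  have hkq : RingHom.ker (th R (Finset.univ : Finset L)) ≤ q.comap pr := by
    refine th_ker hπ _ _ ?_ ?_
    · rw [Ideal.mem_comap, hpi]
      exact hX l₁
    · intro k _
      exact hX k
  refine reg_crit pr hpr {E1, g} ?_ q (th R (Finset.univ : Finset L)) (th_surj _) hkq a ?_ ?_ ?_
  · rw [hker]
    congr 1
    simp
  · intro x hx
    rw [ha] at hx
    obtain ⟨l, _, rfl⟩ := Finset.mem_image.1 hx
    exact hX l
  · intro x hx
    refine ⟨C u + b, hc, ?_⟩
    have h1 : RingHom.ker (th R (Finset.univ : Finset L)) ≤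
        Ideal.comap pr ((Ideal.span (pr '' (a : Set (MvPolynomial L R)))).comap
          (RingHom.id A)) ⊔ Ideal.span {X l₁} := by
      refine th_ker hπ _ _ ?_ ?_
      · have h2 : (C π : MvPolynomial L R) = E1 + X l₁ := by rw [hE1]; ring
        rw [h2]
        refine Submodule.add_mem_sup ?_ (Ideal.subset_span rfl)
        rw [Ideal.mem_comap, hpr1]
        exact Ideal.zero_mem _
      · intro k _
        by_cases hk : k = l₁
        · subst hk
          exact Ideal.mem_sup_right (Ideal.subset_span rfl)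
        · refine Ideal.mem_sup_left ?_
          exact hJa _ (Ideal.subset_span ⟨k, hk, rfl⟩)
    obtain ⟨y1, hy1, y2, hy2, rfl⟩ := Submodule.mem_sup.1 (h1 hx)
    obtain ⟨w, rfl⟩ := Ideal.mem_span_singleton'.1 hy2
    have h3 : (C u + b) * (y1 + w * X l₁) = (C u + b) * y1 + w * ((C u + b) * X l₁) := by ring
    rw [h3, map_add, map_mul, map_mul (f := pr) w]
    exact Ideal.add_mem _ (Ideal.mul_mem_left _ _ hy1) (Ideal.mul_mem_left _ _ hl₁)
  · have h3 : (((Finset.univ : Finset L).card + 1 : ℕ) : ℕ∞) ≤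
        (RingHom.ker (th R (Finset.univ : Finset L))).height := by
      refine Pool.Agent.H945R2.D.HT_ok π hπ Finset.univ _ ?_ ?_
      · rw [RingHom.mem_ker, th_C, Pool.Agent.H945R2.D.HTaux.res_pi hπ, map_zero]
      · intro k hk
        rw [RingHom.mem_ker, th_X_mem hk]
    refine le_trans ?_ h3
    have h4 := Finset.card_le_two (a := E1) (b := g)
    have h5 : a.card ≤ (Finset.univ.erase l₁).card := Finset.card_image_le
    have h6 := Finset.card_erase_add_one (Finset.mem_univ l₁)
    exact_mod_cast (show a.card + ({E1, g} : Finset (MvPolynomial L R)).card ≤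
      (Finset.univ : Finset L).card + 1 by omega)

end reg

section dual

open TrivSqZeroExt

variable {k L : Type} [Field k] [Fintype L]

/-- The dual number `y + η ε`. -/
def dz (y η : k) : DualNumber k := inl y + inr η

theorem dz_zero (y : k) : dz y 0 = inl y := by simp [dz]

/-- Taylor expansion at dual numbers. -/
theorem hom_dual {R : Type} [CommRing R] (Ψ : MvPolynomial L R →+* k) (η : L → k)
    (g : MvPolynomial L R) :
    eval₂Hom ((inlHom k k).comp (Ψ.comp C)) (fun l => dz (Ψ (X l)) (η l)) g =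
      dz (Ψ g) (∑ l, η l * Ψ (pderiv l g)) := by
  classical
  induction g using MvPolynomial.induction_on with
  | C a =>
    rw [coe_eval₂Hom, eval₂_C]
    simp [dz]
  | add p q hp hq =>
    rw [map_add, hp, hq]
    apply TrivSqZeroExt.ext
    · simp [dz]
    · simp [dz, mul_add, Finset.sum_add_distrib]
  | mul_X p i hp =>
    rw [map_mul, hp, coe_eval₂Hom, eval₂_X]
    apply TrivSqZeroExt.ext
    · simp [dz]
    · simp only [dz, snd_mul, fst_add, fst_inl, fst_inr, add_zero, snd_add, snd_inl, snd_inr,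
        zero_add, smul_eq_mul, MulOpposite.smul_eq_mul_unop, MulOpposite.unop_op]
      have h1 : ∀ l, η l * Ψ (pderiv l (p * X i)) =
          (η l * Ψ (pderiv l p)) * Ψ (X i) + (if l = i then η l * Ψ p else 0) := by
        intro l
        rw [pderiv_mul, map_add, map_mul, map_mul]
        split_ifs with h
        · subst h
          rw [pderiv_X_self, map_one]
          ring
        · rw [pderiv_X_of_ne (Ne.symm h), map_zero]
          ring
      rw [Finset.sum_congr rfl fun l _ => h1 l, Finset.sum_add_distrib, ← Finset.sum_mul,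
        Finset.sum_ite_eq', if_pos (Finset.mem_univ _)]
      ring

/-- The conclusion used in the charts: if all derivatives in the directions of `η` vanish, then the
value at the dual point is zero. -/
theorem dual_zero {R : Type} [CommRing R] (Ψ : MvPolynomial L R →+* k) (η : L → k)
    (g : MvPolynomial L R) (h0 : Ψ g = 0) (h : ∀ l, η l ≠ 0 → Ψ (pderiv l g) = 0) :
    eval₂Hom ((inlHom k k).comp (Ψ.comp C)) (fun l => dz (Ψ (X l)) (η l)) g = 0 := by
  rw [hom_dual, h0, Finset.sum_eq_zero, dz_zero, inl_zero]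
  intro l _
  by_cases hl : η l = 0
  · rw [hl, zero_mul]
  · rw [h l hl, mul_zero]

theorem aeval_dual (z η : L → k) (F : MvPolynomial L k) :
    aeval (fun l => dz (z l) (η l)) F = dz (eval z F) (∑ l, η l * eval z (pderiv l F)) := by
  have h := hom_dual (eval z) η F
  rw [← h]
  simp only [eval_X]
  have h2 : (inlHom k k).comp ((eval z).comp C) = algebraMap k (DualNumber k) := by
    refine RingHom.ext fun r => ?_
    rw [RingHom.comp_apply, RingHom.comp_apply, eval_C]
    rfl
  rw [h2]
  rfl

/-- Conversely. -/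
theorem eval_of_dual (z : L → k) (F : MvPolynomial L k) (J : L → Prop)
    (h : ∀ η : L → k, (∀ l, ¬ J l → η l = 0) → aeval (fun l => dz (z l) (η l)) F = 0) :
    eval z F = 0 ∧ ∀ l, J l → eval z (pderiv l F) = 0 := by
  classical
  constructor
  · have h1 := h 0 (fun _ _ => rfl)
    rw [aeval_dual] at h1
    have h2 := congrArg fst h1
    simpa [dz] using h2
  · intro l hl
    have h1 := h (Pi.single l 1) (fun l' hl' => by
      rw [Pi.single_eq_of_ne]
      rintro rfl
      exact hl' hl)
    rw [aeval_dual] at h1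
    have h2 := congrArg snd h1
    simpa [dz, Pi.single_apply] using h2

end dual

end Pool.Agent.K9h37.PP
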