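import Pool.Agent.K9h37.TN.LocReg

set_option autoImplicit false
set_option linter.unusedVariables false
set_option linter.unusedSectionVars false

namespace Pool.Agent.K9h37.PP

open Pool.Agent.K9h37.TN Pool.Agent.H918R2.Quad Pool.Agent.TH214.RM MvPolynomial

/-- The exponents of the strict transform. -/
def cx2 {ι : Type} [Fintype ι] [DecidableEq ι] (Φ : Fan ι) (t : Φ.T) (v : (ι →₀ ℕ) → ℕ)
    (m₀ : Lat ι) (a : ι →₀ ℕ) (l : {l // l ∈ Φ.S t}) : ℕ :=
  (pr (Φ.r l) (μ v a - m₀)).toNat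

/-- The strict transform. -/
noncomputable def gt2 {ι R : Type} [CommRing R] [Fintype ι] [DecidableEq ι] (Φ : Fan ι) (t : Φ.T)
    (A : Finset (ι →₀ ℕ)) (ε : (ι →₀ ℕ) → R) (v : (ι →₀ ℕ) → ℕ) (m₀ : Lat ι) :
    MvPolynomial {l // l ∈ Φ.S t} R :=
  ∑ a ∈ A, C (ε a) * xm R (cx2 Φ t v m₀ a)

/-- The regularity of the strict transform in the charts. -/
def REG {R ι : Type} [CommRing R] [Fintype ι] [DecidableEq ι] (π : R) (A₀ : Finset (ι →₀ ℕ))
    (ε : (ι →₀ ℕ) → R) (v : (ι →₀ ℕ) → ℕ) (Φ : Fan ι) (m₀ : Φ.T → Lat ι) : Prop :=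
  ∀ (t : Φ.T) (A : Type) [CommRing A] (pq : MvPolynomial {l // l ∈ Φ.S t} R →+* A),
    Function.Surjective pq →
    RingHom.ker pq = Ideal.span {C π - ∏ l, X l ^ exm Φ t (0, 1) l, gt2 Φ t A₀ ε v (m₀ t)} →
    ∀ (q : Ideal A) [q.IsPrime], (∀ r, pq (C r) ∈ q ↔ ¬ IsUnit r) →
      IsRegularLocalRing (Localization.AtPrime q)

/-- **Regularity of the local rings of the toroidal model.** -/
theorem local_reg2 {R F ι : Type} [CommRing R] [IsDomain R] [IsDiscreteValuationRing R]
    [Field F] [Algebra R F] [Fintype ι] [DecidableEq ι] (𝒪 : Subring F) (hloc : IsLoc 𝒪)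
    (hR : ∀ r : R, algebraMap R F r ∈ 𝒪) (hRU : ∀ r : R, U 𝒪 (algebraMap R F r) → IsUnit r)
    (hinj : Function.Injective (algebraMap R F)) (π : R) (hπ : Irreducible π)
    (G : MvPolynomial ι R) (hG0 : G ≠ 0) (d : ℕ) (hGd : G.IsHomogeneous d)
    (ε : (ι →₀ ℕ) → R) (v : (ι →₀ ℕ) → ℕ)
    (hco : ∀ a ∈ G.support, G.coeff a = ε a * π ^ v a)
    (Φ : Fan ι) (m₀ : Φ.T → Lat ι) (hm₀ : ∀ t, deg (m₀ t) = d)
    (hm0 : ∀ t, ∀ l ∈ Φ.S t, 0 ≤ pr (Φ.r l) (m₀ t))
    (hΦ : ∀ t, ∀ a ∈ G.support, ∀ l ∈ Φ.S t, pr (Φ.r l) (m₀ t) ≤ pr (Φ.r l) (μ v a))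
    (hREG : REG π G.support ε v Φ m₀)
    (x : ι → F) (hx : ∀ i, x i ≠ 0) (hrel : aeval x G = 0)
    (hind : ∀ s, x s ≠ 0 → ∃ j₀ : {i : ι // i ≠ s},
      AlgebraicIndependent R (fun i : {i : {i : ι // i ≠ s} // i ≠ j₀} => x i / x s))
    (k e : ℕ) (hk : ∀ t l l', |pr (Φ.r l') (Φ.y t l)| ≤ (k : ℤ))
    (f : F) (hf : f ≠ 0) (hfG : f ∈ Submodule.span R (GG R π x Φ k e))
    (hG : ∀ g ∈ GG R π x Φ k e, g / f ∈ 𝒪)
    (hloc2 : IsLocOf 𝒪 (chart R (Submodule.span R (GG R π x Φ k e)) f)) :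
    IsRegularLocalRing 𝒪 := by
  classical
  have hπ0 : algebraMap R F π ≠ 0 := fun h => hπ.ne_zero (hinj (by rw [h, map_zero]))
  obtain ⟨g, ⟨m, hm, rfl⟩, hU⟩ := exists_U_gen hloc hR _ f hf hG hfG
  obtain ⟨t, hUf, hY⟩ := exists_chart hπ0 hx Φ 𝒪 hloc (hR π) k e hk f hf m hm hU
    (fun m hm => hG _ ⟨m, hm, rfl⟩)
  have hmin := hΦ t
  set Y : {l // l ∈ Φ.S t} → F := fun l => mo (algebraMap R F π) x (Φ.y t l) with hYdef
  let eW : MvPolynomial {l // l ∈ Φ.S t} R →ₐ[R] F := aeval Y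
  have heC : ∀ r, eW (C r) = algebraMap R F r := fun r => aeval_C _ r
  have heX : ∀ j, eW (X j) = Y j := fun j => aeval_X _ j
  have heW : ∀ w, eW w ∈ 𝒪 := by
    intro w
    induction w using MvPolynomial.induction_on with
    | C r => rw [heC]; exact hR r
    | add p q hp hq => rw [map_add]; exact 𝒪.add_mem hp hq
    | mul_X p j hp => rw [map_mul, heX]; exact 𝒪.mul_mem hp (hY j j.2)
  have hexm : ∀ m : Lat ι, deg m = 0 → (∀ l ∈ Φ.S t, 0 ≤ pr (Φ.r l) m) →
      eW (xm R (exm Φ t m)) = mo (algebraMap R F π) x m := fun m h1 h2 =>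
    eW_xm π x hπ0 hx Φ t m h1 h2
  have hv0 := mo_ne_zero hπ0 hx (vt Φ k e t)
  have hG' : ∀ g ∈ GG R π x Φ k e, ∃ w, g = mo (algebraMap R F π) x (vt Φ k e t) * eW w := by
    rintro g ⟨m, hm, rfl⟩
    refine ⟨xm R (exm Φ t (m - vt Φ k e t)), ?_⟩
    rw [hexm, mo_sub hπ0 hx]
    · field_simp
    · rw [deg_sub, hm.1, deg_vt, sub_self]
    · intro l hl
      rw [pr_sub, pr_vt_in Φ k e t l hl]
      have := hm.2 l
      linarith
  have hfrac := frac_of_chart eW heW (GG R π x Φ k e) f (mo (algebraMap R F π) x (vt Φ k e t)) hv0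
    hG' hfG hUf hloc2
  -- the relations
  set N : {l // l ∈ Φ.S t} → ℕ := exm Φ t (0, 1) with hN
  have hprN : ∀ l : {l // l ∈ Φ.S t}, pr (Φ.r l) (0, 1) = (Φ.r l).2 := by
    intro l
    simp [pr]
  have hNr : ∀ l, N l = (Φ.r l).2.toNat := by
    intro l
    rw [hN, exm, hprN]
  set g : MvPolynomial {l // l ∈ Φ.S t} R := gt2 Φ t G.support ε v (m₀ t) with hgdef
  have hsum : ∀ a ∈ G.support, ∑ i, a i = d := sum_of_homog G d hGd
  have hE1 : eW (C π - ∏ l, X l ^ N l) = 0 := by
    rw [map_sub, heC]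
    have h1 : eW (∏ l, X l ^ N l) = mo (algebraMap R F π) x (0, 1) := by
      refine hexm (0, 1) (by simp [deg]) ?_
      intro l hl
      have h2 : pr (Φ.r l) (0, 1) = (Φ.r l).2 := by simp [pr]
      rw [h2]
      exact Φ.N0 l
    rw [h1, mo_pi, sub_self]
  have hEg : eW g = 0 := by
    have h0 := mo_ne_zero hπ0 hx (m₀ t)
    have h1 : mo (algebraMap R F π) x (m₀ t) * eW g = 0 := by
      rw [hgdef, gt2, map_sum, Finset.mul_sum, ← hrel, aeval_eq_sum x π G ε v hco]
      refine Finset.sum_congr rfl fun a ha => ?_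
      have h2 : eW (xm R (cx2 Φ t v (m₀ t) a)) = mo (algebraMap R F π) x (μ v a - m₀ t) := by
        refine hexm (μ v a - m₀ t) ?_ ?_
        · rw [deg_sub, deg_μ v a d (hsum a ha), hm₀, sub_self]
        · intro l hl
          rw [pr_sub]
          have := hmin a ha l hl
          omega
      rw [map_mul, heC, h2, mo_sub hπ0 hx, ← mo_μ]
      field_simp
    exact (mul_eq_zero.1 h1).resolve_left h0
  let I : Ideal (MvPolynomial {l // l ∈ Φ.S t} R) := Ideal.span {C π - ∏ l, X l ^ N l, g}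
  have hI : ∀ w ∈ I, eW w = 0 := by
    intro w hw
    have h1 : I ≤ RingHom.ker eW := by
      rw [Ideal.span_le]
      rintro z (rfl | rfl)
      · exact hE1
      · exact hEg
    exact h1 hw
  obtain ⟨A, _, _, pq, hpq, hpqk, hpq0⟩ := exists_quot (R := R) I
  have hpi : pq (C π) = pq (xm R N) := by
    have h1 : pq (C π - ∏ l, X l ^ N l) = 0 := (hpq0 _).2 (Ideal.subset_span (by simp))
    rw [map_sub, sub_eq_zero] at h1
    exact h1
  have hpg : pq g = 0 := (hpq0 _).2 (Ideal.subset_span (by simp))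
  -- the affine coordinates
  set s := Φ.s t with hs
  let y : ι → MvPolynomial {l // l ∈ Φ.S t} R := fun j => xm R (fun l => ((Φ.r l).1 j).toNat)
  have hys : y s = 1 := by
    have h1 : (fun l : {l // l ∈ Φ.S t} => ((Φ.r l).1 s).toNat) = 0 := by
      funext l
      rw [hs, Φ.ws t l l.2]
      rfl
    simp only [y, h1, xm_zero]
  have hye : ∀ j, eW (y j) = x j / x s := by
    intro j
    have h1 : y j = xm R (exm Φ t ((Pi.single j 1, 0) - (Pi.single s 1, 0))) := by
      simp only [y]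
      congr 1
      funext l
      rw [exm, pr_sub, pr_single, pr_single, hs, Φ.ws t l l.2, sub_zero]
    rw [h1, hexm, mo_sub hπ0 hx]
    · congr 1
      · simp only [mo, zpow_zero, one_mul]
        rw [Finset.prod_eq_single j]
        · simp
        · intro b _ hb
          simp [hb]
        · simp
      · simp only [mo, zpow_zero, one_mul]
        rw [Finset.prod_eq_single s]
        · simp
        · intro b _ hb
          simp [hb]
        · simp
    · rw [deg_sub, deg_single, deg_single, sub_self]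
    · intro l hl
      rw [pr_sub, pr_single, pr_single, hs, Φ.ws t l hl, sub_zero]
      exact Φ.w0 l j
  -- monomials in `A`
  have hmono : ∀ (a : ι → ℕ) (h : ℕ), pq (C π ^ h * ∏ i, y i ^ a i) =
      pq (xm R (exm Φ t (fun i => (a i : ℤ), (h : ℤ)))) := by
    intro a h
    rw [map_mul, map_pow, hpi, ← map_pow, ← map_mul]
    congr 1
    have h1 : ∏ i, y i ^ a i = xm R (∑ i, a i • (fun l : {l // l ∈ Φ.S t} =>
        ((Φ.r l).1 i).toNat)) := by
      rw [← xm_prod]
      exact Finset.prod_congr rfl fun i _ => xm_pow _ _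
    rw [h1, xm_pow, xm_mul]
    congr 1
    funext l
    simp only [Pi.add_apply, Pi.smul_apply, smul_eq_mul, Finset.sum_apply, exm]
    rw [hNr]
    have h2 : pr (Φ.r l) (fun i => (a i : ℤ), (h : ℤ)) =
        ((h * (Φ.r l).2.toNat + ∑ i, a i * ((Φ.r l).1 i).toNat : ℕ) : ℤ) := by
      simp only [pr]
      push_cast
      rw [Int.toNat_of_nonneg (Φ.N0 l), add_comm]
      congr 1
      · ring
      · refine Finset.sum_congr rfl fun i _ => ?_
        rw [Int.toNat_of_nonneg (Φ.w0 l i)]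
        ring
    rw [h2, Int.toNat_natCast]
  refine regular_of_pres 𝒪 hloc pq hpq eW ?_ heW hfrac ?_
    (fun j : {j : ι // j ≠ s} => y j) (deh s G) (deh_ne_zero s G hG0 d hGd) ?_
    (hind s (hx s)).choose ?_ ?_
  · intro w hw
    exact hI w ((hpq0 w).1 hw)
  · intro q hq hqm
    have hCq : ∀ r : R, pq (C r) ∈ q ↔ ¬ IsUnit r := by
      intro r
      rw [hqm, heC]
      refine not_congr ⟨hRU r, fun h => ?_⟩
      obtain ⟨u, rfl⟩ := h
      have h1 : algebraMap R F (u : R) * algebraMap R F ((u⁻¹ : Rˣ) : R) = 1 := by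
        rw [← map_mul, Units.mul_inv, map_one]
      refine ⟨left_ne_zero_of_mul_eq_one h1, hR _, ?_⟩
      rw [inv_eq_of_mul_eq_one_right h1]
      exact hR _
    exact hREG t A (pq : _ →+* A) hpq hpqk q hCq
  · rw [aeval_deh s y hys G, aeval_eq_sum y π G ε v hco, map_sum]
    have h1 : ∀ a ∈ G.support, pq (algebraMap R _ (ε a) * (algebraMap R _ π ^ v a *
        ∏ i, y i ^ a i)) = pq (xm R (exm Φ t (m₀ t))) *
          pq (C (ε a) * xm R (cx2 Φ t v (m₀ t) a)) := by
      intro a ha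
      rw [map_mul]
      have h2 := hmono (fun i => a i) (v a)
      have h3 : algebraMap R (MvPolynomial {l // l ∈ Φ.S t} R) π = C π := rfl
      have h4 : algebraMap R (MvPolynomial {l // l ∈ Φ.S t} R) (ε a) = C (ε a) := rfl
      rw [h3, h4, h2, map_mul, mul_left_comm, ← map_mul, ← map_mul, ← map_mul, xm_mul]
      congr 3
      funext l
      simp only [Pi.add_apply, exm, cx2]
      have h5 := hmin a ha l l.2
      have h6 := hm0 t l l.2
      rw [pr_sub]
      change (pr (Φ.r l) (μ v a)).toNat = _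
      omega
    rw [Finset.sum_congr rfl h1, ← Finset.mul_sum, ← map_sum]
    change _ * pq g = 0
    rw [hpg, mul_zero]
  · have h1 := (hind s (hx s)).choose_spec
    convert h1 using 2 with j
    exact hye _
  · intro w
    -- the coordinates are fractions
    have key : ∀ l : {l // l ∈ Φ.S t}, ∃ p p' : MvPolynomial {j : ι // j ≠ s} R,
        eW (aeval (fun j : {j : ι // j ≠ s} => y j) p') ≠ 0 ∧
        pq (aeval (fun j : {j : ι // j ≠ s} => y j) p' * X l) =
          pq (aeval (fun j : {j : ι // j ≠ s} => y j) p) := by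
      intro l
      set m := Φ.y t l with hm
      let Q : (ι → ℕ) → ℕ → MvPolynomial {j : ι // j ≠ s} R := fun a h =>
        deh s (C π ^ h * ∏ i, X i ^ a i)
      have hQ : ∀ a h, aeval (fun j : {j : ι // j ≠ s} => y j) (Q a h) =
          C π ^ h * ∏ i, y i ^ a i := by
        intro a h
        simp only [Q]
        rw [aeval_deh s y hys, map_mul, map_pow, map_prod, aeval_C]
        simp only [map_pow, aeval_X]
        rfl
      refine ⟨Q (fun i => (m.1 i).toNat) m.2.toNat, Q (fun i => (- m.1 i).toNat) (-m.2).toNat,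
        ?_, ?_⟩
      · rw [hQ, map_mul, map_pow, heC, map_prod]
        refine mul_ne_zero (pow_ne_zero _ hπ0) (Finset.prod_ne_zero_iff.2 fun i _ => ?_)
        rw [map_pow, hye]
        exact pow_ne_zero _ (div_ne_zero (hx i) (hx s))
      · rw [hQ, hQ, map_mul, hmono, hmono, ← xm_single l, ← map_mul, xm_mul]
        congr 2
        funext l'
        simp only [Pi.add_apply, exm]
        have hp : ∀ z : ℤ, ((z.toNat : ℕ) : ℤ) - (((-z).toNat : ℕ) : ℤ) = z := by
          intro z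
          omega
        have h1 : pr (Φ.r l') (fun i => ((m.1 i).toNat : ℤ), (m.2.toNat : ℤ)) =
            pr (Φ.r l') (fun i => ((- m.1 i).toNat : ℤ), ((-m.2).toNat : ℤ)) +
              pr (Φ.r l') m := by
          rw [← pr_add]
          congr 1
          refine Prod.ext ?_ ?_
          · funext i
            simp only [Prod.fst_add, Pi.add_apply]
            have := hp (m.1 i)
            omega
          · simp only [Prod.snd_add]
            have := hp m.2
            omega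
        have h2 : pr (Φ.r l') m = if (l' : Φ.Λ) = l then 1 else 0 := Φ.dual t l l.2 l' l'.2
        have h3 : 0 ≤ pr (Φ.r l') (fun i => ((- m.1 i).toNat : ℤ), ((-m.2).toNat : ℤ)) := by
          simp only [pr]
          have h7 : 0 ≤ ∑ i, (Φ.r l').1 i * ((- m.1 i).toNat : ℤ) :=
            Finset.sum_nonneg fun i _ => mul_nonneg (Φ.w0 l' i) (by positivity)
          have h8 : 0 ≤ (Φ.r l').2 * ((-m.2).toNat : ℤ) := mul_nonneg (Φ.N0 l') (by positivity)
          omega
        rw [h1, h2]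
        by_cases hl : l' = l
        · subst hl
          rw [Pi.single_eq_same, if_pos rfl]
          omega
        · rw [Pi.single_eq_of_ne hl, if_neg (fun h => hl (Subtype.ext h))]
          omega
    induction w using MvPolynomial.induction_on with
    | C r =>
      refine ⟨C r, 1, by simp, ?_⟩
      rw [map_one, one_mul, aeval_C]
      rfl
    | add p₁ p₂ h₁ h₂ =>
      obtain ⟨a, a', ha, ha'⟩ := h₁
      obtain ⟨b, b', hb, hb'⟩ := h₂
      refine ⟨a * b' + b * a', a' * b', ?_, ?_⟩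
      · rw [map_mul, map_mul]
        exact mul_ne_zero ha hb
      · rw [map_mul] at ha' hb'
        simp only [map_mul, map_add]
        linear_combination (pq (aeval (fun j : {j : ι // j ≠ s} => y j) b')) * ha' +
          (pq (aeval (fun j : {j : ι // j ≠ s} => y j) a')) * hb'
    | mul_X p l hp =>
      obtain ⟨a, a', ha, ha'⟩ := hp
      obtain ⟨b, b', hb, hb'⟩ := key l
      refine ⟨a * b, a' * b', ?_, ?_⟩
      · rw [map_mul, map_mul]
        exact mul_ne_zero ha hb
      · rw [map_mul] at ha' hb'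
        simp only [map_mul]
        rw [← ha', ← hb']
        ring

end Pool.Agent.K9h37.PP
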