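import Pool.Agent.K9h37.PP.Node
import Pool.Agent.K9h37.PP.LocReg2
import Pool.Agent.K9h37.PP.Dual

/-! The strict transform of a node in the charts of the chain of blowups. -/

set_option autoImplicit false
set_option linter.unusedVariables false
set_option linter.unusedSectionVars false

namespace Pool.Agent.K9h37.PP

open Pool.Agent.K9h37.TN MvPolynomial TrivSqZeroExt

variable {ι : Type} [Fintype ι] [DecidableEq ι]

/-- The lattice points of the strict transform. -/
def nM (s : ι) (E d : ℕ) : NT s E → Lat ι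
  | .inl t => (Pi.single (t : ι) (d : ℤ), 0)
  | .inr (.inl q) => (Pi.single s ((d : ℤ) - 2) + Pi.single (q.2 : ι) 2, 0)
  | .inr (.inr _) => (Pi.single s (d : ℤ), 2 * (E : ℤ))

theorem deg_nM (s : ι) (E d : ℕ) (t : NT s E) : deg (nM s E d t) = d := by
  rcases t with t | q | u
  · simp [nM, deg]
  · simp [nM, deg, Finset.sum_add_distrib]
  · simp [nM, deg]

section prod

variable (s : ι) (E : ℕ) (hne : ∃ i : ι, i ≠ s)

theorem prod_S {B : Type} [CommMonoid B] (t : NT s E) (f : ι ⊕ Fin (E + 1) → B) :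
    ∏ l : {l // l ∈ (Fan.node s E hne).S t}, f l.1 =
      (∏ l : ι, if nB s E t (.inl l) = true then f (.inl l) else 1) *
      ∏ j : Fin (E + 1), if nB s E t (.inr j) = true then f (.inr j) else 1 := by
  have h : ∏ l ∈ (Fan.node s E hne).S t, f l =
      (∏ l : ι, if nB s E t (.inl l) = true then f (.inl l) else 1) *
      ∏ j : Fin (E + 1), if nB s E t (.inr j) = true then f (.inr j) else 1 := by
    change ∏ l ∈ Finset.univ.filter (fun l => nB s E t l = true), f l = _
    rw [Finset.prod_filter, Fintype.prod_sum_type]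
  rw [← h]
  exact Finset.prod_coe_sort _ f

variable {B : Type} [CommRing B] (θ : ι ⊕ Fin (E + 1) → B) (v : (ι →₀ ℕ) → ℕ) (a : ι →₀ ℕ) (d : ℕ)
  (ha : ∑ i, a i = d)

include ha

theorem deg_sub_nM (t : NT s E) : deg (μ v a - nM s E d t) = 0 := by
  rw [deg_sub, deg_nM, deg_μ v a d ha, sub_self]

theorem prod_T1 (t : {t : ι // t ≠ s}) :
    ∏ l : {l // l ∈ (Fan.node s E hne).S (.inl t)}, θ l.1 ^
      (pr ((Fan.node s E hne).r l) (μ v a - nM s E d (.inl t))).toNat =
    (∏ l, (if l = (t : ι) then 1 else θ (.inl l)) ^ a l) * θ (.inr 0) ^ v a := by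
  have h := prod_S s E hne (.inl t) (fun l => θ l ^
    (pr (nR s E l) (μ v a - nM s E d (.inl t))).toNat)
  refine Eq.trans h ?_
  congr 1
  · refine Finset.prod_congr rfl fun l _ => ?_
    by_cases hl : l = t
    · simp [nB, hl]
    · simp only [nB, hl, ne_eq, not_false_eq_true, decide_true, if_true, if_false]
      rw [pr_inl]
      simp [μ, nM, hl]
  · rw [Finset.prod_eq_single (0 : Fin (E + 1))]
    · simp only [nB, decide_true, if_true]
      rw [pr_inr]
      simp [μ, nM]
    · intro j _ hj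
      simp [nB, hj]
    · simp

theorem prod_mid (j : Fin E) (i : {i : ι // i ≠ s}) :
    ∏ l : {l // l ∈ (Fan.node s E hne).S (.inr (.inl (j, i)))}, θ l.1 ^
      (pr ((Fan.node s E hne).r l) (μ v a - nM s E d (.inr (.inl (j, i))))).toNat =
    (∏ l, (if l = (i : ι) ∨ l = s then 1 else θ (.inl l)) ^ a l) *
      (θ (.inr j.castSucc) ^ (((j : ℕ) : ℤ) * ((d : ℤ) - 2 - a s) + v a).toNat *
       θ (.inr j.succ) ^ ((((j : ℕ) : ℤ) + 1) * ((d : ℤ) - 2 - a s) + v a).toNat) := by
  obtain ⟨i, hi⟩ := i
  have hne' : j.castSucc ≠ j.succ := (Fin.castSucc_lt_succ).ne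
  have h := prod_S s E hne (.inr (.inl (j, ⟨i, hi⟩))) (fun l => θ l ^
    (pr (nR s E l) (μ v a - nM s E d (.inr (.inl (j, ⟨i, hi⟩))))).toNat)
  refine Eq.trans h ?_
  have hd := deg_sub_nM s E v a d ha (.inr (.inl (j, ⟨i, hi⟩)))
  congr 1
  · refine Finset.prod_congr rfl fun l _ => ?_
    by_cases hl : l = i ∨ l = s
    · have h1 : ¬ (l ≠ i ∧ l ≠ s) := by tauto
      simp only [nB, h1, decide_false, hl, if_true, one_pow, Bool.false_eq_true, if_false]
    · have h1 : l ≠ i ∧ l ≠ s := by tauto
      simp only [nB, h1, ne_eq, not_false_eq_true, and_self, decide_true, if_true, or_self,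
        if_false]
      rw [pr_inl]
      simp [μ, nM, h1.1, h1.2]
  · have h1 : ∀ j' : Fin (E + 1), (if nB s E (.inr (.inl (j, ⟨i, hi⟩))) (.inr j') = true then
        θ (.inr j') ^ (pr (nR s E (.inr j')) (μ v a - nM s E d (.inr (.inl (j, ⟨i, hi⟩))))).toNat
        else 1) = (if j' = j.castSucc ∨ j' = j.succ then
        θ (.inr j') ^ (((j' : ℕ) : ℤ) * ((d : ℤ) - 2 - a s) + v a).toNat else 1) := by
      intro j'
      simp only [nB, decide_eq_true_eq]
      split_ifs
      · rw [pr_inr, hd]
        congr 2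
        have : s ≠ i := Ne.symm hi
        simp only [μ, nM, Prod.fst_sub, Pi.sub_apply, Pi.add_apply, Pi.single_eq_same,
          Pi.single_eq_of_ne this, Prod.snd_sub]
        ring
      · rfl
    rw [Finset.prod_congr rfl fun j' _ => h1 j', ← Finset.prod_filter]
    have h2 : Finset.univ.filter (fun j' => j' = j.castSucc ∨ j' = j.succ) =
        {j.castSucc, j.succ} := by
      ext j'
      simp
    rw [h2, Finset.prod_pair hne']
    simp only [Fin.val_castSucc, Fin.val_succ]
    push_cast
    rfl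

theorem prod_fin (u : Unit) :
    ∏ l : {l // l ∈ (Fan.node s E hne).S (.inr (.inr u))}, θ l.1 ^
      (pr ((Fan.node s E hne).r l) (μ v a - nM s E d (.inr (.inr u)))).toNat =
    (∏ l, (if l = s then 1 else θ (.inl l)) ^ a l) *
      θ (.inr (Fin.last E)) ^ ((E : ℤ) * ((d : ℤ) - a s) + v a - 2 * E).toNat := by
  have h := prod_S s E hne (.inr (.inr u)) (fun l => θ l ^
    (pr (nR s E l) (μ v a - nM s E d (.inr (.inr u)))).toNat)
  refine Eq.trans h ?_
  have hd := deg_sub_nM s E v a d ha (.inr (.inr u))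
  congr 1
  · refine Finset.prod_congr rfl fun l _ => ?_
    by_cases hl : l = s
    · simp [nB, hl]
    · simp only [nB, hl, ne_eq, not_false_eq_true, decide_true, if_true, if_false]
      rw [pr_inl]
      simp [μ, nM, hl]
  · rw [Finset.prod_eq_single (Fin.last E)]
    · simp only [nB, decide_true, if_true]
      rw [pr_inr, hd]
      congr 2
      simp only [μ, nM, Prod.fst_sub, Pi.sub_apply, Pi.single_eq_same, Prod.snd_sub, Fin.val_last]
      ring
    · intro j _ hj
      simp [nB, hj]
    · simp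

end prod

end Pool.Agent.K9h37.PP
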