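import Pool.Agent.K9h37.PP.Stm

/-! CODIM, part A: pairs of relations from a parametrisation (helper96, leaf of helper37's PP). -/

set_option autoImplicit false

namespace Pool.Agent.K9h37.PP

open MvPolynomial

theorem exists_rel {V W A : Type} [Fintype V] [Fintype W]
    (h : Fintype.card W < Fintype.card V) [CommRing A] [IsDomain A]
    [Algebra (MvPolynomial W ℤ) A] [FaithfulSMul (MvPolynomial W ℤ) A]
    [Algebra.IsAlgebraic (MvPolynomial W ℤ) A] (e : V → A) :
    ∃ G : MvPolynomial V ℤ, G ≠ 0 ∧ aeval e G = 0 := by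
  by_contra hcon
  push Not at hcon
  have hind : AlgebraicIndependent ℤ e := by
    rw [algebraicIndependent_iff]
    intro G hG
    by_contra hne
    exact hcon G hne hG
  have h1 := hind.cardinalMk_le_trdeg
  have h2 := trdeg_add_eq ℤ (MvPolynomial W ℤ) (A := A)
  rw [trdeg_eq_zero (R := MvPolynomial W ℤ), add_zero, MvPolynomial.trdeg_of_isDomain] at h2
  rw [← h2] at h1
  simp only [Cardinal.mk_fintype, Cardinal.lift_natCast] at h1
  have h3 : Fintype.card V ≤ Fintype.card W := by exact_mod_cast h1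
  omega

theorem aeval_mul_hom {V R A : Type} [CommRing R] [CommRing A] [Algebra R A]
    {H : MvPolynomial V R} {n : ℕ} (hH : H.IsHomogeneous n) (t : A) (x : V → A) :
    aeval (fun v => t * x v) H = t ^ n * aeval x H := by
  rw [aeval_def, aeval_def, eval₂_eq, eval₂_eq, Finset.mul_sum]
  refine Finset.sum_congr rfl fun α hα => ?_
  simp only [mul_pow]
  rw [Finset.prod_mul_distrib, Finset.prod_pow_eq_pow_sum, ← hH.degree_eq_sum_deg_support hα]
  ring

theorem exists_top {V : Type} (v₀ : V) (H : MvPolynomial V ℤ) (n : ℕ)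
    (hH : H.IsHomogeneous n) (h0 : H ≠ 0) : ∃ c : V → ℤ, c v₀ = 1 ∧ eval c H ≠ 0 := by
  classical
  by_contra hcon
  push Not at hcon
  -- the polynomial with `X v₀ = 1`
  have h1 : aeval (fun v => if v = v₀ then (1 : MvPolynomial V ℤ) else X v) H = 0 := by
    apply MvPolynomial.funext
    intro b
    rw [map_zero]
    have h2 := hcon (fun v => if v = v₀ then 1 else b v) (by simp)
    rw [← aeval_eq_eval, comp_aeval_apply, aeval_eq_eval]
    rw [← h2]
    congr 2
    funext v
    split_ifs <;> simp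
  have h2 : ∀ r : V → ℚ, r v₀ ≠ 0 → aeval r H = 0 := by
    intro r hr
    have h3 : aeval (fun v => if v = v₀ then (1 : ℚ) else r v / r v₀) H = 0 := by
      have h4 := congrArg (aeval (R := ℤ) (fun v => r v / r v₀)) h1
      rw [map_zero, comp_aeval_apply] at h4
      rw [← h4]
      congr 2
      funext v
      split_ifs <;> simp
    have h5 : r = fun v => r v₀ * (if v = v₀ then (1 : ℚ) else r v / r v₀) := by
      funext v
      split_ifs with h
      · rw [h, mul_one]
      · field_simp
    rw [h5, aeval_mul_hom hH, h3, mul_zero]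
  have h6 : map (Int.castRingHom ℚ) H * X v₀ = 0 := by
    refine ((hH.map _).mul (isHomogeneous_X ℚ v₀)).eq_zero_of_forall_eval_eq_zero ?_
    intro r
    rw [map_mul, eval_X]
    by_cases hr : r v₀ = 0
    · rw [hr, mul_zero]
    · rw [eval_map, ← algebraMap_int_eq, ← aeval_def, h2 r hr, zero_mul]
  rcases mul_eq_zero.mp h6 with h | h
  · apply h0
    refine map_injective (Int.castRingHom ℚ) Int.cast_injective ?_
    rw [h, map_zero]
  · exact X_ne_zero _ h

/-- `q` has degree at most `n` and the coefficient `b` at `n`. -/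
def Top {B : Type} [CommRing B] (n : ℕ) (b : B) (q : Polynomial B) : Prop :=
  q.natDegree ≤ n ∧ q.coeff n = b

theorem Top.mul {B : Type} [CommRing B] {n n' : ℕ} {b b' : B} {q q' : Polynomial B}
    (h : Top n b q) (h' : Top n' b' q') : Top (n + n') (b * b') (q * q') := by
  refine ⟨Polynomial.natDegree_mul_le_of_le h.1 h'.1, ?_⟩
  rw [Polynomial.coeff_mul_add_eq_of_natDegree_le h.1 h'.1, h.2, h'.2]

theorem Top.pow {B : Type} [CommRing B] {n : ℕ} {b : B} {q : Polynomial B}
    (h : Top n b q) (k : ℕ) : Top (n * k) (b ^ k) (q ^ k) := by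
  induction k with
  | zero => simp [Top]
  | succ k ih => rw [pow_succ, pow_succ, mul_add, mul_one]; exact ih.mul h

theorem Top.prod {B ι : Type} [CommRing B] (s : Finset ι) (n : ι → ℕ) (b : ι → B)
    (q : ι → Polynomial B) (h : ∀ i ∈ s, Top (n i) (b i) (q i)) :
    Top (∑ i ∈ s, n i) (∏ i ∈ s, b i) (∏ i ∈ s, q i) := by
  classical
  induction s using Finset.induction_on with
  | empty => simp [Top]
  | insert a s ha ih =>
    rw [Finset.sum_insert ha, Finset.prod_insert ha, Finset.prod_insert ha]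
    exact (h a (Finset.mem_insert_self a s)).mul
      (ih fun i hi => h i (Finset.mem_insert_of_mem hi))

/-- The substitution `X v ↦ X v + c v t`. -/
noncomputable def lin {V : Type} (c : V → ℤ) : V → Polynomial (MvPolynomial V ℤ) :=
  fun v => Polynomial.C (X v) + Polynomial.C (C (c v)) * Polynomial.X

theorem top_lin {V : Type} (c : V → ℤ) (v : V) : Top 1 (C (c v) : MvPolynomial V ℤ) (lin c v) := by
  refine ⟨?_, ?_⟩
  · unfold lin
    compute_degree
  · simp [lin]

theorem top_aeval {V : Type} (c : V → ℤ) (G : MvPolynomial V ℤ) (n : ℕ) (hn : G.totalDegree ≤ n) :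
    Top n (C (eval c (homogeneousComponent n G)) : MvPolynomial V ℤ) (aeval (lin c) G) := by
  classical
  have hmon : ∀ α ∈ G.support, Top n (if α.degree = n then
      C (G.coeff α * ∏ i ∈ α.support, c i ^ α i) else 0 : MvPolynomial V ℤ)
      (algebraMap ℤ (Polynomial (MvPolynomial V ℤ)) (G.coeff α) *
        ∏ i ∈ α.support, lin c i ^ α i) := by
    intro α hα
    have h1 : Top (∑ i ∈ α.support, 1 * α i) (∏ i ∈ α.support, (C (c i) : MvPolynomial V ℤ) ^ α i)
        (∏ i ∈ α.support, lin c i ^ α i) :=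
      Top.prod _ _ _ _ fun i _ => (top_lin c i).pow _
    have h2 : Top 0 (C (G.coeff α) : MvPolynomial V ℤ)
        (algebraMap ℤ (Polynomial (MvPolynomial V ℤ)) (G.coeff α)) := by
      have h0 : algebraMap ℤ (Polynomial (MvPolynomial V ℤ)) (G.coeff α) =
        Polynomial.C (C (G.coeff α)) := rfl
      rw [h0]
      exact ⟨by simp, by simp⟩
    have h3 := h2.mul h1
    have h4 : ∑ i ∈ α.support, 1 * α i = α.degree := by
      rw [Finsupp.degree_apply]; simp
    rw [zero_add, h4] at h3
    have h5 : α.degree ≤ n := by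
      refine le_trans ?_ hn
      rw [← h4]
      simpa [Finsupp.sum] using le_totalDegree hα
    by_cases h6 : α.degree = n
    · rw [if_pos h6, ← h6]
      convert h3 using 1
      rw [map_mul, map_prod]
      simp only [map_pow]
    · rw [if_neg h6]
      refine ⟨h3.1.trans h5, ?_⟩
      exact Polynomial.coeff_eq_zero_of_natDegree_lt (lt_of_le_of_lt h3.1 (lt_of_le_of_ne h5 h6))
  refine ⟨?_, ?_⟩
  · rw [aeval_def, eval₂_eq]
    exact Polynomial.natDegree_sum_le_of_forall_le _ _ fun α hα => (hmon α hα).1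
  · rw [aeval_def, eval₂_eq, Polynomial.finsetSum_coeff, Finset.sum_congr rfl
      fun α hα => (hmon α hα).2, homogeneousComponent_apply, map_sum, map_sum, Finset.sum_filter]
    refine Finset.sum_congr rfl fun α _ => ?_
    split_ifs with h
    · rw [eval_monomial, Finsupp.prod]
    · rfl

theorem aeval_field {V k : Type} [Field k] (a : V → ℤ) (G : MvPolynomial V ℤ) :
    aeval (fun v => (a v : k)) G = ((eval a G : ℤ) : k) := by
  have h := comp_aeval_apply (R := ℤ) (σ := V) a (Algebra.ofId ℤ k) G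
  rw [aeval_eq_eval] at h
  rw [← eq_intCast (algebraMap ℤ k) (eval a G)]
  rw [Algebra.ofId_apply] at h
  rw [h]
  congr 2

theorem top_ne_zero {V : Type} (G : MvPolynomial V ℤ) (h : G ≠ 0) :
    homogeneousComponent G.totalDegree G ≠ 0 := by
  intro h0
  obtain ⟨α, hα, hd⟩ := Finset.exists_mem_eq_sup G.support
    (Finset.nonempty_iff_ne_empty.mpr fun h1 => h (support_eq_empty.mp h1))
    (fun s => s.sum fun _ e => e)
  have h2 := congrArg (coeff α) h0
  rw [coeff_homogeneousComponent, if_pos (by rw [Finsupp.degree_apply]; exact hd.symm),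
    coeff_zero] at h2
  exact (mem_support_iff.mp hα) h2

theorem exists_pair_aux {V W A : Type} [Fintype V] [Fintype W]
    (h : Fintype.card W + 2 ≤ Fintype.card V) (Δ : MvPolynomial W ℤ) (hΔ : Δ ≠ 0)
    (Φ : V → MvPolynomial W ℤ) (D : ℕ) [CommRing A] [Algebra (MvPolynomial W ℤ) A]
    [IsLocalization.Away Δ A] :
    ∃ P : Pair V, ∀ (p : ℕ) (k : Type) [Field k] [CharP k p] (θ : W → k) (a : V → ℤ),
      aeval θ Δ ≠ 0 → (∀ v, aeval θ (Φ v) = (a v : k) * (aeval θ Δ) ^ D) → Hit P p a := by
  classical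
  obtain ⟨v₀⟩ : Nonempty V := Fintype.card_pos_iff.mp (by omega)
  have hM : Submonoid.powers Δ ≤ nonZeroDivisors (MvPolynomial W ℤ) :=
    powers_le_nonZeroDivisors_of_noZeroDivisors hΔ
  have : IsDomain A := IsLocalization.isDomain_of_le_nonZeroDivisors _ hM
  have : FaithfulSMul (MvPolynomial W ℤ) A := by
    rw [faithfulSMul_iff_algebraMap_injective]
    exact IsLocalization.injective A hM
  have : Algebra.IsAlgebraic (MvPolynomial W ℤ) A :=
    IsLocalization.isAlgebraic A (Submonoid.powers Δ)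
  let e : V → A := fun v => IsLocalization.mk' A (Φ v) (⟨Δ ^ D, D, rfl⟩ : Submonoid.powers Δ)
  obtain ⟨G, hG0, hG⟩ := exists_rel (W := W) (by omega) e
  obtain ⟨c, hc1, hc2⟩ := exists_top v₀ (homogeneousComponent G.totalDegree G) G.totalDegree
    (homogeneousComponent_isHomogeneous _ _) (top_ne_zero G hG0)
  obtain ⟨R, hR0, hR⟩ := exists_rel (V := {v // v ≠ v₀}) (W := W) (A := A)
    (by
      have h1 := Fintype.card_subtype_compl (fun v : V => v = v₀)
      rw [Fintype.card_subtype_eq] at h1
      have h2 : Fintype.card {v // v ≠ v₀} = Fintype.card V - 1 := h1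
      omega) (fun v => e v - (c v : A) * e v₀)
  have htop := top_aeval c G G.totalDegree le_rfl
  refine ⟨⟨v₀, c, hc1, G, rename Subtype.val R, ?_, ?_, ?_⟩, ?_⟩
  · refine ⟨_, hc2, ?_⟩
    have h1 : (aeval (lin c) G).natDegree = G.totalDegree := by
      refine le_antisymm htop.1 (Polynomial.le_natDegree_of_ne_zero ?_)
      rw [htop.2]
      exact fun h0 => hc2 (C_injective V ℤ (by rw [h0, map_zero]))
    change (aeval (lin c) G).leadingCoeff = _
    rw [Polynomial.leadingCoeff, h1, htop.2]
  · intro h0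
    exact hR0 (rename_injective _ Subtype.val_injective (by rw [h0, map_zero]))
  · intro h0
    have h1 := vars_rename Subtype.val R h0
    rw [Finset.mem_image] at h1
    obtain ⟨v, -, hv⟩ := h1
    exact v.2 hv
  · intro p k _ _ θ a hΔk hΦ
    have hu : IsUnit ((aeval θ : MvPolynomial W ℤ →ₐ[ℤ] k).toRingHom Δ) :=
      isUnit_iff_ne_zero.mpr hΔk
    let ψ : A →+* k := IsLocalization.Away.lift Δ hu
    have hψ0 : ∀ f, ψ (algebraMap _ A f) = aeval θ f := fun f => IsLocalization.Away.lift_eq Δ hu f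
    have hψ : ∀ v, ψ (e v) = (a v : k) := by
      intro v
      have h1 : ψ (e v) * (aeval θ Δ) ^ D = aeval θ (Φ v) := by
        rw [← map_pow, ← hψ0, ← hψ0, ← map_mul]
        congr 1
        exact IsLocalization.mk'_spec A (Φ v) (⟨Δ ^ D, D, rfl⟩ : Submonoid.powers Δ)
      rw [hΦ v] at h1
      exact mul_right_cancel₀ (pow_ne_zero _ hΔk) h1
    have key : ∀ (U : Type) (b : U → A) (F : MvPolynomial U ℤ), aeval b F = 0 →
        aeval (fun v => ψ (b v)) F = 0 := by
      intro U b F hF
      have h1 := comp_aeval_apply (R := ℤ) b (ψ.toIntAlgHom) F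
      rw [hF, map_zero] at h1
      exact h1.symm
    constructor
    · rw [← CharP.intCast_eq_zero_iff k p, ← aeval_field]
      have h1 := key V e G hG
      simp only [hψ] at h1
      exact h1
    · rw [← CharP.intCast_eq_zero_iff k p, ← aeval_field, aeval_rename]
      have h1 := key _ _ R hR
      simp only [map_sub, map_mul, map_intCast, hψ] at h1
      rw [← h1]
      congr 2
      funext v
      simp

theorem exists_pair {V W : Type} [Fintype V] [Fintype W]
    (h : Fintype.card W + 2 ≤ Fintype.card V) (Δ : MvPolynomial W ℤ) (hΔ : Δ ≠ 0)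
    (Φ : V → MvPolynomial W ℤ) (D : ℕ) :
    ∃ P : Pair V, ∀ (p : ℕ) (k : Type) [Field k] [CharP k p] (θ : W → k) (a : V → ℤ),
      aeval θ Δ ≠ 0 → (∀ v, aeval θ (Φ v) = (a v : k) * (aeval θ Δ) ^ D) → Hit P p a :=
  exists_pair_aux (A := Localization.Away Δ) h Δ hΔ Φ D

end Pool.Agent.K9h37.PP
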