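import Pool.Agent.K9h37.PP.CodA

/-! CODIM, part B: linear substitutions in forms, and the parametrisation of the forms which lose
the coefficients `Z` after a substitution with the free entries `E` (helper96). -/

set_option autoImplicit false

namespace Pool.Agent.K9h37.PP

open MvPolynomial

variable {R S : Type} [CommRing R] [CommRing S] {m d : ℕ}

theorem coeff_form (a : Mon m d → R) (α : Mon m d) : (form a).coeff α.1 = a α := by
  classical
  rw [form, coeff_sum, Finset.sum_eq_single α]
  · rw [coeff_monomial, if_pos rfl]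
  · intro β _ hβ
    rw [coeff_monomial, if_neg fun h => hβ (Subtype.ext h)]
  · intro h
    exact absurd (Finset.mem_univ _) h

theorem degree_mon (α : Mon m d) : α.1.degree = d := by
  have h := α.2
  rw [Finset.mem_finsuppAntidiag] at h
  rw [Finsupp.degree_eq_sum]
  exact h.1

theorem mem_mon {α : Fin m →₀ ℕ} (h : α.degree = d) :
    α ∈ (Finset.univ : Finset (Fin m)).finsuppAntidiag d := by
  rw [Finset.mem_finsuppAntidiag]
  refine ⟨?_, Finset.subset_univ _⟩
  rw [← h, Finsupp.degree_eq_sum]

theorem form_isHomogeneous (a : Mon m d → R) : (form a).IsHomogeneous d :=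
  IsHomogeneous.sum _ _ _ fun α _ => isHomogeneous_monomial _ (degree_mon α)

theorem form_coeff {F : MvPolynomial (Fin m) R} (hF : F.IsHomogeneous d) :
    form (fun α : Mon m d => F.coeff α.1) = F := by
  ext α
  by_cases h : α.degree = d
  · exact coeff_form (fun α : Mon m d => F.coeff α.1) ⟨α, mem_mon h⟩
  · rw [hF.coeff_eq_zero h, (form_isHomogeneous _).coeff_eq_zero h]

theorem map_form (f : R →+* S) (a : Mon m d → R) : map f (form a) = form (fun α => f (a α)) := by
  rw [form, map_sum, form]
  exact Finset.sum_congr rfl fun α _ => map_monomial _ _ _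

theorem sub_sub (T T' : Matrix (Fin m) (Fin m) R) (F : MvPolynomial (Fin m) R) :
    sub T' (sub T F) = sub (T * T') F := by
  rw [sub, sub, sub, comp_aeval_apply]
  congr 2
  funext i
  rw [map_sum]
  simp only [map_mul, aeval_C, aeval_X, algebraMap_eq, Matrix.mul_apply, Finset.mul_sum, map_sum,
    Finset.sum_mul]
  rw [Finset.sum_comm]
  refine Finset.sum_congr rfl fun j _ => Finset.sum_congr rfl fun l _ => ?_
  ring

theorem sub_smul_one {F : MvPolynomial (Fin m) R} (hF : F.IsHomogeneous d) (t : R) :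
    sub (t • (1 : Matrix (Fin m) (Fin m) R)) F = C (t ^ d) * F := by
  have h1 : (fun i : Fin m => ∑ j, C ((t • (1 : Matrix (Fin m) (Fin m) R)) i j) * X j) =
      fun i => C t * (X i : MvPolynomial (Fin m) R) := by
    funext i
    rw [Finset.sum_eq_single i]
    · simp
    · intro j _ hj
      simp [Matrix.one_apply_ne' hj]
    · intro h
      exact absurd (Finset.mem_univ _) h
  rw [sub, h1, aeval_mul_hom hF, aeval_X_left_apply, map_pow]

theorem map_sub (f : R →+* S) (T : Matrix (Fin m) (Fin m) R) (F : MvPolynomial (Fin m) R) :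
    map f (sub T F) = sub (T.map f) (map f F) := by
  induction F using MvPolynomial.induction_on with
  | C a => simp [sub]
  | add p q hp hq => simp only [sub, map_add] at hp hq ⊢; rw [hp, hq]
  | mul_X p i hp =>
    simp only [sub, map_mul, aeval_X, map_X, map_sum, map_C, Matrix.map_apply] at hp ⊢
    rw [hp]

theorem sub_isHomogeneous {F : MvPolynomial (Fin m) R} (hF : F.IsHomogeneous d)
    (T : Matrix (Fin m) (Fin m) R) : (sub T F).IsHomogeneous d := by
  have h := hF.aeval (S := R) (τ := Fin m) (n := 1) (fun i => ∑ j, C (T i j) * X j) fun i =>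
    IsHomogeneous.sum _ _ _ fun j _ => isHomogeneous_C_mul_X _ _
  rwa [one_mul] at h

open Classical in
/-- The parameters: the coefficients outside `Z` and the entries in `E`. -/
abbrev Par (m d : ℕ) (Z : Finset (Mon m d)) (E : Finset (Fin m × Fin m)) : Type :=
  {α : Mon m d // α ∉ Z} ⊕ {rc : Fin m × Fin m // rc ∈ E}

variable (Z : Finset (Mon m d)) (E : Finset (Fin m × Fin m))

open Classical in
/-- The generic substitution. -/
noncomputable def genT : Matrix (Fin m) (Fin m) (MvPolynomial (Par m d Z E) ℤ) :=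
  Matrix.of fun r c => if h : (r, c) ∈ E then X (Sum.inr ⟨(r, c), h⟩) else
    C ((1 : Matrix (Fin m) (Fin m) ℤ) r c)

open Classical in
/-- The generic form without the coefficients in `Z`. -/
noncomputable def genH : MvPolynomial (Fin m) (MvPolynomial (Par m d Z E) ℤ) :=
  form fun α : Mon m d => if h : α ∈ Z then 0 else X (Sum.inl ⟨α, h⟩)

theorem genT_map {k : Type} [CommRing k] (θ : Par m d Z E → k) (T : Matrix (Fin m) (Fin m) k)
    (h1 : ∀ rc, θ (Sum.inr rc) = T rc.1.1 rc.1.2)
    (h2 : ∀ r c, (r, c) ∉ E → T r c = (1 : Matrix (Fin m) (Fin m) k) r c) :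
    (genT Z E).map (aeval θ : _ →ₐ[ℤ] k) = T := by
  ext r c
  rw [Matrix.map_apply, genT, Matrix.of_apply]
  split_ifs with h
  · rw [aeval_X, h1]
  · rw [aeval_C, h2 r c h]
    by_cases hrc : r = c
    · rw [hrc, Matrix.one_apply_eq, Matrix.one_apply_eq, map_one]
    · rw [Matrix.one_apply_ne hrc, Matrix.one_apply_ne hrc, map_zero]

theorem genT_det_ne_zero : (genT Z E).det ≠ 0 := by
  intro h0
  have h1 := genT_map Z E (k := ℤ) (Sum.elim (fun _ => 0)
    (fun rc => (1 : Matrix (Fin m) (Fin m) ℤ) rc.1.1 rc.1.2)) 1 (fun rc => rfl) (fun r c _ => rfl)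
  have h2 := congrArg Matrix.det h1
  rw [Matrix.det_one] at h2
  have h3 := AlgHom.map_det (aeval (Sum.elim (fun _ => 0)
    (fun rc => (1 : Matrix (Fin m) (Fin m) ℤ) rc.1.1 rc.1.2)) :
      MvPolynomial (Par m d Z E) ℤ →ₐ[ℤ] ℤ) (genT Z E)
  rw [h0, map_zero] at h3
  exact one_ne_zero ((h2.symm.trans h3.symm : (1 : ℤ) = 0))

/-- The parametrisation: finitely many relations for the forms with zero coefficients in `Z`
after a substitution with the free entries `E`. -/
theorem exists_pair_sub (hEZ : E.card + 2 ≤ Z.card) :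
    ∃ P : Pair (Mon m d), ∀ (p : ℕ) (k : Type) [Field k] [CharP k p] (a : Mon m d → ℤ)
      (T : Matrix (Fin m) (Fin m) k), T.det ≠ 0 →
      (∀ r c, (r, c) ∉ E → T r c = (1 : Matrix (Fin m) (Fin m) k) r c) →
      (∀ α ∈ Z, (sub T (form fun α => (a α : k))).coeff α.1 = 0) → Hit P p a := by
  classical
  obtain ⟨P, hP⟩ := exists_pair (V := Mon m d) (W := Par m d Z E) (by
    rw [Fintype.card_sum, Fintype.card_coe]
    have h1 : Fintype.card {α : Mon m d // α ∉ Z} =
        Fintype.card (Mon m d) - Fintype.card {α : Mon m d // α ∈ Z} :=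
      Fintype.card_subtype_compl (fun α : Mon m d => α ∈ Z)
    have h2 : Z.card ≤ Fintype.card (Mon m d) := Finset.card_le_univ Z
    have h3 : Fintype.card {α : Mon m d // α ∈ Z} = Z.card := Fintype.card_coe Z
    omega) (genT Z E).det (genT_det_ne_zero Z E)
    (fun α => (sub (genT Z E).adjugate (genH Z E)).coeff α.1) d
  refine ⟨P, fun p k _ _ a T hT hE hZ => ?_⟩
  have hF := form_isHomogeneous (fun α : Mon m d => (a α : k))
  have hH := sub_isHomogeneous hF T
  let θ : Par m d Z E → k := Sum.elim
    (fun α => (sub T (form fun α : Mon m d => (a α : k))).coeff α.1.1)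
    (fun rc => T rc.1.1 rc.1.2)
  have h1 : (genT Z E).map (aeval θ : _ →ₐ[ℤ] k) = T := genT_map Z E θ T (fun rc => rfl) hE
  have h2 : map ((aeval θ : _ →ₐ[ℤ] k) : _ →+* k) (genH Z E) =
      sub T (form fun α : Mon m d => (a α : k)) := by
    rw [genH, map_form, ← form_coeff hH]
    congr 1
    funext α
    split_ifs with h
    · rw [map_zero, hZ α h]
    · simp [θ]
  have h3 : aeval θ (genT Z E).det = T.det := by
    rw [AlgHom.map_det]
    congr 1
  refine hP p k θ a ?_ fun α => ?_
  · rw [h3]; exact hT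
  · rw [h3]
    have h4 : aeval θ ((sub (genT Z E).adjugate (genH Z E)).coeff α.1) =
        (map ((aeval θ : _ →ₐ[ℤ] k) : _ →+* k)
          (sub (genT Z E).adjugate (genH Z E))).coeff α.1 := by
      rw [coeff_map]; rfl
    have h5 : (genT Z E).adjugate.map ((aeval θ : _ →ₐ[ℤ] k) : _ →+* k) = T.adjugate := by
      rw [← h1]
      exact AlgHom.map_adjugate (aeval θ : _ →ₐ[ℤ] k) (genT Z E)
    rw [h4, map_sub, h2, h5, sub_sub, Matrix.mul_adjugate, sub_smul_one hF, coeff_C_mul,
      coeff_form, mul_comm]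

end Pool.Agent.K9h37.PP
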