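import Pool.Agent.K9h37.PP.Stm2

/-! Leaf CRT (helper72): the density of finitely many `p ^ 2`-periodic conditions. -/

set_option autoImplicit false

namespace Pool.Agent.K9h37.PP.CRTp

open Filter

variable {V : Type} [Fintype V] [DecidableEq V]

/-- the residues modulo `Q` -/
noncomputable def res (V : Type) [Fintype V] [DecidableEq V] (Q : ℕ) : Finset (V → ℤ) :=
  Fintype.piFinset fun _ => Finset.Ico (0 : ℤ) Q

open Classical in
/-- the number of good residues -/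
noncomputable def cc (Q : ℕ) (Pr : (V → ℤ) → Prop) : ℕ := ((res V Q).filter Pr).card

open Classical in
/-- the number of good points of the box -/
noncomputable def bc (B : ℕ) (Pr : (V → ℤ) → Prop) : ℕ := ((box V B).filter Pr).card

lemma mem_res {Q : ℕ} {a : V → ℤ} : a ∈ res V Q ↔ ∀ v, 0 ≤ a v ∧ a v < Q := by
  unfold res
  rw [Fintype.mem_piFinset]
  simp only [Finset.mem_Ico]

/-- the points of `[-B, B]` in a class modulo `Q` -/
noncomputable def cnt (Q : ℕ) (r : ℤ) (B : ℕ) : ℕ :=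
  ((Finset.Icc (-(B : ℤ)) B).filter (fun n => n % (Q : ℤ) = r % (Q : ℤ))).card

lemma cnt_bd (Q : ℕ) (hQ : 0 < Q) (r : ℤ) (B : ℕ) :
    |(cnt Q r B : ℝ) - (2 * B + 1) / Q| ≤ 1 := by
  have hQ' : (0 : ℤ) < Q := by exact_mod_cast hQ
  have h1 := Int.Ioc_filter_modEq_card (-(B : ℤ) - 1) B hQ' r
  have e1 : (Finset.Ioc (-(B : ℤ) - 1) B).filter (fun x => x ≡ r [ZMOD Q]) =
      (Finset.Icc (-(B : ℤ)) B).filter (fun n => n % (Q : ℤ) = r % (Q : ℤ)) := by
    ext x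
    rw [Finset.mem_filter, Finset.mem_filter, Finset.mem_Ioc, Finset.mem_Icc]
    constructor
    · rintro ⟨⟨h1, h2⟩, h3⟩
      exact ⟨⟨by omega, h2⟩, h3⟩
    · rintro ⟨⟨h1, h2⟩, h3⟩
      exact ⟨⟨by omega, h2⟩, h3⟩
  rw [e1] at h1
  obtain ⟨x, hx⟩ : ∃ x : ℚ, x = (((B : ℤ) : ℚ) - (r : ℚ)) / ((Q : ℤ) : ℚ) := ⟨_, rfl⟩
  obtain ⟨y, hy⟩ : ∃ y : ℚ, y = (((-(B : ℤ) - 1 : ℤ) : ℚ) - (r : ℚ)) / ((Q : ℤ) : ℚ) := ⟨_, rfl⟩
  rw [← hx, ← hy] at h1
  have hQq : (0 : ℚ) < (Q : ℚ) := by exact_mod_cast hQ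
  have hxy : x - y = (2 * B + 1) / Q := by
    rw [hx, hy]
    push_cast
    field_simp
    ring
  have hpos : 0 < x - y := by rw [hxy]; positivity
  have hfl : ⌊y⌋ ≤ ⌊x⌋ := Int.floor_le_floor (by linarith)
  rw [max_eq_left (by omega)] at h1
  have h2 : (cnt Q r B : ℤ) = ⌊x⌋ - ⌊y⌋ := h1
  have h3 : ((cnt Q r B : ℕ) : ℚ) = (⌊x⌋ : ℚ) - (⌊y⌋ : ℚ) := by exact_mod_cast h2
  have a1 := Int.floor_le x
  have a2 := Int.lt_floor_add_one x
  have a3 := Int.floor_le y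
  have a4 := Int.lt_floor_add_one y
  have h4 : |((cnt Q r B : ℕ) : ℚ) - (2 * B + 1) / Q| ≤ 1 := by
    rw [← hxy, h3, abs_le]
    constructor <;> linarith
  have h5 := (Rat.cast_le (K := ℝ)).2 h4
  push_cast at h5
  exact h5

lemma cnt_tendsto (Q : ℕ) (hQ : 0 < Q) (r : ℤ) :
    Tendsto (fun B : ℕ => (cnt Q r B : ℝ) / (2 * B + 1)) atTop (nhds (1 / Q)) := by
  rw [tendsto_iff_dist_tendsto_zero]
  have hQ' : (0 : ℝ) < Q := by exact_mod_cast hQ
  refine squeeze_zero (fun _ => dist_nonneg) (fun B => ?_) tendsto_one_div_add_atTop_nhds_zero_nat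
  have h1 := cnt_bd Q hQ r B
  have hB : (0 : ℝ) < 2 * B + 1 := by positivity
  rw [Real.dist_eq]
  have e : (cnt Q r B : ℝ) / (2 * B + 1) - 1 / Q = ((cnt Q r B : ℝ) - (2 * B + 1) / Q) / (2 * B + 1) := by
    field_simp
  rw [e, abs_div, abs_of_pos hB]
  refine div_le_div₀ zero_le_one h1 (by positivity) ?_
  have : (0 : ℝ) ≤ B := by positivity
  linarith

lemma card_box (B : ℕ) : ((box V B).card : ℝ) = (2 * (B : ℝ) + 1) ^ Fintype.card V := by
  unfold box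
  rw [Fintype.card_piFinset, Finset.prod_const, Finset.card_univ, Int.card_Icc]
  push_cast
  congr 1
  have : ((B : ℤ) + 1 - -(B : ℤ)).toNat = 2 * B + 1 := by omega
  rw [this]
  push_cast
  ring

/-- periodic conditions -/
def Per (Q : ℕ) (Pr : (V → ℤ) → Prop) : Prop :=
  ∀ a b : V → ℤ, (∀ v, (Q : ℤ) ∣ a v - b v) → Pr a → Pr b

open Classical in
lemma count_box (Q : ℕ) (hQ : 0 < Q) (Pr : (V → ℤ) → Prop) (hper : Per Q Pr) (B : ℕ) :
    bc B Pr = ∑ r ∈ (res V Q).filter Pr, ∏ v, cnt Q (r v) B := by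
  have hQ' : (0 : ℤ) < Q := by exact_mod_cast hQ
  unfold bc
  rw [Finset.card_eq_sum_card_fiberwise (f := fun (a : V → ℤ) v => a v % (Q : ℤ))
    (t := (res V Q).filter Pr)]
  · refine Finset.sum_congr rfl fun r hr => ?_
    rw [Finset.mem_filter, mem_res] at hr
    unfold cnt
    rw [← Fintype.card_piFinset]
    congr 1
    ext a
    rw [Finset.mem_filter, Finset.mem_filter, Fintype.mem_piFinset]
    unfold box
    rw [Fintype.mem_piFinset]
    constructor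
    · rintro ⟨⟨h1, _⟩, h3⟩ v
      rw [Finset.mem_filter]
      refine ⟨h1 v, ?_⟩
      have : a v % (Q : ℤ) = r v := congrFun h3 v
      rw [this, Int.emod_eq_of_lt (hr.1 v).1 (hr.1 v).2]
    · intro h1
      have h1' := fun v => Finset.mem_filter.1 (h1 v)
      refine ⟨⟨fun v => (h1' v).1, ?_⟩, ?_⟩
      · exact hper r a (fun v => Int.ModEq.dvd (h1' v).2) hr.2
      · funext v
        rw [(h1' v).2, Int.emod_eq_of_lt (hr.1 v).1 (hr.1 v).2]
  · intro a ha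
    rw [Finset.mem_coe, Finset.mem_filter] at ha
    rw [Finset.mem_coe, Finset.mem_filter, mem_res]
    refine ⟨fun v => ⟨Int.emod_nonneg _ hQ'.ne', Int.emod_lt_of_pos _ hQ'⟩, ?_⟩
    exact hper a _ (fun v => Int.dvd_self_sub_emod) ha.2

open Classical in
lemma per_density (Q : ℕ) (hQ : 0 < Q) (Pr : (V → ℤ) → Prop) (hper : Per Q Pr) :
    Tendsto (fun B : ℕ => (bc B Pr : ℝ) / ((box V B).card : ℝ)) atTop
      (nhds ((cc Q Pr : ℝ) / (Q : ℝ) ^ Fintype.card V)) := by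
  have h1 : ∀ B : ℕ, (bc B Pr : ℝ) / ((box V B).card : ℝ) =
      ∑ r ∈ (res V Q).filter Pr, ∏ v, ((cnt Q (r v) B : ℝ) / (2 * B + 1)) := by
    intro B
    rw [count_box Q hQ Pr hper B, card_box]
    push_cast
    rw [Finset.sum_div]
    refine Finset.sum_congr rfl fun r _ => ?_
    rw [Finset.prod_div_distrib, Finset.prod_const, Finset.card_univ]
  simp_rw [h1]
  have h2 : (cc Q Pr : ℝ) / (Q : ℝ) ^ Fintype.card V =
      ∑ r ∈ (res V Q).filter Pr, ∏ _v : V, (1 / (Q : ℝ)) := by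
    rw [Finset.prod_const, Finset.card_univ, Finset.sum_const, nsmul_eq_mul, one_div, inv_pow]
    rfl
  rw [h2]
  exact tendsto_finsetSum _ fun r _ => tendsto_finsetProd _ fun v _ => cnt_tendsto Q hQ (r v)

omit [Fintype V] [DecidableEq V] in
lemma Per.mono {Q Q' : ℕ} (h : Q ∣ Q') {Pr : (V → ℤ) → Prop} (hp : Per Q Pr) : Per Q' Pr :=
  fun a b hab ha => hp a b (fun v => (Int.natCast_dvd_natCast.2 h).trans (hab v)) ha

lemma crt_int {Q1 Q2 : ℕ} (h1 : 0 < Q1) (h2 : 0 < Q2) (hc : Q1.Coprime Q2) (x y : ℤ) :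
    ∃ a : ℤ, 0 ≤ a ∧ a < ((Q1 * Q2 : ℕ) : ℤ) ∧ (Q1 : ℤ) ∣ a - x ∧ (Q2 : ℤ) ∣ a - y := by
  have hcop : IsCoprime (Q1 : ℤ) (Q2 : ℤ) := Nat.isCoprime_iff_coprime.2 hc
  obtain ⟨u, v, huv⟩ := hcop
  have hpos : (0 : ℤ) < ((Q1 * Q2 : ℕ) : ℤ) := by exact_mod_cast Nat.mul_pos h1 h2
  obtain ⟨X, hX⟩ : ∃ X : ℤ, X = x * (v * Q2) + y * (u * Q1) := ⟨_, rfl⟩
  have e1 : (((Q1 * Q2 : ℕ) : ℤ)) ∣ X - X % ((Q1 * Q2 : ℕ) : ℤ) := Int.dvd_self_sub_emod
  refine ⟨X % ((Q1 * Q2 : ℕ) : ℤ), Int.emod_nonneg _ hpos.ne',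
    Int.emod_lt_of_pos _ hpos, ?_, ?_⟩
  · have e2 : (Q1 : ℤ) ∣ X - X % ((Q1 * Q2 : ℕ) : ℤ) :=
      dvd_trans (by push_cast; exact Dvd.intro _ rfl) e1
    have e3 : (Q1 : ℤ) ∣ X - x := by
      refine ⟨(y - x) * u, ?_⟩
      have : v * (Q2 : ℤ) = 1 - u * Q1 := by linarith
      rw [hX, this]
      ring
    have e4 : X % ((Q1 * Q2 : ℕ) : ℤ) - x = (X - x) - (X - X % ((Q1 * Q2 : ℕ) : ℤ)) := by abel
    rw [e4]
    exact dvd_sub e3 e2
  · have e2 : (Q2 : ℤ) ∣ X - X % ((Q1 * Q2 : ℕ) : ℤ) :=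
      dvd_trans (by push_cast; exact Dvd.intro_left _ rfl) e1
    have e3 : (Q2 : ℤ) ∣ X - y := by
      refine ⟨(x - y) * v, ?_⟩
      have : u * (Q1 : ℤ) = 1 - v * Q2 := by linarith
      rw [hX, this]
      ring
    have e4 : X % ((Q1 * Q2 : ℕ) : ℤ) - y = (X - y) - (X - X % ((Q1 * Q2 : ℕ) : ℤ)) := by abel
    rw [e4]
    exact dvd_sub e3 e2

lemma eq_of_range {Q : ℕ} {x y : ℤ} (hx0 : 0 ≤ x) (hx : x < Q) (hy0 : 0 ≤ y) (hy : y < Q)
    (h : (Q : ℤ) ∣ x - y) : x = y := by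
  have h1 : x % Q = y % Q := Int.ModEq.symm ((Int.modEq_iff_dvd).2 h)
  rwa [Int.emod_eq_of_lt hx0 hx, Int.emod_eq_of_lt hy0 hy] at h1

open Classical in
lemma mult {Q1 Q2 : ℕ} (h1 : 0 < Q1) (h2 : 0 < Q2) (hc : Q1.Coprime Q2) (L L1 L2 : (V → ℤ) → Prop)
    (hL : ∀ a, L a ↔ (L1 a ∧ L2 a)) (hp1 : Per Q1 L1) (hp2 : Per Q2 L2) :
    cc (Q1 * Q2) L = cc Q1 L1 * cc Q2 L2 := by
  have h1' : (0 : ℤ) < Q1 := by exact_mod_cast h1
  have h2' : (0 : ℤ) < Q2 := by exact_mod_cast h2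
  unfold cc
  rw [← Finset.card_product]
  refine Finset.card_bij (fun a _ => (fun v => a v % (Q1 : ℤ), fun v => a v % (Q2 : ℤ))) ?_ ?_ ?_
  · intro a ha
    rw [Finset.mem_filter, mem_res, hL] at ha
    rw [Finset.mem_product, Finset.mem_filter, Finset.mem_filter, mem_res, mem_res]
    exact ⟨⟨fun v => ⟨Int.emod_nonneg _ h1'.ne', Int.emod_lt_of_pos _ h1'⟩,
      hp1 a _ (fun v => Int.dvd_self_sub_emod) ha.2.1⟩,
      ⟨fun v => ⟨Int.emod_nonneg _ h2'.ne', Int.emod_lt_of_pos _ h2'⟩,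
      hp2 a _ (fun v => Int.dvd_self_sub_emod) ha.2.2⟩⟩
  · intro a ha b hb hab
    rw [Finset.mem_filter, mem_res] at ha hb
    rw [Prod.mk.injEq] at hab
    funext v
    have e1 : (Q1 : ℤ) ∣ a v - b v := Int.ModEq.dvd (congrFun hab.1 v).symm
    have e2 : (Q2 : ℤ) ∣ a v - b v := Int.ModEq.dvd (congrFun hab.2 v).symm
    have e3 : ((Q1 * Q2 : ℕ) : ℤ) ∣ a v - b v := by
      push_cast
      exact IsCoprime.mul_dvd (Nat.isCoprime_iff_coprime.2 hc) e1 e2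
    exact eq_of_range (ha.1 v).1 (ha.1 v).2 (hb.1 v).1 (hb.1 v).2 e3
  · rintro ⟨x, y⟩ hxy
    rw [Finset.mem_product, Finset.mem_filter, Finset.mem_filter, mem_res, mem_res] at hxy
    obtain ⟨⟨hx1, hx2⟩, hy1, hy2⟩ := hxy
    choose a a1 a2 a3 a4 using fun v => crt_int h1 h2 hc (x v) (y v)
    refine ⟨a, ?_, ?_⟩
    · rw [Finset.mem_filter, mem_res, hL]
      refine ⟨fun v => ⟨a1 v, a2 v⟩, ?_, ?_⟩
      · exact hp1 x a (fun v => by rw [← neg_sub]; exact (dvd_neg).2 (a3 v)) hx2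
      · exact hp2 y a (fun v => by rw [← neg_sub]; exact (dvd_neg).2 (a4 v)) hy2
    · rw [Prod.mk.injEq]
      constructor
      · funext v
        have := (Int.modEq_iff_dvd).2 (a3 v)
        have h3 : x v % (Q1:ℤ) = a v % Q1 := this
        rw [← h3, Int.emod_eq_of_lt (hx1 v).1 (hx1 v).2]
      · funext v
        have := (Int.modEq_iff_dvd).2 (a4 v)
        have h3 : y v % (Q2:ℤ) = a v % Q2 := this
        rw [← h3, Int.emod_eq_of_lt (hy1 v).1 (hy1 v).2]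

open Classical in
lemma fin_set (L : ℕ → (V → ℤ) → Prop) (hL : ∀ p : ℕ, p.Prime → Per (p ^ 2) (L p)) (s : Finset ℕ)
    (hs : ∀ p ∈ s, p.Prime) :
    Per (∏ p ∈ s, p ^ 2) (fun a : V → ℤ => ∀ p ∈ s, L p a) ∧
    (cc (∏ p ∈ s, p ^ 2) (fun a : V → ℤ => ∀ p ∈ s, L p a) : ℝ) /
      ((∏ p ∈ s, p ^ 2 : ℕ) : ℝ) ^ Fintype.card V =
      ∏ p ∈ s, (cc (p ^ 2) (L p) : ℝ) / ((p : ℝ) ^ 2) ^ Fintype.card V := by
  induction s using Finset.induction_on with
  | empty =>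
    refine ⟨fun a b _ _ p hp => absurd hp (Finset.notMem_empty p), ?_⟩
    have e : (res V 1).card = 1 := by
      unfold res
      rw [Fintype.card_piFinset]
      simp
    have e2 : cc 1 (fun a : V → ℤ => ∀ p ∈ (∅ : Finset ℕ), L p a) = 1 := by
      have h : ∀ P : (V → ℤ) → Prop, (∀ a, P a) → cc 1 P = 1 := by
        intro P hP
        unfold cc
        rw [Finset.filter_true_of_mem fun a _ => hP a, e]
      exact h _ fun a p hp => absurd hp (Finset.notMem_empty p)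
    rw [Finset.prod_empty, Finset.prod_empty, e2]
    simp
  | insert p s hps ih =>
    obtain ⟨ih1, ih2⟩ := ih fun q hq => hs q (Finset.mem_insert_of_mem hq)
    have hp : p.Prime := hs p (Finset.mem_insert_self p s)
    rw [Finset.prod_insert hps, Finset.prod_insert hps]
    have hperp := hL p hp
    have hcop : (p ^ 2).Coprime (∏ q ∈ s, q ^ 2) := by
      refine Nat.Coprime.prod_right fun q hq => ?_
      refine Nat.Coprime.pow _ _ ((Nat.coprime_primes hp (hs q (Finset.mem_insert_of_mem hq))).2 ?_)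
      rintro rfl
      exact hps hq
    have hpos : 0 < ∏ q ∈ s, q ^ 2 := Finset.prod_pos fun q hq =>
      pow_pos (hs q (Finset.mem_insert_of_mem hq)).pos 2
    have heq : (fun a : V → ℤ => ∀ q ∈ insert p s, L q a) = fun a => L p a ∧ ∀ q ∈ s, L q a := by
      funext a
      exact propext (Finset.forall_mem_insert p s _)
    rw [heq]
    refine ⟨?_, ?_⟩
    · intro a b hab ha
      exact ⟨hperp.mono (Dvd.intro _ rfl) a b hab ha.1, ih1.mono (Dvd.intro_left _ rfl) a b hab ha.2⟩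
    · rw [mult (pow_pos hp.pos 2) hpos hcop (fun a => L p a ∧ ∀ q ∈ s, L q a) (L p)
        (fun a => ∀ q ∈ s, L q a) (fun _ => Iff.rfl) hperp ih1, ← ih2]
      push_cast
      rw [mul_pow]
      exact mul_div_mul_comm _ _ _ _

/-- Leaf CRT -/
theorem crt : CRT := by
  intro V _ _ L hL M
  have hL' : ∀ p : ℕ, p.Prime → Per (p ^ 2) (L p) := by
    intro p hp a b hab ha
    refine hL p hp a b (fun v => ?_) ha
    have := hab v
    push_cast at this
    exact this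
  obtain ⟨h1, h2⟩ := fin_set L hL' ((Finset.range (M + 1)).filter Nat.Prime)
    (fun p hp => (Finset.mem_filter.1 hp).2)
  have hpos : 0 < ∏ p ∈ (Finset.range (M + 1)).filter Nat.Prime, p ^ 2 :=
    Finset.prod_pos fun q hq => pow_pos (Finset.mem_filter.1 hq).2.pos 2
  have h3 := per_density _ hpos _ h1
  rw [h2] at h3
  have e1 : ∀ B : ℕ, bc B (fun a : V → ℤ => ∀ p : ℕ, p.Prime → p ≤ M → L p a) =
      bc B (fun a : V → ℤ => ∀ p ∈ (Finset.range (M + 1)).filter Nat.Prime, L p a) := by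
    intro B
    congr 1
    funext a
    refine propext ⟨?_, ?_⟩
    · intro h p hp
      rw [Finset.mem_filter, Finset.mem_range] at hp
      exact h p hp.2 (by omega)
    · intro h p hp hpM
      exact h p (by rw [Finset.mem_filter, Finset.mem_range]; exact ⟨by omega, hp⟩)
  simp_rw [← e1] at h3
  unfold bc cc res at h3
  push_cast at h3
  convert h3

end Pool.Agent.K9h37.PP.CRTp
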