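import Pool.Agent.K9h37.PP.Hensel3

/-! Leaf HENSEL of the project PP (helper37, MP_602153_ag). -/

set_option autoImplicit false

namespace Pool.Agent.K9h37.PP

open MvPolynomial Hensel

namespace Hensel

lemma TT_vertex {O : Type} [CommRing O] {m : ℕ} (s : Fin m) (z : Fin m → O) (hz : z s = 1) :
    (fun i => ∑ j, TT s z i j * (Pi.single s 1 : Fin m → O) j) = z := by
  funext i
  rw [TT_sum, Pi.single_eq_same, one_mul]
  by_cases h : i = s
  · simp [h]
  · simp [h]

lemma pderiv_sub_TT {O : Type} [CommRing O] {m : ℕ} (s : Fin m) (z : Fin m → O)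
    (F : MvPolynomial (Fin m) O) (t : Fin m) (ht : t ≠ s) :
    pderiv t (sub (TT s z) F) = sub (TT s z) (pderiv t F) := by
  rw [pderiv_sub, Finset.sum_eq_single t]
  · rw [TT_ne _ _ _ _ ht, if_pos rfl, C_1, one_mul]
  · intro i _ hi
    rw [TT_ne _ _ _ _ ht, if_neg hi, C_0, zero_mul]
  · simp

/-- A singular point of the transformed form gives one of the original form. -/
lemma Sing.of_sub {k : Type} [Field k] {m : ℕ} {s : Fin m} {z : Fin m → k} (hz : z s = 1)
    {G : MvPolynomial (Fin m) k} {x : Fin m → k} (h : Sing (sub (TT s z) G) x) :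
    Sing G (fun i => ∑ j, TT s z i j * x j) := by
  classical
  have h1 : ∀ i, i ≠ s → eval (fun i => ∑ j, TT s z i j * x j) (pderiv i G) = 0 := by
    intro i hi
    have h2 := h.2 i
    rwa [pderiv_sub_TT s z G i hi, eval_sub] at h2
  refine ⟨?_, fun i => ?_⟩
  · have h2 := h.1
    rwa [eval_sub] at h2
  · by_cases hi : i = s
    · subst hi
      have h2 := h.2 i
      rw [pderiv_sub, map_sum, Finset.sum_eq_single i] at h2
      · rw [map_mul, eval_C, TT_self, hz, one_mul, eval_sub] at h2
        exact h2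
      · intro j _ hj
        rw [map_mul, eval_sub, h1 j hj, mul_zero]
      · simp
    · exact h1 i hi

/-- The singular vertex: if all the derivatives and the value vanish. -/
lemma coeff_one {O : Type} [CommRing O] {m d : ℕ} {F : MvPolynomial (Fin m) O}
    (hF : F.IsHomogeneous d) {s : Fin m} {z : Fin m → O} (hz : z s = 1) (t : Fin m) (ht : t ≠ s) :
    (sub (TT s z) F).coeff (Finsupp.single s (d - 1) + Finsupp.single t 1) =
      eval z (pderiv t F) := by
  have h1 := coeff_pderiv (i := t) (sub (TT s z) F) (Finsupp.single s (d - 1))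
  have h2 : (Finsupp.single s (d - 1) : Fin m →₀ ℕ) t = 0 := by
    rw [Finsupp.single_apply, if_neg (Ne.symm ht)]
  rw [h2, Nat.cast_zero, zero_add, mul_one, ← eval_vertex (sub_homogeneous _ hF).pderiv,
    pderiv_sub_TT s z F t ht, eval_sub, TT_vertex s z hz] at h1
  exact h1.symm

lemma coeff_zero {O : Type} [CommRing O] {m d : ℕ} {F : MvPolynomial (Fin m) O}
    (hF : F.IsHomogeneous d) {s : Fin m} {z : Fin m → O} (hz : z s = 1) :
    (sub (TT s z) F).coeff (Finsupp.single s d) = eval z F := by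
  rw [← eval_vertex (sub_homogeneous _ hF), eval_sub, TT_vertex s z hz]

end Hensel

/-- The leaf HENSEL. -/
theorem hensel : HENSEL := by
  intro O _ _ P _ hP _ m d hm hd F hF hsm ⟨hb, k, _, ψ, x, hψ, hx, hs⟩
  classical
  haveI hmax : P.IsMaximal := Ideal.IsPrime.isMaximal inferInstance hP
  obtain ⟨s, ξ, hξ, hsξ⟩ := rational P hF ψ hψ (hb k ψ hψ) hx hs
  obtain ⟨D, hD, hD2⟩ := smooth_bound hsm s
  -- the power of `P`
  obtain ⟨K, hK⟩ : ∃ K : ℕ, D ∉ P ^ K := by
    by_contra hcon
    push Not at hcon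
    apply hD
    have h1 : D ∈ ⨅ i : ℕ, P ^ i := by
      rw [Submodule.mem_iInf]
      exact hcon
    rwa [Ideal.iInf_pow_eq_bot_of_isDomain P hmax.ne_top] at h1
  have hK1 : 1 ≤ K := by
    rcases Nat.eq_zero_or_pos K with rfl | h
    · exact absurd (by rw [pow_zero, Ideal.one_eq_top]; trivial) hK
    · exact h
  obtain ⟨z, hz, hzξ, hzK⟩ := newton P hF ψ hψ (hb k ψ hψ) hξ hsξ K hK1
  have hzψ : (fun i => ψ (z i)) = fun i => ψ (ξ i) := funext hzξ
  -- the value at the improved point
  have hval : eval z F ∉ P ^ K := by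
    intro hcon
    apply hK
    have h1 : ∀ j, eval z (pderiv j F) ∈ P ^ K := by
      intro j
      by_cases hj : j = s
      · subst hj
        have h2 := congrArg (eval z) hF.sum_X_mul_pderiv
        rw [map_sum, map_nsmul, ← Finset.add_sum_erase _ _ (Finset.mem_univ j), map_mul, eval_X,
          hz, one_mul] at h2
        have h3 : eval z (pderiv j F) = d • eval z F -
            ∑ x ∈ Finset.univ.erase j, eval z (X x * pderiv x F) := by
          rw [← h2]
          ring
        rw [h3]
        refine sub_mem (nsmul_mem hcon d) (Ideal.sum_mem _ fun i hi => ?_)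
        rw [map_mul]
        exact Ideal.mul_mem_left _ _ (hzK i (Finset.ne_of_mem_erase hi))
      · exact hzK j hj
    have h2 : Ideal.span (Set.range fun j => eval z (pderiv j F)) ≤ P ^ K := by
      rw [Ideal.span_le]
      rintro _ ⟨j, rfl⟩
      exact h1 j
    exact h2 (hD2 z hz)
  have hval1 : eval z F ∈ P := by
    rw [← hψ, RingHom.mem_ker, ← eval_comp, hzψ]
    exact hsξ.1
  have hex : ∃ κ : ℕ, eval z F ∉ P ^ (κ + 1) := ⟨K - 1, by rwa [Nat.sub_add_cancel hK1]⟩
  obtain ⟨κ, hκ, hκmin⟩ : ∃ κ : ℕ, eval z F ∉ P ^ (κ + 1) ∧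
      ∀ j, j < κ → eval z F ∈ P ^ (j + 1) := by
    refine ⟨Nat.find hex, Nat.find_spec hex, fun j hj => ?_⟩
    have := Nat.find_min hex hj
    simpa using this
  have hκ1 : 1 ≤ κ := by
    rcases Nat.eq_zero_or_pos κ with rfl | h
    · rw [zero_add, pow_one] at hκ
      exact absurd hval1 hκ
    · exact h
  have hκK : κ + 1 ≤ K := by
    by_contra hcon
    push Not at hcon
    apply hval
    have := hκmin (K - 1) (by omega)
    rwa [Nat.sub_add_cancel hK1] at this
  have hκmem : eval z F ∈ P ^ κ := by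
    have := hκmin (κ - 1) (by omega)
    rwa [Nat.sub_add_cancel hκ1] at this
  -- singular points over all residue fields
  have hsing : ∀ (k' : Type) [Field k'] (ψ' : O →+* k'), RingHom.ker ψ' = P →
      Sing (map ψ' F) (fun i => ψ' (z i)) := by
    intro k' _ ψ' hψ'
    have h1 : ∀ a : O, ψ a = 0 → ψ' a = 0 := by
      intro a ha
      rw [← RingHom.mem_ker, hψ'.trans hψ.symm, RingHom.mem_ker]
      exact ha
    have hsz : Sing (map ψ F) (fun i => ψ (z i)) := by
      rw [hzψ]
      exact hsξ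
    refine ⟨?_, fun i => ?_⟩
    · rw [eval_comp]
      apply h1
      rw [← eval_comp]
      exact hsz.1
    · rw [pderiv_map, eval_comp]
      apply h1
      rw [← eval_comp, ← pderiv_map]
      exact hsz.2 i
  refine ⟨TT s z, s, ?_, ?_, ?_, ?_⟩
  · rw [det_TT, hz]
    exact fun h => hmax.ne_top ((Ideal.eq_top_iff_one P).2 h)
  · refine ⟨κ, κ / 2, hκ1, by omega, by omega, ?_, ?_, fun t ht => ?_⟩
    · rw [coeff_zero hF hz]
      exact hκmem
    · rw [coeff_zero hF hz]
      exact hκ
    · rw [coeff_one hF hz t ht]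
      exact Ideal.pow_le_pow_right (by omega) (hzK t ht)
  · intro k' _ ψ' hψ' x hx t ht
    rw [Hensel.map_sub, map_TT] at hx
    have hz' : ψ' (z s) = 1 := by rw [hz, map_one]
    have h1 := Sing.of_sub (s := s) (z := fun i => ψ' (z i)) hz' hx
    have h2 := only_core (hb k' ψ' hψ') (s := s) (z := fun i => ψ' (z i)) hz' (hsing k' ψ' hψ') h1
    have h3 := h2 t
    simp only [TT_sum, if_true, if_neg ht, hz', mul_one, add_zero] at h3
    linear_combination h3
  · intro k' _ ψ' hψ' y hy h
    have hz' : ψ' (z s) = 1 := by rw [hz, map_one]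
    refine nondeg_core (hF.map ψ') (hb k' ψ' hψ') (s := s) (z := fun i => ψ' (z i)) hz'
      (hsing k' ψ' hψ') hy fun i hi => ?_
    have h1 := h i hi
    rw [← h1]
    refine Finset.sum_congr rfl fun j _ => ?_
    by_cases hj : j = s
    · rw [hj, hy, mul_zero, mul_zero]
    · congr 1
      rw [Hensel.map_sub, map_TT, pderiv_sub_TT _ _ _ _ hj, pderiv_sub_TT _ _ _ _ hi, Hensel.eval_sub,
        TT_vertex s (fun i => ψ' (z i)) hz']

end Pool.Agent.K9h37.PP
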