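import Pool.Agent.K9h37.PP.Good2
import Pool.Agent.K9h37.PP.Hensel

/-! From the normal form, and from nodal fibres, to the local equations. -/

set_option autoImplicit false
set_option linter.unusedVariables false
set_option linter.unusedSectionVars false

open MvPolynomial
open scoped Pointwise

namespace Pool.Agent.K9h37.PP

open Pool.Agent.K9h37.TN Pool.Agent.H918R2.Quad Pool.Agent.H945R2.E Pool.Agent.H945R2.D
  Pool.Agent.W418 Pool.Agent.TH214.RM

theorem exists_scale {O : Type} [CommRing O] [IsDedekindDomain O] (𝔭 : Ideal O) [𝔭.IsPrime]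
    (h0 : 𝔭 ≠ ⊥) (ϖ : O) (hϖ : ϖ ∈ 𝔭) (hϖ2 : ϖ ∉ 𝔭 ^ 2) (c : O) (n : ℕ) (hc : c ∈ 𝔭 ^ n) :
    ∃ s ε : O, s ∉ 𝔭 ∧ s * c = ε * ϖ ^ n := by
  let R := Localization.AtPrime 𝔭
  have hdvr : IsDiscreteValuationRing R :=
    IsLocalization.AtPrime.isDiscreteValuationRing_of_dedekind_domain O h0 R
  have hinj : Function.Injective (algebraMap O R) :=
    IsLocalization.injective R 𝔭.primeCompl_le_nonZeroDivisors
  have hπ : Irreducible (algebraMap O R ϖ) := ARIaux.irr 𝔭 h0 hϖ hϖ2
  have hmap : 𝔭.map (algebraMap O R) ≤ Ideal.span {algebraMap O R ϖ} := by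
    rw [Ideal.map_le_iff_le_comap, ← hπ.maximalIdeal_eq]
    intro c hc
    rw [Ideal.mem_comap]
    exact (IsLocalization.AtPrime.to_map_mem_maximal_iff R 𝔭 c).2 hc
  obtain ⟨r, hr⟩ : ∃ r : R, algebraMap O R c = algebraMap O R ϖ ^ n * r := by
    have h1 : algebraMap O R c ∈ Ideal.span {algebraMap O R ϖ ^ n} := by
      rw [← Ideal.span_singleton_pow]
      apply Ideal.pow_right_mono hmap
      rw [← Ideal.map_pow]
      exact Ideal.mem_map_of_mem _ hc
    obtain ⟨r, hr⟩ := Ideal.mem_span_singleton.1 h1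
    exact ⟨r, hr⟩
  obtain ⟨ε, s, hεs⟩ := IsLocalization.exists_mk'_eq 𝔭.primeCompl r
  refine ⟨s, ε, s.2, ?_⟩
  apply hinj
  rw [map_mul, map_mul, map_pow, hr, ← hεs, mul_left_comm, mul_comm (algebraMap O R ε)]
  congr 1
  rw [IsLocalization.mk'_spec']

/-- The normal form gives a scaled equation with the coefficients `ε a * ϖ ^ v a`. -/
theorem nodeAt_of_normal {O : Type} [CommRing O] [IsDedekindDomain O] (𝔭 : Ideal O)
    (hp : 𝔭.IsPrime) (h0 : 𝔭 ≠ ⊥) (h2 : (2 : O) ∉ 𝔭) {m : ℕ} (d : ℕ) (hd : 2 ≤ d) (s : Fin m)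
    (H : MvPolynomial (Fin m) O) (hH : H.IsHomogeneous d) (hN : Normal 𝔭 d s H) :
    ∃ w : O, w ∉ 𝔭 ∧ NodeAt 𝔭 (C w * H) d := by
  classical
  obtain ⟨⟨κ, e, hκ1, hκe, hκe', hc, hc', hct⟩, honly, hnd⟩ := hN
  have hlt : 𝔭 ^ 2 < 𝔭 := by
    have h1 := Ideal.pow_right_strictAnti 𝔭 h0 hp.ne_top (show 1 < 2 by norm_num)
    simpa using h1
  obtain ⟨ϖ, hϖ, hϖ2⟩ := Set.exists_of_ssubset hlt
  have hsum : ∀ a ∈ H.support, ∑ i, a i = d := sum_of_homog H d hH
  have hmem : ∀ a ∈ H.support, H.coeff a ∈ 𝔭 ^ vN s d κ e a := by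
    intro a ha
    have hs := hsum a ha
    have hle := le_of_sum a d hs s
    by_cases h3 : a s = d
    · simp only [vN, if_pos h3]
      rw [single_of a d hs s h3]
      exact hc
    · by_cases h4 : a s + 1 = d
      · simp only [vN, if_neg h3, if_pos h4]
        obtain ⟨t, ht, hat⟩ : ∃ t, t ≠ s ∧ a = Finsupp.single s (d - 1) + Finsupp.single t 1 := by
          have h5 : ∑ l ∈ Finset.univ.erase s, a l = 1 := by
            have h6 := Finset.sum_erase_add Finset.univ (fun i => a i) (Finset.mem_univ s)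
            omega
          obtain ⟨t, ht, hat0⟩ : ∃ t ∈ Finset.univ.erase s, a t ≠ 0 := by
            by_contra hcon
            push Not at hcon
            rw [Finset.sum_eq_zero hcon] at h5
            omega
          have hts := Finset.ne_of_mem_erase ht
          have h6 := Finset.add_sum_erase _ (fun l => a l) ht
          have h7 : ∑ l ∈ (Finset.univ.erase s).erase t, a l = 0 := by omega
          have h8 : a t = 1 := by omega
          refine ⟨t, hts, ?_⟩
          ext l
          rw [Finsupp.add_apply]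
          by_cases hls : l = s
          · subst hls
            rw [Finsupp.single_eq_same, Finsupp.single_eq_of_ne (Ne.symm hts), add_zero]
            omega
          · by_cases hlt' : l = t
            · subst hlt'
              rw [Finsupp.single_eq_same, Finsupp.single_eq_of_ne hls, zero_add, h8]
            · rw [Finsupp.single_eq_of_ne hls, Finsupp.single_eq_of_ne hlt', add_zero]
              exact (Finset.sum_eq_zero_iff.1 h7) l
                (Finset.mem_erase.2 ⟨hlt', Finset.mem_erase.2 ⟨hls, Finset.mem_univ _⟩⟩)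
        rw [hat]
        exact hct t ht
      · simp only [vN, if_neg h3, if_neg h4, pow_zero, Ideal.one_eq_top, Submodule.mem_top]
  have hsc : ∀ a : H.support, ∃ s' ε : O, s' ∉ 𝔭 ∧
      s' * H.coeff a = ε * ϖ ^ vN s d κ e a := fun a =>
    exists_scale 𝔭 h0 ϖ hϖ hϖ2 _ _ (hmem a a.2)
  choose s' ε' hs' hε' using hsc
  set w : O := ∏ a : H.support, s' a with hw
  have hw𝔭 : w ∉ 𝔭 := by
    intro h
    obtain ⟨a, _, ha⟩ := (Ideal.IsPrime.prod_mem_iff).1 h
    exact hs' a ha
  have hw0 : w ≠ 0 := by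
    intro h
    apply hw𝔭
    rw [h]
    exact Ideal.zero_mem _
  have hex : ∀ a, ∃ ε : O, a ∈ H.support → w * H.coeff a = ε * ϖ ^ vN s d κ e a := by
    intro a
    by_cases ha : a ∈ H.support
    · refine ⟨(∏ b ∈ Finset.univ.erase (⟨a, ha⟩ : H.support), s' b) * ε' ⟨a, ha⟩, fun _ => ?_⟩
      rw [hw, ← Finset.mul_prod_erase _ _ (Finset.mem_univ (⟨a, ha⟩ : H.support))]
      linear_combination (∏ b ∈ Finset.univ.erase (⟨a, ha⟩ : H.support), s' b) * hε' ⟨a, ha⟩
    · exact ⟨0, fun h => absurd h ha⟩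
  choose ε hε using hex
  have hsupp : (C w * H).support = H.support := by
    ext a
    rw [mem_support_iff, mem_support_iff, coeff_C_mul]
    exact ⟨fun h h3 => h (by rw [h3, mul_zero]), fun h => mul_ne_zero hw0 h⟩
  have hsH : Finsupp.single s d ∈ H.support := by
    rw [mem_support_iff]
    intro h
    apply hc'
    rw [h]
    exact Ideal.zero_mem _
  have hψw : ∀ (k : Type) [Field k] (ψ : O →+* k), RingHom.ker ψ = 𝔭 → ψ w ≠ 0 := by
    intro k _ ψ hψ h
    exact hw𝔭 (by rw [← hψ]; exact h)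
  have hmapw : ∀ (k : Type) [Field k] (ψ : O →+* k), map ψ (C w * H) = C (ψ w) * map ψ H := by
    intro k _ ψ
    rw [map_mul, map_C]
  refine ⟨w, hw𝔭, hd, h2, s, κ, e, hκ1, hκe, hκe', ϖ, hϖ, hϖ2, ε, ?_, ?_, ?_, ?_, ?_⟩
  · intro a ha
    rw [hsupp] at ha
    rw [coeff_C_mul]
    exact hε a ha
  · rw [hsupp]
    exact hsH
  · intro h
    have h3 := hε _ hsH
    have h4 : vN s d κ e (Finsupp.single s d) = κ := by simp [vN]
    rw [h4] at h3
    have h5 : w * H.coeff (Finsupp.single s d) ∈ 𝔭 ^ (κ + 1) := by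
      rw [h3, pow_succ']
      exact Ideal.mul_mem_mul h (Ideal.pow_mem_pow hϖ κ)
    rcases Ideal.IsPrime.mul_mem_pow 𝔭 h5 with h6 | h6
    · exact hw𝔭 h6
    · exact hc' h6
  · intro k _ ψ hψ x hx hx'
    rw [hmapw] at hx
    refine honly k ψ hψ x ⟨?_, fun i => ?_⟩
    · rw [map_mul, eval_C] at hx
      exact (mul_eq_zero.1 hx).resolve_left (hψw k ψ hψ)
    · have h3 := hx' i
      rw [hmapw, pderiv_C_mul, map_mul, eval_C] at h3
      exact (mul_eq_zero.1 h3).resolve_left (hψw k ψ hψ)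
  · intro k _ ψ hψ y hy hy'
    refine hnd k ψ hψ y hy fun i hi => ?_
    have h3 := hy' i hi
    simp only [hmapw, pderiv_C_mul, map_mul, eval_C, mul_assoc] at h3
    rw [← Finset.mul_sum] at h3
    exact (mul_eq_zero.1 h3).resolve_left (hψw k ψ hψ)

/-- Equations which are regular or in normal form at the primes. -/
theorem locReg4_of {O K : Type} [CommRing O] [IsDedekindDomain O] [Field K] [Algebra O K]
    [IsFractionRing O K] {n : ℕ} (G : MvPolynomial (Fin (n + 2)) K) (d : ℕ) (hd : 2 ≤ d)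
    (hGd : G.IsHomogeneous d)
    (h : ∀ 𝔭 : Ideal O, 𝔭.IsPrime → 𝔭 ≠ ⊥ →
      ∃ (H : MvPolynomial (Fin (n + 2)) O) (l : K)
        (T T' : Matrix (Fin (n + 2)) (Fin (n + 2)) K), l ≠ 0 ∧ T * T' = 1 ∧
        map (algebraMap O K) H = C l * aeval (fun i => ∑ j, C (T i j) * X j) G ∧
        (IsRegularAt 𝔭 H ∨ ((2 : O) ∉ 𝔭 ∧ ∃ s, Normal 𝔭 d s H))) : LocReg4 O G d := by
  have hOK : Function.Injective (algebraMap O K) := IsFractionRing.injective O K
  intro 𝔭 hp h0
  obtain ⟨H, l, T, T', hl, hTT, hH, hcase⟩ := h 𝔭 hp h0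
  rcases hcase with hreg | ⟨h2, s, hN⟩
  · exact ⟨H, l, T, T', hl, hTT, hH, Or.inl fun s Q hQ hCQ hQH => Or.inr (hreg s Q hQ hCQ hQH)⟩
  · have hHd : H.IsHomogeneous d := by
      refine IsHomogeneous.of_map (f := algebraMap O K) hOK ?_
      rw [hH]
      have h1 : ((aeval (fun i => ∑ j, C (T i j) * X j) :
          MvPolynomial (Fin (n + 2)) K →ₐ[K] MvPolynomial (Fin (n + 2)) K) G).IsHomogeneous
            (1 * d) := by
        refine hGd.aeval _ fun i => ?_
        refine IsHomogeneous.sum _ _ _ fun j _ => ?_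
        have h2 := (isHomogeneous_C (Fin (n + 2)) (T i j)).mul (isHomogeneous_X K j)
        rwa [zero_add] at h2
      have h2 := (isHomogeneous_C (Fin (n + 2)) l).mul h1
      rwa [zero_add, one_mul] at h2
    obtain ⟨w, hw, hnode⟩ := nodeAt_of_normal 𝔭 hp h0 h2 d hd s H hHd hN
    have hw0 : algebraMap O K w ≠ 0 := by
      intro h
      apply hw
      have h3 : w = 0 := hOK (by rw [h, map_zero])
      rw [h3]
      exact Ideal.zero_mem _
    refine ⟨C w * H, algebraMap O K w * l, T, T', mul_ne_zero hw0 hl, hTT, ?_, Or.inr hnode⟩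
    rw [map_mul, map_C, hH, C_mul, mul_assoc]

/-- The good forms over `ℤ`. -/
theorem locReg4_of_good {n : ℕ} (F : MvPolynomial (Fin (n + 2)) ℤ) (d : ℕ) (hd : 2 ≤ d)
    (hF : F.IsHomogeneous d) (hgood : Good d F) :
    LocReg4 ℤ (map (Int.castRingHom ℚ) F) d := by
  refine locReg4_of _ d hd (hF.map _) ?_
  intro 𝔭 hp h0
  rcases hgood.2 𝔭 hp h0 with hreg | ⟨h2, T, s, hT, hN⟩
  · refine ⟨F, 1, 1, 1, one_ne_zero, one_mul 1, ?_, Or.inl hreg⟩
    have h1 : (fun i => ∑ j, C ((1 : Matrix (Fin (n + 2)) (Fin (n + 2)) ℚ) i j) * X j) =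
        (X : Fin (n + 2) → MvPolynomial (Fin (n + 2)) ℚ) := by
      funext i
      rw [Finset.sum_eq_single i]
      · rw [Matrix.one_apply_eq, C_1, one_mul]
      · intro j _ hj
        rw [Matrix.one_apply_ne (Ne.symm hj), C_0, zero_mul]
      · simp
    rw [h1, aeval_X_left, AlgHom.id_apply, C_1, one_mul]
    rfl
  · have hdet : T.det ≠ 0 := by
      intro h
      apply hT
      rw [h]
      exact Ideal.zero_mem _
    have hdetQ : IsUnit (T.map (Int.castRingHom ℚ)).det := by
      rw [← RingHom.mapMatrix_apply, ← RingHom.map_det]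
      exact IsUnit.mk0 _ (by simpa using hdet)
    refine ⟨sub T F, 1, T.map (Int.castRingHom ℚ), (T.map (Int.castRingHom ℚ))⁻¹, one_ne_zero,
      Matrix.mul_nonsing_inv _ hdetQ, ?_, Or.inr ⟨h2, s, hN⟩⟩
    rw [C_1, one_mul]
    exact Hensel.map_sub (Int.castRingHom ℚ) T F

/-- Smoothness does not depend on the coordinates. -/
theorem smooth_equation {K : Type} [Field K] {m : ℕ} (G : MvPolynomial (Fin m) K)
    (hG : Smooth G) (l : K) (hl : l ≠ 0) (T T' : Matrix (Fin m) (Fin m) K) (hTT : T * T' = 1) :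
    Smooth (C l * aeval (fun i => ∑ j, C (T i j) * X j) G) := by
  classical
  have hTT' : T' * T = 1 := mul_eq_one_comm.1 hTT
  set J : Ideal (MvPolynomial (Fin m) K) :=
    Ideal.span (Set.range fun j => pderiv j (C l * sub T G)) with hJ
  change ∀ i, X i ∈ J.radical
  -- the derivatives of `G`, in the new coordinates
  have h1 : ∀ i, sub T (pderiv i G) ∈ J := by
    intro i
    have h2 : sub T (pderiv i G) = ∑ j, C (l⁻¹ * T' j i) * pderiv j (C l * sub T G) := by
      have h3 : ∀ j, C (l⁻¹ * T' j i) * pderiv j (C l * sub T G) =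
          ∑ r, C (T r j * T' j i) * sub T (pderiv r G) := by
        intro j
        rw [pderiv_C_mul, Hensel.pderiv_sub, ← mul_assoc, ← C_mul, Finset.mul_sum]
        refine Finset.sum_congr rfl fun r _ => ?_
        rw [← mul_assoc, ← C_mul]
        congr 2
        field_simp
      rw [Finset.sum_congr rfl fun j _ => h3 j, Finset.sum_comm]
      have h4 : ∀ r, ∑ j, C (T r j * T' j i) * sub T (pderiv r G) =
          if r = i then sub T (pderiv i G) else 0 := by
        intro r
        rw [← Finset.sum_mul, ← map_sum, ← Matrix.mul_apply, hTT, Matrix.one_apply]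
        split_ifs with h
        · rw [h, C_1, one_mul]
        · rw [C_0, zero_mul]
      rw [Finset.sum_congr rfl fun r _ => h4 r, Finset.sum_ite_eq', if_pos (Finset.mem_univ _)]
    rw [h2]
    exact Submodule.sum_mem _ fun j _ => Ideal.mul_mem_left _ _ (Ideal.subset_span ⟨j, rfl⟩)
  -- the coordinates
  have h2 : ∀ i, sub T (X i : MvPolynomial (Fin m) K) ∈ J.radical := by
    intro i
    obtain ⟨k, hk⟩ := hG i
    refine ⟨k, ?_⟩
    have h3 : Ideal.span (Set.range fun j => pderiv j G) ≤ J.comap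
        ((aeval (fun i => ∑ j, C (T i j) * X j) :
          MvPolynomial (Fin m) K →ₐ[K] MvPolynomial (Fin m) K) : _ →+* _) := by
      rw [Ideal.span_le]
      rintro _ ⟨j, rfl⟩
      exact h1 j
    have h4 := h3 hk
    rw [Ideal.mem_comap, RingHom.map_pow] at h4
    exact h4
  intro i
  have h3 : (X i : MvPolynomial (Fin m) K) = ∑ j, C (T' i j) * sub T (X j) := by
    have h4 : ∀ j, C (T' i j) * sub T (X j : MvPolynomial (Fin m) K) =
        ∑ r, C (T' i j * T j r) * X r := by
      intro j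
      rw [sub, aeval_X, Finset.mul_sum]
      refine Finset.sum_congr rfl fun r _ => ?_
      rw [← mul_assoc, ← C_mul]
    rw [Finset.sum_congr rfl fun j _ => h4 j, Finset.sum_comm]
    have h5 : ∀ r, ∑ j, C (T' i j * T j r) * (X r : MvPolynomial (Fin m) K) =
        if r = i then X i else 0 := by
      intro r
      rw [← Finset.sum_mul, ← map_sum, ← Matrix.mul_apply, hTT', Matrix.one_apply]
      split_ifs with h h' h'
      · rw [h, C_1, one_mul]
      · exact absurd h.symm h'
      · exact absurd h'.symm h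
      · rw [C_0, zero_mul]
    rw [Finset.sum_congr rfl fun r _ => h5 r, Finset.sum_ite_eq', if_pos (Finset.mem_univ _)]
  rw [h3]
  exact Submodule.sum_mem _ fun j _ => Ideal.mul_mem_left _ _ (h2 j)

/-- Smoothness over the fraction ring. -/
theorem smooth_frac {O K : Type} [CommRing O] [IsDomain O] [Field K] [Algebra O K]
    [IsFractionRing O K] {m : ℕ} (H : MvPolynomial (Fin m) O)
    (h : Smooth (map (algebraMap O K) H)) : IsSmooth (map (algebraMap O (FractionRing O)) H) := by
  intro i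
  let φ : K ≃ₐ[O] FractionRing O := (FractionRing.algEquiv O K).symm
  have h1 : map (algebraMap O (FractionRing O)) H =
      map (φ : K →+* FractionRing O) (map (algebraMap O K) H) := by
    have h5 : (φ : K →+* FractionRing O).comp (algebraMap O K) = algebraMap O (FractionRing O) :=
      RingHom.ext fun r => by simp
    rw [map_map, h5]
  obtain ⟨k, hk⟩ := h i
  refine ⟨k, ?_⟩
  have h2 : Ideal.span (Set.range fun j => pderiv j (map (algebraMap O K) H)) ≤
      (Ideal.span (Set.range fun j => pderiv j (map (algebraMap O (FractionRing O)) H))).comap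
        (map (φ : K →+* FractionRing O)) := by
    rw [Ideal.span_le]
    rintro _ ⟨j, rfl⟩
    rw [SetLike.mem_coe, Ideal.mem_comap]
    change map (φ : K →+* FractionRing O) (pderiv j (map (algebraMap O K) H)) ∈ _
    rw [← pderiv_map, ← h1]
    exact Ideal.subset_span ⟨j, rfl⟩
  have h3 := h2 hk
  rw [Ideal.mem_comap, map_pow, map_X] at h3
  exact h3

theorem sub_C_mul {K : Type} [CommRing K] {m : ℕ} (S : Matrix (Fin m) (Fin m) K) (l : K)
    (G : MvPolynomial (Fin m) K) : sub S (C l * G) = C l * sub S G := by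
  rw [sub, sub, map_mul, aeval_C]
  rfl

theorem sub_sub' {K : Type} [CommRing K] {m : ℕ} (S T : Matrix (Fin m) (Fin m) K)
    (G : MvPolynomial (Fin m) K) : sub S (sub T G) = sub (T * S) G := by
  induction G using MvPolynomial.induction_on with
  | C a => simp [sub]
  | add p q hp hq =>
    simp only [sub] at *
    rw [map_add, map_add, map_add, hp, hq]
  | mul_X p i hp =>
    simp only [sub] at *
    rw [map_mul, map_mul, map_mul, hp]
    congr 1
    rw [aeval_X, aeval_X, map_sum]
    simp only [map_mul, aeval_C, aeval_X, algebraMap_eq]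
    have h3 : ∀ j, C (T i j) * ∑ r, C (S j r) * (X r : MvPolynomial (Fin m) K) =
        ∑ r, C (T i j * S j r) * X r := by
      intro j
      rw [Finset.mul_sum]
      refine Finset.sum_congr rfl fun r _ => ?_
      rw [← mul_assoc, ← C_mul]
    rw [Finset.sum_congr rfl fun j _ => h3 j, Finset.sum_comm]
    refine Finset.sum_congr rfl fun r _ => ?_
    rw [← Finset.sum_mul, ← map_sum, ← Matrix.mul_apply]

/-- Equations with nodal reductions. -/
theorem locReg4_of_nodal {O K : Type} [CommRing O] [IsDedekindDomain O] [Field K] [Algebra O K]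
    [IsFractionRing O K] (hfin : ∀ 𝔭 : Ideal O, 𝔭.IsPrime → 𝔭 ≠ ⊥ → Finite (O ⧸ 𝔭))
    {n : ℕ} (G : MvPolynomial (Fin (n + 2)) K) (d : ℕ) (hd : 2 ≤ d)
    (hGd : G.IsHomogeneous d) (hsm : Smooth G)
    (h : ∀ 𝔭 : Ideal O, 𝔭.IsPrime → 𝔭 ≠ ⊥ →
      ∃ (H : MvPolynomial (Fin (n + 2)) O) (l : K)
        (T T' : Matrix (Fin (n + 2)) (Fin (n + 2)) K), l ≠ 0 ∧ T * T' = 1 ∧
        map (algebraMap O K) H = C l * aeval (fun i => ∑ j, C (T i j) * X j) G ∧
        (IsRegularAt 𝔭 H ∨ ((2 : O) ∉ 𝔭 ∧ Nodal 𝔭 H))) : LocReg4 O G d := by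
  have hOK : Function.Injective (algebraMap O K) := IsFractionRing.injective O K
  refine locReg4_of G d hd hGd ?_
  intro 𝔭 hp h0
  obtain ⟨H, l, T, T', hl, hTT, hH, hcase⟩ := h 𝔭 hp h0
  rcases hcase with hreg | ⟨h2, hN⟩
  · exact ⟨H, l, T, T', hl, hTT, hH, Or.inl hreg⟩
  · have hHd : H.IsHomogeneous d := by
      refine IsHomogeneous.of_map (f := algebraMap O K) hOK ?_
      rw [hH]
      have h1 : ((aeval (fun i => ∑ j, C (T i j) * X j) :
          MvPolynomial (Fin (n + 2)) K →ₐ[K] MvPolynomial (Fin (n + 2)) K) G).IsHomogeneous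
            (1 * d) := by
        refine hGd.aeval _ fun i => ?_
        refine IsHomogeneous.sum _ _ _ fun j _ => ?_
        have h2 := (isHomogeneous_C (Fin (n + 2)) (T i j)).mul (isHomogeneous_X K j)
        rwa [zero_add] at h2
      have h2 := (isHomogeneous_C (Fin (n + 2)) l).mul h1
      rwa [zero_add, one_mul] at h2
    have hsmH : Smooth (map (algebraMap O K) H) := by
      rw [hH]
      exact smooth_equation G hsm l hl T T' hTT
    obtain ⟨S, s, hS, hNS⟩ := hensel O 𝔭 h0 (hfin 𝔭 hp h0) (n + 2) d (by omega) hd H hHd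
      (smooth_frac H hsmH) hN
    have hdet : S.det ≠ 0 := by
      intro h
      apply hS
      rw [h]
      exact Ideal.zero_mem _
    have hdetK : IsUnit (S.map (algebraMap O K)).det := by
      rw [← RingHom.mapMatrix_apply, ← RingHom.map_det]
      exact IsUnit.mk0 _ (fun h => hdet (hOK (by rw [h, map_zero])))
    set SK := S.map (algebraMap O K) with hSK
    have hSS : SK * SK⁻¹ = 1 := Matrix.mul_nonsing_inv _ hdetK
    refine ⟨sub S H, l, T * SK, SK⁻¹ * T', hl, ?_, ?_, Or.inr ⟨h2, s, hNS⟩⟩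
    · rw [Matrix.mul_assoc, ← Matrix.mul_assoc SK, hSS, Matrix.one_mul, hTT]
    · rw [Hensel.map_sub, ← hSK, hH]
      exact (sub_C_mul SK l (sub T G)).trans (by rw [sub_sub']; rfl)

end Pool.Agent.K9h37.PP
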