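import Mathlib

/-! Project PP (helper37, MP_602153_ag): a positive proportion of the hypersurfaces of degree `d` in
`P^(m-1)` over `ℚ` have regular projective flat models over `ℤ`. Statements of the self-contained
parts CODIM, SIEVE, HENSEL, BASE, ASM. -/

set_option autoImplicit false

namespace Pool.Agent.K9h37.PP

open MvPolynomial

/-- The exponents of the monomials of degree `d` in `m` variables. -/
abbrev Mon (m d : ℕ) : Type :=
  {α : Fin m →₀ ℕ // α ∈ (Finset.univ : Finset (Fin m)).finsuppAntidiag d}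

/-- The form with the coefficients `a`. -/
noncomputable def form {R : Type} [CommRing R] {m d : ℕ} (a : Mon m d → R) :
    MvPolynomial (Fin m) R :=
  ∑ α : Mon m d, monomial α.1 (a α)

/-- `F` and its partial derivatives vanish at the vector `x` (`x = 0` is allowed). -/
def Sing {k : Type} [Field k] {ι : Type} (F : MvPolynomial ι k) (x : ι → k) : Prop :=
  eval x F = 0 ∧ ∀ i, eval x (pderiv i F) = 0

/-- `F` has two independent singular vectors, or a degenerate one. -/
def Bad {k : Type} [Field k] {m : ℕ} (F : MvPolynomial (Fin m) k) : Prop :=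
  ∃ x y : Fin m → k, LinearIndependent k ![x, y] ∧ Sing F x ∧
    (Sing F y ∨ ∀ i, ∑ j, eval x (pderiv i (pderiv j F)) * y j = 0)

/-- Two polynomials over `ℤ` in triangular form with respect to the direction `c`: as a polynomial
in `t`, `G (b + t c)` has a constant leading coefficient `g ≠ 0`, and `R ≠ 0` does not depend on
the variable `v₀`, where `c v₀ = 1`. -/
structure Pair (V : Type) where
  v₀ : V
  c : V → ℤ
  hc : c v₀ = 1
  G : MvPolynomial V ℤ
  R : MvPolynomial V ℤ
  hG : ∃ g : ℤ, g ≠ 0 ∧ (aeval (fun v => Polynomial.C (X v) + Polynomial.C (C (c v)) *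
    Polynomial.X) G : Polynomial (MvPolynomial V ℤ)).leadingCoeff = C g
  hR0 : R ≠ 0
  hR : v₀ ∉ R.vars

/-- `p` divides `G a` and `R (a - a_{v₀} c)`. -/
def Hit {V : Type} (P : Pair V) (p : ℕ) (a : V → ℤ) : Prop :=
  (p : ℤ) ∣ eval a P.G ∧ (p : ℤ) ∣ eval (fun v => a v - P.c v * a P.v₀) P.R

/-- CODIM: the bad forms are of codimension two, for all large characteristics at once. -/
def CODIM : Prop :=
  ∀ m d : ℕ, 2 ≤ m → 3 ≤ d → ∃ (s : Set (Pair (Mon m d))) (M : ℕ), s.Finite ∧
    ∀ p : ℕ, p.Prime → M < p → ∀ (k : Type) [Field k] [CharP k p] (a : Mon m d → ℤ),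
      Bad (form (fun α => (a α : k))) → ∃ P ∈ s, Hit P p a

/-- The integral vectors with coordinates of absolute value at most `B`. -/
noncomputable def box (V : Type) [Fintype V] [DecidableEq V] (B : ℕ) : Finset (V → ℤ) :=
  Fintype.piFinset fun _ => Finset.Icc (-(B : ℤ)) B

open Classical in
/-- SIEVE: the sieve for large primes in codimension two, in a residue class modulo `Q`, uniformly
in `Q` and the class. -/
def SIEVE : Prop :=
  ∀ (V : Type) [Fintype V] [DecidableEq V] (s : Set (Pair V)), s.Finite →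
    ∃ (C : ℝ) (M₀ : ℕ), 0 < M₀ ∧ ∀ M : ℕ, M₀ ≤ M → ∀ Q : ℕ, 0 < Q →
      (∀ p : ℕ, p.Prime → p ∣ Q → p ≤ M) → ∀ r : V → ℤ, ∀ᶠ B : ℕ in Filter.atTop,
      (((box V B).filter (fun a => (∀ v, (Q : ℤ) ∣ a v - r v) ∧
        ∃ p : ℕ, p.Prime ∧ M < p ∧ ∃ P ∈ s, Hit P p a)).card : ℝ) ≤
        C / M * ((B : ℝ) / Q) ^ Fintype.card V

/-- The partial derivatives of `G` have no common zero but the origin. -/
def IsSmooth {K : Type} [Field K] {m : ℕ} (G : MvPolynomial (Fin m) K) : Prop :=
  ∀ i, X i ∈ (Ideal.span (Set.range fun j => pderiv j G)).radical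

/-- The form `F` after the linear substitution `T`. -/
noncomputable def sub {O : Type} [CommRing O] {m : ℕ} (T : Matrix (Fin m) (Fin m) O)
    (F : MvPolynomial (Fin m) O) : MvPolynomial (Fin m) O :=
  aeval (fun i => ∑ j, C (T i j) * X j) F

/-- Modulo `P` (over every field `k` with a map `ψ : O → k` of kernel `P`) the vertex `e s` is the
only singular point of `H`; it is nondegenerate, and `H` is in normal form there: `const` says that
the coefficient of `X_s^d` has the valuation `k ≥ 1`, and that the coefficients of the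
`X_s^(d-1) X_t` are divisible by `P^(e+1)`, where `e = ⌊k/2⌋`. -/
structure Normal {O : Type} [CommRing O] (P : Ideal O) {m : ℕ} (d : ℕ) (s : Fin m)
    (H : MvPolynomial (Fin m) O) : Prop where
  const : ∃ k e : ℕ, 1 ≤ k ∧ 2 * e ≤ k ∧ k ≤ 2 * e + 1 ∧
    H.coeff (Finsupp.single s d) ∈ P ^ k ∧ H.coeff (Finsupp.single s d) ∉ P ^ (k + 1) ∧
    ∀ t, t ≠ s → H.coeff (Finsupp.single s (d - 1) + Finsupp.single t 1) ∈ P ^ (e + 1)
  only : ∀ (k : Type) [Field k] (ψ : O →+* k), RingHom.ker ψ = P → ∀ x : Fin m → k,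
    Sing (map ψ H) x → ∀ t, t ≠ s → x t = 0
  nondeg : ∀ (k : Type) [Field k] (ψ : O →+* k), RingHom.ker ψ = P → ∀ y : Fin m → k, y s = 0 →
    (∀ i, i ≠ s → ∑ j, eval (Pi.single s 1) (pderiv i (pderiv j (map ψ H))) * y j = 0) → y = 0

/-- The form `F` is not bad modulo `P`, but singular modulo `P`. -/
def Nodal {O : Type} [CommRing O] (P : Ideal O) {m : ℕ} (F : MvPolynomial (Fin m) O) : Prop :=
  (∀ (k : Type) [Field k] (ψ : O →+* k), RingHom.ker ψ = P → ¬ Bad (map ψ F)) ∧
  ∃ (k : Type) (_ : Field k) (ψ : O →+* k) (x : Fin m → k), RingHom.ker ψ = P ∧ x ≠ 0 ∧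
    Sing (map ψ F) x

/-- HENSEL: a form over a Dedekind ring, smooth over the field of fractions, which is singular
modulo the prime `P` with finite residue field, but not bad, has exactly one singular point modulo
`P`, which is rational, and a linear change of coordinates, invertible modulo `P`, gives the normal
form. -/
def HENSEL : Prop :=
  ∀ (O : Type) [CommRing O] [IsDedekindDomain O] (P : Ideal O) [P.IsPrime], P ≠ ⊥ →
    Finite (O ⧸ P) → ∀ m d : ℕ, 2 ≤ m → 2 ≤ d → ∀ F : MvPolynomial (Fin m) O,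
    F.IsHomogeneous d → IsSmooth (map (algebraMap O (FractionRing O)) F) → Nodal P F →
    ∃ (T : Matrix (Fin m) (Fin m) O) (s : Fin m), T.det ∉ P ∧ Normal P d s (sub T F)

/-- The polynomial in the variables `X j`, `j ≠ s`, obtained from `H` by setting `X s = 1`. -/
noncomputable def dehom {R : Type} [CommRing R] {m : ℕ} (s : Fin m) (H : MvPolynomial (Fin m) R) :
    MvPolynomial {j : Fin m // j ≠ s} R :=
  aeval (fun j => if h : j = s then 1 else X ⟨j, h⟩) H

/-- The scheme `H = 0` in the projective space over `R` is regular at its points over `P`. -/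
def IsRegularAt {R : Type} [CommRing R] (P : Ideal R) {m : ℕ} (H : MvPolynomial (Fin m) R) :
    Prop :=
  ∀ (s : Fin m) (Q : Ideal (MvPolynomial {j : Fin m // j ≠ s} R)), Q.IsPrime →
    (∀ r : R, C r ∈ Q ↔ r ∈ P) → dehom s H ∈ Q → ∀ h, h ∉ Q → h * dehom s H ∉ Q ^ 2

/-- BASE: in every degree and dimension there is a form over `ℤ` which is regular at all primes
(the towers of `Results/MP_602153_ag/RegularHypersurfaces`, part 4, with `r = 0`). -/
def BASE : Prop :=
  ∀ m d : ℕ, 3 ≤ m → 3 ≤ d → ∃ a : Mon m d → ℤ,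
    IsSmooth (form (fun α => (a α : ℚ))) ∧
    ∀ P : Ideal ℤ, P.IsPrime → P ≠ ⊥ → IsRegularAt P (form a)

/-- `F` is smooth over `ℚ`, and at every prime number it is regular, or the prime number is odd and
the form has the normal form at one nondegenerate singular point. -/
def Good {m : ℕ} (d : ℕ) (F : MvPolynomial (Fin m) ℤ) : Prop :=
  IsSmooth (map (Int.castRingHom ℚ) F) ∧
  ∀ P : Ideal ℤ, P.IsPrime → P ≠ ⊥ → IsRegularAt P F ∨ ((2 : ℤ) ∉ P ∧
    ∃ (T : Matrix (Fin m) (Fin m) ℤ) (s : Fin m), T.det ∉ P ∧ Normal P d s (sub T F))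

open Classical in
/-- The good forms have positive proportion. -/
def PROP : Prop :=
  ∀ m d : ℕ, 3 ≤ m → 3 ≤ d → ∃ δ : ℝ, 0 < δ ∧ ∀ᶠ B : ℕ in Filter.atTop,
    δ * (2 * (B : ℝ) + 1) ^ Fintype.card (Mon m d) ≤
      (((box (Mon m d) B).filter (fun a => Good d (form a))).card : ℝ)

/-- ASM: the assembly. -/
def ASM : Prop := CODIM → SIEVE → HENSEL → BASE → PROP

end Pool.Agent.K9h37.PP

/-!
PAPER PROOFS (each leaf in its own file `Pool/Agent/K9h37/PP/<Leaf>.lean`, namespace
`Pool.Agent.K9h37.PP`, final theorem `theorem codim : CODIM`, `sieve : SIEVE`, `hensel : HENSEL`,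
`base : BASE`, `asm : ASM`).

CODIM. Write `n = m - 1`, `N = card (Mon m d)`. For each pair of indices `i ≠ j` consider the
ring `S = ℤ[a_α (α ∈ Mon m d), x_l, y_l (l ≤ m), u, w]` (Noetherian) and two ideals:
`J1 = (generic form F_a and its partials at x; the same at y; x_i - 1; y_j - 1;
       u (x_i y_j - x_j y_i) - 1)`,
`J2 = (F_a and its partials at x; the m polynomials ∑_l (∂_r ∂_l F_a)(x) y_l; x_i - 1; y_i; y_j - 1)`.
(Normalisation of a bad pair over a field `k`: `x_i ≠ 0`, rescale `x` to `x_i = 1`; in the second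
case replace `y` by `y - y_i x` (the Hessian kills a singular `x`: Euler for the partials, degree
`d-1`), then `y_i = 0`, `y ≠ 0`, rescale to `y_j = 1`. In the first case some minor
`x_i y_j - x_j y_i ≠ 0`; after exchanging the indices `i, j` one has `x_i, y_j ≠ 0`; rescale.)
A bad form over `k` gives a ring hom `S → k` killing `J1` or `J2`, with `a_α ↦ a α`; its kernel
contains one of the finitely many minimal primes `𝔓` of `J` (`Ideal.finite_minimalPrimes...`).
If `𝔓 ∩ ℤ ≠ 0` it contains a prime number, which is `p`; so these are excluded by `M < p`.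
If `𝔓 ∩ ℤ = 0`: `κ = Frac (S/𝔓)` has characteristic 0 and contains the images of `a, x, y`. Let
`T` be the identity matrix with the columns `i, j` replaced by `x, y`; it is invertible over `κ`.
The form `F∘T` has the vanishing coefficients (`d ≥ 3`)
 J1: `X_i^d, X_i^(d-1) X_l (l ≠ i), X_j^d, X_j^(d-1) X_l (l ≠ j)`: `2n+2` coefficients, and `T` has
     `2n` free entries (`x_i = y_j = 1`);
 J2: `X_i^d, X_i^(d-1) X_l (l ≠ i), X_i^(d-2) X_j X_l (l ≠ i)`: `2n+1` coefficients, and `T` has
     `2n-1` free entries (`x_i = y_j = 1, y_i = 0`).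
So all `a_α = coefficient of (F∘T)∘T⁻¹` lie in the subfield of `κ` generated over `ℚ` by at most
`N - 2` elements (the remaining coefficients of `F∘T` and the free entries of `T`); hence any
`N - 1` elements of `ℚ(a)` are algebraically dependent over `ℚ`, equivalently over `ℤ`.
First: the `a_α` are dependent: a nonzero `G ∈ ℤ[a]` with `G(a) = 0` in `κ`. Fix `v₀`. The top
homogeneous part `G_top` is nonzero, so there is an integral `c` with `c v₀ = 1` and
`G_top(c) ≠ 0` (a nonzero homogeneous polynomial stays nonzero after setting one variable 1); then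
`G(b + t c) = G_top(c) t^(deg G) + lower`. Second: the `N-1` elements `a_v - c_v a_{v₀}`
(`v ≠ v₀`) are dependent: nonzero `R` in the variables `v ≠ v₀` with `R(a - a_{v₀} c) = 0` in `κ`.
The pair `(v₀, c, G, R)` belongs to `𝔓`: both polynomials are in `𝔓` (`S/𝔓 ⊂ κ`), hence vanish
in `k` for the bad form, i.e. `p` divides them.

SIEVE. It suffices to treat one pair `P` (sum over `s`). `N = card V ≥ 1`, `D = deg_t = degree of
G`, `r = total degree of R`; `M₀ >` all primes dividing `g` or some nonzero coefficient of `R`.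
Primes `M < p ≤ B/Q`: the residue classes of `a` mod `p` with `Hit`: `b = a - a_{v₀} c` mod `p` is a
zero of `R mod p ≠ 0` in the `N - 1` variables `≠ v₀`: `≤ r p^(N-2)` possibilities
(Schwartz-Zippel, `MvPolynomial.schwartz_zippel...`; for `N = 1` none), and for given `b` at most `D`
values `t = a_{v₀}` mod `p`. Each class mod `p Q` (`p ∤ Q`) has at most
`((2B+1)/(pQ) + 1)^N ≤ (4B/(pQ))^N` points in the box. Sum: `r D 4^N (B/Q)^N ∑_{p>M} 1/p^2 ≤
r D 4^N (B/Q)^N / M`.
Primes `p > B/Q, p > M`: `b = a - a_{v₀} c` is an integral vector with `|b_v| ≤ (1+|c_v|) B`,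
`b_{v₀} = 0` and `a = b + a_{v₀} c`. If `R(b) = 0`: `O(B^(N-2))` such `b` (Schwartz-Zippel),
`2B+1` values `a_{v₀}`: `O(B^(N-1))` vectors `a`. If `R(b) ≠ 0`: `b` is in a class mod `Q`,
`O(B^(N-1))` such `b` (no need for the class), `|R(b)| ≤ C B^r`, so at most `r` primes `p > B/Q`
divide `R(b)` once `B` is large (`(B/Q)^(r+1) > C B^r`); for each of them `t = a_{v₀}` satisfies a
polynomial congruence mod `p` of degree `D` with leading coefficient `g`, `p ∤ g`, so at most `D`
classes mod `p`; together with the class mod `Q`, at most `3` values `|t| ≤ B` for each (`pQ > B`)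
(or `O(Q)` values without using the class mod `Q`). Total `O_Q(B^(N-1))`, which is
`≤ (1/M) (B/Q)^N` for large `B`.

HENSEL. Let `x ≠ 0` be singular over `k`; scale `x_s = 1`. `q = #(O/P)`; the coefficients of
`map ψ F` are in the image of `O/P`, so `Frob_q x = (x_i^q)` is singular too; by `¬ Bad` it is
dependent on `x`, so equal to `x` (`x_s = 1`): `x_i ∈` image of `O/P` (the roots of `X^q - X`),
`x_i = ψ(ξ_i)`. `T₀` = identity with column `s` replaced by `ξ` (`ξ_s = 1`), `det = 1`;
`F₁ = sub T₀ F` has the singular vector `e_s` mod `P`, and is not bad. So its coefficients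
`c_0` of `X_s^d` and `c_t` of `X_s^(d-1) X_t` (`= ∂_t F₁ (e_s)`) are in `P`, the Hessian of `F₁` at
`e_s` mod `P` has zero row and column `s`, and the remaining `n × n` block is invertible mod `P` by
`¬ Bad`. Newton iteration: for every `K` there is `η : Fin m → O`, `η_s = 0`, `η_t ∈ P`, with
`∂_t F₁ (e_s + η) ∈ P^K` for all `t ≠ s`. Smoothness over the field of fractions: clearing
denominators `D X_s^E = ∑ h_j ∂_j F₁` with `0 ≠ D ∈ O`; choose `K` with `D ∉ P^K`. Evaluate at
`e_s + η`: `D = ∑ h_j ∂_j F₁(e_s + η)`, Euler: `∂_s F₁(e_s+η) = d F₁(e_s+η) - ∑ η_t ∂_t F₁(e_s+η)`,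
so `F₁(e_s + η) ∉ P^K`. Let `k` be the valuation of `F₁(e_s+η)`: `1 ≤ k ≤ K - 1`, `e = ⌊k/2⌋`,
`e + 1 ≤ K`. `T₁` = identity with column `s` replaced by `e_s + η`, `T = T₀ T₁`, `det T = 1`,
`sub T F` has the coefficient `F₁(e_s+η)` at `X_s^d` and `∂_t F₁(e_s+η)` at `X_s^(d-1) X_t`.
`only`, `nondeg`: a counterexample gives, with `e_s`, a bad pair (for `nondeg` the equation `i = s`
holds too, because the Hessian row `s` vanishes mod `P`).

BASE: `Pool/Agent/Results/MP_602153_ag/RegularHypersurfaces.lean` (starting file), towers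
`x_0^(d-1) x_1 + ... + x_k^(d-1) y_0 + b y_0^d`, `m = k + 2`, `b` a squarefree positive integer
divisible by the primes dividing `d - 1`; the library is `Pool/Agent/TH214/RM/` (`Towr`, `Base`,
`Exq`).

ASM. `F₀` from BASE; it is smooth modulo `p₀` for some prime `p₀` (`D X_i^E ∈ (∂ F₀)` over `ℤ`,
`p₀ ∤ D`). `C, M₀` from SIEVE for the set `s` of CODIM, `M` larger than `M₀`, `2C`, `2`, `p₀` and
the `M` of CODIM, `Q = (M!)^2`. If `F = form a`, `a ≡ a₀ mod Q`: smooth over `ℚ` (it is smooth
modulo `p₀`: for large `E` the finitely generated `ℤ_(p₀)`-module `(ℤ_(p₀)[X]/(∂F))_E` vanishes mod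
`p₀`, Nakayama; or reduce a singular point over an extension by a valuation), and regular at all
`p ≤ M` since `F - F₀ ∈ p^2 ℤ[X]`. If no `p > M` hits `a`, then `F` is not bad modulo `p > M`
(CODIM), so either it has no singular vector `≠ 0` modulo `p`, hence is regular at `p` (for a prime
`Q` of the chart: `k = Frac(ℤ[X]/Q)`, some partial derivative of `dehom s F` is not in `Q`, and then
`h f ∈ Q^2` differentiates to `h ∂_j f ∈ Q`), or it is `Nodal`, and HENSEL applies. The number of
`a ≡ a₀ mod Q` in the box is at least `⌊(2B+1)/Q⌋^N ≥ (B/Q)^N`, SIEVE removes at most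
`C/M (B/Q)^N ≤ (1/2) (B/Q)^N`.
-/
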