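import Pool.Agent.K9h37.PP.LocMod2
import Pool.Agent.K9h37.PP.Stm
import Pool.Agent.K9h37.TN.Fin

set_option autoImplicit false
set_option linter.unusedVariables false
set_option linter.unusedSectionVars false

open AlgebraicGeometry CategoryTheory CategoryTheory.Limits MvPolynomial NumberField
open scoped Pointwise

namespace Pool.Agent.K9h37.PP

open Pool.Agent.K9h37.TN Pool.Agent.H918R2.Quad Pool.Agent.H945R2.E Pool.Agent.H945R2.D
  Pool.Agent.W418 Pool.Agent.TH214.RM

section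

variable {O K F : Type} [CommRing O] [IsDedekindDomain O] [Field K] [Algebra O K]
  [IsFractionRing O K] [Field F] [Algebra K F] [Algebra O F] [IsScalarTower O K F]

include K in
theorem goodModule_of_locMod {n : ℕ}
    (G : MvPolynomial (Fin (n + 2)) K) (hGp : Prime G)
    (d : ℕ) (hGd : G.IsHomogeneous d) (hsm : Smooth G)
    (x : Fin (n + 2) → F) (hx0 : x 0 = 1) (hrel : aeval x G = 0)
    (hgen : IntermediateField.adjoin K (Set.range x) = ⊤)
    (b : Fin n → F) (htb : IsTranscendenceBasis K b)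
    (hloc : ∀ 𝔭 : Ideal O, 𝔭.IsPrime → 𝔭 ≠ ⊥ → LocMod 𝔭 x) : GoodModule O x := by
  classical
  have hG0 : G ≠ 0 := hGp.ne_zero
  have hOK : Function.Injective (algebraMap O K) := IsFractionRing.injective O K
  obtain ⟨s₀, hs₀, G₀, hG₀⟩ := clear_poly (R := K) (nonZeroDivisors O) G
  have hs₀0 : s₀ ≠ 0 := nonZeroDivisors.ne_zero hs₀
  have hs₀K : algebraMap O K s₀ ≠ 0 := fun h => hs₀0 (hOK (by rw [h, map_zero]))
  have hG₀0 : G₀ ≠ 0 := by
    rintro rfl
    rw [map_zero] at hG₀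
    have h1 : (C (algebraMap O K s₀) : MvPolynomial (Fin (n + 2)) K) ≠ 0 := by
      rwa [Ne, C_eq_zero]
    exact (mul_ne_zero h1 hG0) hG₀.symm
  have hG₀d : G₀.IsHomogeneous d := by
    refine IsHomogeneous.of_map (f := algebraMap O K) hOK ?_
    rw [hG₀]
    have h1 := (isHomogeneous_C (Fin (n + 2)) (algebraMap O K s₀)).mul hGd
    rwa [zero_add] at h1
  have hrelG₀ : aeval x G₀ = 0 := by
    rw [← aeval_map_algebraMap K x G₀, hG₀, map_mul, hrel, mul_zero]
  have hspan : Ideal.span (Set.range fun j => pderiv j G) =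
      Ideal.span (map (algebraMap O K) '' (Set.range fun j => pderiv j G₀)) := by
    apply le_antisymm
    · rw [Ideal.span_le]
      rintro _ ⟨j, rfl⟩
      change pderiv j G ∈ Ideal.span _
      have h1 : pderiv j G = C (algebraMap O K s₀)⁻¹ * map (algebraMap O K) (pderiv j G₀) := by
        rw [← pderiv_map, hG₀, pderiv_C_mul, ← mul_assoc, ← C_mul, inv_mul_cancel₀ hs₀K, C_1,
          one_mul]
      rw [h1]
      exact Ideal.mul_mem_left _ _ (Ideal.subset_span ⟨_, ⟨j, rfl⟩, rfl⟩)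
    · rw [Ideal.span_le]
      rintro _ ⟨_, ⟨j, rfl⟩, rfl⟩
      have h1 : map (algebraMap O K) (pderiv j G₀) = C (algebraMap O K s₀) * pderiv j G := by
        rw [← pderiv_map, hG₀, pderiv_C_mul]
      rw [SetLike.mem_coe]
      change map (algebraMap O K) (pderiv j G₀) ∈ _
      rw [h1]
      exact Ideal.mul_mem_left _ _ (Ideal.subset_span ⟨j, rfl⟩)
  have hex : ∀ i, ∃ c : O, c ≠ 0 ∧ ∃ k : ℕ,
      C c * X i ^ k ∈ Ideal.span (Set.range fun j => pderiv j G₀) := by
    intro i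
    obtain ⟨k, hk⟩ := hsm i
    rw [hspan] at hk
    obtain ⟨c, hc, y, hy, hyc⟩ := clear_span (R := K) (nonZeroDivisors O) _ _ hk
    refine ⟨c, nonZeroDivisors.ne_zero hc, k, ?_⟩
    have h1 : y = C c * X i ^ k := by
      apply map_injective _ hOK
      rw [hyc, map_mul, map_C, map_pow, map_X]
    rwa [← h1]
  choose c hc k hk using hex
  have hc0 : ∏ i, c i ≠ 0 := by
    rw [Finset.prod_ne_zero_iff]
    exact fun i _ => hc i
  have hDspan : Ideal.span {∏ i, c i} ≠ ⊥ := by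
    rw [Ne, Ideal.span_singleton_eq_bot]
    exact hc0
  let S : Finset (Ideal O) :=
    (UniqueFactorizationMonoid.normalizedFactors (Ideal.span {∏ i, c i})).toFinset
  have hS : ∀ 𝔭, 𝔭 ∈ S ↔ 𝔭.IsPrime ∧ ∏ i, c i ∈ 𝔭 := by
    intro 𝔭
    rw [Multiset.mem_toFinset, Ideal.mem_normalizedFactors_iff hDspan,
      Ideal.span_singleton_le_iff_mem]
  have hS0 : ∀ 𝔭 ∈ S, 𝔭 ≠ ⊥ := by
    intro 𝔭 h𝔭 h
    have h1 := ((hS 𝔭).1 h𝔭).2
    rw [h] at h1
    exact hc0 h1
  refine goodModule_of_loc (K := K) x hx0 S (fun 𝔭 h𝔭 =>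
    ⟨Ideal.IsPrime.isMaximal ((hS 𝔭).1 h𝔭).1 (hS0 𝔭 h𝔭), hS0 𝔭 h𝔭⟩) ?_ ?_
  · intro 𝔭 h𝔭
    exact hloc 𝔭 ((hS 𝔭).1 h𝔭).1 (hS0 𝔭 h𝔭)
  · intro 𝔭 hpp h𝔭 D hD M hM hM2
    have hprod : ∏ i, c i ∉ 𝔭 := fun h => h𝔭 ((hS 𝔭).2 ⟨hpp, h⟩)
    have hcp : ∀ i, c i ∉ 𝔭 := fun i h => hprod
      (Ideal.mem_of_dvd 𝔭 (Finset.dvd_prod_of_mem c (Finset.mem_univ i)) h)
    refine regAt_of_crit (K := K) 𝔭 G₀ hG₀0 d hG₀d
      (crit_of_smooth 𝔭 G₀ d hG₀d fun i => ⟨c i, hcp i, k i, hk i⟩) x hx0 hgen b htb x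
      (fun i j => if i = j then 1 else 0) ?_ hrelG₀ D hD M hM hM2
    intro i
    simp only [apply_ite (algebraMap K F), map_one, map_zero, ite_mul, one_mul, zero_mul,
      Finset.sum_ite_eq, Finset.mem_univ, if_true]

/-- The coordinates of the generic point are not zero. -/
theorem coord_ne {n : ℕ} (G : MvPolynomial (Fin (n + 2)) K) (hGp : Prime G)
    (d : ℕ) (hd : 2 ≤ d) (hGd : G.IsHomogeneous d)
    (x : Fin (n + 2) → F) (hx0 : x 0 = 1) (hrel : aeval x G = 0)
    (hgen : IntermediateField.adjoin K (Set.range x) = ⊤)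
    (b : Fin n → F) (htb : IsTranscendenceBasis K b)
    (T T' : Matrix (Fin (n + 2)) (Fin (n + 2)) K) (hTT : T * T' = 1) (i : Fin (n + 2)) :
    ∑ j, algebraMap K F (T' i j) * x j ≠ 0 := by
  classical
  intro h0
  set L : MvPolynomial (Fin (n + 2)) K := ∑ j, C (T' i j) * X j with hL
  have hLd : L.IsHomogeneous 1 := by
    refine IsHomogeneous.sum _ _ _ fun j _ => ?_
    have h2 := (isHomogeneous_C (Fin (n + 2)) (T' i j)).mul (isHomogeneous_X K j)
    rwa [zero_add] at h2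
  have hLx : aeval x L = 0 := by
    rw [hL, map_sum, ← h0]
    refine Finset.sum_congr rfl fun j _ => ?_
    rw [map_mul, aeval_C, aeval_X]
  have hdvd := hyp_dvd x hx0 hgen b htb G hGp d hGd hrel 1 L hLd hLx
  have hTT' : T' * T = 1 := mul_eq_one_comm.1 hTT
  have hL0 : L ≠ 0 := by
    intro h
    have h1 : ∀ j, T' i j = 0 := by
      intro j
      have h2 := congrArg (coeff (Finsupp.single j 1)) h
      rw [hL, coeff_sum, coeff_zero, Finset.sum_eq_single j] at h2
      · rw [coeff_C_mul, coeff_X, if_pos rfl] at h2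
        simpa using h2
      · intro j' _ hj'
        rw [coeff_C_mul, coeff_X, if_neg, mul_zero]
        intro h3
        have h4 := (Finsupp.single_left_inj one_ne_zero).1 h3
        exact hj' h4
      · simp
    have h2 : (T' * T) i i = (1 : Matrix (Fin (n + 2)) (Fin (n + 2)) K) i i := by rw [hTT']
    rw [Matrix.mul_apply, Matrix.one_apply_eq] at h2
    rw [Finset.sum_eq_zero (fun j _ => by rw [h1 j, zero_mul])] at h2
    exact zero_ne_one h2
  have h1 := totalDegree_le_of_dvd_of_isDomain hdvd hL0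
  rw [hGd.totalDegree hGp.ne_zero, hLd.totalDegree hL0] at h1
  omega

/-- The kinds of local equations. -/
def Loc4 {O : Type} [CommRing O] (𝔭 : Ideal O) {n : ℕ} (H : MvPolynomial (Fin (n + 2)) O) (d : ℕ) :
    Prop :=
  Crit 𝔭 H ∨ NodeAt 𝔭 H d

/-- Over each nonzero prime the hypersurface has a good equation in suitable coordinates. -/
def LocReg4 (O : Type) {K : Type} [CommRing O] [Field K] [Algebra O K] {n : ℕ}
    (G : MvPolynomial (Fin (n + 2)) K) (d : ℕ) : Prop :=
  ∀ 𝔭 : Ideal O, 𝔭.IsPrime → 𝔭 ≠ ⊥ →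
    ∃ (H : MvPolynomial (Fin (n + 2)) O) (l : K) (T T' : Matrix (Fin (n + 2)) (Fin (n + 2)) K),
      l ≠ 0 ∧ T * T' = 1 ∧
      map (algebraMap O K) H = C l * aeval (fun i => ∑ j, C (T i j) * X j) G ∧ Loc4 𝔭 H d

include K in
theorem goodModule4 {n : ℕ}
    (G : MvPolynomial (Fin (n + 2)) K) (hGp : Prime G)
    (d : ℕ) (hGd : G.IsHomogeneous d) (hsm : Smooth G) (hloc : LocReg4 O G d)
    (x : Fin (n + 2) → F) (hx0 : x 0 = 1) (hrel : aeval x G = 0)
    (hgen : IntermediateField.adjoin K (Set.range x) = ⊤)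
    (b : Fin n → F) (htb : IsTranscendenceBasis K b) : GoodModule O x := by
  classical
  have hG0 : G ≠ 0 := hGp.ne_zero
  have hOK : Function.Injective (algebraMap O K) := IsFractionRing.injective O K
  refine goodModule_of_locMod G hGp d hGd hsm x hx0 hrel hgen b htb ?_
  intro 𝔭 hpp h0
  obtain ⟨H, l, T, T', hl, hTT, hH, hcase⟩ := hloc 𝔭 hpp h0
  let x' : Fin (n + 2) → F := fun i => ∑ j, algebraMap K F (T' i j) * x j
  have hxx' : ∀ i, x i = ∑ j, algebraMap K F (T i j) * x' j := lin_coords T T' hTT x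
  have hTT' : T' * T = 1 := mul_eq_one_comm.1 hTT
  have hH0 : H ≠ 0 := by
    rintro rfl
    rw [map_zero] at hH
    have h1 : (aeval (fun i => ∑ j, C (T i j) * X j) :
        MvPolynomial (Fin (n + 2)) K →ₐ[K] MvPolynomial (Fin (n + 2)) K) G = 0 := by
      rcases mul_eq_zero.1 hH.symm with h | h
      · exact absurd (C_eq_zero.1 h) hl
      · exact h
    have h2 := lin_subst T' T hTT' G
    rw [h1, map_zero] at h2
    exact hG0 h2.symm
  have hHd : H.IsHomogeneous d := by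
    refine IsHomogeneous.of_map (f := algebraMap O K) hOK ?_
    rw [hH]
    have h1 : ((aeval (fun i => ∑ j, C (T i j) * X j) :
        MvPolynomial (Fin (n + 2)) K →ₐ[K] MvPolynomial (Fin (n + 2)) K) G).IsHomogeneous
          (1 * d) := by
      refine hGd.aeval _ fun i => ?_
      refine IsHomogeneous.sum _ _ _ fun j _ => ?_
      have h2 := (isHomogeneous_C (Fin (n + 2)) (T i j)).mul (isHomogeneous_X K j)
      rwa [zero_add] at h2
    have h2 := (isHomogeneous_C (Fin (n + 2)) l).mul h1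
    rwa [zero_add, one_mul] at h2
  have hrelH : aeval x' H = 0 := rel_lin G H l T T' hTT hH x hrel
  rcases hcase with hcrit | hnode
  · exact locMod_of_crit (K := K) 𝔭 h0 H hH0 d hHd hcrit x hx0 hgen b htb x' (fun i j => T i j)
      (fun i j => T' i j) hxx' (fun i => rfl) hrelH
  · have hd2 : 2 ≤ d := hnode.1
    have hne : ∀ i, x' i ≠ 0 := fun i =>
      coord_ne G hGp d hd2 hGd x hx0 hrel hgen b htb T T' hTT i
    refine locMod_lin (K := K) 𝔭 h0 x x' ?_ ?_ ?_
    · intro i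
      refine Submodule.sum_mem _ fun j _ => ?_
      rw [← Algebra.smul_def]
      exact Submodule.smul_mem _ _ (Submodule.subset_span ⟨j, rfl⟩)
    · intro i
      rw [hxx' i]
      refine Submodule.sum_mem _ fun j _ => ?_
      rw [← Algebra.smul_def]
      exact Submodule.smul_mem _ _ (Submodule.subset_span ⟨j, rfl⟩)
    · exact locMod_of_node (K := K) 𝔭 h0 H d hHd hnode x hx0 hgen b htb x' hne
        (fun i j => T i j) hxx' hrelH

end

/-- The model theorem, over any Dedekind ring which is finite over the integers. -/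
theorem model_Z4 {O K : Type} [CommRing O] [IsDedekindDomain O] [Module.Finite ℤ O]
    [Field K] [CharZero K] [Algebra O K] [IsFractionRing O K] {n : ℕ} (hn : 1 ≤ n)
    (G : MvPolynomial (Fin (n + 2)) K) (d : ℕ) (hd : 2 ≤ d) (hGd : G.IsHomogeneous d)
    (hsm : Smooth G) (hloc : LocReg4 O G d) {A : Type} [CommRing A] [Algebra K A]
    (π : MvPolynomial (Fin (n + 2)) K →ₐ[K] A) (hπ : Function.Surjective π)
    (hker : RingHom.ker π = Ideal.span {G})
    (𝒜 : ℕ → Submodule K A) [GradedAlgebra 𝒜]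
    (h𝒜 : ∀ d, 𝒜 d = (homogeneousSubmodule (Fin (n + 2)) K d).map π.toLinearMap)
    (Y : Scheme.{0}) (hY : Nonempty (Y ≅ Proj 𝒜)) : HasRegularModel Y := by
  have hirr := irreducible_of_smooth hn G d (by omega) hGd hsm
  obtain ⟨F, _, _, x, b, hx0, hrel, hgen, htb⟩ := exists_ff G hirr d hGd
    (not_dvd_X G hirr.ne_zero d hd hGd)
  let _ : Algebra O F := ((algebraMap K F).comp (algebraMap O K)).toAlgebra
  have hst : IsScalarTower O K F := IsScalarTower.of_algebraMap_eq fun _ => rfl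
  have hM : GoodModule O x :=
    goodModule4 (K := K) G hirr.prime d hGd hsm hloc x hx0 hrel hgen b htb
  obtain ⟨ε, hε, hεgen, hε1⟩ := exists_eps x hx0 hgen _ htb G hirr.prime d hGd hrel π hπ hker 𝒜 h𝒜
  exact Pool.Agent.TH214.RM.hasRegularModel_of_goodModule (O := O) 𝒜 ε hε hεgen x hε1 hM Y hY

end Pool.Agent.K9h37.PP
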