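import Pool.Agent.K9h37.PP.Stm

/-! General lemmas for the leaf HENSEL: linear substitutions, Taylor's formula, vertices. -/

set_option autoImplicit false

namespace Pool.Agent.K9h37.PP.Hensel

open MvPolynomial

/-- The identity matrix with the column `s` replaced by `z`. -/
def TT {O : Type} [CommRing O] {m : ℕ} (s : Fin m) (z : Fin m → O) : Matrix (Fin m) (Fin m) O :=
  (1 : Matrix (Fin m) (Fin m) O).updateCol s z

lemma TT_self {O : Type} [CommRing O] {m : ℕ} (s : Fin m) (z : Fin m → O) (i : Fin m) :
    TT s z i s = z i := by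
  rw [TT, Matrix.updateCol_self]

lemma TT_ne {O : Type} [CommRing O] {m : ℕ} (s : Fin m) (z : Fin m → O) (i j : Fin m)
    (h : j ≠ s) : TT s z i j = if i = j then 1 else 0 := by
  rw [TT, Matrix.updateCol_ne h, Matrix.one_apply]

lemma det_TT {O : Type} [CommRing O] {m : ℕ} (s : Fin m) (z : Fin m → O) :
    (TT s z).det = z s := by
  rw [TT, ← Matrix.cramer_apply, Matrix.cramer_one]
  rfl

lemma map_TT {O k : Type} [CommRing O] [CommRing k] (f : O →+* k) {m : ℕ} (s : Fin m)
    (z : Fin m → O) : (TT s z).map f = TT s (fun i => f (z i)) := by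
  ext i j
  rw [Matrix.map_apply]
  by_cases h : j = s
  · subst h
    rw [TT_self, TT_self]
  · rw [TT_ne _ _ _ _ h, TT_ne _ _ _ _ h]
    split_ifs <;> simp

lemma TT_sum {O : Type} [CommRing O] {m : ℕ} (s : Fin m) (z x : Fin m → O) (i : Fin m) :
    ∑ j, TT s z i j * x j = x s * z i + (if i = s then 0 else x i) := by
  classical
  rw [← Finset.add_sum_erase _ _ (Finset.mem_univ s), TT_self, mul_comm]
  congr 1
  have : ∀ j ∈ Finset.univ.erase s, TT s z i j * x j = if i = j then x j else 0 := by
    intro j hj
    rw [TT_ne _ _ _ _ (Finset.ne_of_mem_erase hj)]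
    split_ifs <;> simp
  rw [Finset.sum_congr rfl this, Finset.sum_ite_eq]
  by_cases h : i = s
  · simp [h]
  · simp [h]

lemma eval_sub {O : Type} [CommRing O] {m : ℕ} (T : Matrix (Fin m) (Fin m) O)
    (F : MvPolynomial (Fin m) O) (x : Fin m → O) :
    eval x (sub T F) = eval (fun i => ∑ j, T i j * x j) F := by
  induction F using MvPolynomial.induction_on with
  | C a => simp [sub]
  | add p q hp hq =>
    simp only [sub] at *
    rw [map_add, map_add, map_add, hp, hq]
  | mul_X p i hp =>
    simp only [sub] at *
    rw [map_mul, map_mul, map_mul, hp]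
    simp

lemma map_sub {O k : Type} [CommRing O] [CommRing k] (f : O →+* k) {m : ℕ}
    (T : Matrix (Fin m) (Fin m) O) (F : MvPolynomial (Fin m) O) :
    map f (sub T F) = sub (T.map f) (map f F) := by
  induction F using MvPolynomial.induction_on with
  | C a => simp [sub]
  | add p q hp hq =>
    simp only [sub] at *
    rw [map_add, map_add, map_add, map_add, hp, hq]
  | mul_X p i hp =>
    simp only [sub] at *
    rw [map_mul, map_mul, map_mul, map_mul, hp]
    simp

lemma pderiv_sub {O : Type} [CommRing O] {m : ℕ} (T : Matrix (Fin m) (Fin m) O)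
    (F : MvPolynomial (Fin m) O) (j : Fin m) :
    pderiv j (sub T F) = ∑ i, C (T i j) * sub T (pderiv i F) := by
  induction F using MvPolynomial.induction_on with
  | C a => simp [sub]
  | add p q hp hq =>
    simp only [sub] at *
    simp only [map_add, hp, hq, mul_add, Finset.sum_add_distrib]
  | mul_X p i hp =>
    simp only [sub] at *
    simp only [map_mul, Derivation.leibniz, smul_eq_mul, map_add, hp, aeval_X, mul_add,
      Finset.sum_add_distrib]
    have h1 : pderiv j (∑ l, C (T i l) * X l : MvPolynomial (Fin m) O) = C (T i j) := by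
      rw [map_sum]
      simp only [Derivation.leibniz, smul_eq_mul, pderiv_C, mul_zero, add_zero, pderiv_X]
      rw [Finset.sum_eq_single j]
      · simp
      · intro b _ hb
        simp [Pi.single_apply, hb.symm]
      · simp
    rw [h1]
    have h2 : ∀ l, C (T l j) * ((aeval fun i => ∑ j, C (T i j) * X j) p *
        (aeval fun i => ∑ j, C (T i j) * X j) (pderiv l (X i : MvPolynomial (Fin m) O))) =
        if l = i then C (T i j) * (aeval fun i => ∑ j, C (T i j) * X j) p else 0 := by
      intro l
      rw [pderiv_X]
      by_cases h : l = i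
      · subst h
        simp
      · simp [Pi.single_apply, h]
    simp only [h2]
    rw [Finset.sum_ite_eq']
    simp only [Finset.mem_univ, if_true]
    rw [Finset.mul_sum]
    congr 1
    · rw [mul_comm]
    · refine Finset.sum_congr rfl fun l _ => ?_
      ring

/-- Taylor's formula of the first order. -/
lemma taylor {R : Type} [CommRing R] {m : ℕ} (I : Ideal R) (z δ : Fin m → R)
    (hδ : ∀ i, δ i ∈ I) (G : MvPolynomial (Fin m) R) :
    eval (fun i => z i + δ i) G - eval z G - ∑ j, eval z (pderiv j G) * δ j ∈ I ^ 2 := by
  induction G using MvPolynomial.induction_on with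
  | C a => simp
  | add p q hp hq =>
    have := Ideal.add_mem _ hp hq
    convert this using 1
    simp only [map_add, add_mul, Finset.sum_add_distrib]
    ring
  | mul_X p i hp =>
    have h1 : eval (fun i => z i + δ i) p - eval z p ∈ I := by
      have h2 : ∑ j, eval z (pderiv j p) * δ j ∈ I :=
        Ideal.sum_mem _ fun j _ => Ideal.mul_mem_left _ _ (hδ j)
      have h3 := Ideal.add_mem _ (Ideal.pow_le_self two_ne_zero hp) h2
      simpa using h3
    have h4 : (eval (fun i => z i + δ i) p - eval z p) * δ i ∈ I ^ 2 := by
      rw [pow_two]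
      exact Ideal.mul_mem_mul h1 (hδ i)
    have h5 := Ideal.add_mem _ (Ideal.mul_mem_right (z i) _ hp) h4
    convert h5 using 1
    have h6 : ∑ j, eval z (pderiv j (p * X i)) * δ j =
        (∑ j, eval z (pderiv j p) * δ j) * z i + eval z p * δ i := by
      have h7 : ∀ j, eval z (pderiv j (p * X i)) * δ j =
          eval z (pderiv j p) * δ j * z i + if j = i then eval z p * δ i else 0 := by
        intro j
        rw [pderiv_mul, pderiv_X]
        by_cases h : j = i
        · subst h
          simp
          ring
        · simp [Pi.single_apply, h]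
          ring
      simp only [h7]
      rw [Finset.sum_add_distrib, Finset.sum_ite_eq', ← Finset.sum_mul]
      simp
    rw [h6]
    simp only [map_mul, eval_X]
    ring

lemma eval_smul {R : Type} [CommRing R] {m d : ℕ} {F : MvPolynomial (Fin m) R}
    (hF : F.IsHomogeneous d) (c : R) (x : Fin m → R) :
    eval (fun i => c * x i) F = c ^ d * eval x F := by
  rw [eval_eq', eval_eq', Finset.mul_sum]
  refine Finset.sum_congr rfl fun α hα => ?_
  have h1 : ∑ i, α i = d := by
    have := hF (mem_support_iff.1 hα)
    rw [Finsupp.weight_apply, Finsupp.sum_fintype _ _ (by simp)] at this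
    simpa using this
  simp only [mul_pow]
  rw [Finset.prod_mul_distrib, Finset.prod_pow_eq_pow_sum, h1]
  ring

lemma eval_vertex {R : Type} [CommRing R] {m d : ℕ} {F : MvPolynomial (Fin m) R}
    (hF : F.IsHomogeneous d) (s : Fin m) :
    eval (Pi.single s 1) F = coeff (Finsupp.single s d) F := by
  classical
  rw [eval_eq']
  rw [Finset.sum_eq_single (Finsupp.single s d)]
  · rw [Finset.prod_eq_one, mul_one]
    intro i _
    by_cases h : i = s
    · subst h
      simp
    · simp [Finsupp.single_apply, Ne.symm h]
  · intro α hα hne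
    have h1 : ∑ i, α i = d := by
      have := hF (mem_support_iff.1 hα)
      rw [Finsupp.weight_apply, Finsupp.sum_fintype _ _ (by simp)] at this
      simpa using this
    have h2 : ∃ i, i ≠ s ∧ α i ≠ 0 := by
      by_contra hcon
      push Not at hcon
      apply hne
      ext i
      by_cases h : i = s
      · subst h
        rw [Finsupp.single_eq_same, ← h1]
        exact (Finset.sum_eq_single i (fun b _ hb => hcon b hb) (by simp)).symm
      · rw [hcon i h, Finsupp.single_apply, if_neg (Ne.symm h)]
    obtain ⟨i, hi, hi2⟩ := h2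
    rw [Finset.prod_eq_zero (Finset.mem_univ i), mul_zero]
    simp [Pi.single_apply, hi, hi2]
  · intro h
    rw [notMem_support_iff.1 h, zero_mul]

lemma sub_homogeneous {O : Type} [CommRing O] {m d : ℕ} (T : Matrix (Fin m) (Fin m) O)
    {F : MvPolynomial (Fin m) O} (hF : F.IsHomogeneous d) : (sub T F).IsHomogeneous d := by
  have h := hF.aeval (fun i => ∑ j, C (T i j) * X j) (n := 1) (fun i => by
    refine IsHomogeneous.sum _ _ _ fun j _ => ?_
    simpa using (isHomogeneous_X O j).C_mul (T i j))
  rwa [one_mul] at h

end Pool.Agent.K9h37.PP.Hensel
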