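import Pool.Agent.K9h37.PP.Hensel1

/-! Leaf HENSEL: singular points of forms over fields which are not bad, rationality. -/

set_option autoImplicit false

namespace Pool.Agent.K9h37.PP.Hensel

open MvPolynomial

lemma Sing.smul {k : Type} [Field k] {m d : ℕ} {G : MvPolynomial (Fin m) k}
    (hG : G.IsHomogeneous d) {x : Fin m → k} (h : Sing G x) (c : k) :
    Sing G (fun i => c * x i) := by
  refine ⟨?_, fun i => ?_⟩
  · rw [eval_smul hG, h.1, mul_zero]
  · rw [eval_smul hG.pderiv, h.2 i, mul_zero]

lemma indep_of {k : Type} [Field k] {m : ℕ} {z y : Fin m → k} {s : Fin m} (hz : z s = 1)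
    (hy : y s = 0) (hy0 : y ≠ 0) : LinearIndependent k ![z, y] := by
  rw [LinearIndependent.pair_iff]
  intro a b hab
  have h1 := congrFun hab s
  simp only [Pi.add_apply, Pi.smul_apply, smul_eq_mul, hz, hy, mul_one, mul_zero, add_zero,
    Pi.zero_apply] at h1
  refine ⟨h1, ?_⟩
  rw [h1, zero_smul, zero_add] at hab
  exact (smul_eq_zero.1 hab).resolve_right hy0

lemma nondeg_core {k : Type} [Field k] {m d : ℕ} {G : MvPolynomial (Fin m) k}
    (hG : G.IsHomogeneous d) (hb : ¬ Bad G) {s : Fin m} {z : Fin m → k} (hz : z s = 1)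
    (hs : Sing G z) {y : Fin m → k} (hy : y s = 0)
    (h : ∀ i, i ≠ s → ∑ j, eval z (pderiv i (pderiv j G)) * y j = 0) : y = 0 := by
  by_contra hy0
  refine hb ⟨z, y, indep_of hz hy hy0, hs, Or.inr fun i => ?_⟩
  by_cases hi : i = s
  · subst hi
    have h1 : ∀ j, ∑ l, z l * eval z (pderiv l (pderiv j G)) = 0 := by
      intro j
      have h2 := congrArg (eval z) (hG.pderiv (i := j)).sum_X_mul_pderiv
      rw [map_sum, map_nsmul, hs.2 j, smul_zero] at h2
      simpa using h2
    have h3 : ∑ l, z l * ∑ j, eval z (pderiv l (pderiv j G)) * y j = 0 := by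
      simp only [Finset.mul_sum]
      rw [Finset.sum_comm]
      refine Finset.sum_eq_zero fun j _ => ?_
      have h4 := congrArg (fun a => a * y j) (h1 j)
      simp only [zero_mul, Finset.sum_mul] at h4
      rw [← h4]
      refine Finset.sum_congr rfl fun l _ => ?_
      ring
    rw [Finset.sum_eq_single i, hz, one_mul] at h3
    · exact h3
    · intro l _ hl
      rw [h l hl, mul_zero]
    · simp
  · exact h i hi

lemma only_core {k : Type} [Field k] {m : ℕ} {G : MvPolynomial (Fin m) k}
    (hb : ¬ Bad G) {s : Fin m} {z : Fin m → k} (hz : z s = 1)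
    (hs : Sing G z) {w : Fin m → k} (hw : Sing G w) (i : Fin m) : w i = w s * z i := by
  by_contra hi
  refine hb ⟨z, w, ?_, hs, Or.inl hw⟩
  rw [LinearIndependent.pair_iff]
  intro a b hab
  have h1 := congrFun hab s
  have h2 := congrFun hab i
  simp only [Pi.add_apply, Pi.smul_apply, smul_eq_mul, hz, mul_one,
    Pi.zero_apply] at h1 h2
  have h3 : b * (w i - w s * z i) = 0 := by linear_combination h2 - z i * h1
  have h4 : b = 0 := (mul_eq_zero.1 h3).resolve_right (sub_ne_zero.2 hi)
  subst h4
  simp only [zero_mul, add_zero] at h1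
  exact ⟨h1, rfl⟩

/-- The roots of `X^q - X` are in the prime field with `q` elements. -/
lemma mem_range_of_pow {κ k : Type} [Field κ] [Fintype κ] [Field k] [Algebra κ k] (z : k)
    (hz : z ^ Fintype.card κ = z) : ∃ a : κ, algebraMap κ k a = z := by
  classical
  by_contra hcon
  push Not at hcon
  have hinj : Function.Injective (algebraMap κ k) := (algebraMap κ k).injective
  have hq : 1 < Fintype.card κ := Fintype.one_lt_card
  let S : Finset k := insert z (Finset.univ.image (algebraMap κ k))
  have hS : S.card = Fintype.card κ + 1 := by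
    rw [Finset.card_insert_of_notMem, Finset.card_image_of_injective _ hinj, Finset.card_univ]
    simp [hcon]
  have h1 : S.val ⊆ (Polynomial.X ^ Fintype.card κ - Polynomial.X : Polynomial k).roots := by
    intro a ha
    rw [Polynomial.mem_roots (FiniteField.X_pow_card_sub_X_ne_zero k hq)]
    have ha' : a ∈ S := ha
    rw [Polynomial.IsRoot.def, Polynomial.eval_sub, Polynomial.eval_pow, Polynomial.eval_X]
    rcases Finset.mem_insert.1 ha' with rfl | h
    · rw [hz, sub_self]
    · obtain ⟨b, -, rfl⟩ := Finset.mem_image.1 h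
      rw [← map_pow, FiniteField.pow_card, sub_self]
  have h2 := Polynomial.card_le_degree_of_subset_roots h1
  rw [hS, FiniteField.X_pow_card_sub_X_natDegree_eq k hq] at h2
  omega

/-- The singular point is rational. -/
lemma rational {O : Type} [CommRing O] (P : Ideal O) [P.IsMaximal] [Finite (O ⧸ P)] {m d : ℕ}
    {F : MvPolynomial (Fin m) O} (hF : F.IsHomogeneous d) {k : Type} [Field k] (ψ : O →+* k)
    (hψ : RingHom.ker ψ = P) (hb : ¬ Bad (map ψ F)) {x : Fin m → k} (hx : x ≠ 0)
    (hs : Sing (map ψ F) x) :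
    ∃ (s : Fin m) (ξ : Fin m → O), ξ s = 1 ∧ Sing (map ψ F) (fun i => ψ (ξ i)) := by
  classical
  obtain ⟨s, hxs⟩ := Function.ne_iff.1 hx
  have hxs' : x s ≠ 0 := hxs
  letI : Field (O ⧸ P) := Ideal.Quotient.field P
  letI : Fintype (O ⧸ P) := Fintype.ofFinite _
  have hle : P ≤ RingHom.ker ψ := hψ.ge
  letI : Algebra (O ⧸ P) k := (Ideal.Quotient.lift P ψ fun a ha => hle ha).toAlgebra
  have halg : ∀ a : O, algebraMap (O ⧸ P) k (Ideal.Quotient.mk P a) = ψ a := fun a => rfl
  let fr : k →+* k := (FiniteField.frobeniusAlgHom (O ⧸ P) k : k →ₐ[O ⧸ P] k)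
  have hfr : fr.comp ψ = ψ := by
    ext a
    show FiniteField.frobeniusAlgHom (O ⧸ P) k (ψ a) = ψ a
    rw [← halg a, AlgHom.commutes]
  have hfrx : ∀ y : k, fr y = y ^ Fintype.card (O ⧸ P) := fun y => rfl
  have heval : ∀ (G : MvPolynomial (Fin m) O) (y : Fin m → k),
      eval (fun i => fr (y i)) (map ψ G) = fr (eval y (map ψ G)) := by
    intro G y
    rw [eval_map, eval_map, MvPolynomial.eval₂_comp_left, hfr]
    rfl
  let y : Fin m → k := fun i => (x s)⁻¹ * x i
  have hy : Sing (map ψ F) y := Sing.smul (hF.map ψ) hs _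
  have hys : y s = 1 := inv_mul_cancel₀ hxs'
  have hfy : Sing (map ψ F) (fun i => fr (y i)) := by
    refine ⟨?_, fun i => ?_⟩
    · rw [heval, hy.1, map_zero]
    · have h1 := hy.2 i
      rw [pderiv_map] at h1 ⊢
      rw [heval, h1, map_zero]
  have h2 : ∀ i, ∃ a : O, ψ a = y i := by
    intro i
    have h3 := only_core hb hys hy hfy i
    simp only [hys, map_one, one_mul] at h3
    rw [hfrx] at h3
    obtain ⟨a, ha⟩ := mem_range_of_pow (κ := O ⧸ P) (y i) h3
    obtain ⟨b, rfl⟩ := Ideal.Quotient.mk_surjective a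
    exact ⟨b, by rw [← halg, ha]⟩
  choose a ha using h2
  refine ⟨s, Function.update a s 1, by simp, ?_⟩
  have h4 : (fun i => ψ (Function.update a s 1 i)) = y := by
    funext i
    by_cases hi : i = s
    · subst hi
      simp [hys]
    · rw [Function.update_of_ne hi, ha]
  rw [h4]
  exact hy

end Pool.Agent.K9h37.PP.Hensel
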