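import Pool.Agent.K9h37.PP.Hensel2

/-! Leaf HENSEL: Newton iteration, and a lower bound for the value at the improved point. -/

set_option autoImplicit false

namespace Pool.Agent.K9h37.PP.Hensel

open MvPolynomial

lemma sum_ext {R : Type} [CommRing R] {m : ℕ} (s : Fin m) (f : Fin m → R)
    (v : {j : Fin m // j ≠ s} → R) :
    ∑ j : Fin m, f j * (if h : j ≠ s then v ⟨j, h⟩ else 0) =
      ∑ j : {j : Fin m // j ≠ s}, f j * v j := by
  classical
  rw [← Fintype.sum_subtype_add_sum_subtype (fun j => j ≠ s)]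
  have h1 : ∑ i : {x // ¬ (x ≠ s)}, f i * (if h : (i : Fin m) ≠ s then v ⟨i, h⟩ else 0) = 0 := by
    refine Finset.sum_eq_zero fun i _ => ?_
    rw [dif_neg i.2, mul_zero]
  rw [h1, add_zero]
  refine Finset.sum_congr rfl fun i _ => ?_
  rw [dif_pos i.2]

lemma eval_comp {O k : Type} [CommRing O] [CommRing k] (ψ : O →+* k) {m : ℕ} (z : Fin m → O)
    (G : MvPolynomial (Fin m) O) : eval (fun i => ψ (z i)) (map ψ G) = ψ (eval z G) := by
  rw [eval_map]
  exact (MvPolynomial.eval₂_comp_left ψ (RingHom.id O) z G).symm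

/-- The Hessian matrix in the directions different from `s`. -/
noncomputable def hess {R : Type} [CommRing R] {m : ℕ} (s : Fin m) (F : MvPolynomial (Fin m) R)
    (z : Fin m → R) : Matrix {j : Fin m // j ≠ s} {j : Fin m // j ≠ s} R :=
  fun i j => eval z (pderiv j.1 (pderiv i.1 F))

lemma det_hess {O : Type} [CommRing O] (P : Ideal O) {m d : ℕ}
    {F : MvPolynomial (Fin m) O} (hF : F.IsHomogeneous d) {k : Type} [Field k] (ψ : O →+* k)
    (hψ : RingHom.ker ψ = P) (hb : ¬ Bad (map ψ F)) {s : Fin m} {z : Fin m → O} (hz : z s = 1)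
    (hs : Sing (map ψ F) (fun i => ψ (z i))) : (hess s F z).det ∉ P := by
  classical
  intro hdet
  rw [← hψ, RingHom.mem_ker, RingHom.map_det, ← Matrix.exists_vecMul_eq_zero_iff] at hdet
  obtain ⟨v, hv, hv2⟩ := hdet
  have h1 : (fun j => if h : j ≠ s then v ⟨j, h⟩ else 0) = (0 : Fin m → k) := by
    refine nondeg_core (hF.map ψ) hb (s := s) (z := fun i => ψ (z i)) (by rw [hz, map_one]) hs
      (by simp) fun i hi => ?_
    rw [sum_ext s (fun j => eval (fun i => ψ (z i)) (pderiv i (pderiv j (map ψ F)))) v]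
    have h2 := congrFun hv2 ⟨i, hi⟩
    rw [Matrix.vecMul, dotProduct] at h2
    rw [Pi.zero_apply] at h2
    rw [← h2]
    refine Finset.sum_congr rfl fun j _ => ?_
    rw [mul_comm]
    congr 1
    rw [pderiv_map, pderiv_map, eval_comp]
    rfl
  apply hv
  funext j
  have h3 := congrFun h1 j.1
  simpa [j.2] using h3

/-- One Newton step. -/
lemma newton_step {O : Type} [CommRing O] (P : Ideal O) [P.IsMaximal] {m : ℕ}
    (F : MvPolynomial (Fin m) O) {s : Fin m} (z : Fin m → O) (hz : z s = 1)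
    (hdet : (hess s F z).det ∉ P) (K : ℕ) (hK : 1 ≤ K)
    (h : ∀ t, t ≠ s → eval z (pderiv t F) ∈ P ^ K) :
    ∃ z' : Fin m → O, z' s = 1 ∧ (∀ i, z' i - z i ∈ P) ∧
      ∀ t, t ≠ s → eval z' (pderiv t F) ∈ P ^ (K + 1) := by
  classical
  obtain ⟨u, c, hc, huc⟩ := (inferInstance : P.IsMaximal).exists_inv hdet
  let A := hess s F z
  let g : {j : Fin m // j ≠ s} → O := fun j => eval z (pderiv j.1 F)
  let v : {j : Fin m // j ≠ s} → O := -(u • (A.adjugate.mulVec g))
  have hg : ∀ j, g j ∈ P ^ K := fun j => h j.1 j.2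
  have hv : ∀ j, v j ∈ P ^ K := by
    intro j
    show -(u • (A.adjugate.mulVec g)) j ∈ P ^ K
    rw [Pi.smul_apply, smul_eq_mul]
    refine neg_mem (Ideal.mul_mem_left _ _ ?_)
    rw [Matrix.mulVec, dotProduct]
    exact Ideal.sum_mem _ fun i _ => Ideal.mul_mem_left _ _ (hg i)
  let δ : Fin m → O := fun j => if h : j ≠ s then v ⟨j, h⟩ else 0
  have hδ : ∀ j, δ j ∈ P ^ K := by
    intro j
    by_cases hj : j ≠ s
    · have : δ j = v ⟨j, hj⟩ := dif_pos hj
      rw [this]
      exact hv _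
    · have : δ j = 0 := dif_neg hj
      rw [this]
      exact zero_mem _
  have hδs : δ s = 0 := dif_neg (by simp)
  refine ⟨fun i => z i + δ i, ?_, fun i => ?_, fun t ht => ?_⟩
  · show z s + δ s = 1
    rw [hδs, add_zero, hz]
  · show z i + δ i - z i ∈ P
    rw [add_sub_cancel_left]
    exact Ideal.pow_le_self (by omega) (hδ i)
  · have h1 := taylor (P ^ K) z δ hδ (pderiv t F)
    rw [← pow_mul] at h1
    have h2 : P ^ (K * 2) ≤ P ^ (K + 1) := Ideal.pow_le_pow_right (by omega)
    have h3 : ∑ j, eval z (pderiv j (pderiv t F)) * δ j = (A.mulVec v) ⟨t, ht⟩ := by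
      rw [sum_ext s (fun j => eval z (pderiv j (pderiv t F))) v]
      rfl
    have h4 : A.mulVec v = -(u * A.det) • g := by
      show A.mulVec (-(u • (A.adjugate.mulVec g))) = _
      rw [Matrix.mulVec_neg, Matrix.mulVec_smul, Matrix.mulVec_mulVec, Matrix.mul_adjugate,
        Matrix.smul_mulVec, Matrix.one_mulVec, smul_smul, neg_smul]
    have h5 : eval z (pderiv t F) + ∑ j, eval z (pderiv j (pderiv t F)) * δ j = c * g ⟨t, ht⟩ := by
      rw [h3, h4, Pi.smul_apply, smul_eq_mul]
      have h6 : c = 1 - u * A.det := by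
        rw [← huc]
        ring
      rw [h6]
      show g ⟨t, ht⟩ + _ = _
      ring
    have h7 : c * g ⟨t, ht⟩ ∈ P ^ (K + 1) := by
      rw [pow_succ']
      exact Ideal.mul_mem_mul hc (hg _)
    rw [← h5] at h7
    have h8 := Ideal.add_mem _ (h2 h1) h7
    convert h8 using 1
    ring

/-- Newton iteration. -/
lemma newton {O : Type} [CommRing O] (P : Ideal O) [P.IsMaximal] {m d : ℕ}
    {F : MvPolynomial (Fin m) O} (hF : F.IsHomogeneous d) {k : Type} [Field k] (ψ : O →+* k)
    (hψ : RingHom.ker ψ = P) (hb : ¬ Bad (map ψ F)) {s : Fin m} {ξ : Fin m → O} (hξ : ξ s = 1)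
    (hs : Sing (map ψ F) (fun i => ψ (ξ i))) (K : ℕ) (hK : 1 ≤ K) :
    ∃ z : Fin m → O, z s = 1 ∧ (∀ i, ψ (z i) = ψ (ξ i)) ∧
      ∀ t, t ≠ s → eval z (pderiv t F) ∈ P ^ K := by
  induction K, hK using Nat.le_induction with
  | base =>
    refine ⟨ξ, hξ, fun _ => rfl, fun t _ => ?_⟩
    rw [pow_one, ← hψ, RingHom.mem_ker]
    have h1 := hs.2 t
    rw [pderiv_map, eval_comp] at h1
    exact h1
  | succ K hK ih =>
    obtain ⟨z, h1, h2, h3⟩ := ih
    have h4 : (fun i => ψ (z i)) = fun i => ψ (ξ i) := funext h2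
    have h5 := det_hess P hF ψ hψ hb (s := s) (z := z) h1 (by rw [h4]; exact hs)
    obtain ⟨z', h6, h7, h8⟩ := newton_step P F z h1 h5 K hK h3
    refine ⟨z', h6, fun i => ?_, h8⟩
    rw [← h2 i]
    have h9 := h7 i
    rw [← hψ, RingHom.mem_ker, _root_.map_sub, sub_eq_zero] at h9
    exact h9

attribute [local instance] MvPolynomial.algebraMvPolynomial in
/-- Smoothness over the field of fractions bounds the valuations. -/
lemma smooth_bound {O : Type} [CommRing O] [IsDomain O] {m : ℕ} {F : MvPolynomial (Fin m) O}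
    (hF : IsSmooth (map (algebraMap O (FractionRing O)) F)) (s : Fin m) :
    ∃ D : O, D ≠ 0 ∧ ∀ z : Fin m → O, z s = 1 →
      D ∈ Ideal.span (Set.range fun j => eval z (pderiv j F)) := by
  classical
  obtain ⟨E, hE⟩ := hF s
  rw [Ideal.mem_span_range_iff_exists_fun] at hE
  obtain ⟨c, hc⟩ := hE
  obtain ⟨b, hb⟩ := IsLocalization.exist_integer_multiples_of_finite
    ((nonZeroDivisors O).map (C (σ := Fin m) : O →+* MvPolynomial (Fin m) O)) c
  choose c' hc' using hb
  obtain ⟨D, hD, hDb⟩ := b.2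
  refine ⟨D, nonZeroDivisors.ne_zero hD, fun z hz => ?_⟩
  have h1 : map (algebraMap O (FractionRing O)) (C D * X s ^ E) =
      map (algebraMap O (FractionRing O)) (∑ j, c' j * pderiv j F) := by
    rw [map_mul, map_pow, map_X, ← hc, Finset.mul_sum, map_sum]
    refine Finset.sum_congr rfl fun j _ => ?_
    have h2 := hc' j
    rw [← hDb, Algebra.smul_def] at h2
    have h3 : ∀ G : MvPolynomial (Fin m) O,
      algebraMap (MvPolynomial (Fin m) O) (MvPolynomial (Fin m) (FractionRing O)) G =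
        map (algebraMap O (FractionRing O)) G := fun G => rfl
    rw [h3, h3] at h2
    rw [map_mul, h2, pderiv_map, mul_assoc]
  have h2 := map_injective _ (IsFractionRing.injective O (FractionRing O)) h1
  have h3 := congrArg (eval z) h2
  simp only [map_mul, eval_C, map_pow, eval_X, hz, one_pow, mul_one, map_sum] at h3
  rw [h3]
  exact Ideal.sum_mem _ fun j _ => Ideal.mul_mem_left _ _ (Ideal.subset_span ⟨j, rfl⟩)

end Pool.Agent.K9h37.PP.Hensel
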