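import Pool.Agent.K9h37.PP.Dual
import Pool.Agent.K9h37.TN.LocReg

/-! The quadratic part at a vertex and the Hessian matrix. -/

set_option autoImplicit false
set_option linter.unusedVariables false
set_option linter.unusedSectionVars false

namespace Pool.Agent.K9h37.PP

open MvPolynomial TrivSqZeroExt

variable {R k ι : Type} [CommRing R] [Field k] [Fintype ι] [DecidableEq ι]

theorem pderiv_comm' (i j : ι) (F : MvPolynomial ι k) :
    pderiv i (pderiv j F) = pderiv j (pderiv i F) := by
  have h : ⁅(pderiv i : Derivation k (MvPolynomial ι k) (MvPolynomial ι k)),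
      (pderiv j : Derivation k (MvPolynomial ι k) (MvPolynomial ι k))⁆ = 0 := by
    apply MvPolynomial.derivation_ext
    intro l
    rw [Derivation.commutator_apply, pderiv_X, pderiv_X]
    simp only [Pi.single_apply, Derivation.zero_apply]
    split_ifs <;> simp
  have h1 := congrArg (fun D : Derivation k (MvPolynomial ι k) (MvPolynomial ι k) => D F) h
  simp only [Derivation.commutator_apply, Derivation.zero_apply, sub_eq_zero] at h1
  exact h1

/-- The part of degree `d - 2` in the variable `s`. -/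
noncomputable def QP (ψ : R →+* k) (G : MvPolynomial ι R) (s : ι) (d : ℕ) : MvPolynomial ι k :=
  ∑ a ∈ G.support.filter (fun a => a s + 2 = d), monomial a (ψ (G.coeff a))

theorem aeval_mono {B : Type} [CommRing B] [Algebra k B] (x : ι → B) (a : ι →₀ ℕ) (c : k) :
    aeval x (monomial a c) = algebraMap k B c * ∏ l, x l ^ a l := by
  rw [aeval_monomial, Finsupp.prod_fintype]
  intro i
  rw [pow_zero]

theorem eval_mono (x : ι → k) (a : ι →₀ ℕ) (c : k) :
    eval x (monomial a c) = c * ∏ l, x l ^ a l := by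
  rw [eval_monomial, Finsupp.prod_fintype]
  intro i
  rw [pow_zero]

theorem aeval_QP {B : Type} [CommRing B] [Algebra k B] (x : ι → B) (ψ : R →+* k)
    (G : MvPolynomial ι R) (s : ι) (d : ℕ) :
    aeval x (QP ψ G s d) = ∑ a ∈ G.support, (if a s + 2 = d then
      algebraMap k B (ψ (G.coeff a)) * ∏ l, x l ^ a l else 0) := by
  rw [QP, map_sum, Finset.sum_filter]
  refine Finset.sum_congr rfl fun a _ => ?_
  split_ifs
  · rw [aeval_mono]
  · rfl

theorem map_eq_sum (ψ : R →+* k) (G : MvPolynomial ι R) :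
    map ψ G = ∑ a ∈ G.support, monomial a (ψ (G.coeff a)) := by
  conv_lhs => rw [G.as_sum, map_sum]
  refine Finset.sum_congr rfl fun a _ => ?_
  rw [map_monomial]

theorem aeval_map' {B : Type} [CommRing B] [Algebra k B] (x : ι → B) (ψ : R →+* k)
    (G : MvPolynomial ι R) :
    aeval x (map ψ G) = ∑ a ∈ G.support, algebraMap k B (ψ (G.coeff a)) * ∏ l, x l ^ a l := by
  rw [map_eq_sum, map_sum]
  refine Finset.sum_congr rfl fun a _ => ?_
  rw [aeval_mono]

theorem prod_dual (s : ι) (z : ι → k) (hz : z s = 1) (b : ι → ℕ) :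
    ∏ l, dz ((Pi.single s 1 : ι → k) l) (if l = s then 0 else z l) ^ b l =
      inl (∏ l, z l ^ b l) * (inr 1 : DualNumber k) ^ (∑ l ∈ Finset.univ.erase s, b l) := by
  have h1 : ∀ l, dz ((Pi.single s 1 : ι → k) l) (if l = s then 0 else z l) ^ b l =
      inl (z l) ^ b l * (if l = s then 1 else (inr 1 : DualNumber k) ^ b l) := by
    intro l
    by_cases h : l = s
    · subst h
      rw [Pi.single_eq_same, if_pos rfl, if_pos rfl, dz_zero, hz, mul_one]
    · rw [Pi.single_eq_of_ne h, if_neg h, if_neg h, ← mul_pow]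
      congr 1
      apply TrivSqZeroExt.ext
      · simp [dz]
      · simp [dz]
  rw [Finset.prod_congr rfl fun l _ => h1 l, Finset.prod_mul_distrib]
  congr 1
  · have h2 : (inl (∏ l, z l ^ b l) : DualNumber k) = inlHom k k (∏ l, z l ^ b l) := rfl
    rw [h2, map_prod]
    simp only [map_pow]
    rfl
  · rw [← Finset.prod_pow_eq_pow_sum, ← Finset.prod_erase Finset.univ (a := s)]
    · refine Finset.prod_congr rfl fun l hl => ?_
      rw [if_neg (Finset.ne_of_mem_erase hl)]
    · rw [if_pos rfl]

theorem snd_eps_pow (c : k) (n : ℕ) :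
    ((inl c : DualNumber k) * (inr 1 : DualNumber k) ^ n).snd = if n = 1 then c else 0 := by
  rcases n with _ | _ | n
  · simp
  · simp
  · have h : (inr 1 : DualNumber k) ^ (n + 1 + 1) = 0 := by
      rw [pow_succ, pow_succ, mul_assoc, inr_mul_inr, mul_zero]
    rw [h, mul_zero, snd_zero, if_neg (by omega)]

/-- The partial derivatives of the quadratic part are given by the Hessian matrix. -/
theorem hess (ψ : R →+* k) (G : MvPolynomial ι R) (s : ι) (d : ℕ)
    (hG : ∀ a ∈ G.support, ∑ i, a i = d) (z : ι → k) (hz : z s = 1) (i : ι) (hi : i ≠ s) :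
    eval z (pderiv i (QP ψ G s d)) =
      ∑ j, eval (Pi.single s 1) (pderiv i (pderiv j (map ψ G))) * (if j = s then 0 else z j) := by
  have h1 := aeval_dual (Pi.single s 1 : ι → k) (fun l => if l = s then 0 else z l)
    (pderiv i (map ψ G))
  have h2 := congrArg snd h1
  have h3 : ∑ j, eval (Pi.single s 1) (pderiv i (pderiv j (map ψ G))) * (if j = s then 0 else z j) =
      (dz (eval (Pi.single s 1 : ι → k) (pderiv i (map ψ G)))
        (∑ l, (if l = s then 0 else z l) * eval (Pi.single s 1 : ι → k)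
          (pderiv l (pderiv i (map ψ G))))).snd := by
    simp only [dz, snd_add, snd_inl, snd_inr, zero_add]
    refine Finset.sum_congr rfl fun j _ => ?_
    rw [pderiv_comm' i j, mul_comm]
  rw [h3, ← h2, map_eq_sum, map_sum, map_sum, snd_sum, QP, map_sum, map_sum, Finset.sum_filter]
  refine Finset.sum_congr rfl fun a ha => ?_
  have hsum := hG a ha
  rw [pderiv_monomial, aeval_mono, eval_mono, prod_dual s z hz, ← mul_assoc]
  have h4 : algebraMap k (DualNumber k) (ψ (G.coeff a) * (a i : k)) *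
      (inl (∏ l, z l ^ (a - Finsupp.single i 1 : ι →₀ ℕ) l) : DualNumber k) =
      inl (ψ (G.coeff a) * (a i : k) * ∏ l, z l ^ (a - Finsupp.single i 1 : ι →₀ ℕ) l) := by
    rw [inl_mul]
    rfl
  rw [h4, snd_eps_pow]
  by_cases hai : a i = 0
  · rw [hai]
    simp
  · have h5 : ∑ l ∈ Finset.univ.erase s, (a - Finsupp.single i 1 : ι →₀ ℕ) l + 1 + a s = d := by
      have h6 : ∑ l ∈ Finset.univ.erase s, a l + a s = d := by
        rw [← hsum]
        exact Finset.sum_erase_add _ _ (Finset.mem_univ s)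
      have h7 : ∑ l ∈ Finset.univ.erase s, a l =
          ∑ l ∈ Finset.univ.erase s, (a - Finsupp.single i 1 : ι →₀ ℕ) l + 1 := by
        have hmem : i ∈ Finset.univ.erase s := Finset.mem_erase.2 ⟨hi, Finset.mem_univ _⟩
        rw [← Finset.add_sum_erase _ _ hmem, ← Finset.add_sum_erase _ _ hmem]
        have h8 : ∑ l ∈ (Finset.univ.erase s).erase i, (a - Finsupp.single i 1 : ι →₀ ℕ) l =
            ∑ l ∈ (Finset.univ.erase s).erase i, a l := by
          refine Finset.sum_congr rfl fun l hl => ?_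
          rw [Finsupp.tsub_apply, Finsupp.single_eq_of_ne (Finset.ne_of_mem_erase hl)]
          rfl
        rw [h8, Finsupp.tsub_apply, Finsupp.single_eq_same]
        omega
      omega
    by_cases h6 : a s + 2 = d
    · rw [if_pos h6, if_pos (by omega)]
    · rw [if_neg h6, if_neg (by omega)]

/-- The Euler relation for the quadratic part. -/
theorem QP_zero (ψ : R →+* k) (G : MvPolynomial ι R) (s : ι) (d : ℕ)
    (hG : ∀ a ∈ G.support, ∑ i, a i = d)
    (hnd : ∀ y : ι → k, y s = 0 → (∀ i, i ≠ s → ∑ j, eval (Pi.single s 1)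
      (pderiv i (pderiv j (map ψ G))) * y j = 0) → y = 0)
    (z : ι → k) (hz : z s = 1) (h : ∀ i, i ≠ s → eval z (pderiv i (QP ψ G s d)) = 0) :
    ∀ i, i ≠ s → z i = 0 := by
  have h1 := hnd (fun j => if j = s then 0 else z j) (if_pos rfl) (fun i hi => by
    rw [← hess ψ G s d hG z hz i hi]
    exact h i hi)
  intro i hi
  have h2 := congrFun h1 i
  simp only [if_neg hi] at h2
  exact h2

theorem euler_QP (ψ : R →+* k) (G : MvPolynomial ι R) (s : ι) (d : ℕ)
    (hG : ∀ a ∈ G.support, ∑ i, a i = d) (z : ι → k) (i₀ : ι) (hi₀ : i₀ ≠ s)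
    (h0 : eval z (QP ψ G s d) = 0)
    (h : ∀ i, i ≠ s → i ≠ i₀ → eval z (pderiv i (QP ψ G s d)) = 0) (hz0 : z i₀ ≠ 0) :
    eval z (pderiv i₀ (QP ψ G s d)) = 0 := by
  have hE : ∀ i, z i * eval z (pderiv i (QP ψ G s d)) =
      ∑ a ∈ G.support.filter (fun a => a s + 2 = d), (a i : k) *
        (ψ (G.coeff a) * ∏ l, z l ^ a l) := by
    intro i
    have h1 : z i * eval z (pderiv i (QP ψ G s d)) = eval z (X i * pderiv i (QP ψ G s d)) := by
      rw [map_mul, eval_X]
    rw [h1, QP, map_sum, Finset.mul_sum, map_sum]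
    refine Finset.sum_congr rfl fun a _ => ?_
    rw [X_mul_pderiv_monomial, map_nsmul, eval_mono, nsmul_eq_mul]
  have h0' : ∑ a ∈ G.support.filter (fun a => a s + 2 = d), (ψ (G.coeff a) * ∏ l, z l ^ a l) = 0 := by
    rw [← h0, QP, map_sum]
    refine Finset.sum_congr rfl fun a _ => ?_
    rw [eval_mono]
  have hs : z s * eval z (pderiv s (QP ψ G s d)) = 0 := by
    rw [hE]
    have h1 : ∀ a ∈ G.support.filter (fun a => a s + 2 = d), (a s : k) *
        (ψ (G.coeff a) * ∏ l, z l ^ a l) = ((d : k) - 2) * (ψ (G.coeff a) * ∏ l, z l ^ a l) := by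
      intro a ha
      have h2 := (Finset.mem_filter.1 ha).2
      have h3 : (a s : k) = (d : k) - 2 := by
        rw [← h2]
        push_cast
        ring
      rw [h3]
    rw [Finset.sum_congr rfl h1, ← Finset.mul_sum, h0', mul_zero]
  have hall : ∑ i, z i * eval z (pderiv i (QP ψ G s d)) = 0 := by
    simp only [hE]
    rw [Finset.sum_comm]
    have h1 : ∀ a ∈ G.support.filter (fun a => a s + 2 = d), ∑ i, (a i : k) *
        (ψ (G.coeff a) * ∏ l, z l ^ a l) = (d : k) * (ψ (G.coeff a) * ∏ l, z l ^ a l) := by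
      intro a ha
      rw [← Finset.sum_mul, ← Nat.cast_sum, hG a (Finset.mem_filter.1 ha).1]
    rw [Finset.sum_congr rfl h1, ← Finset.mul_sum, h0', mul_zero]
  have h2 : z i₀ * eval z (pderiv i₀ (QP ψ G s d)) = 0 := by
    rw [← hall]
    symm
    refine Finset.sum_eq_single i₀ ?_ (by simp)
    intro i _ hi
    by_cases his : i = s
    · subst his
      exact hs
    · rw [h i his hi, mul_zero]
  exact (mul_eq_zero.1 h2).resolve_left hz0

/-- The Euler relation. -/
theorem euler_full (F : MvPolynomial ι k) (d : ℕ) (hF : F.IsHomogeneous d) (z : ι → k) (s : ι)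
    (hzs : z s ≠ 0) (h0 : eval z F = 0) (h : ∀ i, i ≠ s → eval z (pderiv i F) = 0) :
    eval z (pderiv s F) = 0 := by
  have h1 : ∑ i, z i * eval z (pderiv i F) = d * eval z F := by
    have h2 := congrArg (eval z) hF.sum_X_mul_pderiv
    rw [map_sum] at h2
    simp only [map_mul, eval_X, nsmul_eq_mul, map_natCast] at h2
    exact h2
  rw [h0, mul_zero, Finset.sum_eq_single s] at h1
  · exact (mul_eq_zero.1 h1).resolve_left hzs
  · intro i _ hi
    rw [h i hi, mul_zero]
  · simp

end Pool.Agent.K9h37.PP
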