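import Pool.Agent.K9h37.PP.RegN
import Pool.Agent.K9h37.TN.LocMod
import Pool.Agent.W418.Hyp2

set_option autoImplicit false
set_option linter.unusedVariables false
set_option linter.unusedSectionVars false

open scoped Pointwise

namespace Pool.Agent.K9h37.PP

open Pool.Agent.K9h37.TN Pool.Agent.H918R2.Quad Pool.Agent.H945R2.E Pool.Agent.H945R2.D
  Pool.Agent.W418 Pool.Agent.TH214.RM MvPolynomial

/-- The valuations of the coefficients in the normal form of a node. -/
def vN {ι : Type} (s : ι) (d κ e : ℕ) (a : ι →₀ ℕ) : ℕ :=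
  if a s = d then κ else if a s + 1 = d then e + 1 else 0

/-- The normal form of a node at `𝔭`, with the coefficients written as `ε a * ϖ ^ v a`. -/
def NodeAt {O ι : Type} [CommRing O] [Fintype ι] [DecidableEq ι] (𝔭 : Ideal O)
    (G : MvPolynomial ι O) (d : ℕ) : Prop :=
  2 ≤ d ∧ (2 : O) ∉ 𝔭 ∧ ∃ (s : ι) (κ e : ℕ), 1 ≤ κ ∧ 2 * e ≤ κ ∧ κ ≤ 2 * e + 1 ∧
    ∃ ϖ ∈ 𝔭, ϖ ∉ 𝔭 ^ 2 ∧ ∃ ε : (ι →₀ ℕ) → O,
      (∀ a ∈ G.support, G.coeff a = ε a * ϖ ^ vN s d κ e a) ∧
      Finsupp.single s d ∈ G.support ∧ ε (Finsupp.single s d) ∉ 𝔭 ∧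
      (∀ (k : Type) [Field k] (ψ : O →+* k), RingHom.ker ψ = 𝔭 → ∀ x : ι → k,
        eval x (map ψ G) = 0 → (∀ i, eval x (pderiv i (map ψ G)) = 0) → ∀ t, t ≠ s → x t = 0) ∧
      (∀ (k : Type) [Field k] (ψ : O →+* k), RingHom.ker ψ = 𝔭 → ∀ y : ι → k, y s = 0 →
        (∀ i, i ≠ s → ∑ j, eval (Pi.single s 1)
          (pderiv i (pderiv j (map ψ G))) * y j = 0) → y = 0)

section ineq

variable {ι : Type} [Fintype ι] [DecidableEq ι] (s : ι) (E : ℕ) (hne : ∃ i, i ≠ s) (d : ℕ)

theorem nM_nonneg (hd : 2 ≤ d) (t : NT s E) (l : ι ⊕ Fin (E + 1))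
    (hl : l ∈ (Fan.node s E hne).S t) : 0 ≤ pr (nR s E l) (nM s E d t) := by
  rcases l with l | j
  · rw [pr_inl]
    rcases t with t | q | u
    · simp only [nM, Pi.single_apply]
      split_ifs <;> omega
    · simp only [nM, Pi.add_apply, Pi.single_apply]
      split_ifs <;> omega
    · simp only [nM, Pi.single_apply]
      split_ifs <;> omega
  · rw [pr_inr, deg_nM]
    have hj : (0 : ℤ) ≤ ((j : ℕ) : ℤ) := by positivity
    rcases t with t | q | u
    · simp only [nM, Pi.single_eq_of_ne (Ne.symm t.2)]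
      have := mul_nonneg hj (show (0 : ℤ) ≤ (d : ℤ) - 0 by omega)
      omega
    · obtain ⟨j₀, i, hi⟩ := q
      have hs' : s ≠ i := Ne.symm hi
      simp only [nM, Pi.add_apply, Pi.single_eq_same, Pi.single_eq_of_ne hs']
      have := mul_nonneg hj (show (0 : ℤ) ≤ (d : ℤ) - ((d : ℤ) - 2 + 0) by omega)
      omega
    · simp only [nM, Pi.single_eq_same, sub_self, mul_zero]
      omega

theorem nM_le (κ : ℕ) (hκe : 2 * E ≤ κ) (hκe' : κ ≤ 2 * E + 1) (a : ι →₀ ℕ)
    (ha : ∑ i, a i = d) (t : NT s E) (l : ι ⊕ Fin (E + 1))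
    (hl : l ∈ (Fan.node s E hne).S t) :
    pr (nR s E l) (nM s E d t) ≤ pr (nR s E l) (μ (vN s d κ E) a) := by
  have hl' : nB s E t l = true := mem_filter_nB.1 hl
  have hle := le_of_sum a d ha s
  rcases l with l | j
  · rw [pr_inl, pr_inl]
    have h0 : (0 : ℤ) ≤ (a l : ℤ) := by positivity
    rcases t with t | q | u
    · have h1 : l ≠ t := by simpa [nB] using hl'
      simp only [nM, μ, Pi.single_eq_of_ne h1]
      exact h0
    · have h1 : l ≠ q.2 ∧ l ≠ s := by simpa [nB] using hl'
      simp only [nM, μ, Pi.add_apply, Pi.single_eq_of_ne h1.1, Pi.single_eq_of_ne h1.2, add_zero]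
      exact h0
    · have h1 : l ≠ s := by simpa [nB] using hl'
      simp only [nM, μ, Pi.single_eq_of_ne h1]
      exact h0
  · rw [pr_inr, pr_inr, deg_nM, deg_μ _ a d ha]
    rcases t with t | q | u
    · have h1 : j = 0 := by simpa [nB] using hl'
      subst h1
      simp only [nM, μ, Fin.val_zero, Nat.cast_zero, zero_mul, zero_add]
      positivity
    · obtain ⟨j₀, i, hi⟩ := q
      have hs' : s ≠ i := Ne.symm hi
      have h1 : j = j₀.castSucc ∨ j = j₀.succ := by simpa [nB] using hl'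
      have hj₀ := j₀.2
      simp only [nM, μ, Pi.add_apply, Pi.single_eq_same, Pi.single_eq_of_ne hs']
      have hj1 : (j : ℕ) = j₀ ∨ (j : ℕ) = j₀ + 1 := by
        rcases h1 with rfl | rfl
        · left; simp
        · right; simp
      rcases (show a s = d ∨ a s + 1 = d ∨ a s + 2 ≤ d by omega) with h | h | h
      · have h3 : vN s d κ E a = κ := by simp only [vN, if_pos h]
        rw [h3, h]
        have h4 : ((j : ℕ) : ℤ) ≤ E := by omega
        have h5 : (2 * (E : ℤ)) ≤ κ := by exact_mod_cast hκe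
        have h6 : (d : ℤ) - ((d : ℤ) - 2 + 0) = 2 := by ring
        rw [h6, sub_self, mul_zero]
        omega
      · have h3 : vN s d κ E a = E + 1 := by
          simp only [vN, if_neg (show ¬ a s = d by omega), if_pos h]
        rw [h3]
        have h4 : ((j : ℕ) : ℤ) ≤ E := by omega
        have h6 : (d : ℤ) - ((d : ℤ) - 2 + 0) = 2 := by ring
        have h7 : (d : ℤ) - (a s : ℤ) = 1 := by omega
        rw [h6, h7]
        push_cast
        omega
      · have h6 : (d : ℤ) - ((d : ℤ) - 2 + 0) = 2 := by ring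
        have h7 : 2 ≤ (d : ℤ) - (a s : ℤ) := by omega
        rw [h6]
        have hj : (0 : ℤ) ≤ ((j : ℕ) : ℤ) := by positivity
        have h8 := mul_le_mul_of_nonneg_left h7 hj
        have h9 : (0 : ℤ) ≤ ((vN s d κ E a : ℕ) : ℤ) := by positivity
        omega
    · have h1 : j = Fin.last E := by simpa [nB] using hl'
      subst h1
      simp only [nM, μ, Pi.single_eq_same, sub_self, mul_zero, zero_add, Fin.val_last]
      rcases (show a s = d ∨ a s + 1 = d ∨ a s + 2 ≤ d by omega) with h | h | h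
      · have h3 : vN s d κ E a = κ := by simp only [vN, if_pos h]
        rw [h3, h, sub_self, mul_zero, zero_add]
        exact_mod_cast hκe
      · have h3 : vN s d κ E a = E + 1 := by
          simp only [vN, if_neg (show ¬ a s = d by omega), if_pos h]
        have h7 : (d : ℤ) - (a s : ℤ) = 1 := by omega
        rw [h3, h7]
        push_cast
        omega
      · have h7 : 2 ≤ (d : ℤ) - (a s : ℤ) := by omega
        have hj : (0 : ℤ) ≤ (E : ℤ) := by positivity
        have h8 := mul_le_mul_of_nonneg_left h7 hj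
        have h9 : (0 : ℤ) ≤ ((vN s d κ E a : ℕ) : ℤ) := by positivity
        omega

end ineq

section

variable {O K F : Type} [CommRing O] [IsDedekindDomain O] [Field K] [Algebra O K]
  [IsFractionRing O K] [Field F] [Algebra K F] [Algebra O F] [IsScalarTower O K F]

include K in
/-- The local module at a prime with a node in normal form. -/
theorem locMod_of_node (𝔭 : Ideal O) [𝔭.IsPrime] (h0 : 𝔭 ≠ ⊥) {n : ℕ}
    (G : MvPolynomial (Fin (n + 2)) O) (d : ℕ) (hGd : G.IsHomogeneous d) (hnew : NodeAt 𝔭 G d)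
    (x : Fin (n + 2) → F) (hx0 : x 0 = 1)
    (hgen : IntermediateField.adjoin K (Set.range x) = ⊤)
    (b : Fin n → F) (htb : IsTranscendenceBasis K b)
    (x' : Fin (n + 2) → F) (hx' : ∀ i, x' i ≠ 0) (u : Fin (n + 2) → Fin (n + 2) → K)
    (hu : ∀ i, x i = ∑ j, algebraMap K F (u i j) * x' j) (hrel : aeval x' G = 0) :
    LocMod 𝔭 x' := by
  obtain ⟨hd, h2𝔭, s, κ, e₁, hκ1, hκe, hκe', ϖ, hϖ, hϖ2, ε, hco, hs, hε, honly, hnd⟩ := hnew
  have hG0 : G ≠ 0 := by
    rintro rfl
    simp at hs
  have hne : ∃ i : Fin (n + 2), i ≠ s := exists_ne s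
  let Φ : Fan (Fin (n + 2)) := Fan.node s e₁ hne
  obtain ⟨k₀, hk₀, hk₀b⟩ := exists_bound Φ
  have hDpos := Φ.Dpos
  refine ⟨k₀ * Φ.D.toNat, fun D hD => ?_⟩
  let R := Localization.subalgebra.ofField K 𝔭.primeCompl 𝔭.primeCompl_le_nonZeroDivisors
  have : IsLocalization.AtPrime R 𝔭 := Localization.subalgebra.isLocalization_ofField K _ _
  have : IsFractionRing R K := Localization.subalgebra.isFractionRing_ofField K _ _
  have hdvr : IsDiscreteValuationRing R :=
    IsLocalization.AtPrime.isDiscreteValuationRing_of_dedekind_domain O h0 R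
  have : IsScalarTower O R F := IsScalarTower.of_algebraMap_eq fun r => by
    rw [IsScalarTower.algebraMap_apply O K F]; rfl
  have : IsScalarTower R K F := IsScalarTower.of_algebraMap_eq fun r => rfl
  have hinjOR : Function.Injective (algebraMap O R) :=
    IsLocalization.injective R 𝔭.primeCompl_le_nonZeroDivisors
  have hinj : Function.Injective (algebraMap R K) := IsFractionRing.injective R K
  have hinjRF : Function.Injective (algebraMap R F) := by
    rw [IsScalarTower.algebraMap_eq R K F]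
    exact (algebraMap K F).injective.comp hinj
  have hπ : Irreducible (algebraMap O R ϖ) := ARIaux.irr 𝔭 h0 hϖ hϖ2
  set π : R := algebraMap O R ϖ with hπdef
  -- the degree
  set k : ℕ := D / Φ.D.toNat with hk
  set e : ℕ := D % Φ.D.toNat with he
  have hkk : k₀ ≤ k := (Nat.le_div_iff_mul_le (by omega)).2 hD
  have hDke : (D : ℤ) = k * Φ.D + e := by
    have h1 := Nat.div_add_mod D Φ.D.toNat
    have h2 : ((Φ.D.toNat * (D / Φ.D.toNat) + D % Φ.D.toNat : ℕ) : ℤ) = D := by
      rw [h1]
    rw [← h2, hk, he]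
    push_cast
    rw [Int.toNat_of_nonneg (by omega)]
    ring
  have hkb : ∀ t l l', |pr (Φ.r l') (Φ.y t l)| ≤ (k : ℤ) := fun t l l' =>
    (hk₀b t l l').trans (by exact_mod_cast hkk)
  have hsup : ∀ a ∈ (map (algebraMap O R) G).support, a ∈ G.support := fun a ha =>
    support_map_subset _ _ ha
  have hsupp : (map (algebraMap O R) G).support = G.support := support_map_of_injective _ hinjOR
  refine ⟨(Submodule.span R (GG R π x' Φ k e)).restrictScalars O, ?_, ?_, ?_⟩
  · intro y hy
    exact clear_denom (R := R) 𝔭 (Set.range x' ^ D) y (GG_le π x' Φ k e D hDke hy)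
  · obtain ⟨K', hK'⟩ := GG_ge π x' Φ k e D hDke
    have hmap : 𝔭.map (algebraMap O R) ≤ Ideal.span {π} := by
      rw [Ideal.map_le_iff_le_comap, ← hπ.maximalIdeal_eq]
      intro c hc
      rw [Ideal.mem_comap]
      exact (IsLocalization.AtPrime.to_map_mem_maximal_iff R 𝔭 c).2 hc
    refine ⟨K', fun c hc y hy => ?_⟩
    obtain ⟨r, hr⟩ : ∃ r : R, algebraMap O R c = π ^ K' * r := by
      have h1 : algebraMap O R c ∈ Ideal.span {π ^ K'} := by
        rw [← Ideal.span_singleton_pow]
        apply Ideal.pow_right_mono hmap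
        rw [← Ideal.map_pow]
        exact Ideal.mem_map_of_mem _ hc
      obtain ⟨r, hr⟩ := Ideal.mem_span_singleton.1 h1
      exact ⟨r, hr⟩
    have hy' : y ∈ Submodule.span R (Set.range x' ^ D) := Submodule.span_subset_span O R _ hy
    have h2 : c • y = r • (π ^ K' • y) := by
      rw [smul_smul, mul_comm, ← hr, algebraMap_smul]
    rw [h2]
    exact Submodule.smul_mem _ r (hK' y hy')
  · intro M hMP hM2 f hfM hf q hqp hq
    obtain ⟨𝒪, hloc, hR, hRU, hloc2, hG, hreg⟩ := transfer (R := R) 𝔭 M (GG R π x' Φ k e)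
      (fun y hy => hMP hy) (fun y hy => hM2 y hy) f q hq
    apply hreg
    have hmapψ : ∀ (k : Type) [Field k] (ψ : R →+* k),
        map ψ (map (algebraMap O R) G) = map (ψ.comp (algebraMap O R)) G := fun k _ ψ => by
      rw [map_map]
    have hkerψ : ∀ (k : Type) [Field k] (ψ : R →+* k),
        RingHom.ker ψ = IsLocalRing.maximalIdeal R →
        RingHom.ker (ψ.comp (algebraMap O R)) = 𝔭 := by
      intro k _ ψ hψ
      ext r
      rw [RingHom.mem_ker, RingHom.comp_apply, ← RingHom.mem_ker, hψ]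
      exact IsLocalization.AtPrime.to_map_mem_maximal_iff R 𝔭 r
    have hunitR : ∀ r : O, r ∉ 𝔭 → IsUnit (algebraMap O R r) := fun r hr =>
      IsLocalization.map_units R (⟨r, hr⟩ : 𝔭.primeCompl)
    have hco' : ∀ a ∈ (map (algebraMap O R) G).support, (map (algebraMap O R) G).coeff a =
        algebraMap O R (ε a) * π ^ vN s d κ e₁ a := by
      intro a ha
      rw [coeff_map, hco a (hsup a ha), map_mul, map_pow]
    have hsumG : ∀ a ∈ (map (algebraMap O R) G).support, ∑ i, a i = d := fun a ha =>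
      sum_of_homog G d hGd a (hsup a ha)
    have hREG := node_reg π hπ (map (algebraMap O R) G) s hne d κ e₁ hd hκ1 hκe hκe' (hGd.map _)
      (fun a => algebraMap O R (ε a)) (vN s d κ e₁) hco'
      (fun a h => by simp only [vN, if_pos h])
      (fun a h => by simp only [vN, if_neg (show ¬ a s = d by omega), if_pos h])
      (fun a h => by
        simp only [vN, if_neg (show ¬ a s = d by omega), if_neg (show ¬ a s + 1 = d by omega)])
      (by rw [hsupp]; exact hs)
      (by
        have := hunitR 2 h2𝔭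
        rwa [map_ofNat] at this) (hunitR _ hε)
      (by
        intro k _ ψ hψ
        rw [hmapψ]
        exact honly k _ (hkerψ k ψ hψ))
      (by
        intro k _ ψ hψ
        rw [hmapψ]
        exact hnd k _ (hkerψ k ψ hψ))
    refine local_reg2 𝒪 hloc hR hRU hinjRF π hπ (map (algebraMap O R) G)
      (fun h => hG0 (map_injective _ hinjOR (by rw [h, map_zero]))) d (hGd.map _)
      (fun a => algebraMap O R (ε a)) (vN s d κ e₁) hco' Φ (nM s e₁ d) (deg_nM s e₁ d) ?_ ?_ hREG
      x' hx' ?_ ?_ k e hkb f hf (hMP hfM) hG hloc2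
    · exact nM_nonneg s e₁ hne d hd
    · intro t a ha l hl
      exact nM_le s e₁ hne d κ hκe hκe' a (hsumG a ha) t l hl
    · rw [aeval_map_algebraMap, hrel]
    · intro s hs
      obtain ⟨j₀, hj₀⟩ := hind_of (K := K) (ι := Fin (n + 2)) (by simp) x hx0 hgen b htb x' u hu s hs
      exact ⟨j₀, hj₀.restrictScalars hinj⟩

end

end Pool.Agent.K9h37.PP
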