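import Pool.Agent.K9h37.PP.Stm2
import Pool.Agent.K9h37.PP.Asm
import Pool.Agent.K9h37.PP.Codim
import Pool.Agent.K9h37.PP.Sieve
import Pool.Agent.K9h37.PP.Hensel

/-! Project PP (helper37), second part: the leaves LOC, GOOD2, TAIL (helper66). -/

set_option autoImplicit false

namespace Pool.Agent.K9h37.PP

open MvPolynomial

/-- The local condition depends only on the class modulo `p ^ 2`. -/
theorem loc : LOC := by
  intro m d p hp a b hab h
  rcases h with h | ⟨h2, h⟩
  · left
    have hq : (((p : ℤ)) ^ 2) ∈ Ideal.span {(p : ℤ)} ^ 2 :=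
      Ideal.pow_mem_pow (Ideal.mem_span_singleton_self _) 2
    refine reg_congr hq (form_sub_mem fun α => ?_) h
    rw [← dvd_neg, neg_sub]
    exact hab α
  · right
    refine ⟨h2, fun k _ _ => ?_⟩
    have e : (fun α => ((b α : ℤ) : k)) = fun α => ((a α : ℤ) : k) := by
      funext α
      have h3 : (p : ℤ) ∣ a α - b α := (dvd_pow_self _ two_ne_zero).trans (hab α)
      have h4 := (CharP.intCast_eq_zero_iff k p (a α - b α)).2 h3
      rw [Int.cast_sub, sub_eq_zero] at h4
      exact h4.symm
    rw [e]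
    exact h k

/-- Smooth over `ℚ`, then smooth over every field of characteristic zero. -/
lemma smooth_of_rat {m : ℕ} {G : MvPolynomial (Fin m) ℤ}
    (hG : IsSmooth (map (algebraMap ℤ ℚ) G)) {K : Type} [Field K] (φ : ℤ →+* K)
    (hφ : Function.Injective φ) : IsSmooth (map φ G) := by
  obtain ⟨D, hD, hE⟩ := clear hG
  intro i
  obtain ⟨E, hE⟩ := hE i
  refine ⟨E, ?_⟩
  have h3 := Ideal.mem_map_of_mem (map φ) hE
  rw [JG_map, map_mul, map_C, map_pow, map_X] at h3
  have h4 : φ D ≠ 0 := fun h => hD (hφ (by rw [h, map_zero]))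
  have h5 := Ideal.mul_mem_left _ (C (φ D)⁻¹) h3
  rw [← mul_assoc, ← C_mul, inv_mul_cancel₀ h4, C_1, one_mul] at h5
  exact h5

/-- The local conditions and smoothness give a good form. -/
theorem good2 : GOOD2 := by
  intro m d hm hd a hsm hloc
  have hsm' : IsSmooth (map (algebraMap ℤ ℚ) (form a)) := by
    rw [map_form]; exact hsm
  refine ⟨smooth_of_rat hsm' _ (Int.castRingHom ℚ).injective_int, fun P hP hP0 => ?_⟩
  obtain ⟨p, hp, rfl⟩ := prime_ideal hP hP0
  rcases hloc p hp with h | ⟨hp2, h⟩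
  · exact Or.inl h
  · have hnb : ∀ (k : Type) [Field k] (ψ : ℤ →+* k), RingHom.ker ψ = Ideal.span {(p : ℤ)} →
        ¬ Bad (map ψ (form a)) := by
      intro k _ ψ hψ hbad
      have hch : CharP k p := ⟨fun x => by
        rw [← Int.natCast_dvd_natCast, ← Ideal.mem_span_singleton, ← hψ, RingHom.mem_ker,
          map_natCast]⟩
      refine h k ?_
      have e : (fun α => ψ (a α)) = fun α => ((a α : ℤ) : k) := by
        funext α
        exact eq_intCast ψ _
      rw [map_form, e] at hbad
      exact hbad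
    by_cases h' : ∀ (k : Type) [Field k] (ψ : ℤ →+* k) (x : Fin m → k),
        RingHom.ker ψ = Ideal.span {(p : ℤ)} → Sing (map ψ (form a)) x → x = 0
    · left
      exact reg_of_smooth (form_hom a) h'
    · right
      push Not at h'
      obtain ⟨k, hk, ψ, x, hψ, hx, hx0⟩ := h'
      refine ⟨?_, ?_⟩
      · intro h4
        rw [Ideal.mem_span_singleton] at h4
        have h5 : p ∣ 2 := Int.natCast_dvd_natCast.1 (by exact_mod_cast h4)
        exact hp2 ((Nat.prime_dvd_prime_iff_eq hp Nat.prime_two).1 h5)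
      · have hfin : Finite (ℤ ⧸ Ideal.span {(p : ℤ)}) := by
          have : NeZero p := ⟨hp.ne_zero⟩
          exact Finite.of_equiv (ZMod p) (Int.quotientSpanNatEquivZMod p).symm.toEquiv
        exact hensel ℤ (Ideal.span {(p : ℤ)}) hP0 hfin m d (by omega) (by omega) (form a)
          (form_hom a)
          (smooth_of_rat hsm' _ (IsFractionRing.injective ℤ (FractionRing ℤ)))
          ⟨hnb, k, hk, ψ, x, hψ, hx0, hx⟩

lemma card_filter_le' {α : Type} (s : Finset α) (P Q : α → Prop) [DecidablePred P]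
    [DecidablePred Q] (h : ∀ a ∈ s, P a → Q a) :
    ((s.filter P).card : ℝ) ≤ ((s.filter Q).card : ℝ) := by
  exact_mod_cast Finset.card_le_card fun a ha => by
    rw [Finset.mem_filter] at ha ⊢
    exact ⟨ha.1, h a ha.1 ha.2⟩

/-- The forms which violate the local condition at some large prime are rare. -/
theorem tail : TAIL := by
  classical
  intro m d hm hd
  obtain ⟨s, M₁, hs, hcod⟩ := codim m d (by omega) hd
  obtain ⟨C₀, M₀, hM₀, hsv⟩ := sieve (Mon m d) s hs
  refine ⟨|C₀|, M₀ + M₁ + 2, by omega, fun M hM => ?_⟩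
  have h1 := hsv M (by omega) 1 one_pos
    (fun p hp h => absurd (Nat.dvd_one.1 h) hp.one_lt.ne') (fun _ => 0)
  filter_upwards [h1] with B hB
  have hMpos : (0 : ℝ) < M := by
    have : 0 < M := by omega
    exact_mod_cast this
  have hbox : (B : ℝ) ^ Fintype.card (Mon m d) ≤ ((box (Mon m d) B).card : ℝ) := by
    have h2 := count_class (Mon m d) 1 B one_pos (by omega) (fun _ => 0)
    rw [Nat.cast_one, div_one] at h2
    refine h2.trans ?_
    exact_mod_cast Finset.card_le_card (Finset.filter_subset _ _)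
  have h3 : (B : ℝ) / ((1 : ℕ) : ℝ) = B := by rw [Nat.cast_one, div_one]
  rw [h3] at hB
  refine (card_filter_le' _ _ _ fun a _ ha => ?_).trans (hB.trans ?_)
  · obtain ⟨p, hp, hMp, hlg⟩ := ha
    refine ⟨fun v => by simp, p, hp, hMp, ?_⟩
    unfold LocalGood at hlg
    push Not at hlg
    obtain ⟨k, hk, hch, hbad⟩ := hlg.2 (by omega)
    exact hcod p hp (by omega) k a hbad
  · calc C₀ / M * (B : ℝ) ^ Fintype.card (Mon m d)
        ≤ |C₀| / M * (B : ℝ) ^ Fintype.card (Mon m d) := by
          refine mul_le_mul_of_nonneg_right ?_ (by positivity)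
          exact div_le_div_of_nonneg_right (le_abs_self _) hMpos.le
      _ ≤ |C₀| / M * ((box (Mon m d) B).card : ℝ) :=
          mul_le_mul_of_nonneg_left hbox (by positivity)

end Pool.Agent.K9h37.PP
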