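import Pool.Agent.K9h37.TN.Ref

/-! The fan of the repeated blowing up of a section. -/

set_option autoImplicit false
set_option linter.unusedVariables false
set_option linter.unusedSectionVars false

namespace Pool.Agent.K9h37.PP

open Pool.Agent.K9h37.TN

variable {ι : Type} [Fintype ι] [DecidableEq ι]

/-- The rays. -/
def nR (s : ι) (E : ℕ) : ι ⊕ Fin (E + 1) → Lat ι
  | .inl i => (Pi.single i 1, 0)
  | .inr j => (fun i => if i = s then 0 else ((j : ℕ) : ℤ), 1)

/-- The cones. -/
abbrev NT (s : ι) (E : ℕ) : Type := {t : ι // t ≠ s} ⊕ (Fin E × {i : ι // i ≠ s}) ⊕ Unit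

/-- The rays of the cones. -/
def nB (s : ι) (E : ℕ) : NT s E → ι ⊕ Fin (E + 1) → Bool
  | .inl t, .inl l => decide (l ≠ t)
  | .inl _, .inr j => decide (j = 0)
  | .inr (.inl q), .inl l => decide (l ≠ q.2 ∧ l ≠ s)
  | .inr (.inl q), .inr j => decide (j = q.1.castSucc ∨ j = q.1.succ)
  | .inr (.inr _), .inl l => decide (l ≠ s)
  | .inr (.inr _), .inr j => decide (j = Fin.last E)

/-- The dual bases. -/
def nY (s : ι) (E : ℕ) : NT s E → ι ⊕ Fin (E + 1) → Lat ι
  | .inl t, .inl l => (Pi.single l 1 - Pi.single (t : ι) 1, 0)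
  | .inl _, .inr _ => (0, 1)
  | .inr (.inl q), .inl l => (Pi.single l 1 - Pi.single (q.2 : ι) 1, 0)
  | .inr (.inl q), .inr j => if j = q.1.castSucc then
      (Pi.single s 1 - Pi.single (q.2 : ι) 1, ((q.1 : ℕ) : ℤ) + 1) else
      (Pi.single (q.2 : ι) 1 - Pi.single s 1, -((q.1 : ℕ) : ℤ))
  | .inr (.inr _), .inl l => (Pi.single l 1 - Pi.single s 1, -(E : ℤ))
  | .inr (.inr _), .inr _ => (0, 1)

/-- The affine chart of the projective space. -/
def nS (s : ι) (E : ℕ) : NT s E → ι
  | .inl t => t
  | .inr _ => s

/-- The vertices. -/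
def nH (s : ι) (E : ℕ) : NT s E → Lat ι
  | .inl t => (Pi.single (t : ι) (2 * (1 + E : ℤ)), 0)
  | .inr (.inl q) => (Pi.single s (2 * (1 + ((q.1 : ℕ) : ℤ))) +
      Pi.single (q.2 : ι) (2 * ((E : ℤ) - ((q.1 : ℕ) : ℤ))),
      ((q.1 : ℕ) : ℤ) * (((q.1 : ℕ) : ℤ) + 1))
  | .inr (.inr _) => (Pi.single s (2 * (1 + E : ℤ)), (E : ℤ) * (E + 1))

/-- The support function. -/
def nφ (E : ℕ) : ι ⊕ Fin (E + 1) → ℤ
  | .inl _ => 0
  | .inr j => ((j : ℕ) : ℤ) * (((j : ℕ) : ℤ) + 1) + 2 * ((E : ℤ) - ((j : ℕ) : ℤ)) * ((j : ℕ) : ℤ)

theorem pr_inl (s : ι) (E : ℕ) (i : ι) (m : Lat ι) : pr (nR s E (.inl i)) m = m.1 i := by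
  simp [pr, nR, Pi.single_apply]

theorem sum_ite_s (s : ι) (c : ℤ) (a : ι → ℤ) :
    ∑ i, (if i = s then 0 else c) * a i = c * (∑ i, a i - a s) := by
  have h1 : ∀ i, (if i = s then 0 else c) * a i = c * a i - (if i = s then c * a i else 0) := by
    intro i
    split_ifs <;> ring
  rw [Finset.sum_congr rfl fun i _ => h1 i, Finset.sum_sub_distrib, ← Finset.mul_sum,
    Finset.sum_ite_eq', if_pos (Finset.mem_univ _)]
  ring

theorem pr_inr (s : ι) (E : ℕ) (j : Fin (E + 1)) (m : Lat ι) :
    pr (nR s E (.inr j)) m = ((j : ℕ) : ℤ) * (deg m - m.1 s) + m.2 := by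
  simp only [pr, nR, deg]
  rw [sum_ite_s, one_mul]

theorem deg_sub_single (l i : ι) (h : ℤ) :
    deg ((Pi.single l 1 - Pi.single i 1, h) : Lat ι) = 0 := by
  simp [deg, Finset.sum_sub_distrib, Pi.single_apply]

theorem mem_filter_nB {s : ι} {E : ℕ} {t : NT s E} {l : ι ⊕ Fin (E + 1)} :
    l ∈ Finset.univ.filter (fun l => nB s E t l = true) ↔ nB s E t l = true := by
  simp

theorem sum_nB {s : ι} {E : ℕ} (t : NT s E) (f : ι ⊕ Fin (E + 1) → Lat ι) :
    ∑ l ∈ Finset.univ.filter (fun l => nB s E t l = true), f l =
      ∑ l : ι, (if nB s E t (.inl l) = true then f (.inl l) else 0) +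
      ∑ j : Fin (E + 1), (if nB s E t (.inr j) = true then f (.inr j) else 0) := by
  rw [Finset.sum_filter, Fintype.sum_sum_type]

theorem sum_two {J : Type} [Fintype J] [DecidableEq J] (a b : J) (hab : a ≠ b) (f : J → Lat ι) :
    ∑ j, (if j = a ∨ j = b then f j else 0) = f a + f b := by
  rw [← Finset.sum_filter]
  have h : Finset.univ.filter (fun j => j = a ∨ j = b) = {a, b} := by
    ext j
    simp
  rw [h, Finset.sum_pair hab]

theorem sum_single_sub (a : ι → ℤ) (t x : ι) :
    ∑ l, a l * ((Pi.single l 1 : ι → ℤ) x - (Pi.single t 1 : ι → ℤ) x) =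
      a x - (∑ l, a l) * (Pi.single t 1 : ι → ℤ) x := by
  simp only [mul_sub, Finset.sum_sub_distrib, ← Finset.sum_mul]
  congr 1
  simp [Pi.single_apply]

/-- The fan of the chain of blowups. -/
def Fan.node (s : ι) (E : ℕ) (hne : ∃ i : ι, i ≠ s) : Fan ι where
  Λ := ι ⊕ Fin (E + 1)
  T := NT s E
  r := nR s E
  S := fun t => Finset.univ.filter (fun l => nB s E t l = true)
  y := nY s E
  s := nS s E
  H := nH s E
  φ := nφ E
  D := 2 * (1 + E : ℤ)
  w0 := by
    rintro (l | j) i
    · simp only [nR, Pi.single_apply]
      split_ifs <;> simp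
    · simp only [nR]
      split_ifs <;> simp
  N0 := by
    rintro (l | j) <;> simp [nR]
  ws := by
    rintro (t | q | u) (l | j) hl
    all_goals rw [mem_filter_nB] at hl
    · have : l ≠ t := by simpa [nB] using hl
      simp [nR, nS, this]
    · have : j = 0 := by simpa [nB] using hl
      subst this
      simp [nR, nS]
    · have : l ≠ q.2 ∧ l ≠ s := by simpa [nB] using hl
      simp [nR, nS, this.2]
    · simp [nR, nS]
    · have : l ≠ s := by simpa [nB] using hl
      simp [nR, nS, this]
    · simp [nR, nS]
  degy := by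
    rintro (t | q | u) (l | j) hl
    · exact deg_sub_single _ _ _
    · simp [nY, deg]
    · exact deg_sub_single _ _ _
    · simp only [nY]
      split_ifs
      · exact deg_sub_single _ _ _
      · exact deg_sub_single _ _ _
    · exact deg_sub_single _ _ _
    · simp [nY, deg]
  dual := by
    rintro (t | q | u) l hl l' hl'
    all_goals rw [mem_filter_nB] at hl hl'
    · rcases l with l | j <;> rcases l' with l' | j'
      · have h2 : l' ≠ t := by simpa [nB] using hl'
        rw [pr_inl]
        simp only [nY, Pi.sub_apply, Pi.single_apply, Sum.inl.injEq]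
        rw [if_neg h2, sub_zero]
      · have h2 : j' = 0 := by simpa [nB] using hl'
        subst h2
        rw [pr_inr]
        simp [nY]
      · rw [pr_inl]
        simp [nY]
      · have h1 : j = 0 := by simpa [nB] using hl
        have h2 : j' = 0 := by simpa [nB] using hl'
        subst h1 h2
        rw [pr_inr]
        simp [nY]
    · obtain ⟨j₀, i, hi⟩ := q
      rcases l with l | j <;> rcases l' with l' | j'
      · have h1 : l ≠ i ∧ l ≠ s := by simpa [nB] using hl
        have h2 : l' ≠ i ∧ l' ≠ s := by simpa [nB] using hl'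
        rw [pr_inl]
        simp only [nY, Pi.sub_apply, Pi.single_apply, Sum.inl.injEq]
        rw [if_neg h2.1, sub_zero]
      · have h1 : l ≠ i ∧ l ≠ s := by simpa [nB] using hl
        rw [pr_inr]
        simp only [nY]
        rw [deg_sub_single]
        simp [Ne.symm h1.2, Ne.symm hi]
      · have h2 : l' ≠ i ∧ l' ≠ s := by simpa [nB] using hl'
        rw [pr_inl]
        simp only [nY]
        split_ifs <;> simp [h2.1, h2.2] at *
      · have h1 : j = j₀.castSucc ∨ j = j₀.succ := by simpa [nB] using hl
        have h2 : j' = j₀.castSucc ∨ j' = j₀.succ := by simpa [nB] using hl'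
        have hne' : j₀.castSucc ≠ j₀.succ := (Fin.castSucc_lt_succ).ne
        have hs' : s ≠ i := Ne.symm hi
        rw [pr_inr]
        simp only [nY, Sum.inr.injEq]
        rcases h1 with rfl | rfl <;> rcases h2 with rfl | rfl
        · rw [if_pos rfl, if_pos rfl, deg_sub_single]
          simp [hs']
        · rw [if_pos rfl, if_neg hne'.symm, deg_sub_single]
          simp [hs']
        · rw [if_neg hne'.symm, if_neg hne', deg_sub_single]
          simp [hs']
        · rw [if_neg hne'.symm, if_pos rfl, deg_sub_single]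
          simp [hs']
    · rcases l with l | j <;> rcases l' with l' | j'
      · have h2 : l' ≠ s := by simpa [nB] using hl'
        rw [pr_inl]
        simp only [nY, Pi.sub_apply, Pi.single_apply, Sum.inl.injEq]
        rw [if_neg h2, sub_zero]
      · have h1 : l ≠ s := by simpa [nB] using hl
        have h2 : j' = Fin.last E := by simpa [nB] using hl'
        subst h2
        rw [pr_inr]
        simp only [nY]
        rw [deg_sub_single]
        simp [Ne.symm h1]
      · rw [pr_inl]
        simp [nY]
      · have h1 : j = Fin.last E := by simpa [nB] using hl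
        have h2 : j' = Fin.last E := by simpa [nB] using hl'
        subst h1 h2
        rw [pr_inr]
        simp [nY, deg]
  exp := by
    rintro (t | q | u) m hm
    · rw [sum_nB]
      have hm' : ∑ i, m.1 i = 0 := hm
      simp only [nB, nY, pr_inl, pr_inr, hm, decide_eq_true_eq]
      rw [Finset.sum_ite_eq' Finset.univ (0 : Fin (E + 1)), if_pos (Finset.mem_univ _)]
      refine Prod.ext ?_ ?_
      · ext x
        have h1 : ∀ l, (if l ≠ (t : ι) then m.1 l • ((Pi.single l 1 - Pi.single (t : ι) 1, 0) :
            Lat ι) else 0).1 x = m.1 l * ((Pi.single l 1 : ι → ℤ) x -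
              (Pi.single (t : ι) 1 : ι → ℤ) x) := by
          intro l
          split_ifs with h
          · simp
          · have : l = t := not_not.1 h
            subst this
            simp
        simp only [Prod.fst_add, Prod.fst_sum, Pi.add_apply, Finset.sum_apply, h1]
        rw [sum_single_sub, hm']
        simp only [zero_mul, sub_zero,
          Prod.smul_fst, Pi.smul_apply, smul_eq_mul, Pi.zero_apply, mul_zero, add_zero]
      · have h1 : ∀ l, (if l ≠ (t : ι) then m.1 l • ((Pi.single l 1 - Pi.single (t : ι) 1, 0) :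
            Lat ι) else 0).2 = 0 := by
          intro l
          split_ifs with h <;> simp
        simp only [Prod.snd_add, Prod.snd_sum, h1]
        simp
    · obtain ⟨j₀, i, hi⟩ := q
      have hne' : j₀.castSucc ≠ j₀.succ := (Fin.castSucc_lt_succ).ne
      rw [sum_nB]
      have hm' : ∑ i, m.1 i = 0 := hm
      simp only [nB, nY, pr_inl, decide_eq_true_eq]
      rw [sum_two _ _ hne']
      simp only [if_true, if_neg hne'.symm, pr_inr, hm, Fin.val_castSucc, Fin.val_succ]
      have hs' : s ≠ i := Ne.symm hi
      have hsum : ∀ (f : ι → ℤ), ∑ l, (if l ≠ i ∧ l ≠ s then f l else 0) =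
          ∑ l, f l - f i - f s := by
        intro f
        have h1 : ∀ l, (if l ≠ i ∧ l ≠ s then f l else 0) =
            f l - (if l = i then f l else 0) - (if l = s then f l else 0) := by
          intro l
          by_cases h1 : l = i
          · subst h1
            rw [if_neg (fun h => h.1 rfl), if_pos rfl, if_neg hi]
            ring
          · by_cases h2 : l = s
            · subst h2
              rw [if_neg (fun h => h.2 rfl), if_pos rfl, if_neg h1]
              ring
            · rw [if_pos ⟨h1, h2⟩, if_neg h1, if_neg h2]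
              ring
        rw [Finset.sum_congr rfl fun l _ => h1 l, Finset.sum_sub_distrib, Finset.sum_sub_distrib,
          Finset.sum_ite_eq', Finset.sum_ite_eq', if_pos (Finset.mem_univ _),
          if_pos (Finset.mem_univ _)]
      refine Prod.ext ?_ ?_
      · ext x
        have h1 : ∀ l, (if l ≠ i ∧ l ≠ s then m.1 l • ((Pi.single l 1 - Pi.single i 1, 0) :
            Lat ι) else 0).1 x = (if l ≠ i ∧ l ≠ s then m.1 l * ((Pi.single l 1 : ι → ℤ) x -
              (Pi.single i 1 : ι → ℤ) x) else 0) := by
          intro l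
          split_ifs with h
          · simp
          · simp
        simp only [Prod.fst_add, Prod.fst_sum, Pi.add_apply, Finset.sum_apply, h1]
        rw [hsum, sum_single_sub, hm']
        simp only [zero_mul, sub_zero,
          Pi.single_apply, mul_ite, mul_one, mul_zero,
          Prod.smul_fst, Pi.smul_apply, smul_eq_mul, Pi.sub_apply]
        by_cases hx1 : x = i
        · subst hx1
          simp only [if_true, if_neg hi]
          push_cast
          ring
        · by_cases hx2 : x = s
          · subst hx2
            simp only [if_true, if_neg hs']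
            push_cast
            ring
          · simp only [if_neg hx1, if_neg hx2]
            ring
      · have h1 : ∀ l, (if l ≠ i ∧ l ≠ s then m.1 l • ((Pi.single l 1 - Pi.single i 1, 0) :
            Lat ι) else 0).2 = 0 := by
          intro l
          split_ifs with h <;> simp
        simp only [Prod.snd_add, Prod.snd_sum, h1]
        simp only [Prod.smul_snd, smul_eq_mul, Finset.sum_const_zero]
        push_cast
        ring
    · rw [sum_nB]
      have hm' : ∑ i, m.1 i = 0 := hm
      simp only [nB, nY, pr_inl, decide_eq_true_eq]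
      rw [Finset.sum_ite_eq' Finset.univ (Fin.last E), if_pos (Finset.mem_univ _), pr_inr, hm]
      have hsum : ∀ (f : ι → ℤ), ∑ l, (if l ≠ s then f l else 0) = ∑ l, f l - f s := by
        intro f
        have h1 : ∀ l, (if l ≠ s then f l else 0) = f l - (if l = s then f l else 0) := by
          intro l
          by_cases h2 : l = s
          · rw [if_neg (fun h => h h2), if_pos h2]
            ring
          · rw [if_pos h2, if_neg h2]
            ring
        rw [Finset.sum_congr rfl fun l _ => h1 l, Finset.sum_sub_distrib,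
          Finset.sum_ite_eq', if_pos (Finset.mem_univ _)]
      refine Prod.ext ?_ ?_
      · ext x
        have h1 : ∀ l, (if l ≠ s then m.1 l • ((Pi.single l 1 - Pi.single s 1, -(E : ℤ)) :
            Lat ι) else 0).1 x = (if l ≠ s then m.1 l * ((Pi.single l 1 : ι → ℤ) x -
              (Pi.single s 1 : ι → ℤ) x) else 0) := by
          intro l
          split_ifs with h
          · simp
          · simp
        simp only [Prod.fst_add, Prod.fst_sum, Pi.add_apply, Finset.sum_apply, h1]
        rw [hsum, sum_single_sub, hm']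
        simp only [zero_mul, sub_zero,
          Pi.single_apply, mul_ite, mul_one, mul_zero,
          Prod.smul_fst, Pi.smul_apply, smul_eq_mul, Pi.zero_apply, add_zero]
        by_cases hx2 : x = s
        · subst hx2
          simp
        · simp only [if_neg hx2]
          ring
      · have h1 : ∀ l, (if l ≠ s then m.1 l • ((Pi.single l 1 - Pi.single s 1, -(E : ℤ)) :
            Lat ι) else 0).2 = (if l ≠ s then m.1 l * (-(E : ℤ)) else 0) := by
          intro l
          split_ifs with h <;> simp
        simp only [Prod.snd_add, Prod.snd_sum, h1]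
        rw [hsum, ← Finset.sum_mul, hm']
        simp only [Prod.smul_snd, smul_eq_mul, Fin.val_last]
        ring
  degH := by
    rintro (t | q | u)
    · simp [nH, deg]
    · simp only [nH, deg, Pi.add_apply, Finset.sum_add_distrib]
      simp
      ring
    · simp [nH, deg]
  Dpos := by omega
  Hin := by
    rintro (t | q | u) (l | j) hl
    all_goals rw [mem_filter_nB] at hl
    · have : l ≠ t := by simpa [nB] using hl
      rw [pr_inl]
      simp [nH, nφ, this]
    · have : j = 0 := by simpa [nB] using hl
      subst this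
      rw [pr_inr]
      simp [nH, nφ]
    · have : l ≠ q.2 ∧ l ≠ s := by simpa [nB] using hl
      rw [pr_inl]
      simp [nH, nφ, this]
    · have h1 : j = q.1.castSucc ∨ j = q.1.succ := by simpa [nB] using hl
      obtain ⟨j₀, i, hi⟩ := q
      have hs' : s ≠ i := Ne.symm hi
      have hd : deg (nH s E (.inr (.inl (j₀, ⟨i, hi⟩)))) = 2 * (1 + E : ℤ) := by
        simp only [nH, deg, Pi.add_apply, Finset.sum_add_distrib]
        simp
        ring
      rw [pr_inr, hd]
      simp only [nH, nφ, Pi.add_apply, Pi.single_eq_same, Pi.single_eq_of_ne hs']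
      rcases h1 with rfl | rfl
      · simp only [Fin.val_castSucc]
        ring
      · simp only [Fin.val_succ]
        push_cast
        ring
    · have : l ≠ s := by simpa [nB] using hl
      rw [pr_inl]
      simp [nH, nφ, this]
    · have h1 : j = Fin.last E := by simpa [nB] using hl
      subst h1
      rw [pr_inr]
      simp [nH, nφ, deg]
  Hout := by
    rintro (t | q | u) (l | j) hl
    all_goals rw [mem_filter_nB] at hl
    · have : l = t := by simpa [nB] using hl
      subst this
      rw [pr_inl]
      simp [nH, nφ]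
      omega
    · have h0 : j ≠ 0 := by simpa [nB] using hl
      have h1 : 1 ≤ (j : ℕ) := by
        rcases Nat.eq_zero_or_pos (j : ℕ) with h | h
        · exact absurd (Fin.ext h) h0
        · exact h
      have hd : deg (nH s E (.inl t)) = 2 * (1 + E : ℤ) := by simp [nH, deg]
      rw [pr_inr, hd]
      simp only [nH, nφ, Pi.single_eq_of_ne (Ne.symm t.2)]
      have h2 : (1 : ℤ) ≤ ((j : ℕ) : ℤ) := by exact_mod_cast h1
      nlinarith
    · have h1 : l = q.2 ∨ l = s := by
        by_contra hcon
        push Not at hcon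
        exact hl (by simpa [nB] using hcon)
      obtain ⟨j₀, i, hi⟩ := q
      have hs' : s ≠ i := Ne.symm hi
      rw [pr_inl]
      simp only [nH, nφ, Pi.add_apply]
      have h2 : ((j₀ : ℕ) : ℤ) + 1 ≤ E := by
        have := j₀.2
        exact_mod_cast this
      rcases h1 with rfl | rfl
      · simp only [Pi.single_eq_same, Pi.single_eq_of_ne hi]
        omega
      · simp only [Pi.single_eq_same, Pi.single_eq_of_ne hs']
        have : (0 : ℤ) ≤ ((j₀ : ℕ) : ℤ) := by positivity
        omega
    · have h1 : j ≠ q.1.castSucc ∧ j ≠ q.1.succ := by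
        constructor
        · rintro rfl
          exact hl (by simp [nB])
        · rintro rfl
          exact hl (by simp [nB])
      obtain ⟨j₀, i, hi⟩ := q
      have hs' : s ≠ i := Ne.symm hi
      have hd : deg (nH s E (.inr (.inl (j₀, ⟨i, hi⟩)))) = 2 * (1 + E : ℤ) := by
        simp only [nH, deg, Pi.add_apply, Finset.sum_add_distrib]
        simp
        ring
      rw [pr_inr, hd]
      simp only [nH, nφ, Pi.add_apply, Pi.single_eq_same, Pi.single_eq_of_ne hs']
      have h2 : (j : ℕ) ≠ j₀ := fun h => h1.1 (Fin.ext (by simpa using h))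
      have h3 : (j : ℕ) ≠ j₀ + 1 := fun h => h1.2 (Fin.ext (by simpa using h))
      set J : ℤ := ((j : ℕ) : ℤ) with hJ
      set J₀ : ℤ := ((j₀ : ℕ) : ℤ) with hJ₀
      have h4 : J ≤ J₀ - 1 ∨ J₀ + 2 ≤ J := by omega
      rcases h4 with h4 | h4
      · nlinarith [mul_nonneg (show (0 : ℤ) ≤ J₀ - J - 1 by linarith)
          (show (0 : ℤ) ≤ J₀ - J by linarith)]
      · nlinarith [mul_nonneg (show (0 : ℤ) ≤ J - J₀ - 2 by linarith)
          (show (0 : ℤ) ≤ J - J₀ by linarith)]
    · have : l = s := by simpa [nB] using hl
      subst this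
      rw [pr_inl]
      simp [nH, nφ]
      omega
    · have h1 : j ≠ Fin.last E := by
        rintro rfl
        exact hl (by simp [nB])
      have hd : deg (nH s E (.inr (.inr u))) = 2 * (1 + E : ℤ) := by simp [nH, deg]
      rw [pr_inr, hd]
      simp only [nH, nφ, Pi.single_eq_same]
      have h2 : (j : ℕ) ≠ E := fun h => h1 (Fin.ext (by simpa using h))
      have h3 := j.2
      set J : ℤ := ((j : ℕ) : ℤ) with hJ
      have h4 : J + 1 ≤ E := by omega
      have h5 : 0 ≤ J := by positivity
      nlinarith [mul_nonneg (show (0 : ℤ) ≤ E - J - 1 by linarith)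
          (show (0 : ℤ) ≤ E - J by linarith)]
  φ0 := by
    rintro (l | j)
    · exact le_rfl
    · simp only [nφ]
      have h3 := j.2
      have h4 : ((j : ℕ) : ℤ) ≤ E := by omega
      have h5 : 0 ≤ ((j : ℕ) : ℤ) := by positivity
      have h6 := mul_nonneg (show (0 : ℤ) ≤ E - ((j : ℕ) : ℤ) by linarith) h5
      nlinarith
  φN := by
    rintro (l | j) hl
    · rfl
    · simp [nR] at hl
  hor := fun i => ⟨.inl i, rfl, fun m => pr_inl s E i m⟩
  ver := by
    refine ⟨.inr 0, fun m => ?_⟩
    rw [pr_inr]
    simp
  cov := by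
    intro P P0 Pa Pd P1
    obtain ⟨t, -, ht⟩ := exists_least P P0 Pa Pd Finset.univ ⟨s, Finset.mem_univ _⟩
    by_cases hts : t = s
    · subst hts
      obtain ⟨i₀, hi₀⟩ := hne
      obtain ⟨i, hi, hmin⟩ := exists_least P P0 Pa Pd (Finset.univ.erase t)
        ⟨i₀, Finset.mem_erase.2 ⟨hi₀, Finset.mem_univ _⟩⟩
      have hit : i ≠ t := Finset.ne_of_mem_erase hi
      have hmin' : ∀ l, l ≠ t → P (Pi.single l 1 - Pi.single i 1, 0) := fun l hl =>
        hmin l (Finset.mem_erase.2 ⟨hl, Finset.mem_univ _⟩)
      by_cases hall : ∀ j : ℕ, j ≤ E → P (Pi.single i 1 - Pi.single t 1, -(j : ℤ))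
      · refine ⟨.inr (.inr ()), ?_⟩
        rintro (l | j) hl
        · rw [mem_filter_nB] at hl
          have h1 : l ≠ t := by simpa [nB] using hl
          have h2 := Pa _ _ (hmin' l h1) (hall E le_rfl)
          have h3 : ((Pi.single l 1 - Pi.single i 1, 0) : Lat ι) +
              (Pi.single i 1 - Pi.single t 1, -(E : ℤ)) =
              (Pi.single l 1 - Pi.single t 1, -(E : ℤ)) := by
            refine Prod.ext ?_ ?_
            · simp
            · simp
          rw [h3] at h2
          exact h2
        · exact P1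
      · push Not at hall
        classical
        obtain ⟨j, ⟨hjE, hj⟩, hjmin⟩ : ∃ j : ℕ, (j ≤ E ∧
            ¬ P (Pi.single i 1 - Pi.single t 1, -(j : ℤ))) ∧ ∀ j' < j,
            P (Pi.single i 1 - Pi.single t 1, -(j' : ℤ)) := by
          refine ⟨Nat.find hall, Nat.find_spec hall, fun j' hj' => ?_⟩
          have h1 := Nat.find_min hall hj'
          by_contra h2
          exact h1 ⟨(le_of_lt hj').trans (Nat.find_spec hall).1, h2⟩
        have hj0 : j ≠ 0 := by
          rintro rfl
          apply hj
          have := ht i (Finset.mem_univ _)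
          simpa using this
        obtain ⟨j₀, rfl⟩ := Nat.exists_eq_succ_of_ne_zero hj0
        have hj₀ : j₀ < E := hjE
        have hP1 := hjmin j₀ (Nat.lt_succ_self _)
        have hP2 : P (Pi.single t 1 - Pi.single i 1, (j₀ : ℤ) + 1) := by
          have h1 := (Pd (Pi.single i 1 - Pi.single t 1, -((j₀.succ : ℕ) : ℤ))
            (deg_sub_single _ _ _)).resolve_left hj
          have h3 : -((Pi.single i 1 - Pi.single t 1, -((j₀.succ : ℕ) : ℤ)) : Lat ι) =
              (Pi.single t 1 - Pi.single i 1, (j₀ : ℤ) + 1) := by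
            refine Prod.ext ?_ ?_
            · simp
            · simp
          rw [h3] at h1
          exact h1
        refine ⟨.inr (.inl (⟨j₀, hj₀⟩, ⟨i, hit⟩)), ?_⟩
        rintro (l | j') hl
        · rw [mem_filter_nB] at hl
          have h1 : l ≠ i ∧ l ≠ t := by simpa [nB] using hl
          exact hmin' l h1.2
        · simp only [nY]
          split_ifs with h
          · exact hP2
          · exact hP1
    · refine ⟨.inl ⟨t, hts⟩, ?_⟩
      rintro (l | j) hl
      · exact ht l (Finset.mem_univ _)
      · exact P1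

end Pool.Agent.K9h37.PP
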