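import Pool.Agent.K9h37.PP.Chart
import Pool.Agent.K9h37.PP.Hess

/-! The strict transform of a node is regular in the charts of the chain of blowups. -/

set_option autoImplicit false
set_option linter.unusedVariables false
set_option linter.unusedSectionVars false

namespace Pool.Agent.K9h37.PP

open Pool.Agent.K9h37.TN MvPolynomial TrivSqZeroExt

/-- At a point where the strict transform is not regular its equation vanishes at all the lifts of
the point to the dual numbers (in the divisor `l₁`). -/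
theorem lift_zero {R ι k A : Type} [CommRing R] [IsDomain R] [IsDiscreteValuationRing R]
    [Fintype ι] [DecidableEq ι] [Field k] [CommRing A] (π : R) (hπ : Irreducible π)
    (A₀ : Finset (ι →₀ ℕ)) (ε : (ι →₀ ℕ) → R) (v : (ι →₀ ℕ) → ℕ) (Φ : Fan ι) (m₀ : Lat ι)
    (t : Φ.T) (pq : MvPolynomial {l // l ∈ Φ.S t} R →+* A) (hpq : Function.Surjective pq)
    (hker : RingHom.ker pq = Ideal.span {C π - ∏ l, X l ^ exm Φ t (0, 1) l, gt2 Φ t A₀ ε v m₀})
    (q : Ideal A) [q.IsPrime] (hreg : ¬ IsRegularLocalRing (Localization.AtPrime q))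
    (Ψ : MvPolynomial {l // l ∈ Φ.S t} R →+* k) (hΨ : ∀ w, Ψ w = 0 ↔ pq w ∈ q)
    (y : Φ.Λ → k) (hy : ∀ l (h : l ∈ Φ.S t), y l = Ψ (X ⟨l, h⟩)) (l₁ : Φ.Λ) (hl₁ : l₁ ∈ Φ.S t)
    (hN : 1 ≤ exm Φ t (0, 1) ⟨l₁, hl₁⟩) (hy₁ : y l₁ = 0) (η : Φ.Λ → k) (hη : η l₁ = 0) :
    ∑ a ∈ A₀, (inl (Ψ (C (ε a))) : DualNumber k) * ∏ l : {l // l ∈ Φ.S t},
      dz (y l.1) (η l.1) ^ (pr (Φ.r l.1) (μ v a - m₀)).toNat = 0 := by
  classical
  have hpg : pq (gt2 Φ t A₀ ε v m₀) = 0 := by
    rw [← RingHom.mem_ker, hker]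
    exact Ideal.subset_span (by simp)
  have h0 : Ψ (gt2 Φ t A₀ ε v m₀) = 0 := (hΨ _).2 (by rw [hpg]; exact q.zero_mem)
  have hd : ∀ l : {l // l ∈ Φ.S t}, η l.1 ≠ 0 → Ψ (pderiv l (gt2 Φ t A₀ ε v m₀)) = 0 := by
    intro l hl
    by_contra hcon
    have h1 : pq (pderiv l (gt2 Φ t A₀ ε v m₀)) ∉ q := fun h => hcon ((hΨ _).2 h)
    refine hreg (reg_A2 π hπ pq hpq _ _ hker q ⟨l₁, hl₁⟩ hN ?_ l ?_ h1)
    · rw [← hΨ, ← hy l₁ hl₁, hy₁]
    · rintro rfl
      exact hl hη
  have h1 := dual_zero Ψ (fun l => η l.1) _ h0 hd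
  rw [gt2, map_sum] at h1
  rw [← h1]
  refine Finset.sum_congr rfl fun a _ => ?_
  rw [map_mul, map_xm]
  congr 1
  · rw [coe_eval₂Hom, eval₂_C]
    rfl
  · refine Finset.prod_congr rfl fun l _ => ?_
    rw [coe_eval₂Hom, eval₂_X, hy l.1 l.2]
    rfl

theorem xm_mem {R L : Type} [CommRing R] [Fintype L] (c : L → ℕ) :
    (xm R c : MvPolynomial L R) ∈ (Ideal.span (Set.range X) : Ideal (MvPolynomial L R)) ^ (∑ l, c l) := by
  classical
  rw [xm, ← Finset.prod_pow_eq_pow_sum]
  exact Ideal.prod_mem_prod fun l _ => Ideal.pow_mem_pow (Ideal.subset_span (Set.mem_range_self l)) _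

theorem single_of {ι : Type} [Fintype ι] [DecidableEq ι] (a : ι →₀ ℕ) (d : ℕ) (ha : ∑ i, a i = d)
    (s : ι) (h : a s = d) : a = Finsupp.single s d := by
  have h1 : ∑ i ∈ Finset.univ.erase s, a i = 0 := by
    have h2 := Finset.sum_erase_add Finset.univ (fun i => a i) (Finset.mem_univ s)
    omega
  ext i
  by_cases hi : i = s
  · subst hi
    rw [h, Finsupp.single_eq_same]
  · rw [Finsupp.single_eq_of_ne hi]
    exact (Finset.sum_eq_zero_iff.1 h1) i (Finset.mem_erase.2 ⟨hi, Finset.mem_univ _⟩)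

theorem le_of_sum {ι : Type} [Fintype ι] [DecidableEq ι] (a : ι →₀ ℕ) (d : ℕ)
    (ha : ∑ i, a i = d) (s : ι) : a s ≤ d := by
  rw [← ha]
  exact Finset.single_le_sum (f := fun i => a i) (fun _ _ => Nat.zero_le _) (Finset.mem_univ s)

theorem prod_single {ι B : Type} [Fintype ι] [DecidableEq ι] [CommRing B] (s : ι) (d : ℕ)
    (f : ι → B) (hf : f s = 1) : ∏ l, f l ^ (Finsupp.single s d : ι →₀ ℕ) l = 1 := by
  refine Finset.prod_eq_one fun l _ => ?_
  by_cases hl : l = s
  · subst hl
    rw [hf, one_pow]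
  · rw [Finsupp.single_eq_of_ne hl, pow_zero]

section terms

variable {R k ι : Type} [CommRing R] [Field k] [Fintype ι] [DecidableEq ι]
  (π : R) (G : MvPolynomial ι R) (s : ι) (d κ e : ℕ) (hd : 2 ≤ d) (hκ1 : 1 ≤ κ)
  (hκe : 2 * e ≤ κ) (hκe' : κ ≤ 2 * e + 1) (hG : ∀ a ∈ G.support, ∑ i, a i = d)
  (ε : (ι →₀ ℕ) → R) (v : (ι →₀ ℕ) → ℕ) (hco : ∀ a ∈ G.support, G.coeff a = ε a * π ^ v a)
  (hv0 : ∀ a, a s = d → v a = κ) (hv1 : ∀ a, a s + 1 = d → v a = e + 1)
  (hv2 : ∀ a, a s + 2 ≤ d → v a = 0) (hs : Finsupp.single s d ∈ G.support)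
  (ψ : R →+* k) (hψ : ψ π = 0)

include hG hco hψ hv2 in
theorem coef2 (a : ι →₀ ℕ) (ha : a ∈ G.support) (h : a s + 2 ≤ d) : ψ (G.coeff a) = ψ (ε a) := by
  rw [hco a ha, hv2 a h, pow_zero, mul_one]

include hG hco hψ hv0 hv1 hκ1 in
theorem coef01 (a : ι →₀ ℕ) (ha : a ∈ G.support) (h : ¬ a s + 2 ≤ d) : ψ (G.coeff a) = 0 := by
  have h1 := le_of_sum a d (hG a ha) s
  have h2 : v a ≠ 0 := by
    rcases (show a s = d ∨ a s + 1 = d by omega) with h2 | h2
    · rw [hv0 a h2]; omega
    · rw [hv1 a h2]; omega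
  rw [hco a ha, map_mul, map_pow, hψ, zero_pow h2, mul_zero]

/-- The general shape of the sums. -/
theorem sum_shape (x : ι → DualNumber k) (c : DualNumber k)
    (T : (ι →₀ ℕ) → DualNumber k)
    (hT : ∀ a ∈ G.support, T a = (if a s + 2 = d then
      algebraMap k (DualNumber k) (ψ (G.coeff a)) * ∏ l, x l ^ a l else 0) +
      (if a = Finsupp.single s d then c else 0)) (hs : Finsupp.single s d ∈ G.support) :
    ∑ a ∈ G.support, T a = aeval x (QP ψ G s d) + c := by
  rw [Finset.sum_congr rfl hT, Finset.sum_add_distrib, ← aeval_QP, Finset.sum_ite_eq', if_pos hs]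

end terms

section charts

variable {R k ι : Type} [CommRing R] [Field k] [Fintype ι] [DecidableEq ι]
  (π : R) (G : MvPolynomial ι R) (s : ι) (hne : ∃ i, i ≠ s) (d κ e : ℕ) (hd : 2 ≤ d) (hκ1 : 1 ≤ κ)
  (hκe : 2 * e ≤ κ) (hκe' : κ ≤ 2 * e + 1) (hGd : G.IsHomogeneous d)
  (hG : ∀ a ∈ G.support, ∑ i, a i = d)
  (ε : (ι →₀ ℕ) → R) (v : (ι →₀ ℕ) → ℕ) (hco : ∀ a ∈ G.support, G.coeff a = ε a * π ^ v a)
  (hv0 : ∀ a, a s = d → v a = κ) (hv1 : ∀ a, a s + 1 = d → v a = e + 1)
  (hv2 : ∀ a, a s + 2 ≤ d → v a = 0) (hs : Finsupp.single s d ∈ G.support)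
  (ψ : R →+* k) (hψ : ψ π = 0)
  (honly : ∀ x : ι → k, eval x (map ψ G) = 0 → (∀ i, eval x (pderiv i (map ψ G)) = 0) →
    ∀ t, t ≠ s → x t = 0)
  (hnd : ∀ y : ι → k, y s = 0 → (∀ i, i ≠ s → ∑ j, eval (Pi.single s 1)
      (pderiv i (pderiv j (map ψ G))) * y j = 0) → y = 0)
  (h2 : ψ 2 ≠ 0) (hu : ψ (ε (Finsupp.single s d)) ≠ 0)
  (y : ι ⊕ Fin (e + 1) → k)

/-- The sum at a lift. -/
noncomputable def SS (ε : (ι →₀ ℕ) → R) (v : (ι →₀ ℕ) → ℕ) (ψ : R →+* k) (t : NT s e)
    (y η : ι ⊕ Fin (e + 1) → k) : DualNumber k :=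
  ∑ a ∈ G.support, (inl (ψ (ε a)) : DualNumber k) *
    ∏ l : {l // l ∈ (Fan.node s e hne).S t}, dz (y l.1) (η l.1) ^
      (pr ((Fan.node s e hne).r l.1) (μ v a - nM s e d t)).toNat

theorem inl_alg (c : k) : (inl c : DualNumber k) = algebraMap k (DualNumber k) c := rfl

include hG hco hψ hGd honly in
theorem chart_T1 (t : {t : ι // t ≠ s}) (hy0 : y (.inr 0) = 0)
    (key : ∀ η : ι ⊕ Fin (e + 1) → k, η (.inr 0) = 0 →
      SS G s hne d e ε v ψ (.inl t) y η = 0) : False := by
  classical
  have hF := hGd.map ψ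
  let x : ι → k := fun l => if l = (t : ι) then 1 else y (.inl l)
  have h1 := eval_of_dual x (map ψ G) (fun l => l ≠ t) (by
    intro η hη
    have hηt : η t = 0 := hη _ (by simp)
    let η' : ι ⊕ Fin (e + 1) → k := Sum.elim η (fun _ => 0)
    have h3 := key η' rfl
    rw [← h3, aeval_map', SS]
    refine Finset.sum_congr rfl fun a ha => ?_
    rw [prod_T1 s e hne (fun l => dz (y l) (η' l)) v a d (hG a ha) t]
    have h4 : dz (y (.inr 0)) (η' (.inr 0)) = 0 := by
      rw [hy0]
      simp [η', dz]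
    rw [h4, hco a ha, map_mul, map_pow, hψ, ← inl_alg]
    have h5 : (inl (ψ (ε a) * 0 ^ v a) : DualNumber k) = inl (ψ (ε a)) * 0 ^ v a := by
      rcases Nat.eq_zero_or_pos (v a) with h | h
      · rw [h, pow_zero, pow_zero, mul_one, mul_one]
      · rw [zero_pow (by omega), zero_pow (by omega), mul_zero, mul_zero, inl_zero]
    rw [h5]
    have h6 : ∏ l, dz (x l) (η l) ^ a l = ∏ l, (if l = (t : ι) then 1 else
        dz (y (.inl l)) (η' (.inl l))) ^ a l := by
      refine Finset.prod_congr rfl fun l _ => ?_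
      congr 1
      by_cases hl : l = t
      · simp only [x, hl, if_true, hηt]
        simp [dz]
      · simp only [x, hl, if_false, η', Sum.elim_inl]
    rw [h6]
    ring)
  obtain ⟨h2, h3⟩ := h1
  have hxt : x t = 1 := by simp [x]
  have h4 := euler_full (map ψ G) d hF x t (by rw [hxt]; exact one_ne_zero) h2 h3
  have h5 := honly x h2 (fun i => by
    by_cases hi : i = t
    · rw [hi]; exact h4
    · exact h3 i hi) t t.2
  rw [hxt] at h5
  exact one_ne_zero h5

theorem dz_one_zero : (dz 1 0 : DualNumber k) = 1 := by simp [dz]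

include hG hnd in
theorem QC (i : ι) (hi : i ≠ s) (z : ι → k) (hzs : z s = 1) (hzi : z i = 1)
    (h0 : eval z (QP ψ G s d) = 0)
    (h : ∀ l, l ≠ s → l ≠ i → eval z (pderiv l (QP ψ G s d)) = 0) : False := by
  have h1 := euler_QP ψ G s d hG z i hi h0 h (by rw [hzi]; exact one_ne_zero)
  have h2 := QP_zero ψ G s d hG hnd z hzs (fun l hl => by
    by_cases hli : l = i
    · rw [hli]; exact h1
    · exact h l hl hli) i hi
  rw [hzi] at h2
  exact one_ne_zero h2

/-- The affine coordinates in the chart of the direction `i`. -/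
noncomputable def zc (s i : ι) {B : Type} [One B] (f : ι → B) : ι → B :=
  fun l => if l = i ∨ l = s then 1 else f l

include hκe hG hco hv0 hv1 hv2 hs hψ in
theorem mid_B (j : Fin e) (i : {i : ι // i ≠ s}) (hy : y (.inr j.succ) = 0)
    (η : ι ⊕ Fin (e + 1) → k) (hη : η (.inr j.succ) = 0) :
    SS G s hne d e ε v ψ (.inr (.inl (j, i))) y η =
      aeval (zc s i (fun l => dz (y (.inl l)) (η (.inl l)))) (QP ψ G s d) +
      inl (ψ (ε (Finsupp.single s d))) *
        (dz (y (.inr j.castSucc)) (η (.inr j.castSucc)) ^ (κ - 2 * j) * 0 ^ (κ - 2 * j - 2)) := by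
  classical
  rw [SS]
  refine sum_shape G s d ψ _ _ _ ?_ hs
  intro a ha
  have hsum := hG a ha
  have hle := le_of_sum a d hsum s
  have hj := j.2
  rw [prod_mid s e hne (fun l => dz (y l) (η l)) v a d hsum j i]
  have h4 : dz (y (.inr j.succ)) (η (.inr j.succ)) = 0 := by
    rw [hy, hη]
    simp [dz]
  rw [h4]
  change _ * ((∏ l, zc s i (fun l => dz (y (.inl l)) (η (.inl l))) l ^ a l) * _) = _
  rcases (show a s = d ∨ a s + 1 = d ∨ a s + 2 = d ∨ a s + 3 ≤ d by omega) with h | h | h | h
  · have h5 := single_of a d hsum s h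
    subst h5
    rw [if_neg (by omega), if_pos rfl, zero_add, prod_single s d _ (by simp [zc]), one_mul,
      hv0 _ h, h]
    have e1 : (((j : ℕ) : ℤ) * ((d : ℤ) - 2 - (d : ℤ)) + (κ : ℤ)).toNat = κ - 2 * j := by omega
    have e2 : ((((j : ℕ) : ℤ) + 1) * ((d : ℤ) - 2 - (d : ℤ)) + (κ : ℤ)).toNat = κ - 2 * j - 2 := by
      omega
    rw [e1, e2]
  · have hne1 : a ≠ Finsupp.single s d := by
      rintro rfl
      rw [Finsupp.single_eq_same] at h
      omega
    have e2 : ((((j : ℕ) : ℤ) + 1) * ((d : ℤ) - 2 - (a s : ℤ)) + (v a : ℤ)).toNat ≠ 0 := by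
      rw [hv1 a h]
      have : (d : ℤ) - 2 - (a s : ℤ) = -1 := by omega
      rw [this]
      omega
    rw [if_neg (by omega), if_neg hne1, zero_pow e2, mul_zero, mul_zero, mul_zero, add_zero]
  · have hne1 : a ≠ Finsupp.single s d := by
      rintro rfl
      rw [Finsupp.single_eq_same] at h
      omega
    have e0 : (d : ℤ) - 2 - (a s : ℤ) = 0 := by omega
    have hva := hv2 a h.le
    rw [if_pos h, if_neg hne1, add_zero, e0, hva, mul_zero, mul_zero, Nat.cast_zero, add_zero,
      Int.toNat_zero, pow_zero, pow_zero, mul_one, mul_one,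
      coef2 π G s d hG ε v hco hv2 ψ hψ a ha h.le]
    rfl
  · have hne1 : a ≠ Finsupp.single s d := by
      rintro rfl
      rw [Finsupp.single_eq_same] at h
      omega
    have e2 : ((((j : ℕ) : ℤ) + 1) * ((d : ℤ) - 2 - (a s : ℤ)) + (v a : ℤ)).toNat ≠ 0 := by
      have h6 : 1 ≤ (d : ℤ) - 2 - (a s : ℤ) := by omega
      have h7 : 0 ≤ ((j : ℕ) : ℤ) := by positivity
      have h8 := mul_nonneg h7 (show (0 : ℤ) ≤ (d : ℤ) - 2 - (a s : ℤ) by omega)
      have h9 : (0 : ℤ) ≤ (v a : ℤ) := by positivity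
      have h10 : 1 ≤ (((j : ℕ) : ℤ) + 1) * ((d : ℤ) - 2 - (a s : ℤ)) + (v a : ℤ) := by nlinarith
      omega
    rw [if_neg (by omega), if_neg hne1, zero_pow e2, mul_zero, mul_zero, mul_zero, add_zero]

include hκe hG hco hv0 hv1 hv2 hs hψ in
theorem mid_A (j : Fin e) (i : {i : ι // i ≠ s}) (hj1 : 1 ≤ (j : ℕ))
    (hy : y (.inr j.castSucc) = 0)
    (η : ι ⊕ Fin (e + 1) → k) (hη : η (.inr j.castSucc) = 0) :
    SS G s hne d e ε v ψ (.inr (.inl (j, i))) y η =
      aeval (zc s i (fun l => dz (y (.inl l)) (η (.inl l)))) (QP ψ G s d) + 0 := by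
  classical
  rw [SS]
  refine sum_shape G s d ψ _ _ _ ?_ hs
  intro a ha
  have hsum := hG a ha
  have hle := le_of_sum a d hsum s
  have hj := j.2
  rw [prod_mid s e hne (fun l => dz (y l) (η l)) v a d hsum j i]
  have h4 : dz (y (.inr j.castSucc)) (η (.inr j.castSucc)) = 0 := by
    rw [hy, hη]
    simp [dz]
  rw [h4, ite_self, add_zero]
  change _ * ((∏ l, zc s i (fun l => dz (y (.inl l)) (η (.inl l))) l ^ a l) * _) = _
  rcases (show a s = d ∨ a s + 1 = d ∨ a s + 2 = d ∨ a s + 3 ≤ d by omega) with h | h | h | h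
  · have e2 : (((j : ℕ) : ℤ) * ((d : ℤ) - 2 - (a s : ℤ)) + (v a : ℤ)).toNat ≠ 0 := by
      rw [hv0 a h]
      have : (d : ℤ) - 2 - (a s : ℤ) = -2 := by omega
      rw [this]
      omega
    rw [if_neg (by omega), zero_pow e2, zero_mul, mul_zero, mul_zero]
  · have e2 : (((j : ℕ) : ℤ) * ((d : ℤ) - 2 - (a s : ℤ)) + (v a : ℤ)).toNat ≠ 0 := by
      rw [hv1 a h]
      have : (d : ℤ) - 2 - (a s : ℤ) = -1 := by omega
      rw [this]
      omega
    rw [if_neg (by omega), zero_pow e2, zero_mul, mul_zero, mul_zero]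
  · have e0 : (d : ℤ) - 2 - (a s : ℤ) = 0 := by omega
    have hva := hv2 a h.le
    rw [if_pos h, e0, hva, mul_zero, mul_zero, Nat.cast_zero, add_zero,
      Int.toNat_zero, pow_zero, pow_zero, mul_one, mul_one,
      coef2 π G s d hG ε v hco hv2 ψ hψ a ha h.le]
    rfl
  · have e2 : (((j : ℕ) : ℤ) * ((d : ℤ) - 2 - (a s : ℤ)) + (v a : ℤ)).toNat ≠ 0 := by
      have h6 : 1 ≤ (d : ℤ) - 2 - (a s : ℤ) := by omega
      have h7 : 1 ≤ ((j : ℕ) : ℤ) := by omega
      have h9 : (0 : ℤ) ≤ (v a : ℤ) := by positivity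
      have h10 : 1 ≤ ((j : ℕ) : ℤ) * ((d : ℤ) - 2 - (a s : ℤ)) + (v a : ℤ) := by nlinarith
      omega
    rw [if_neg (by omega), zero_pow e2, zero_mul, mul_zero, mul_zero]

include hG hco hv0 hv1 hv2 hκ1 hψ in
theorem mid_A0 (j : Fin e) (i : {i : ι // i ≠ s}) (hj0 : (j : ℕ) = 0)
    (hy : y (.inr j.castSucc) = 0)
    (η : ι ⊕ Fin (e + 1) → k) (hη : η (.inr j.castSucc) = 0) :
    dz (y (.inr j.succ)) (η (.inr j.succ)) ^ 2 *
      SS G s hne d e ε v ψ (.inr (.inl (j, i))) y η =
      aeval (fun l => (if l = s then 1 else dz (y (.inr j.succ)) (η (.inr j.succ))) *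
        zc s i (fun l => dz (y (.inl l)) (η (.inl l))) l) (map ψ G) := by
  classical
  rw [SS, aeval_map', Finset.mul_sum]
  refine Finset.sum_congr rfl fun a ha => ?_
  have hsum := hG a ha
  have hle := le_of_sum a d hsum s
  rw [prod_mid s e hne (fun l => dz (y l) (η l)) v a d hsum j i]
  have h4 : dz (y (.inr j.castSucc)) (η (.inr j.castSucc)) = 0 := by
    rw [hy, hη]
    simp [dz]
  rw [h4, hj0]
  change _ * (_ * ((∏ l, zc s i (fun l => dz (y (.inl l)) (η (.inl l))) l ^ a l) * _)) = _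
  set β := dz (y (.inr j.succ)) (η (.inr j.succ)) with hβ
  set P := ∏ l, zc s i (fun l => dz (y (.inl l)) (η (.inl l))) l ^ a l with hP
  have h5 : ∏ l, ((if l = s then 1 else β) * zc s i (fun l => dz (y (.inl l)) (η (.inl l))) l) ^ a l
      = β ^ (d - a s) * P := by
    simp only [mul_pow, Finset.prod_mul_distrib]
    congr 1
    have h6 : ∑ l ∈ Finset.univ.erase s, a l = d - a s := by
      have h7 := Finset.sum_erase_add Finset.univ (fun i => a i) (Finset.mem_univ s)
      omega
    rw [← h6, ← Finset.prod_pow_eq_pow_sum, ← Finset.prod_erase Finset.univ (a := s)]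
    · refine Finset.prod_congr rfl fun l hl => ?_
      rw [if_neg (Finset.ne_of_mem_erase hl)]
    · rw [if_pos rfl, one_pow]
  rw [h5]
  by_cases h : a s + 2 ≤ d
  · rw [coef2 π G s d hG ε v hco hv2 ψ hψ a ha h, hv2 a h]
    have e1 : (((0 : ℕ) : ℤ) * ((d : ℤ) - 2 - (a s : ℤ)) + ((0 : ℕ) : ℤ)).toNat = 0 := by simp
    have e2 : ((((0 : ℕ) : ℤ) + 1) * ((d : ℤ) - 2 - (a s : ℤ)) + ((0 : ℕ) : ℤ)).toNat =
        d - a s - 2 := by
      rw [Nat.cast_zero, zero_add, one_mul, add_zero]
      omega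
    rw [e1, e2, pow_zero, one_mul]
    have h6 : β ^ (d - a s) = β ^ 2 * β ^ (d - a s - 2) := by
      rw [← pow_add]
      congr 1
      omega
    rw [h6, ← inl_alg]
    ring
  · have hva : v a ≠ 0 := by
      rcases (show a s = d ∨ a s + 1 = d by omega) with h2 | h2
      · rw [hv0 a h2]; omega
      · rw [hv1 a h2]; omega
    rw [coef01 π G s d κ e hκ1 hG ε v hco hv0 hv1 ψ hψ a ha h, map_zero, zero_mul]
    have e1 : (((0 : ℕ) : ℤ) * ((d : ℤ) - 2 - (a s : ℤ)) + (v a : ℤ)).toNat ≠ 0 := by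
      rw [Nat.cast_zero, zero_mul, zero_add]
      omega
    rw [zero_pow e1, zero_mul, mul_zero, mul_zero, mul_zero]

theorem zc_dz (i : ι) (y : ι → k) (η : ι → k) (h1 : η i = 0) (h2 : η s = 0) :
    zc s i (fun l => dz (y l) (η l)) = fun l => dz (zc s i y l) (η l) := by
  funext l
  simp only [zc]
  split_ifs with h
  · rcases h with rfl | rfl
    · rw [h1, dz_one_zero]
    · rw [h2, dz_one_zero]
  · rfl

include hκ1 hκe hGd hG hco hv0 hv1 hv2 hs hψ honly hnd h2 hu in
theorem chart_mid (j : Fin e) (i : {i : ι // i ≠ s})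
    (hy0 : y (.inr j.castSucc) = 0 ∨ y (.inr j.succ) = 0)
    (key1 : y (.inr j.castSucc) = 0 → ∀ η : ι ⊕ Fin (e + 1) → k, η (.inr j.castSucc) = 0 →
      SS G s hne d e ε v ψ (.inr (.inl (j, i))) y η = 0)
    (key2 : y (.inr j.succ) = 0 → ∀ η : ι ⊕ Fin (e + 1) → k, η (.inr j.succ) = 0 →
      SS G s hne d e ε v ψ (.inr (.inl (j, i))) y η = 0) : False := by
  classical
  have hF := hGd.map ψ
  have hne' : j.castSucc ≠ j.succ := (Fin.castSucc_lt_succ).ne
  have hj := j.2
  set z : ι → k := zc s i (fun l => y (.inl l)) with hz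
  have hzs : z s = 1 := by simp [hz, zc]
  have hzi : z i = 1 := by simp [hz, zc]
  -- the conclusion from the vanishing at all lifts
  have fin : (∀ η : ι → k, η i = 0 → η s = 0 →
      aeval (fun l => dz (z l) (η l)) (QP ψ G s d) = 0) → False := by
    intro h
    obtain ⟨h3, h4⟩ := eval_of_dual z (QP ψ G s d) (fun l => l ≠ s ∧ l ≠ i) (by
      intro η hη
      exact h η (hη _ (by simp)) (hη _ (by simp)))
    exact QC G s d hG ψ hnd i i.2 z hzs hzi h3 (fun l h5 h6 => h4 l ⟨h5, h6⟩)
  by_cases hB : y (.inr j.succ) = 0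
  · have hkey := key2 hB
    by_cases hcase : κ - 2 * j - 2 = 0
    · have hκ : κ - 2 * (j : ℕ) = 2 := by omega
      -- the coordinate of the exceptional divisor
      have hcs : y (.inr j.castSucc) = 0 := by
        have h3 := hkey (Pi.single (.inr j.castSucc) 1) (by
          rw [Pi.single_eq_of_ne]
          intro h
          exact hne' (Sum.inr_injective h).symm)
        rw [mid_B π G s hne d κ e hκe hG ε v hco hv0 hv1 hv2 hs ψ hψ y j i hB _ (by
          rw [Pi.single_eq_of_ne]
          intro h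
          exact hne' (Sum.inr_injective h).symm), hcase, hκ, pow_zero, mul_one,
          Pi.single_eq_same] at h3
        have h4 : zc s i (fun l => dz (y (.inl l)) ((Pi.single (.inr j.castSucc) 1 :
            ι ⊕ Fin (e + 1) → k) (.inl l))) = fun l => dz (z l) 0 := by
          funext l
          simp only [zc, hz]
          split_ifs
          · rw [dz_one_zero]
          · rw [Pi.single_eq_of_ne]
            simp
        rw [h4, aeval_dual] at h3
        have h5 := congrArg snd h3
        simp [dz, pow_two] at h5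
        have h6 : ψ (ε (Finsupp.single s d)) * (ψ 2 * y (.inr j.castSucc)) = 0 := by
          rw [map_ofNat]
          rcases h5 with h5 | h5
          · rw [h5, zero_mul]
          · rw [two_mul, h5, mul_zero]
        rcases mul_eq_zero.1 h6 with h7 | h7
        · exact absurd h7 hu
        · exact (mul_eq_zero.1 h7).resolve_left h2
      apply fin
      intro η h3 h4
      have h5 := hkey (Sum.elim η (fun _ => 0)) rfl
      rw [mid_B π G s hne d κ e hκe hG ε v hco hv0 hv1 hv2 hs ψ hψ y j i hB _ rfl, hκ, hcs] at h5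
      simp only [Sum.elim_inl, Sum.elim_inr] at h5
      rw [zc_dz s i (fun l => y (.inl l)) η h3 h4] at h5
      have h6 : (dz 0 0 : DualNumber k) = 0 := by simp [dz]
      rw [h6] at h5
      simpa using h5
    · apply fin
      intro η h3 h4
      have h5 := hkey (Sum.elim η (fun _ => 0)) rfl
      rw [mid_B π G s hne d κ e hκe hG ε v hco hv0 hv1 hv2 hs ψ hψ y j i hB _ rfl,
        zero_pow hcase, mul_zero, mul_zero, add_zero] at h5
      simp only [Sum.elim_inl] at h5
      rw [zc_dz s i (fun l => y (.inl l)) η h3 h4] at h5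
      exact h5
  · have hA := hy0.resolve_right hB
    have hkey := key1 hA
    by_cases hj0 : (j : ℕ) = 0
    · -- points of the fibre outside of the vertex
      set b := y (.inr j.succ) with hb
      let x : ι → k := fun l => (if l = s then 1 else b) * z l
      have hxs : x s = 1 := by simp [x, hzs]
      have h3 := eval_of_dual x (map ψ G) (fun l => l ≠ s) (by
        intro η hη
        have hηs : η s = 0 := hη s (by simp)
        let η' : ι ⊕ Fin (e + 1) → k := Sum.elim
          (fun l => (η l - y (.inl l) * η i) / b) (fun j' => if j' = j.succ then η i else 0)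
        have h4 := hkey η' (by simp [η', hne'])
        have h5 := mid_A0 π G s hne d κ e hκ1 hG ε v hco hv0 hv1 hv2 ψ hψ y j i hj0 hA η'
          (by simp [η', hne'])
        rw [h4, mul_zero] at h5
        rw [h5]
        congr 2
        funext l
        have h6 : η' (.inr j.succ) = η i := by simp [η']
        rw [h6, ← hb]
        by_cases hls : l = s
        · subst hls
          simp only [x, hzs, if_true, mul_one, hηs, zc, or_true, dz_one_zero]
        · by_cases hli : l = i
          · subst hli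
            simp only [x, if_neg hls, hzi, mul_one, zc, true_or, if_true]
          · have h7 : z l = y (.inl l) := by simp [hz, zc, hls, hli]
            simp only [x, h7, zc, hls, hli, or_self, if_false, η', Sum.elim_inl]
            apply TrivSqZeroExt.ext
            · simp [dz]
            · simp only [dz, snd_mul, snd_add, snd_inl, snd_inr, zero_add, fst_add, fst_inl,
                fst_inr, add_zero, smul_eq_mul, MulOpposite.smul_eq_mul_unop,
                MulOpposite.unop_op]
              have hb0 : b ≠ 0 := hB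
              field_simp
              ring)
      have h4 := euler_full (map ψ G) d hF x s (by rw [hxs]; exact one_ne_zero) h3.1 h3.2
      have h5 := honly x h3.1 (fun l => by
        by_cases hl : l = s
        · rw [hl]; exact h4
        · exact h3.2 l hl) i i.2
      simp only [x, if_neg i.2, hzi, mul_one] at h5
      exact hB h5
    · apply fin
      intro η h3 h4
      have h5 := hkey (Sum.elim η (fun _ => 0)) rfl
      rw [mid_A π G s hne d κ e hκe hG ε v hco hv0 hv1 hv2 hs ψ hψ y j i (by omega) hA _ rfl,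
        add_zero] at h5
      simp only [Sum.elim_inl] at h5
      rw [zc_dz s i (fun l => y (.inl l)) η h3 h4] at h5
      exact h5

include hG hco hv0 hv1 hv2 hs hψ in
/-- The last chart, if at least one blowup has been made. -/
theorem fin_pos (u : Unit) (he : 1 ≤ e) (hy : y (.inr (Fin.last e)) = 0)
    (η : ι ⊕ Fin (e + 1) → k) (hη : η (.inr (Fin.last e)) = 0) :
    SS G s hne d e ε v ψ (.inr (.inr u)) y η =
      aeval (fun l => if l = s then 1 else dz (y (.inl l)) (η (.inl l))) (QP ψ G s d) +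
      inl (ψ (ε (Finsupp.single s d))) * 0 ^ (κ - 2 * e) := by
  classical
  rw [SS]
  refine sum_shape G s d ψ _ _ _ ?_ hs
  intro a ha
  have hsum := hG a ha
  have hle := le_of_sum a d hsum s
  rw [prod_fin s e hne (fun l => dz (y l) (η l)) v a d hsum u]
  have h4 : dz (y (.inr (Fin.last e))) (η (.inr (Fin.last e))) = 0 := by
    rw [hy, hη]
    simp [dz]
  rw [h4]
  rcases (show a s = d ∨ a s + 1 = d ∨ a s + 2 = d ∨ a s + 3 ≤ d by omega) with h | h | h | h
  · have h5 := single_of a d hsum s h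
    subst h5
    rw [if_neg (by omega), if_pos rfl, zero_add, prod_single s d _ (by simp), one_mul,
      hv0 _ h, h]
    have e1 : ((e : ℤ) * ((d : ℤ) - (d : ℤ)) + (κ : ℤ) - 2 * (e : ℤ)).toNat = κ - 2 * e := by
      rw [sub_self, mul_zero]
      omega
    rw [e1]
  · have hne1 : a ≠ Finsupp.single s d := by
      rintro rfl
      rw [Finsupp.single_eq_same] at h
      omega
    have e2 : ((e : ℤ) * ((d : ℤ) - (a s : ℤ)) + (v a : ℤ) - 2 * (e : ℤ)).toNat ≠ 0 := by
      rw [hv1 a h]
      have : (d : ℤ) - (a s : ℤ) = 1 := by omega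
      rw [this]
      push_cast
      omega
    rw [if_neg (by omega), if_neg hne1, zero_pow e2, mul_zero, mul_zero, add_zero]
  · have hne1 : a ≠ Finsupp.single s d := by
      rintro rfl
      rw [Finsupp.single_eq_same] at h
      omega
    have e0 : (d : ℤ) - (a s : ℤ) = 2 := by omega
    have hva := hv2 a h.le
    have e2 : ((e : ℤ) * 2 + ((0 : ℕ) : ℤ) - 2 * (e : ℤ)).toNat = 0 := by
      push_cast
      omega
    rw [if_pos h, if_neg hne1, add_zero, e0, hva, e2, pow_zero, mul_one,
      coef2 π G s d hG ε v hco hv2 ψ hψ a ha h.le]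
    rfl
  · have hne1 : a ≠ Finsupp.single s d := by
      rintro rfl
      rw [Finsupp.single_eq_same] at h
      omega
    have e2 : ((e : ℤ) * ((d : ℤ) - (a s : ℤ)) + (v a : ℤ) - 2 * (e : ℤ)).toNat ≠ 0 := by
      have h6 : 3 ≤ (d : ℤ) - (a s : ℤ) := by omega
      have h9 : (0 : ℤ) ≤ (v a : ℤ) := by positivity
      have h7 : (1 : ℤ) ≤ e := by omega
      have h10 : 1 ≤ (e : ℤ) * ((d : ℤ) - (a s : ℤ)) + (v a : ℤ) - 2 * (e : ℤ) := by nlinarith
      omega
    rw [if_neg (by omega), if_neg hne1, zero_pow e2, mul_zero, mul_zero, add_zero]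

include hG hco hv0 hv1 hv2 hψ hκ1 in
/-- The last chart, if no blowup has been made. -/
theorem fin_zero (u : Unit) (he : e = 0) (hy : y (.inr (Fin.last e)) = 0)
    (η : ι ⊕ Fin (e + 1) → k) (hη : η (.inr (Fin.last e)) = 0) :
    SS G s hne d e ε v ψ (.inr (.inr u)) y η =
      aeval (fun l => if l = s then 1 else dz (y (.inl l)) (η (.inl l))) (map ψ G) := by
  classical
  rw [SS, aeval_map']
  refine Finset.sum_congr rfl fun a ha => ?_
  have hsum := hG a ha
  have hle := le_of_sum a d hsum s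
  rw [prod_fin s e hne (fun l => dz (y l) (η l)) v a d hsum u]
  have h4 : dz (y (.inr (Fin.last e))) (η (.inr (Fin.last e))) = 0 := by
    rw [hy, hη]
    simp [dz]
  rw [h4]
  have e1 : ((e : ℤ) * ((d : ℤ) - (a s : ℤ)) + (v a : ℤ) - 2 * (e : ℤ)).toNat = v a := by
    rw [he]
    push_cast
    rw [zero_mul, zero_add]
    omega
  rw [e1]
  by_cases h : a s + 2 ≤ d
  · rw [coef2 π G s d hG ε v hco hv2 ψ hψ a ha h, hv2 a h, pow_zero, mul_one]
    rfl
  · have hva : v a ≠ 0 := by
      rcases (show a s = d ∨ a s + 1 = d by omega) with h2 | h2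
      · rw [hv0 a h2]; omega
      · rw [hv1 a h2]; omega
    rw [coef01 π G s d κ e hκ1 hG ε v hco hv0 hv1 ψ hψ a ha h, map_zero, zero_mul, zero_pow hva,
      mul_zero, mul_zero]

theorem if_dz (y : ι → k) (η : ι → k) (h2 : η s = 0) :
    (fun l => if l = s then (1 : DualNumber k) else dz (y l) (η l)) =
      fun l => dz (if l = s then 1 else y l) (η l) := by
  funext l
  split_ifs with h
  · rw [h, h2, dz_one_zero]
  · rfl

include hκ1 hκe hκe' hGd hG hco hv0 hv1 hv2 hs hψ honly hnd hu in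
theorem chart_fin (u : Unit) (hy0 : y (.inr (Fin.last e)) = 0)
    (key : ∀ η : ι ⊕ Fin (e + 1) → k, η (.inr (Fin.last e)) = 0 →
      SS G s hne d e ε v ψ (.inr (.inr u)) y η = 0) :
    κ = 2 * e + 1 ∧ ∀ l, l ≠ s → y (.inl l) = 0 := by
  classical
  have hF := hGd.map ψ
  set z : ι → k := fun l => if l = s then 1 else y (.inl l) with hz
  have hzs : z s = 1 := by simp [hz]
  by_cases he : e = 0
  · have h3 := eval_of_dual z (map ψ G) (fun l => l ≠ s) (by
      intro η hη
      have h4 := key (Sum.elim η (fun _ => 0)) rfl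
      rw [fin_zero π G s hne d κ e hκ1 hG ε v hco hv0 hv1 hv2 ψ hψ y u he hy0 _ rfl] at h4
      simp only [Sum.elim_inl] at h4
      rw [if_dz s (fun l => y (.inl l)) η (hη s (by simp))] at h4
      exact h4)
    have h4 := euler_full (map ψ G) d hF z s (by rw [hzs]; exact one_ne_zero) h3.1 h3.2
    have h5 := honly z h3.1 (fun l => by
      by_cases hl : l = s
      · rw [hl]; exact h4
      · exact h3.2 l hl)
    refine ⟨by omega, fun l hl => ?_⟩
    have h6 := h5 l hl
    simpa [hz, hl] using h6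
  · set c : k := ψ (ε (Finsupp.single s d)) * 0 ^ (κ - 2 * e) with hc
    have h3 := eval_of_dual z (QP ψ G s d + C c) (fun l => l ≠ s) (by
      intro η hη
      have h4 := key (Sum.elim η (fun _ => 0)) rfl
      rw [fin_pos π G s hne d κ e hG ε v hco hv0 hv1 hv2 hs ψ hψ y u (by omega) hy0 _ rfl] at h4
      simp only [Sum.elim_inl] at h4
      rw [if_dz s (fun l => y (.inl l)) η (hη s (by simp))] at h4
      rw [← h4, map_add, aeval_C, ← inl_alg, hc]
      congr 1
      rcases Nat.eq_zero_or_pos (κ - 2 * e) with h | h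
      · rw [h, pow_zero, pow_zero, mul_one, mul_one]
      · rw [zero_pow (by omega), zero_pow (by omega), mul_zero, mul_zero, inl_zero])
    have h4 := QP_zero ψ G s d hG hnd z hzs (fun i hi => by
      have h5 := h3.2 i hi
      rwa [map_add, pderiv_C, add_zero] at h5)
    have h5 : eval z (QP ψ G s d) = 0 := by
      rw [QP, map_sum]
      refine Finset.sum_eq_zero fun a ha => ?_
      obtain ⟨ha1, ha2⟩ := Finset.mem_filter.1 ha
      rw [eval_mono]
      have hsum := hG a ha1
      obtain ⟨l, hl, hal⟩ : ∃ l, l ≠ s ∧ a l ≠ 0 := by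
        by_contra hcon
        push Not at hcon
        have h6 : ∑ l ∈ Finset.univ.erase s, a l = 0 :=
          Finset.sum_eq_zero fun l hl => hcon l (Finset.ne_of_mem_erase hl)
        have h7 := Finset.sum_erase_add Finset.univ (fun i => a i) (Finset.mem_univ s)
        omega
      rw [Finset.prod_eq_zero (Finset.mem_univ l), mul_zero]
      rw [h4 l hl, zero_pow hal]
    refine ⟨?_, fun l hl => ?_⟩
    · have h6 := h3.1
      rw [map_add, h5, zero_add, eval_C, hc] at h6
      rcases mul_eq_zero.1 h6 with h7 | h7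
      · exact absurd h7 hu
      · by_contra h8
        have h9 : κ - 2 * e = 0 := by omega
        rw [h9, pow_zero] at h7
        exact one_ne_zero h7
    · have h6 := h4 l hl
      simpa [hz, hl] using h6

end charts

/-- **The chain of blowups resolves the node.** -/
theorem node_reg {R ι : Type} [CommRing R] [IsDomain R] [IsDiscreteValuationRing R] [Fintype ι]
    [DecidableEq ι] (π : R) (hπ : Irreducible π) (G : MvPolynomial ι R) (s : ι)
    (hne : ∃ i, i ≠ s) (d κ e : ℕ) (hd : 2 ≤ d) (hκ1 : 1 ≤ κ) (hκe : 2 * e ≤ κ)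
    (hκe' : κ ≤ 2 * e + 1) (hGd : G.IsHomogeneous d)
    (ε : (ι →₀ ℕ) → R) (v : (ι →₀ ℕ) → ℕ) (hco : ∀ a ∈ G.support, G.coeff a = ε a * π ^ v a)
    (hv0 : ∀ a, a s = d → v a = κ) (hv1 : ∀ a, a s + 1 = d → v a = e + 1)
    (hv2 : ∀ a, a s + 2 ≤ d → v a = 0) (hs : Finsupp.single s d ∈ G.support)
    (h2 : IsUnit (2 : R)) (hu : IsUnit (ε (Finsupp.single s d)))
    (honly : ∀ (k : Type) [Field k] (ψ : R →+* k), RingHom.ker ψ = IsLocalRing.maximalIdeal R →
      ∀ x : ι → k, eval x (map ψ G) = 0 → (∀ i, eval x (pderiv i (map ψ G)) = 0) →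
        ∀ t, t ≠ s → x t = 0)
    (hnd : ∀ (k : Type) [Field k] (ψ : R →+* k), RingHom.ker ψ = IsLocalRing.maximalIdeal R →
      ∀ y : ι → k, y s = 0 → (∀ i, i ≠ s → ∑ j, eval (Pi.single s 1)
        (pderiv i (pderiv j (map ψ G))) * y j = 0) → y = 0) :
    REG π G.support ε v (Fan.node s e hne) (nM s e d) := by
  classical
  intro t A _ pq hpq hker q _ hqC
  by_contra hreg
  have hG : ∀ a ∈ G.support, ∑ i, a i = d := sum_of_homog G d hGd
  let Ψ : MvPolynomial {l // l ∈ (Fan.node s e hne).S t} R →+* q.ResidueField :=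
    (algebraMap A q.ResidueField).comp pq
  have hΨ : ∀ w, Ψ w = 0 ↔ pq w ∈ q := fun w => Ideal.algebraMap_residueField_eq_zero
  let ψ : R →+* q.ResidueField := Ψ.comp C
  have hψC : ∀ r, ψ r = Ψ (C r) := fun r => rfl
  have hψker : RingHom.ker ψ = IsLocalRing.maximalIdeal R := by
    ext r
    rw [RingHom.mem_ker, hψC, hΨ, hqC]
    exact (IsLocalRing.mem_maximalIdeal r).symm
  have hunit : ∀ r, IsUnit r → ψ r ≠ 0 := fun r hr h => by
    rw [hψC, hΨ, hqC] at h
    exact h hr
  have hψπ : ψ π = 0 := by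
    rw [hψC, hΨ, hqC]
    exact hπ.not_isUnit
  let y : ι ⊕ Fin (e + 1) → q.ResidueField := fun l =>
    if h : l ∈ (Fan.node s e hne).S t then Ψ (X ⟨l, h⟩) else 0
  have hy : ∀ (l : ι ⊕ Fin (e + 1)) (h : l ∈ (Fan.node s e hne).S t), y l = Ψ (X ⟨l, h⟩) := by
    intro l h
    simp only [y, dif_pos h]
  have hmem : ∀ l : ι ⊕ Fin (e + 1), l ∈ (Fan.node s e hne).S t ↔ nB s e t l = true := fun l =>
    mem_filter_nB
  have hexi : ∀ (l : ι) (h : (Sum.inl l : ι ⊕ Fin (e + 1)) ∈ (Fan.node s e hne).S t),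
      exm (Fan.node s e hne) t (0, 1) ⟨.inl l, h⟩ = 0 := by
    intro l h
    change (pr (nR s e (.inl l)) (0, 1)).toNat = 0
    rw [pr_inl]
    rfl
  have hexr : ∀ (j : Fin (e + 1)) (h : (Sum.inr j : ι ⊕ Fin (e + 1)) ∈ (Fan.node s e hne).S t),
      exm (Fan.node s e hne) t (0, 1) ⟨.inr j, h⟩ = 1 := by
    intro j h
    change (pr (nR s e (.inr j)) (0, 1)).toNat = 1
    rw [pr_inr]
    simp [deg]
  have key : ∀ j : Fin (e + 1), nB s e t (.inr j) = true → y (.inr j) = 0 →
      ∀ η : ι ⊕ Fin (e + 1) → q.ResidueField, η (.inr j) = 0 →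
      SS G s hne d e ε v ψ t y η = 0 := by
    intro j hj hyj η hη
    exact lift_zero π hπ G.support ε v (Fan.node s e hne) (nM s e d t) t pq hpq hker q hreg Ψ hΨ
      y hy (.inr j) ((hmem _).2 hj) (by rw [hexr]) hyj η hη
  obtain ⟨j', hj', hyj'⟩ : ∃ j, nB s e t (.inr j) = true ∧ y (.inr j) = 0 := by
    have h3 : Ψ (∏ l, X l ^ exm (Fan.node s e hne) t (0, 1) l) = 0 := by
      have h4 : pq (C π - ∏ l, X l ^ exm (Fan.node s e hne) t (0, 1) l) = 0 := by
        rw [← RingHom.mem_ker, hker]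
        exact Ideal.subset_span (by simp)
      have h5 : Ψ (C π - ∏ l, X l ^ exm (Fan.node s e hne) t (0, 1) l) = 0 :=
        (hΨ _).2 (by rw [h4]; exact q.zero_mem)
      rw [map_sub, ← hψC, hψπ, zero_sub, neg_eq_zero] at h5
      exact h5
    rw [map_prod] at h3
    obtain ⟨⟨l, hl⟩, _, h4⟩ := Finset.prod_eq_zero_iff.1 h3
    rw [map_pow] at h4
    rcases l with l | j
    · rw [hexi, pow_zero] at h4
      exact absurd h4 one_ne_zero
    · rw [hexr, pow_one] at h4
      exact ⟨j, (hmem _).1 hl, by rw [hy _ hl]; exact h4⟩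
  have honly' := honly q.ResidueField ψ hψker
  have hnd' := hnd q.ResidueField ψ hψker
  rcases t with t | ⟨j, i⟩ | u
  · have h0 : j' = 0 := by simpa [nB] using hj'
    subst h0
    exact chart_T1 π G s hne d e hGd hG ε v hco ψ hψπ honly' y t hyj' (key 0 hj' hyj')
  · have h0 : j' = j.castSucc ∨ j' = j.succ := by simpa [nB] using hj'
    refine chart_mid π G s hne d κ e hκ1 hκe hGd hG ε v hco hv0 hv1 hv2 hs ψ hψπ honly' hnd'
      (hunit _ h2) (hunit _ hu) y j i ?_ (key j.castSucc (by simp [nB]))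
      (key j.succ (by simp [nB]))
    rcases h0 with rfl | rfl
    · exact Or.inl hyj'
    · exact Or.inr hyj'
  · have h0 : j' = Fin.last e := by simpa [nB] using hj'
    subst h0
    obtain ⟨hκ, hyl⟩ := chart_fin π G s hne d κ e hκ1 hκe hκe' hGd hG ε v hco hv0 hv1 hv2 hs ψ hψπ
      honly' hnd' (hunit _ hu) y u hyj' (key _ hj' hyj')
    have hl₁ : (Sum.inr (Fin.last e) : ι ⊕ Fin (e + 1)) ∈
        (Fan.node s e hne).S (.inr (.inr u)) := (hmem _).2 hj'
    apply hreg
    refine reg_V π hπ pq hpq _ _ hker q ⟨.inr (Fin.last e), hl₁⟩ ?_ ?_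
      (ε (Finsupp.single s d)) (fun h => (hqC _).1 h hu) ?_
    · rintro ⟨l, hl⟩
      rcases l with l | j
      · rw [hexi, if_neg]
        intro h
        have := congrArg Subtype.val h
        simp at this
      · have h1 : j = Fin.last e := by
          have := (hmem _).1 hl
          simpa [nB] using this
        subst h1
        rw [hexr, if_pos rfl]
    · rintro ⟨l, hl⟩
      rw [← hΨ, ← hy l hl]
      rcases l with l | j
      · have h1 : l ≠ s := by
          have := (hmem _).1 hl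
          simpa [nB] using this
        exact hyl l h1
      · have h1 : j = Fin.last e := by
          have := (hmem _).1 hl
          simpa [nB] using this
        subst h1
        exact hyj'
    · -- the terms of the strict transform
      have hcx : ∀ a ∈ G.support, ∀ (l : ι) (h : (Sum.inl l : ι ⊕ Fin (e + 1)) ∈
          (Fan.node s e hne).S (.inr (.inr u))),
          cx2 (Fan.node s e hne) (.inr (.inr u)) v (nM s e d (.inr (.inr u))) a ⟨.inl l, h⟩ =
            a l := by
        intro a ha l h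
        have h1 : l ≠ s := by
          have := (hmem _).1 h
          simpa [nB] using this
        change (pr (nR s e (.inl l)) (μ v a - nM s e d (.inr (.inr u)))).toNat = a l
        rw [pr_inl]
        simp [μ, nM, h1]
      have hcx' : ∀ a ∈ G.support, 
          cx2 (Fan.node s e hne) (.inr (.inr u)) v (nM s e d (.inr (.inr u))) a
            ⟨.inr (Fin.last e), hl₁⟩ = ((e : ℤ) * ((d : ℤ) - a s) + v a - 2 * e).toNat := by
        intro a ha
        change (pr (nR s e (.inr (Fin.last e))) (μ v a - nM s e d (.inr (.inr u)))).toNat = _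
        rw [pr_inr, deg_sub_nM s e v a d (hG a ha)]
        congr 1
        simp only [μ, nM, Prod.fst_sub, Pi.sub_apply, Pi.single_eq_same, Prod.snd_sub,
          Fin.val_last]
        ring
      have hsumcx : ∀ a ∈ G.support, ∑ l, cx2 (Fan.node s e hne) (.inr (.inr u)) v
          (nM s e d (.inr (.inr u))) a l =
          (d - a s) + ((e : ℤ) * ((d : ℤ) - a s) + v a - 2 * e).toNat := by
        intro a ha
        let f : ι ⊕ Fin (e + 1) → ℕ := fun l =>
          (pr (nR s e l) (μ v a - nM s e d (.inr (.inr u)))).toNat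
        have h1 : ∑ l, cx2 (Fan.node s e hne) (.inr (.inr u)) v
            (nM s e d (.inr (.inr u))) a l =
            ∑ l ∈ Finset.univ.filter (fun l => nB s e (.inr (.inr u)) l = true), f l :=
          Finset.sum_coe_sort _ f
        rw [h1, Finset.sum_filter, Fintype.sum_sum_type]
        congr 1
        · have h2 := Finset.sum_erase_add Finset.univ (fun i => a i) (Finset.mem_univ s)
          have h3 := hG a ha
          have h4 : ∑ l ∈ Finset.univ.erase s, a l = d - a s := by omega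
          rw [← h4, ← Finset.sum_erase Finset.univ (a := s)]
          · refine Finset.sum_congr rfl fun l hl => ?_
            have h5 := Finset.ne_of_mem_erase hl
            rw [if_pos (by simp [nB, h5])]
            simp only [f]
            rw [pr_inl]
            simp [μ, nM, h5]
          · rw [if_neg (by simp [nB])]
        · rw [Finset.sum_eq_single (Fin.last e)]
          · rw [if_pos (by simp [nB]), ← hcx' a ha]
            rfl
          · intro j _ hj
            rw [if_neg (by simp [nB, hj])]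
          · simp
      change (∑ a ∈ G.support, C (ε a) * xm R (cx2 (Fan.node s e hne) (.inr (.inr u)) v
        (nM s e d (.inr (.inr u))) a)) - _ ∈ _
      rw [← Finset.add_sum_erase _ _ hs]
      have hvs : v (Finsupp.single s d) = 2 * e + 1 := by
        rw [hv0 _ (Finsupp.single_eq_same), hκ]
      have h3 : xm R (cx2 (Fan.node s e hne) (.inr (.inr u)) v (nM s e d (.inr (.inr u)))
          (Finsupp.single s d)) = (X ⟨.inr (Fin.last e), hl₁⟩ :
            MvPolynomial {l // l ∈ (Fan.node s e hne).S (.inr (.inr u))} R) := by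
        rw [← xm_single]
        congr 1
        funext l
        obtain ⟨l, hl⟩ := l
        rcases l with l | j
        · rw [hcx _ hs, Pi.single_eq_of_ne]
          · have h1 : l ≠ s := by
              have := (hmem _).1 hl
              simpa [nB] using this
            exact Finsupp.single_eq_of_ne h1
          · intro h
            have := congrArg Subtype.val h
            simp at this
        · have h1 : j = Fin.last e := by
            have := (hmem _).1 hl
            simpa [nB] using this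
          subst h1
          rw [hcx' _ hs, Pi.single_eq_same, Finsupp.single_eq_same, hvs, sub_self, mul_zero]
          push_cast
          omega
      rw [h3, add_sub_cancel_left]
      refine Submodule.sum_mem _ fun a ha => Ideal.mul_mem_left _ _ ?_
      have haG := Finset.mem_of_mem_erase ha
      have hane := Finset.ne_of_mem_erase ha
      refine Ideal.pow_le_pow_right ?_ (xm_mem _)
      rw [hsumcx a haG]
      have hle := le_of_sum a d (hG a haG) s
      have h4 : a s ≠ d := fun h => hane (single_of a d (hG a haG) s h)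
      by_cases h5 : a s + 1 = d
      · rw [hv1 a h5]
        have h6 : (d : ℤ) - (a s : ℤ) = 1 := by omega
        rw [h6]
        push_cast
        omega
      · omega

end Pool.Agent.K9h37.PP
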