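import Pool.Agent.K9h37.PP.Stm

/-! Project PP, second part (helper37, MP_602153_ag): the density of the forms which are regular or
nodal at all primes is the product of the local densities. -/

set_option autoImplicit false

namespace Pool.Agent.K9h37.PP

open MvPolynomial

/-- The local condition at the prime number `p`: the form is regular at `p`, or `p` is odd and
modulo `p` there is at most one singular point, and it is nondegenerate. -/
def LocalGood (p : ℕ) {m d : ℕ} (a : Mon m d → ℤ) : Prop :=
  IsRegularAt (Ideal.span {(p : ℤ)}) (form a) ∨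
  (p ≠ 2 ∧ ∀ (k : Type) [Field k] [CharP k p], ¬ Bad (form (fun α => (a α : k))))

open Classical in
/-- The local density at `p`: the proportion of the residue classes modulo `p ^ 2` satisfying the
local condition. -/
noncomputable def locDens (m d p : ℕ) : ℝ :=
  (((Fintype.piFinset fun _ : Mon m d => Finset.Ico (0 : ℤ) ((p : ℤ) ^ 2)).filter
    (fun a => LocalGood p a)).card : ℝ) / ((p : ℝ) ^ 2) ^ Fintype.card (Mon m d)

/-- LOC: the local condition depends only on the class modulo `p ^ 2`. -/
def LOC : Prop :=
  ∀ (m d p : ℕ), p.Prime → ∀ a b : Mon m d → ℤ, (∀ α, (p : ℤ) ^ 2 ∣ a α - b α) →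
    LocalGood p a → LocalGood p b

/-- GOOD2: the local conditions and smoothness give a good form. -/
def GOOD2 : Prop :=
  ∀ (m d : ℕ), 3 ≤ m → 3 ≤ d → ∀ a : Mon m d → ℤ, IsSmooth (form (fun α => (a α : ℚ))) →
    (∀ p : ℕ, p.Prime → LocalGood p a) → Good d (form a)

open Classical in
/-- TAIL: the forms which violate the local condition at some large prime are rare. -/
def TAIL : Prop :=
  ∀ (m d : ℕ), 3 ≤ m → 3 ≤ d → ∃ (C : ℝ) (M₀ : ℕ), 0 < M₀ ∧ ∀ M : ℕ, M₀ ≤ M →
    ∀ᶠ B : ℕ in Filter.atTop,
      (((box (Mon m d) B).filter (fun a => ∃ p : ℕ, p.Prime ∧ M < p ∧ ¬ LocalGood p a)).card : ℝ) ≤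
        C / M * ((box (Mon m d) B).card : ℝ)

open Classical in
/-- CRT: the density of the forms satisfying the local conditions at the primes up to `M`. (Stated
for arbitrary conditions `L p` which depend only on the class modulo `p ^ 2`.) -/
def CRT : Prop :=
  ∀ (V : Type) [Fintype V] [DecidableEq V] (L : ℕ → (V → ℤ) → Prop),
    (∀ p : ℕ, p.Prime → ∀ a b : V → ℤ, (∀ v, (p : ℤ) ^ 2 ∣ a v - b v) → L p a → L p b) →
    ∀ M : ℕ, Filter.Tendsto (fun B : ℕ =>
      (((box V B).filter (fun a => ∀ p : ℕ, p.Prime → p ≤ M → L p a)).card : ℝ) /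
        ((box V B).card : ℝ)) Filter.atTop
      (nhds (∏ p ∈ (Finset.range (M + 1)).filter Nat.Prime,
        (((Fintype.piFinset fun _ : V => Finset.Ico (0 : ℤ) ((p : ℤ) ^ 2)).filter
          (fun a => L p a)).card : ℝ) / ((p : ℝ) ^ 2) ^ Fintype.card V))

open Classical in
/-- SMO: almost all forms are smooth over the rational numbers. -/
def SMO : Prop :=
  ∀ (m d : ℕ), 3 ≤ m → 3 ≤ d → Filter.Tendsto (fun B : ℕ =>
    (((box (Mon m d) B).filter (fun a => ¬ IsSmooth (form (fun α => (a α : ℚ))))).card : ℝ) /
      ((box (Mon m d) B).card : ℝ)) Filter.atTop (nhds 0)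

open Classical in
/-- DENS: the final statement. -/
def DENS : Prop :=
  ∀ (m d : ℕ), 3 ≤ m → 3 ≤ d → ∃ δ : ℝ, 0 < δ ∧
    Filter.Tendsto (fun M : ℕ => ∏ p ∈ (Finset.range (M + 1)).filter Nat.Prime, locDens m d p)
      Filter.atTop (nhds δ) ∧
    Filter.Tendsto (fun B : ℕ =>
      (((box (Mon m d) B).filter (fun a => IsSmooth (form (fun α => (a α : ℚ))) ∧
        ∀ p : ℕ, p.Prime → LocalGood p a)).card : ℝ) / ((box (Mon m d) B).card : ℝ))
      Filter.atTop (nhds δ)

/-- ASM2: the assembly. -/
def ASM2 : Prop := TAIL → CRT → SMO → LOC → DENS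

/-!
PROOFS.

LOC. Regularity: `reg_congr` (Asm2). `¬ Bad`: `a ≡ b` modulo `p`, so the forms over `k` are equal.

GOOD2. As in `good_of` (Asm): `P = (p)`; if `LocalGood` holds by regularity, nothing to do;
otherwise `p` is odd, not bad over the fields `k` with `ψ : ℤ → k`, `ker ψ = (p)`; if there is no
singular vector, `reg_of_smooth`; otherwise `hensel`.

TAIL. Let `p > max(M, 2, CODIM's bound)` and `¬ LocalGood p a`; then the form is bad over some field
of characteristic `p` (second alternative), so `codim` gives `P ∈ s` with `Hit P p a`; apply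
`sieve` with `Q = 1`, `r = 0`; `B ^ N ≤ (2B+1)^N = card (box B)`.

CRT. Induction on `M` or Chinese remainder theorem modulo `Q = ∏_{p ≤ M} p^2`: the condition is
periodic modulo `Q`; the number of classes modulo `Q` is the product of the local numbers
(`Fintype.piFinset`, `ZMod.chineseRemainder`, or the following elementary induction: if `L` is
`Q₁`-periodic with `c₁` classes and `L'` is `Q₂`-periodic with `c₂` classes and `Q₁, Q₂` are coprime
then `L ∧ L'` is `Q₁Q₂`-periodic with `c₁ c₂` classes); the proportion of a `Q`-periodic set with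
`c` classes in the box tends to `c / Q^N` (each class has `∏_v ((2B+1)/Q + O(1))` points).

SMO. There is a nonzero `G ∈ ℤ[a]` which vanishes at all forms which are not smooth over `ℚ`: such a
form has a singular vector `x ≠ 0` over the algebraic closure (Nullstellensatz), scaled to
`x_i = 1`; as in CODIM (Codim.lean, CodA.lean: parametrisation by the remaining coefficients of
`F ∘ T` and the free entries of `T`, `T` = identity with column `i` replaced by `x`) these forms
depend on `N - m + (m - 1) = N - 1` parameters, so the coefficients are algebraically dependent, one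
`G_i` for each `i`; take the product. Then the number of zeros of `G` in the box is `O(B^(N-1))`
(Schwartz-Zippel over `ℤ`, as in Sieve.lean).
(Alternative without Nullstellensatz: if `IsSmooth` fails, the ideal of the partials has a zero
`≠ 0` over an algebraically closed field: the homogeneous Nullstellensatz is
`MvPolynomial.vanishingIdeal_zeroLocus_eq_radical`.)

ASM2. `f(M) = ∏_{p ≤ M} locDens p` is antitone (factors in `[0,1]`) and nonnegative, so it converges
to some `δ ≥ 0`. With `A_M` = forms with the local conditions at `p ≤ M`, `A` = the set of the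
theorem: `A ⊆ A_M ⊆ A ∪ {violating at some p > M} ∪ {not smooth}`. So
`limsup |A|/|box| ≤ f(M)`, `liminf |A|/|box| ≥ f(M) - C/M`; let `M → ∞`. Positivity: `prop_of`
(Asm) with `Good' = (smooth ∧ all LocalGood)` and the class of `a₀` modulo `(M!)^2`, exactly as in
`asm` (there `Good'` was `Good d (form a)`); the limit is `≥` that lower bound. (In ASM2 you may
also use the theorems `codim`, `sieve`, `base`, `hensel` and their files directly.)
-/

end Pool.Agent.K9h37.PP
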