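import Pool.Agent.K9h37.PP.Codim
import Pool.Agent.K9h37.PP.Sieve
import Pool.Agent.K9h37.PP.Stm2

/-! SMO: almost all forms are smooth over the rational numbers (helper37; the parametrisation is the
one of helper96's CodA, CodB, the counting is helper66's Sieve). -/

set_option autoImplicit false

namespace Pool.Agent.K9h37.PP

open MvPolynomial

theorem exists_one_aux {V W A : Type} [Fintype V] [Fintype W]
    (h : Fintype.card W < Fintype.card V) (Δ : MvPolynomial W ℤ) (hΔ : Δ ≠ 0)
    (Φ : V → MvPolynomial W ℤ) (D : ℕ) [CommRing A] [Algebra (MvPolynomial W ℤ) A]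
    [IsLocalization.Away Δ A] :
    ∃ G : MvPolynomial V ℤ, G ≠ 0 ∧ ∀ (k : Type) [Field k] (θ : W → k) (a : V → ℤ),
      aeval θ Δ ≠ 0 → (∀ v, aeval θ (Φ v) = (a v : k) * (aeval θ Δ) ^ D) →
        ((eval a G : ℤ) : k) = 0 := by
  classical
  have hM : Submonoid.powers Δ ≤ nonZeroDivisors (MvPolynomial W ℤ) :=
    powers_le_nonZeroDivisors_of_noZeroDivisors hΔ
  have : IsDomain A := IsLocalization.isDomain_of_le_nonZeroDivisors _ hM
  have : FaithfulSMul (MvPolynomial W ℤ) A := by
    rw [faithfulSMul_iff_algebraMap_injective]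
    exact IsLocalization.injective A hM
  have : Algebra.IsAlgebraic (MvPolynomial W ℤ) A :=
    IsLocalization.isAlgebraic A (Submonoid.powers Δ)
  let e : V → A := fun v => IsLocalization.mk' A (Φ v) (⟨Δ ^ D, D, rfl⟩ : Submonoid.powers Δ)
  obtain ⟨G, hG0, hG⟩ := exists_rel (W := W) h e
  refine ⟨G, hG0, ?_⟩
  intro k _ θ a hΔk hΦ
  have hu : IsUnit ((aeval θ : MvPolynomial W ℤ →ₐ[ℤ] k).toRingHom Δ) :=
    isUnit_iff_ne_zero.mpr hΔk
  let ψ : A →+* k := IsLocalization.Away.lift Δ hu
  have hψ0 : ∀ f, ψ (algebraMap _ A f) = aeval θ f := fun f => IsLocalization.Away.lift_eq Δ hu f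
  have hψ : ∀ v, ψ (e v) = (a v : k) := by
    intro v
    have h1 : ψ (e v) * (aeval θ Δ) ^ D = aeval θ (Φ v) := by
      rw [← map_pow, ← hψ0, ← hψ0, ← map_mul]
      congr 1
      exact IsLocalization.mk'_spec A (Φ v) (⟨Δ ^ D, D, rfl⟩ : Submonoid.powers Δ)
    rw [hΦ v] at h1
    exact mul_right_cancel₀ (pow_ne_zero _ hΔk) h1
  rw [← aeval_field]
  have h1 := comp_aeval_apply (R := ℤ) e (ψ.toIntAlgHom) G
  rw [hG, map_zero] at h1
  have h2 : (fun v => ψ.toIntAlgHom (e v)) = fun v => (a v : k) := by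
    funext v
    exact hψ v
  rw [h2] at h1
  exact h1.symm

theorem exists_one_sub {m d : ℕ} (Z : Finset (Mon m d)) (E : Finset (Fin m × Fin m))
    (hEZ : E.card < Z.card) :
    ∃ G : MvPolynomial (Mon m d) ℤ, G ≠ 0 ∧ ∀ (k : Type) [Field k] (a : Mon m d → ℤ)
      (T : Matrix (Fin m) (Fin m) k), T.det ≠ 0 →
      (∀ r c, (r, c) ∉ E → T r c = (1 : Matrix (Fin m) (Fin m) k) r c) →
      (∀ α ∈ Z, (sub T (form fun α => (a α : k))).coeff α.1 = 0) →
        ((eval a G : ℤ) : k) = 0 := by
  classical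
  obtain ⟨G, hG0, hP⟩ := exists_one_aux (A := Localization.Away (genT Z E).det)
    (V := Mon m d) (W := Par m d Z E) (by
    rw [Fintype.card_sum, Fintype.card_coe]
    have h1 : Fintype.card {α : Mon m d // α ∉ Z} =
        Fintype.card (Mon m d) - Fintype.card {α : Mon m d // α ∈ Z} :=
      Fintype.card_subtype_compl (fun α : Mon m d => α ∈ Z)
    have h2 : Z.card ≤ Fintype.card (Mon m d) := Finset.card_le_univ Z
    have h3 : Fintype.card {α : Mon m d // α ∈ Z} = Z.card := Fintype.card_coe Z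
    omega) (genT Z E).det (genT_det_ne_zero Z E)
    (fun α => (sub (genT Z E).adjugate (genH Z E)).coeff α.1) d
  refine ⟨G, hG0, fun k _ a T hT hE hZ => ?_⟩
  have hF := form_isHomogeneous (fun α : Mon m d => (a α : k))
  have hH := sub_isHomogeneous hF T
  let θ : Par m d Z E → k := Sum.elim
    (fun α => (sub T (form fun α : Mon m d => (a α : k))).coeff α.1.1)
    (fun rc => T rc.1.1 rc.1.2)
  have h1 : (genT Z E).map (aeval θ : _ →ₐ[ℤ] k) = T := genT_map Z E θ T (fun rc => rfl) hE
  have h2 : map ((aeval θ : _ →ₐ[ℤ] k) : _ →+* k) (genH Z E) =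
      sub T (form fun α : Mon m d => (a α : k)) := by
    rw [genH, map_form, ← form_coeff hH]
    congr 1
    funext α
    split_ifs with h
    · rw [map_zero, hZ α h]
    · simp [θ]
  have h3 : aeval θ (genT Z E).det = T.det := by
    rw [AlgHom.map_det]
    congr 1
  refine hP k θ a ?_ fun α => ?_
  · rw [h3]; exact hT
  · rw [h3]
    have h4 : aeval θ ((sub (genT Z E).adjugate (genH Z E)).coeff α.1) =
        (map ((aeval θ : _ →ₐ[ℤ] k) : _ →+* k)
          (sub (genT Z E).adjugate (genH Z E))).coeff α.1 := by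
      rw [coeff_map]; rfl
    have h5 : (genT Z E).adjugate.map ((aeval θ : _ →ₐ[ℤ] k) : _ →+* k) = T.adjugate := by
      rw [← h1]
      exact AlgHom.map_adjugate (aeval θ : _ →ₐ[ℤ] k) (genT Z E)
    rw [h4, map_sub, h2, h5, sub_sub, Matrix.mul_adjugate, sub_smul_one hF, coeff_C_mul,
      coeff_form, mul_comm]

/-- Forms with a singular vector `x`, `x i ≠ 0`, in characteristic zero: one relation. -/
theorem exists_one_sing {m n : ℕ} (hm : 2 ≤ m) (i : Fin m) :
    ∃ G : MvPolynomial (Mon m (n + 1)) ℤ, G ≠ 0 ∧ ∀ (k : Type) [Field k] (a : Mon m (n + 1) → ℤ)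
      (x : Fin m → k), x i ≠ 0 → Sing (form fun α => (a α : k)) x → ((eval a G : ℤ) : k) = 0 := by
  classical
  have hinj : Function.Injective (fun l : Fin m => (⟨Finsupp.single i n + Finsupp.single l 1,
      mem_mon (by rw [map_add, Finsupp.degree_single, Finsupp.degree_single])⟩ :
        Mon m (n + 1))) := by
    intro l l' h
    exact single_inj (add_left_cancel (congrArg Subtype.val h))
  have hcE : ((Finset.univ.erase i).image (fun r => (r, i)) : Finset (Fin m × Fin m)).card <
      (Finset.univ.map ⟨_, hinj⟩).card := by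
    rw [Finset.card_map, Finset.card_univ, Fintype.card_fin]
    refine lt_of_le_of_lt Finset.card_image_le ?_
    rw [Finset.card_erase_of_mem (Finset.mem_univ i), Finset.card_univ, Fintype.card_fin]
    omega
  obtain ⟨G, hG0, hG⟩ := exists_one_sub _ _ hcE
  refine ⟨G, hG0, ?_⟩
  intro k _ a x hxi hx
  obtain ⟨j, hji⟩ : ∃ j : Fin m, i ≠ j := by
    have : Nontrivial (Fin m) := Fin.nontrivial_iff_two_le.2 hm
    obtain ⟨j, hj⟩ := exists_ne i
    exact ⟨j, hj.symm⟩
  have hF := form_isHomogeneous (fun α : Mon m (n + 1) => (a α : k))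
  have hx' := hx.smul hF (x i)⁻¹
  set x' : Fin m → k := fun v => (x i)⁻¹ * x v with hx'def
  have hx'i : x' i = 1 := inv_mul_cancel₀ hxi
  refine hG k a (colT i j x' (Pi.single j 1)) ?_ ?_ ?_
  · apply colT_det hji
    rw [hx'i, Pi.single_eq_same, Pi.single_eq_of_ne hji, mul_zero, sub_zero, mul_one]
    exact one_ne_zero
  · intro r c h
    rw [colT, Matrix.of_apply]
    split_ifs with h1 h2
    · have h3 : r = i := by
        by_contra h4
        exact h (Finset.mem_image.mpr
          ⟨r, Finset.mem_erase.mpr ⟨h4, Finset.mem_univ r⟩, by rw [h1]⟩)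
      rw [h3, hx'i, h1, Matrix.one_apply_eq]
    · rw [h2]
      by_cases h3 : r = j
      · rw [h3, Pi.single_eq_same, Matrix.one_apply_eq]
      · rw [Pi.single_eq_of_ne h3, Matrix.one_apply_ne h3]
    · rfl
  · intro α hα
    rw [Finset.mem_map] at hα
    obtain ⟨l, -, rfl⟩ := hα
    exact Sing.coeff_sub hF (colT_vertex_left hji _ _) hx' l

/-- A form over `ℚ` which is not smooth has a singular vector over some extension field. -/
theorem exists_sing_of_not_smooth {m n : ℕ} (a : Mon m (n + 1) → ℤ)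
    (h : ¬ IsSmooth (form (fun α => (a α : ℚ)))) :
    ∃ (i : Fin m) (k : Type) (_ : Field k) (_ : CharZero k) (x : Fin m → k), x i ≠ 0 ∧
      Sing (form fun α => (a α : k)) x := by
  unfold IsSmooth at h
  push Not at h
  obtain ⟨i, hi⟩ := h
  set I : Ideal (MvPolynomial (Fin m) ℚ) :=
    Ideal.span (Set.range fun j => pderiv j (form (fun α => (a α : ℚ)))) with hI
  rw [Ideal.radical_eq_sInf, Ideal.mem_sInf] at hi
  push Not at hi
  obtain ⟨P, ⟨hIP, hP⟩, hiP⟩ := hi
  have hPr : P.IsPrime := hP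
  let A := MvPolynomial (Fin m) ℚ ⧸ P
  let k := FractionRing A
  have hchar : CharZero k := algebraRat.charZero k
  let φ : MvPolynomial (Fin m) ℚ →+* k := (algebraMap A k).comp (Ideal.Quotient.mk P)
  have hφ0 : ∀ f, φ f = 0 ↔ f ∈ P := by
    intro f
    change algebraMap A k (Ideal.Quotient.mk P f) = 0 ↔ f ∈ P
    rw [map_eq_zero_iff _ (IsFractionRing.injective A k), Ideal.Quotient.eq_zero_iff_mem]
  let x : Fin m → k := fun j => φ (X j)
  have hev : ∀ f : MvPolynomial (Fin m) ℚ, eval x (map (algebraMap ℚ k) f) = φ f := by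
    intro f
    rw [eval_map]
    have : (eval₂Hom (algebraMap ℚ k) x) = φ := by
      apply MvPolynomial.ringHom_ext
      · intro r
        rw [eval₂Hom_C]
        exact congrFun (congrArg DFunLike.coe
          (Subsingleton.elim (algebraMap ℚ k) (φ.comp C))) r
      · intro j
        rw [eval₂Hom_X']
    rw [← this]
    rfl
  have hform : (form fun α => (a α : k)) = map (algebraMap ℚ k) (form (fun α => (a α : ℚ))) := by
    rw [map_form]
    congr 1
    funext α
    simp
  refine ⟨i, k, inferInstance, hchar, x, ?_, ?_⟩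
  · rw [Ne, hφ0]
    exact hiP
  · have hpd : ∀ j, eval x (pderiv j (form fun α => (a α : k))) = 0 := by
      intro j
      rw [hform, pderiv_map, hev, hφ0]
      exact hIP (Ideal.subset_span ⟨j, rfl⟩)
    refine ⟨?_, hpd⟩
    have hF := form_isHomogeneous (fun α : Mon m (n + 1) => (a α : k))
    have h1 := congrArg (eval x) hF.sum_X_mul_pderiv
    rw [map_sum, map_nsmul] at h1
    have h2 : ∑ j, eval x (X j * pderiv j (form fun α : Mon m (n + 1) => (a α : k))) = 0 :=
      Finset.sum_eq_zero fun j _ => by rw [map_mul, hpd j, mul_zero]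
    rw [h2, nsmul_eq_mul] at h1
    exact (mul_eq_zero.1 h1.symm).resolve_left (Nat.cast_ne_zero.2 (Nat.succ_ne_zero n))

theorem smo : SMO := by
  classical
  intro m d hm hd
  obtain ⟨n, rfl⟩ : ∃ n, d = n + 1 := ⟨d - 1, by omega⟩
  choose G hG0 hG using fun i : Fin m => exists_one_sing (n := n) (by omega : 2 ≤ m) i
  set H : MvPolynomial (Mon m (n + 1)) ℤ := ∏ i, G i with hH
  have hH0 : H ≠ 0 := Finset.prod_ne_zero_iff.2 fun i _ => hG0 i
  have hzero : ∀ a : Mon m (n + 1) → ℤ, ¬ IsSmooth (form (fun α => (a α : ℚ))) →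
      eval a H = 0 := by
    intro a ha
    obtain ⟨i, k, _, _, x, hxi, hx⟩ := exists_sing_of_not_smooth a ha
    have h1 := hG i k a x hxi hx
    rw [Int.cast_eq_zero] at h1
    rw [hH, map_prod]
    exact Finset.prod_eq_zero (Finset.mem_univ i) h1
  set D : ℕ := H.totalDegree with hD
  have hbound : ∀ B : ℕ, (((box (Mon m (n + 1)) B).filter
      (fun a => ¬ IsSmooth (form (fun α => (a α : ℚ))))).card : ℝ) /
      ((box (Mon m (n + 1)) B).card : ℝ) ≤ (D : ℝ) / (2 * B + 1) := by
    intro B
    have hS : (Finset.Icc (-(B : ℤ)) B).card = 2 * B + 1 := by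
      rw [Int.card_Icc]; omega
    have h1 := Sv.sz H hH0 (Finset.Icc (-(B : ℤ)) B)
    rw [hS] at h1
    have h2 : ((box (Mon m (n + 1)) B).filter
        (fun a => ¬ IsSmooth (form (fun α => (a α : ℚ))))).card ≤
        ((Fintype.piFinset fun _ : Mon m (n + 1) => Finset.Icc (-(B : ℤ)) B).filter
          (fun a => eval a H = 0)).card := by
      refine Finset.card_le_card ?_
      intro a ha
      obtain ⟨ha1, ha2⟩ := Finset.mem_filter.1 ha
      exact Finset.mem_filter.2 ⟨ha1, hzero a ha2⟩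
    have h3 : (box (Mon m (n + 1)) B).card = (2 * B + 1) ^ Fintype.card (Mon m (n + 1)) := by
      rw [box, Fintype.card_piFinset]
      simp only [hS, Finset.prod_const, Finset.card_univ]
    rw [h3]
    have h4 := (Nat.mul_le_mul_right (2 * B + 1) h2).trans h1
    have h5 : (((box (Mon m (n + 1)) B).filter
        (fun a => ¬ IsSmooth (form (fun α => (a α : ℚ))))).card : ℝ) * (2 * B + 1) ≤
        (D : ℝ) * (2 * B + 1) ^ Fintype.card (Mon m (n + 1)) := by exact_mod_cast h4
    rw [div_le_div_iff₀ (by positivity) (by positivity)]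
    push_cast
    exact h5
  refine squeeze_zero (fun B => by positivity) hbound ?_
  have h6 : Filter.Tendsto (fun B : ℕ => (2 * (B : ℝ) + 1)) Filter.atTop Filter.atTop := by
    refine Filter.tendsto_atTop_add_const_right _ _ ?_
    exact Filter.Tendsto.const_mul_atTop (by norm_num) tendsto_natCast_atTop_atTop
  exact Filter.Tendsto.const_div_atTop h6 _

end Pool.Agent.K9h37.PP
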